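import Pool.Agent.Lib_helper76.IcoGauge

/-!
The volume in the linear coordinates.
-/

open Matrix

namespace Pool.Agent.Lib_helper76.Ico

/-- Determinant with given columns. -/
noncomputable def det3 (a b c : Fin 3 → ℝ) : ℝ :=
  a 0 * (b 1 * c 2 - b 2 * c 1) + a 1 * (b 2 * c 0 - b 0 * c 2) + a 2 * (b 0 * c 1 - b 1 * c 0)

/-- Six times the volume, up to normalisation. -/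
noncomputable def volpq (p q : Fin 3 → Fin 3 → ℝ) : ℝ :=
  4 / 3 * (det3 (p 0) (p 1) (p 2) + det3 (p 0) (q 1) (q 2) + det3 (q 0) (p 1) (q 2)
    + det3 (q 0) (q 1) (p 2) + det3 (q 0) (q 1) (q 2))

lemma volpq_eq {r : ℝ} (hr : r ^ 2 = 5) {N Y : Matrix (Fin 3) (Fin 3) ℝ}
    {p q : Fin 3 → Fin 3 → ℝ} (h : Rep r N Y p q) :
    volpq p q = 10 / 3 * ((3 + r) * N.det + (3 - r) * Y.det) := by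
  simp only [volpq, det3, h.1, h.2, Matrix.det_fin_three]
  linear_combination (3/2*N 0 0*N 1 1*N 2 2 + 1/6*N 0 0*N 1 1*N 2 2*r - 1/6*N 0 0*N 1 1*r*Y 2 2 - 1/2*N 0 0*N 1
    1*Y 2 2 - 3/2*N 0 0*N 1 2*N 2 1 - 1/6*N 0 0*N 1 2*N 2 1*r + 1/6*N 0 0*N 1 2*r*Y 2 1 + 1/2*N
    0 0*N 1 2*Y 2 1 + 1/6*N 0 0*N 2 1*r*Y 1 2 + 1/2*N 0 0*N 2 1*Y 1 2 - 1/6*N 0 0*N 2 2*r*Y 1 1
    - 1/2*N 0 0*N 2 2*Y 1 1 + 1/6*N 0 0*r*Y 1 1*Y 2 2 - 1/6*N 0 0*r*Y 1 2*Y 2 1 - 1/2*N 0 0*Y 1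
    1*Y 2 2 + 1/2*N 0 0*Y 1 2*Y 2 1 - 3/2*N 0 1*N 1 0*N 2 2 - 1/6*N 0 1*N 1 0*N 2 2*r + 1/6*N 0
    1*N 1 0*r*Y 2 2 + 1/2*N 0 1*N 1 0*Y 2 2 + 3/2*N 0 1*N 1 2*N 2 0 + 1/6*N 0 1*N 1 2*N 2 0*r -
    1/6*N 0 1*N 1 2*r*Y 2 0 - 1/2*N 0 1*N 1 2*Y 2 0 - 1/6*N 0 1*N 2 0*r*Y 1 2 - 1/2*N 0 1*N 2
    0*Y 1 2 + 1/6*N 0 1*N 2 2*r*Y 1 0 + 1/2*N 0 1*N 2 2*Y 1 0 - 1/6*N 0 1*r*Y 1 0*Y 2 2 + 1/6*N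
    0 1*r*Y 1 2*Y 2 0 + 1/2*N 0 1*Y 1 0*Y 2 2 - 1/2*N 0 1*Y 1 2*Y 2 0 + 3/2*N 0 2*N 1 0*N 2 1 +
    1/6*N 0 2*N 1 0*N 2 1*r - 1/6*N 0 2*N 1 0*r*Y 2 1 - 1/2*N 0 2*N 1 0*Y 2 1 - 3/2*N 0 2*N 1
    1*N 2 0 - 1/6*N 0 2*N 1 1*N 2 0*r + 1/6*N 0 2*N 1 1*r*Y 2 0 + 1/2*N 0 2*N 1 1*Y 2 0 + 1/6*N
    0 2*N 2 0*r*Y 1 1 + 1/2*N 0 2*N 2 0*Y 1 1 - 1/6*N 0 2*N 2 1*r*Y 1 0 - 1/2*N 0 2*N 2 1*Y 1 0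
    + 1/6*N 0 2*r*Y 1 0*Y 2 1 - 1/6*N 0 2*r*Y 1 1*Y 2 0 - 1/2*N 0 2*Y 1 0*Y 2 1 + 1/2*N 0 2*Y 1
    1*Y 2 0 - 1/6*N 1 0*N 2 1*r*Y 0 2 - 1/2*N 1 0*N 2 1*Y 0 2 + 1/6*N 1 0*N 2 2*r*Y 0 1 + 1/2*N
    1 0*N 2 2*Y 0 1 - 1/6*N 1 0*r*Y 0 1*Y 2 2 + 1/6*N 1 0*r*Y 0 2*Y 2 1 + 1/2*N 1 0*Y 0 1*Y 2 2
    - 1/2*N 1 0*Y 0 2*Y 2 1 + 1/6*N 1 1*N 2 0*r*Y 0 2 + 1/2*N 1 1*N 2 0*Y 0 2 - 1/6*N 1 1*N 2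
    2*r*Y 0 0 - 1/2*N 1 1*N 2 2*Y 0 0 + 1/6*N 1 1*r*Y 0 0*Y 2 2 - 1/6*N 1 1*r*Y 0 2*Y 2 0 -
    1/2*N 1 1*Y 0 0*Y 2 2 + 1/2*N 1 1*Y 0 2*Y 2 0 - 1/6*N 1 2*N 2 0*r*Y 0 1 - 1/2*N 1 2*N 2 0*Y
    0 1 + 1/6*N 1 2*N 2 1*r*Y 0 0 + 1/2*N 1 2*N 2 1*Y 0 0 - 1/6*N 1 2*r*Y 0 0*Y 2 1 + 1/6*N 1
    2*r*Y 0 1*Y 2 0 + 1/2*N 1 2*Y 0 0*Y 2 1 - 1/2*N 1 2*Y 0 1*Y 2 0 + 1/6*N 2 0*r*Y 0 1*Y 1 2 -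
    1/6*N 2 0*r*Y 0 2*Y 1 1 - 1/2*N 2 0*Y 0 1*Y 1 2 + 1/2*N 2 0*Y 0 2*Y 1 1 - 1/6*N 2 1*r*Y 0
    0*Y 1 2 + 1/6*N 2 1*r*Y 0 2*Y 1 0 + 1/2*N 2 1*Y 0 0*Y 1 2 - 1/2*N 2 1*Y 0 2*Y 1 0 + 1/6*N 2
    2*r*Y 0 0*Y 1 1 - 1/6*N 2 2*r*Y 0 1*Y 1 0 - 1/2*N 2 2*Y 0 0*Y 1 1 + 1/2*N 2 2*Y 0 1*Y 1 0 -
    1/6*r*Y 0 0*Y 1 1*Y 2 2 + 1/6*r*Y 0 0*Y 1 2*Y 2 1 + 1/6*r*Y 0 1*Y 1 0*Y 2 2 - 1/6*r*Y 0 1*Y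
    1 2*Y 2 0 - 1/6*r*Y 0 2*Y 1 0*Y 2 1 + 1/6*r*Y 0 2*Y 1 1*Y 2 0 + 3/2*Y 0 0*Y 1 1*Y 2 2 -
    3/2*Y 0 0*Y 1 2*Y 2 1 - 3/2*Y 0 1*Y 1 0*Y 2 2 + 3/2*Y 0 1*Y 1 2*Y 2 0 + 3/2*Y 0 2*Y 1 0*Y 2
    1 - 3/2*Y 0 2*Y 1 1*Y 2 0) * hr

/-- Every pair of triples of vectors has linear coordinates. -/
lemma exists_rep {r : ℝ} (hr : r ^ 2 = 5) (p q : Fin 3 → Fin 3 → ℝ) :
    ∃ N Y : Matrix (Fin 3) (Fin 3) ℝ, Rep r N Y p q := by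
  have hr0 : r ≠ 0 := by
    rintro rfl
    norm_num at hr
  refine ⟨Matrix.of fun i j => (q j i - (1 - r) / 2 * p j i) / r,
    Matrix.of fun i j => ((1 + r) / 2 * p j i - q j i) / r, ?_, ?_⟩
  · intro j i
    simp only [Matrix.of_apply]
    field_simp
    ring
  · intro j i
    simp only [Matrix.of_apply]
    field_simp
    ring

/-- The isoperimetric inequality in terms of the vectors `p` and `q`. -/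
theorem iso_pq (p q : Fin 3 → Fin 3 → ℝ) :
    24000 * Real.sqrt 3 * volpq p q ^ 2
      ≤ (2 * Ssum p q) ^ 3 * (10 / 3 * (3 + Real.sqrt 5)) ^ 2 := by
  have hr : (Real.sqrt 5) ^ 2 = 5 := Real.sq_sqrt (by norm_num)
  have h3 : (Real.sqrt 3) ^ 2 = 3 := Real.sq_sqrt (by norm_num)
  obtain ⟨r, hrdef⟩ : ∃ r, r = Real.sqrt 5 := ⟨_, rfl⟩
  rw [← hrdef] at hr ⊢
  obtain ⟨s, hs⟩ : ∃ s, s = Real.sqrt 3 := ⟨_, rfl⟩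
  have hs0 : 0 < s := by rw [hs]; positivity
  have hr0 : 0 < r := by rw [hrdef]; positivity
  rw [← hs] at h3 ⊢
  obtain ⟨N, Y, h⟩ := exists_rep hr p q
  have hr1 : 2236 / 1000 ≤ r := by
    by_contra hlt
    push Not at hlt
    nlinarith
  have hm := main hr h (θ := (7 - 3 * r) / 2) (by nlinarith) (by linarith)
  rw [volpq_eq hr h]
  have e1 : 10 / 3 * ((3 + r) * N.det + (3 - r) * Y.det)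
      = 10 / 3 * (3 + r) * (N.det + (7 - 3 * r) / 2 * Y.det) := by
    linear_combination (5 * Y.det) * hr
  have e2 : 2 * Ssum p q = 20 * s * al p q := by
    unfold al
    rw [← hs]
    linear_combination (-2 / 3 * Ssum p q) * h3
  rw [e1, e2]
  have e3 : (20 * s * al p q) ^ 3 = 24000 * s * al p q ^ 3 := by
    linear_combination (8000 * s * al p q ^ 3) * h3
  rw [e3, mul_pow]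
  have h4 : 0 ≤ 24000 * s * (10 / 3 * (3 + r)) ^ 2 := by positivity
  have h5 := mul_le_mul_of_nonneg_left hm h4
  calc 24000 * s * ((10 / 3 * (3 + r)) ^ 2 * (N.det + (7 - 3 * r) / 2 * Y.det) ^ 2)
      = 24000 * s * (10 / 3 * (3 + r)) ^ 2 * (N.det + (7 - 3 * r) / 2 * Y.det) ^ 2 := by ring
    _ ≤ 24000 * s * (10 / 3 * (3 + r)) ^ 2 * al p q ^ 3 := h5
    _ = 24000 * s * al p q ^ 3 * (10 / 3 * (3 + r)) ^ 2 := by ring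

end Pool.Agent.Lib_helper76.Ico
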