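import Mathlib

/-!
Definitions used in the statement of `MP_c6db0f_gt.BandHomeo`.
-/

namespace Pool.Agent.Lib_helper76.Band

universe u

/-- The space `B(κ,a,b)` of the problem, as a subset of `ℝ^κ` (product topology):
all `x` with `∑ |x i| ≤ 1` and `a i ≤ x i ≤ b i` for every `i`. -/
def Band (κ : Type u) (a b : κ → ℝ) : Set (κ → ℝ) :=
  {x | Summable (fun i => |x i|) ∧ ∑' i, |x i| ≤ 1 ∧ ∀ i, a i ≤ x i ∧ x i ≤ b i}

/-- The hypotheses of the problem on the pair `a, b : κ → [-1,1]`: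
`-1 ≤ a i < b i ≤ 1` for all `i`, and `∑ (a(i)^+ + b(i)^-) < 1`. -/
structure Admissible {κ : Type u} (a b : κ → ℝ) : Prop where
  neg_one_le : ∀ i, -1 ≤ a i
  lt : ∀ i, a i < b i
  le_one : ∀ i, b i ≤ 1
  summable : Summable (fun i => max 0 (a i) + max 0 (-(b i)))
  tsum_lt : ∑' i, (max 0 (a i) + max 0 (-(b i))) < 1

end Pool.Agent.Lib_helper76.Band
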