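import Pool.Agent.Lib_helper76.BandDefs

open Set Filter Topology

namespace Pool.Agent.Lib_helper76.Band

universe u v

section basic

variable {κ : Type u} {a b : κ → ℝ}

lemma mem_band_iff_fin {x : κ → ℝ} :
    x ∈ Band κ a b ↔ (∀ s : Finset κ, ∑ i ∈ s, |x i| ≤ 1) ∧ ∀ i, a i ≤ x i ∧ x i ≤ b i := by
  constructor
  · rintro ⟨hs, h1, h2⟩
    exact ⟨fun s => (hs.sum_le_tsum s (fun _ _ => abs_nonneg _)).trans h1, h2⟩
  · rintro ⟨h1, h2⟩
    have hs : Summable (fun i => |x i|) := summable_of_sum_le (fun _ => abs_nonneg _) h1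
    exact ⟨hs, hs.tsum_le_of_sum_le h1, h2⟩

lemma fin_iff_ennreal {x : κ → ℝ} :
    (∀ s : Finset κ, ∑ i ∈ s, |x i| ≤ 1) ↔ ∑' i, ENNReal.ofReal |x i| ≤ 1 := by
  rw [ENNReal.tsum_eq_iSup_sum, iSup_le_iff]
  refine forall_congr' fun s => ?_
  rw [← ENNReal.ofReal_sum_of_nonneg (fun _ _ => abs_nonneg _), ENNReal.ofReal_le_one]

lemma mem_band_iff {x : κ → ℝ} :
    x ∈ Band κ a b ↔ ∑' i, ENNReal.ofReal |x i| ≤ 1 ∧ ∀ i, a i ≤ x i ∧ x i ≤ b i := by
  rw [mem_band_iff_fin, fin_iff_ennreal]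

lemma isClosed_band : IsClosed (Band κ a b) := by
  have : Band κ a b = (⋂ s : Finset κ, {x : κ → ℝ | ∑ i ∈ s, |x i| ≤ 1}) ∩
      ⋂ i, ({x : κ → ℝ | a i ≤ x i} ∩ {x : κ → ℝ | x i ≤ b i}) := by
    ext x
    rw [mem_band_iff_fin]
    simp [Set.mem_iInter]
  rw [this]
  refine IsClosed.inter (isClosed_iInter fun s => ?_) (isClosed_iInter fun i => ?_)
  · exact isClosed_le (by fun_prop) continuous_const
  · exact (isClosed_le continuous_const (by fun_prop)).inter
      (isClosed_le (by fun_prop) continuous_const)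

lemma isCompact_band : IsCompact (Band κ a b) := by
  refine (isCompact_univ_pi (fun i => isCompact_Icc (a := a i) (b := b i))).of_isClosed_subset
    isClosed_band ?_
  rintro x ⟨-, -, h⟩ i -
  exact h i

end basic

section block

/-- interpolation parameter -/
noncomputable def lam (a b x : ℝ) : ℝ := (x - a) / (b - a)

lemma lam_nonneg {a b x : ℝ} (hab : a < b) (hx : a ≤ x) : 0 ≤ lam a b x :=
  div_nonneg (by linarith) (by linarith)

lemma lam_le_one {a b x : ℝ} (hab : a < b) (hx : x ≤ b) : lam a b x ≤ 1 := by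
  unfold lam
  rw [div_le_one (by linarith)]
  linarith

lemma continuous_lam {a b : ℝ} : Continuous (lam a b) := by
  unfold lam
  fun_prop

/-- injectivity of one step -/
lemma step_inj {a b x t x' t' : ℝ} (hab : a < b)
    (hx : a ≤ x) (hx' : a ≤ x') (hxb : x ≤ b) (hxb' : x' ≤ b) (ht : 0 ≤ t) (ht' : 0 ≤ t')
    (h1 : max x 0 + lam a b x * t = max x' 0 + lam a b x' * t')
    (h2 : max (-x) 0 + (1 - lam a b x) * t = max (-x') 0 + (1 - lam a b x') * t') :
    x = x' ∧ t = t' := by
  -- it suffices to treat `x < x'`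
  have key : ∀ x x' t t' : ℝ, a ≤ x → x' ≤ b → 0 ≤ t → 0 ≤ t' → x < x' →
      max x 0 + lam a b x * t = max x' 0 + lam a b x' * t' →
      max (-x) 0 + (1 - lam a b x) * t = max (-x') 0 + (1 - lam a b x') * t' → False := by
    intro x x' t t' hx hxb' ht ht' hlt h1 h2
    have hd : 0 < b - a := by linarith
    have hlam : lam a b x' - lam a b x = (x' - x) / (b - a) := by
      unfold lam
      rw [← sub_div]
      ring_nf
    have hlamlt : lam a b x < lam a b x' := by
      have : 0 < (x' - x) / (b - a) := div_pos (by linarith) hd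
      linarith
    have hl0 : 0 ≤ lam a b x := lam_nonneg hab hx
    have hl1 : lam a b x' ≤ 1 := lam_le_one hab hxb'
    have hs : |x| + t = |x'| + t' := by
      have e1 : max x 0 + max (-x) 0 = |x| := by
        rcases le_total 0 x with h | h
        · rw [max_eq_left h, max_eq_right (by linarith), abs_of_nonneg h, add_zero]
        · rw [max_eq_right h, max_eq_left (by linarith), abs_of_nonpos h, zero_add]
      have e2 : max x' 0 + max (-x') 0 = |x'| := by
        rcases le_total 0 x' with h | h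
        · rw [max_eq_left h, max_eq_right (by linarith), abs_of_nonneg h, add_zero]
        · rw [max_eq_right h, max_eq_left (by linarith), abs_of_nonpos h, zero_add]
      nlinarith
    rcases le_total 0 x with h0 | h0
    · have h0' : 0 ≤ x' := by linarith
      rw [max_eq_left h0, max_eq_left h0'] at h1
      rw [abs_of_nonneg h0, abs_of_nonneg h0'] at hs
      nlinarith [mul_nonneg (sub_nonneg.2 hlamlt.le) ht']
    · rcases le_total 0 x' with h0' | h0'
      · rw [max_eq_right h0, max_eq_left h0'] at h1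
        rw [abs_of_nonpos h0, abs_of_nonneg h0'] at hs
        nlinarith [mul_nonneg (sub_nonneg.2 hlamlt.le) ht', mul_nonneg (sub_nonneg.2 hlamlt.le) ht]
      · rw [max_eq_right h0, max_eq_right h0'] at h1
        rw [abs_of_nonpos h0, abs_of_nonpos h0'] at hs
        nlinarith [mul_nonneg (sub_nonneg.2 hlamlt.le) ht', mul_nonneg (sub_nonneg.2 hlamlt.le) ht]
  rcases lt_trichotomy x x' with h | h | h
  · exact (key x x' t t' hx hxb' ht ht' h h1 h2).elim
  · subst h
    refine ⟨rfl, ?_⟩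
    nlinarith
  · exact (key x' x t' t hx' hxb ht' ht h h1.symm h2.symm).elim

/-- surjectivity of one step -/
lemma step_surj {a b v w : ℝ} (ha : a ≤ 0) (hb : 0 ≤ b) (hab : a < b)
    (hv : 0 ≤ v) (hw : 0 ≤ w) :
    ∃ x t : ℝ, (a ≤ x ∧ x ≤ b) ∧ 0 ≤ t ∧ v = max x 0 + lam a b x * t ∧
      w = max (-x) 0 + (1 - lam a b x) * t := by
  set s := v + w with hs
  have hs0 : 0 ≤ s := by linarith
  let φ : ℝ → ℝ := fun x => max x 0 + lam a b x * (s - |x|)
  have hφ : Continuous φ := by
    have := @continuous_lam a b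
    fun_prop
  have hlo : max a (-s) ≤ 0 := max_le ha (by linarith)
  have hhi : 0 ≤ min b s := le_min hb hs0
  have h1 : φ (max a (-s)) = 0 := by
    rcases le_total a (-s) with h | h
    · simp only [φ, max_eq_right h]
      rw [max_eq_right (by linarith), abs_of_nonpos (by linarith)]
      ring
    · simp only [φ, max_eq_left h]
      rw [max_eq_right ha]
      simp [lam]
  have h2 : φ (min b s) = s := by
    rcases le_total b s with h | h
    · simp only [φ, min_eq_left h]
      rw [max_eq_left hb, abs_of_nonneg hb]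
      have : lam a b b = 1 := by
        unfold lam
        exact div_self (by linarith)
      rw [this]
      ring
    · simp only [φ, min_eq_right h]
      rw [max_eq_left hs0, abs_of_nonneg hs0]
      ring
  have hsub := intermediate_value_Icc (hlo.trans hhi) hφ.continuousOn
  have hvmem : v ∈ Icc (φ (max a (-s))) (φ (min b s)) := by
    rw [h1, h2]
    exact ⟨hv, by linarith⟩
  obtain ⟨x, ⟨hx1, hx2⟩, hx⟩ := hsub hvmem
  have hxa : a ≤ x := (le_max_left _ _).trans hx1
  have hxb : x ≤ b := hx2.trans (min_le_left _ _)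
  have hxs : |x| ≤ s := by
    rw [abs_le]
    exact ⟨(le_max_right _ _).trans hx1, hx2.trans (min_le_right _ _)⟩
  refine ⟨x, s - |x|, ⟨hxa, hxb⟩, by linarith, hx.symm, ?_⟩
  have hx' : max x 0 + lam a b x * (s - |x|) = v := hx
  have e1 : max x 0 + max (-x) 0 = |x| := by
    rcases le_total 0 x with h | h
    · rw [max_eq_left h, max_eq_right (by linarith), abs_of_nonneg h, add_zero]
    · rw [max_eq_right h, max_eq_left (by linarith), abs_of_nonpos h, zero_add]
  have : w = s - v := by rw [hs]; ring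
  rw [this, ← hx']
  linarith

/-- The backward recursion defining the auxiliary sequence. -/
def Rec (a b x u : ℕ → ℝ) : Prop :=
  ∀ n, u n = max (x n) 0 + lam (a n) (b n) (x n) * u (n + 1)

/-- The output sequence. -/
def Out (a b x u y : ℕ → ℝ) : Prop :=
  y 0 = u 0 ∧ ∀ n, y (n + 1) = max (-(x n)) 0 + (1 - lam (a n) (b n) (x n)) * u (n + 1)

/-- Assumptions on the bounds in one countable block. -/
structure Good (a b : ℕ → ℝ) : Prop where
  a_nonpos : ∀ n, a n ≤ 0
  b_nonneg : ∀ n, 0 ≤ b n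
  lt : ∀ n, a n < b n
  neg_one_le : ∀ n, -1 ≤ a n
  le_one : ∀ n, b n ≤ 1
  not_summable : ¬ Summable b

lemma max_add_max (x : ℝ) : max x 0 + max (-x) 0 = |x| := by
  rcases le_total 0 x with h | h
  · rw [max_eq_left h, max_eq_right (by linarith), abs_of_nonneg h, add_zero]
  · rw [max_eq_right h, max_eq_left (by linarith), abs_of_nonpos h, zero_add]

lemma sum_identity {a b x u y : ℕ → ℝ} (hr : Rec a b x u) (ho : Out a b x u y) (n : ℕ) :
    ∑ k ∈ Finset.range (n + 1), y k = ∑ k ∈ Finset.range n, |x k| + u n := by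
  induction n with
  | zero => simp [ho.1]
  | succ n ih =>
    rw [Finset.sum_range_succ, ih, Finset.sum_range_succ, ho.2 n, hr n, ← max_add_max (x n)]
    ring

lemma rec_expand {a b x u v : ℕ → ℝ} (hu : Rec a b x u) (hv : Rec a b x v) (k n : ℕ) :
    u k - v k = (∏ i ∈ Finset.range n, lam (a (k + i)) (b (k + i)) (x (k + i))) *
      (u (k + n) - v (k + n)) := by
  induction n with
  | zero => simp
  | succ n ih =>
    rw [ih, Finset.prod_range_succ, hu (k + n), hv (k + n)]
    rw [show k + (n + 1) = k + n + 1 by ring]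
    ring

lemma prod_tendsto {a b x : ℕ → ℝ} (hg : Good a b) (hx : ∀ n, a n ≤ x n ∧ x n ≤ b n)
    (hs : Summable (fun n => |x n|)) (k : ℕ) :
    Tendsto (fun n => ∏ i ∈ Finset.range n, lam (a (k + i)) (b (k + i)) (x (k + i)))
      atTop (𝓝 0) := by
  have hb : ¬ Summable (fun i => b (k + i)) := by
    intro h
    apply hg.not_summable
    rw [← summable_nat_add_iff k]
    simpa [add_comm] using h
  have hxk : Summable (fun i => x (k + i)) := by
    have : Summable (fun n => x n) := hs.of_abs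
    have := (summable_nat_add_iff k).2 this
    simpa [add_comm] using this
  have hd : ¬ Summable (fun i => b (k + i) - x (k + i)) := by
    intro h
    apply hb
    simpa using h.add hxk
  have hd0 : ∀ i, 0 ≤ b (k + i) - x (k + i) := fun i => sub_nonneg.2 (hx _).2
  have ht := (not_summable_iff_tendsto_nat_atTop_of_nonneg hd0).1 hd
  have hexp : Tendsto (fun n => Real.exp (-(1 / 2 * ∑ i ∈ Finset.range n,
      (b (k + i) - x (k + i))))) atTop (𝓝 0) :=
    Real.tendsto_exp_neg_atTop_nhds_zero.comp (ht.const_mul_atTop (by norm_num))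
  refine squeeze_zero (fun n => ?_) (fun n => ?_) hexp
  · exact Finset.prod_nonneg fun i _ => lam_nonneg (hg.lt _) (hx _).1
  · rw [Finset.mul_sum, ← Finset.sum_neg_distrib, Real.exp_sum]
    refine Finset.prod_le_prod (fun i _ => lam_nonneg (hg.lt _) (hx _).1) fun i _ => ?_
    have h1 := Real.add_one_le_exp (lam (a (k + i)) (b (k + i)) (x (k + i)) - 1)
    have h2 : lam (a (k + i)) (b (k + i)) (x (k + i)) - 1 ≤ -(1 / 2 * (b (k + i) - x (k + i))) := by
      have hpos : 0 < b (k + i) - a (k + i) := sub_pos.2 (hg.lt _)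
      have : lam (a (k + i)) (b (k + i)) (x (k + i)) - 1 =
          -((b (k + i) - x (k + i)) / (b (k + i) - a (k + i))) := by
        unfold lam
        field_simp
        ring
      rw [this]
      apply neg_le_neg
      rw [le_div_iff₀ hpos]
      have h3 := hg.neg_one_le (k + i)
      have h4 := hg.le_one (k + i)
      have h5 := (hx (k + i)).2
      nlinarith
    calc lam (a (k + i)) (b (k + i)) (x (k + i))
        ≤ Real.exp (lam (a (k + i)) (b (k + i)) (x (k + i)) - 1) := by linarith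
      _ ≤ _ := Real.exp_le_exp.2 h2

lemma rec_unique {a b x u v : ℕ → ℝ} (hg : Good a b) (hx : ∀ n, a n ≤ x n ∧ x n ≤ b n)
    (hs : Summable (fun n => |x n|)) (hu : Rec a b x u) (hv : Rec a b x v)
    (hu1 : ∀ n, 0 ≤ u n ∧ u n ≤ 1) (hv1 : ∀ n, 0 ≤ v n ∧ v n ≤ 1) : u = v := by
  funext k
  have h0 := prod_tendsto hg hx hs k
  have h1 : Tendsto (fun _ : ℕ => |u k - v k|) atTop (𝓝 0) := by
    refine squeeze_zero (fun _ => abs_nonneg _) (fun n => ?_) h0
    rw [rec_expand hu hv k n, abs_mul, abs_of_nonneg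
      (Finset.prod_nonneg fun i _ => lam_nonneg (hg.lt _) (hx _).1)]
    have h2 : |u (k + n) - v (k + n)| ≤ 1 := by
      rw [abs_le]
      have := hu1 (k + n)
      have := hv1 (k + n)
      constructor <;> linarith
    exact mul_le_of_le_one_right
      (Finset.prod_nonneg fun i _ => lam_nonneg (hg.lt _) (hx _).1) h2
  have h2 := tendsto_nhds_unique h1 tendsto_const_nhds
  exact sub_eq_zero.1 (abs_eq_zero.1 h2.symm)

lemma rec_exists {a b x : ℕ → ℝ} (hg : Good a b) (hx : ∀ n, a n ≤ x n ∧ x n ≤ b n)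
    (hs : Summable (fun n => |x n|)) :
    ∃ u : ℕ → ℝ, Rec a b x u ∧ ∀ n, 0 ≤ u n ∧ u n ≤ ∑' j, |x (j + n)| := by
  let P : ℕ → ℕ → ℝ := fun n j => ∏ i ∈ Finset.range j, lam (a (n + i)) (b (n + i)) (x (n + i))
  have hP0 : ∀ n j, 0 ≤ P n j := fun n j =>
    Finset.prod_nonneg fun i _ => lam_nonneg (hg.lt _) (hx _).1
  have hP1 : ∀ n j, P n j ≤ 1 := fun n j =>
    Finset.prod_le_one (fun i _ => lam_nonneg (hg.lt _) (hx _).1)
      fun i _ => lam_le_one (hg.lt _) (hx _).2
  have hterm0 : ∀ n j, 0 ≤ max (x (n + j)) 0 * P n j := fun n j =>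
    mul_nonneg (le_max_right _ _) (hP0 n j)
  have hterm1 : ∀ n j, max (x (n + j)) 0 * P n j ≤ |x (j + n)| := by
    intro n j
    have h1 : max (x (n + j)) 0 ≤ |x (j + n)| := by
      rw [add_comm j n]
      exact max_le (le_abs_self _) (abs_nonneg _)
    calc max (x (n + j)) 0 * P n j ≤ max (x (n + j)) 0 * 1 :=
          mul_le_mul_of_nonneg_left (hP1 n j) (le_max_right _ _)
      _ ≤ _ := by rw [mul_one]; exact h1
  have hsn : ∀ n, Summable (fun j => |x (j + n)|) := fun n =>
    (summable_nat_add_iff n).2 hs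
  have hsum : ∀ n, Summable (fun j => max (x (n + j)) 0 * P n j) := fun n =>
    Summable.of_nonneg_of_le (hterm0 n) (hterm1 n) (hsn n)
  refine ⟨fun n => ∑' j, max (x (n + j)) 0 * P n j, ?_, ?_⟩
  · intro n
    show ∑' j, max (x (n + j)) 0 * P n j = max (x n) 0 + lam (a n) (b n) (x n) *
      ∑' j, max (x (n + 1 + j)) 0 * P (n + 1) j
    rw [(hsum n).tsum_eq_zero_add, ← tsum_mul_left]
    congr 1
    · simp [P]
    · refine tsum_congr fun j => ?_
      have h1 : P n (j + 1) = P (n + 1) j * lam (a n) (b n) (x n) := by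
        simp only [P]
        rw [Finset.prod_range_succ']
        simp only [add_zero]
        congr 1
        refine Finset.prod_congr rfl fun i _ => ?_
        rw [show n + (i + 1) = n + 1 + i by ring]
      rw [h1, show n + (j + 1) = n + 1 + j by ring]
      ring
  · intro n
    exact ⟨tsum_nonneg (hterm0 n), (hsum n).tsum_le_tsum (hterm1 n) (hsn n)⟩

/-- given the output, reconstruct -/
lemma inv_exists {a b y : ℕ → ℝ} (hg : Good a b) (hy : ∀ n, 0 ≤ y n) :
    ∃ x u : ℕ → ℝ, Rec a b x u ∧ Out a b x u y ∧ (∀ n, a n ≤ x n ∧ x n ≤ b n) ∧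
      ∀ n, 0 ≤ u n := by
  have hstep : ∀ n : ℕ, ∀ v : ℝ, ∃ x t : ℝ, 0 ≤ v → ((a n ≤ x ∧ x ≤ b n) ∧ 0 ≤ t ∧
      v = max x 0 + lam (a n) (b n) x * t ∧
      y (n + 1) = max (-x) 0 + (1 - lam (a n) (b n) x) * t) := by
    intro n v
    by_cases hv : 0 ≤ v
    · obtain ⟨x, t, h⟩ := step_surj (hg.a_nonpos n) (hg.b_nonneg n) (hg.lt n) hv (hy (n + 1))
      exact ⟨x, t, fun _ => h⟩
    · exact ⟨0, 0, fun h => (hv h).elim⟩
  choose X T hXT using hstep
  let u : ℕ → ℝ := fun n => Nat.rec (y 0) (fun n v => T n v) n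
  have hu0 : u 0 = y 0 := rfl
  have hus : ∀ n, u (n + 1) = T n (u n) := fun n => rfl
  have hunn : ∀ n, 0 ≤ u n := by
    intro n
    induction n with
    | zero => rw [hu0]; exact hy 0
    | succ n ih => rw [hus]; exact (hXT n (u n) ih).2.1
  refine ⟨fun n => X n (u n), u, ?_, ⟨hu0.symm, ?_⟩, ?_, hunn⟩
  · intro n
    rw [hus]
    exact (hXT n (u n) (hunn n)).2.2.1
  · intro n
    rw [hus]
    exact (hXT n (u n) (hunn n)).2.2.2
  · intro n
    exact (hXT n (u n) (hunn n)).1

lemma inv_unique {a b y x u x' u' : ℕ → ℝ} (hlt : ∀ n, a n < b n)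
    (hx : ∀ n, a n ≤ x n ∧ x n ≤ b n) (hx' : ∀ n, a n ≤ x' n ∧ x' n ≤ b n)
    (hu : ∀ n, 0 ≤ u n) (hu' : ∀ n, 0 ≤ u' n)
    (h1 : Rec a b x u) (h2 : Out a b x u y) (h1' : Rec a b x' u') (h2' : Out a b x' u' y) :
    x = x' ∧ u = u' := by
  have hstep : ∀ n, u n = u' n → x n = x' n ∧ u (n + 1) = u' (n + 1) := by
    intro n hn
    refine step_inj (hlt n) (hx n).1 (hx' n).1 (hx n).2 (hx' n).2 (hu _) (hu' _) ?_ ?_
    · rw [← h1 n, ← h1' n, hn]
    · rw [← h2.2 n, ← h2'.2 n]
  have hu_eq : ∀ n, u n = u' n := by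
    intro n
    induction n with
    | zero => rw [← h2.1, ← h2'.1]
    | succ n ih => exact (hstep n ih).2
  exact ⟨funext fun n => (hstep n (hu_eq n)).1, funext hu_eq⟩

end block

section sums

lemma block_out_le {a b x u y : ℕ → ℝ} (hr : Rec a b x u) (ho : Out a b x u y)
    (hy : ∀ n, 0 ≤ y n) (hs : Summable (fun n => |x n|)) (hu : ∀ n, u n ≤ ∑' j, |x (j + n)|) :
    ∑' n, ENNReal.ofReal |y n| ≤ ∑' n, ENNReal.ofReal |x n| := by
  rw [ENNReal.tsum_eq_iSup_nat]
  refine iSup_le fun n => ?_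
  rw [← ENNReal.ofReal_tsum_of_nonneg (fun _ => abs_nonneg _) hs,
    ← ENNReal.ofReal_sum_of_nonneg (fun _ _ => abs_nonneg _)]
  apply ENNReal.ofReal_le_ofReal
  calc ∑ i ∈ Finset.range n, |y i| = ∑ i ∈ Finset.range n, y i :=
        Finset.sum_congr rfl fun i _ => abs_of_nonneg (hy i)
    _ ≤ ∑ i ∈ Finset.range (n + 1), y i := by
        rw [Finset.sum_range_succ]
        linarith [hy n]
    _ = ∑ k ∈ Finset.range n, |x k| + u n := sum_identity hr ho n
    _ ≤ ∑ k ∈ Finset.range n, |x k| + ∑' j, |x (j + n)| := by linarith [hu n]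
    _ = ∑' n, |x n| := hs.sum_add_tsum_nat_add n

lemma block_in_le {a b x u y : ℕ → ℝ} (hr : Rec a b x u) (ho : Out a b x u y)
    (hy : ∀ n, 0 ≤ y n) (hu : ∀ n, 0 ≤ u n) :
    ∑' n, ENNReal.ofReal |x n| ≤ ∑' n, ENNReal.ofReal |y n| := by
  rw [ENNReal.tsum_eq_iSup_nat]
  refine iSup_le fun n => ?_
  calc ∑ i ∈ Finset.range n, ENNReal.ofReal |x i|
      = ENNReal.ofReal (∑ i ∈ Finset.range n, |x i|) :=
        (ENNReal.ofReal_sum_of_nonneg (fun _ _ => abs_nonneg _)).symm
    _ ≤ ENNReal.ofReal (∑ i ∈ Finset.range (n + 1), |y i|) := by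
        apply ENNReal.ofReal_le_ofReal
        have h1 : ∑ i ∈ Finset.range (n + 1), |y i| = ∑ i ∈ Finset.range (n + 1), y i :=
          Finset.sum_congr rfl fun i _ => abs_of_nonneg (hy i)
        rw [h1, sum_identity hr ho n]
        linarith [hu n]
    _ = ∑ i ∈ Finset.range (n + 1), ENNReal.ofReal |y i| :=
        ENNReal.ofReal_sum_of_nonneg (fun _ _ => abs_nonneg _)
    _ ≤ _ := ENNReal.sum_le_tsum _

lemma out_nonneg {a b x u y : ℕ → ℝ} (hlt : ∀ n, a n < b n)
    (hx : ∀ n, a n ≤ x n ∧ x n ≤ b n) (hu : ∀ n, 0 ≤ u n) (ho : Out a b x u y) (n : ℕ) :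
    0 ≤ y n := by
  cases n with
  | zero => rw [ho.1]; exact hu 0
  | succ n =>
    rw [ho.2 n]
    exact add_nonneg (le_max_right _ _)
      (mul_nonneg (sub_nonneg.2 (lam_le_one (hlt n) (hx n).2)) (hu _))

end sums

section total

variable {ι : Type u}

/-- The blocks indexed by `α : ι` all satisfy the assumptions. -/
def GoodAll (a b : ι × ℕ → ℝ) : Prop :=
  ∀ α, Good (fun n => a (α, n)) (fun n => b (α, n))

/-- The graph of the correspondence, with the auxiliary sequences as middle component. -/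
def Graph (a b : ι × ℕ → ℝ) : Set ((ι × ℕ → ℝ) × (ι × ℕ → ℝ) × (ι × ℕ → ℝ)) :=
  {p | p.1 ∈ Band (ι × ℕ) a b ∧ (∀ i, 0 ≤ p.2.1 i ∧ p.2.1 i ≤ 1) ∧
    p.2.2 ∈ Band (ι × ℕ) (fun _ => 0) (fun _ => 1) ∧
    (∀ α, Rec (fun n => a (α, n)) (fun n => b (α, n)) (fun n => p.1 (α, n))
      (fun n => p.2.1 (α, n))) ∧
    (∀ α, Out (fun n => a (α, n)) (fun n => b (α, n)) (fun n => p.1 (α, n))
      (fun n => p.2.1 (α, n)) (fun n => p.2.2 (α, n)))}

lemma isClosed_graph (a b : ι × ℕ → ℝ) : IsClosed (Graph a b) := by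
  have hl : ∀ i : ι × ℕ, Continuous (fun p : (ι × ℕ → ℝ) × (ι × ℕ → ℝ) × (ι × ℕ → ℝ) =>
      lam (a i) (b i) (p.1 i)) := by
    intro i
    have := @continuous_lam (a i) (b i)
    fun_prop
  have h1 : IsClosed {p : (ι × ℕ → ℝ) × (ι × ℕ → ℝ) × (ι × ℕ → ℝ) |
      p.1 ∈ Band (ι × ℕ) a b} := isClosed_band.preimage continuous_fst
  have h2 : IsClosed {p : (ι × ℕ → ℝ) × (ι × ℕ → ℝ) × (ι × ℕ → ℝ) |
      ∀ i, 0 ≤ p.2.1 i ∧ p.2.1 i ≤ 1} := by
    simp only [Set.ofPred_forall, Set.ofPred_and]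
    refine isClosed_iInter fun i => ?_
    exact (isClosed_le continuous_const (by fun_prop)).inter
      (isClosed_le (by fun_prop) continuous_const)
  have h3 : IsClosed {p : (ι × ℕ → ℝ) × (ι × ℕ → ℝ) × (ι × ℕ → ℝ) |
      p.2.2 ∈ Band (ι × ℕ) (fun _ => 0) (fun _ => 1)} :=
    isClosed_band.preimage (continuous_snd.comp continuous_snd)
  have h4 : IsClosed {p : (ι × ℕ → ℝ) × (ι × ℕ → ℝ) × (ι × ℕ → ℝ) |
      ∀ α, Rec (fun n => a (α, n)) (fun n => b (α, n)) (fun n => p.1 (α, n))
      (fun n => p.2.1 (α, n))} := by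
    simp only [Rec, Set.ofPred_forall]
    refine isClosed_iInter fun α => isClosed_iInter fun n => ?_
    have := hl (α, n)
    exact isClosed_eq (by fun_prop) (by fun_prop)
  have h5 : IsClosed {p : (ι × ℕ → ℝ) × (ι × ℕ → ℝ) × (ι × ℕ → ℝ) |
      ∀ α, Out (fun n => a (α, n)) (fun n => b (α, n)) (fun n => p.1 (α, n))
      (fun n => p.2.1 (α, n)) (fun n => p.2.2 (α, n))} := by
    simp only [Out, Set.ofPred_forall, Set.ofPred_and]
    refine isClosed_iInter fun α => IsClosed.inter ?_ (isClosed_iInter fun n => ?_)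
    · exact isClosed_eq (by fun_prop) (by fun_prop)
    · have := hl (α, n)
      exact isClosed_eq (by fun_prop) (by fun_prop)
  exact h1.inter (h2.inter (h3.inter (h4.inter h5)))

lemma isCompact_graph (a b : ι × ℕ → ℝ) : IsCompact (Graph a b) := by
  have hK : IsCompact ((Band (ι × ℕ) a b) ×ˢ
      ((Set.univ.pi (fun _ : ι × ℕ => Icc (0 : ℝ) 1)) ×ˢ
        (Band (ι × ℕ) (fun _ => 0) (fun _ => 1)))) :=
    isCompact_band.prod ((isCompact_univ_pi fun _ => isCompact_Icc).prod isCompact_band)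
  refine hK.of_isClosed_subset (isClosed_graph a b) ?_
  rintro ⟨x, u, y⟩ ⟨hx, hu, hy, -, -⟩
  exact ⟨hx, fun i _ => hu i, hy⟩

lemma block_summable {x : ι × ℕ → ℝ} (hs : Summable (fun i => |x i|)) (α : ι) :
    Summable (fun n => |x (α, n)|) :=
  hs.comp_injective (Prod.mk_right_injective α)

lemma block_fin_le {x : ι × ℕ → ℝ} (h : ∀ s : Finset (ι × ℕ), ∑ i ∈ s, |x i| ≤ 1) (α : ι)
    (s : Finset ℕ) : ∑ n ∈ s, |x (α, n)| ≤ 1 := by
  classical
  have := h (s.map ⟨fun n => (α, n), Prod.mk_right_injective α⟩)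
  simpa using this

lemma tsum_block_le {a b x y : ι × ℕ → ℝ}
    (h : ∀ α, ∑' n, ENNReal.ofReal |y (α, n)| ≤ ∑' n, ENNReal.ofReal |x (α, n)|)
    (hx : x ∈ Band (ι × ℕ) a b) : ∑' i, ENNReal.ofReal |y i| ≤ 1 := by
  refine le_trans ?_ (mem_band_iff.1 hx).1
  rw [ENNReal.tsum_prod', ENNReal.tsum_prod']
  exact ENNReal.tsum_le_tsum h

lemma graph_left_surj {a b : ι × ℕ → ℝ} (hg : GoodAll a b) {x : ι × ℕ → ℝ}
    (hx : x ∈ Band (ι × ℕ) a b) : ∃ u y, (x, u, y) ∈ Graph a b := by
  have hfin := (mem_band_iff_fin.1 hx).1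
  have hbd := hx.2.2
  have hex : ∀ α, ∃ u : ℕ → ℝ, Rec (fun n => a (α, n)) (fun n => b (α, n))
      (fun n => x (α, n)) u ∧ ∀ n, 0 ≤ u n ∧ u n ≤ ∑' j, |x (α, j + n)| := fun α =>
    rec_exists (hg α) (fun n => hbd (α, n)) (block_summable hx.1 α)
  choose U hU using hex
  let u : ι × ℕ → ℝ := fun p => U p.1 p.2
  let y : ι × ℕ → ℝ := fun p => Nat.casesOn p.2 (U p.1 0) (fun n =>
    max (-(x (p.1, n))) 0 + (1 - lam (a (p.1, n)) (b (p.1, n)) (x (p.1, n))) * U p.1 (n + 1))
  have hrec : ∀ α, Rec (fun n => a (α, n)) (fun n => b (α, n)) (fun n => x (α, n))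
      (fun n => u (α, n)) := fun α => (hU α).1
  have hout : ∀ α, Out (fun n => a (α, n)) (fun n => b (α, n)) (fun n => x (α, n))
      (fun n => u (α, n)) (fun n => y (α, n)) := fun α => ⟨rfl, fun n => rfl⟩
  have hy0 : ∀ i, 0 ≤ y i := by
    rintro ⟨α, n⟩
    exact out_nonneg (hg α).lt (fun n => hbd (α, n)) (fun n => ((hU α).2 n).1) (hout α) n
  have hysum : ∑' i, ENNReal.ofReal |y i| ≤ 1 := by
    refine tsum_block_le (fun α => ?_) hx
    exact block_out_le (hrec α) (hout α) (fun n => hy0 (α, n)) (block_summable hx.1 α)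
      (fun n => ((hU α).2 n).2)
  refine ⟨u, y, hx, ?_, ?_, hrec, hout⟩
  · rintro ⟨α, n⟩
    refine ⟨((hU α).2 n).1, ((hU α).2 n).2.trans ?_⟩
    have h1 : Summable (fun j => |x (α, j + n)|) :=
      (summable_nat_add_iff n).2 (block_summable hx.1 α)
    refine h1.tsum_le_of_sum_le fun s => ?_
    have h2 := block_fin_le hfin α (s.map (addRightEmbedding n))
    simpa using h2
  · rw [mem_band_iff]
    refine ⟨hysum, fun i => ⟨hy0 i, ?_⟩⟩
    have h1 := (fin_iff_ennreal.2 hysum) {i}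
    rw [Finset.sum_singleton] at h1
    exact (le_abs_self _).trans h1

lemma graph_left_inj {a b : ι × ℕ → ℝ} (hg : GoodAll a b) {x u y u' y' : ι × ℕ → ℝ}
    (h : (x, u, y) ∈ Graph a b) (h' : (x, u', y') ∈ Graph a b) : u = u' ∧ y = y' := by
  obtain ⟨hx, hu, hy, hr, ho⟩ := h
  obtain ⟨-, hu', hy', hr', ho'⟩ := h'
  have hbd := hx.2.2
  have huu : u = u' := by
    funext ⟨α, n⟩
    exact congrFun (rec_unique (hg α) (fun n => hbd (α, n)) (block_summable hx.1 α) (hr α)
      (hr' α) (fun n => hu (α, n)) (fun n => hu' (α, n))) n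
  refine ⟨huu, ?_⟩
  funext ⟨α, n⟩
  cases n with
  | zero =>
    have h1 := (ho α).1
    have h2 := (ho' α).1
    simp only at h1 h2
    rw [h1, h2, huu]
  | succ n =>
    have h1 := (ho α).2 n
    have h2 := (ho' α).2 n
    simp only at h1 h2
    rw [h1, h2, huu]

lemma graph_right_surj {a b : ι × ℕ → ℝ} (hg : GoodAll a b) {y : ι × ℕ → ℝ}
    (hy : y ∈ Band (ι × ℕ) (fun _ => 0) (fun _ => 1)) : ∃ x u, (x, u, y) ∈ Graph a b := by
  have hfin := (mem_band_iff_fin.1 hy).1
  have hy0 : ∀ i, 0 ≤ y i := fun i => (hy.2.2 i).1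
  have hex : ∀ α, ∃ x u : ℕ → ℝ, Rec (fun n => a (α, n)) (fun n => b (α, n)) x u ∧
      Out (fun n => a (α, n)) (fun n => b (α, n)) x u (fun n => y (α, n)) ∧
      (∀ n, a (α, n) ≤ x n ∧ x n ≤ b (α, n)) ∧ ∀ n, 0 ≤ u n := fun α =>
    inv_exists (hg α) (fun n => hy0 (α, n))
  choose X U hr ho hb hu using hex
  refine ⟨fun p => X p.1 p.2, fun p => U p.1 p.2, ?_, ?_, hy, fun α => hr α, fun α => ho α⟩
  · rw [mem_band_iff]
    refine ⟨?_, fun i => hb i.1 i.2⟩
    refine tsum_block_le (fun α => ?_) hy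
    exact block_in_le (hr α) (ho α) (fun n => hy0 (α, n)) (hu α)
  · rintro ⟨α, n⟩
    refine ⟨hu α n, ?_⟩
    have h1 := sum_identity (hr α) (ho α) n
    have h2 := block_fin_le hfin α (Finset.range (n + 1))
    have h3 : ∑ k ∈ Finset.range (n + 1), |y (α, k)| = ∑ k ∈ Finset.range (n + 1), y (α, k) :=
      Finset.sum_congr rfl fun i _ => abs_of_nonneg (hy0 _)
    have h4 : 0 ≤ ∑ k ∈ Finset.range n, |X α k| := Finset.sum_nonneg fun _ _ => abs_nonneg _
    show U α n ≤ 1
    linarith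

lemma graph_right_inj {a b : ι × ℕ → ℝ} (hg : GoodAll a b) {x u y x' u' : ι × ℕ → ℝ}
    (h : (x, u, y) ∈ Graph a b) (h' : (x', u', y) ∈ Graph a b) : x = x' ∧ u = u' := by
  obtain ⟨hx, hu, hy, hr, ho⟩ := h
  obtain ⟨hx', hu', -, hr', ho'⟩ := h'
  have key : ∀ α, (fun n => x (α, n)) = (fun n => x' (α, n)) ∧
      (fun n => u (α, n)) = (fun n => u' (α, n)) := fun α =>
    inv_unique (hg α).lt (fun n => hx.2.2 (α, n)) (fun n => hx'.2.2 (α, n))
      (fun n => (hu (α, n)).1) (fun n => (hu' (α, n)).1) (hr α) (ho α) (hr' α) (ho' α)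
  exact ⟨funext fun p => congrFun (key p.1).1 p.2, funext fun p => congrFun (key p.1).2 p.2⟩

theorem homeo_block {a b : ι × ℕ → ℝ} (hg : GoodAll a b) :
    Nonempty (Band (ι × ℕ) a b ≃ₜ Band (ι × ℕ) (fun _ => 0) (fun _ => 1)) := by
  have : CompactSpace (Graph a b) := isCompact_iff_compactSpace.1 (isCompact_graph a b)
  let f : Graph a b → Band (ι × ℕ) a b := fun p => ⟨p.1.1, p.2.1⟩
  let g : Graph a b → Band (ι × ℕ) (fun _ => 0) (fun _ => 1) := fun p => ⟨p.1.2.2, p.2.2.2.1⟩
  have hf : Continuous f := by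
    refine Continuous.subtype_mk ?_ _
    exact continuous_fst.comp continuous_subtype_val
  have hgc : Continuous g := by
    refine Continuous.subtype_mk ?_ _
    exact (continuous_snd.comp continuous_snd).comp continuous_subtype_val
  have hfb : Function.Bijective f := by
    constructor
    · rintro ⟨⟨x, u, y⟩, h⟩ ⟨⟨x', u', y'⟩, h'⟩ hxx
      have hx : x = x' := congrArg Subtype.val hxx
      subst hx
      obtain ⟨h1, h2⟩ := graph_left_inj hg h h'
      subst h1
      subst h2
      rfl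
    · rintro ⟨x, hx⟩
      obtain ⟨u, y, h⟩ := graph_left_surj hg hx
      exact ⟨⟨(x, u, y), h⟩, rfl⟩
  have hgb : Function.Bijective g := by
    constructor
    · rintro ⟨⟨x, u, y⟩, h⟩ ⟨⟨x', u', y'⟩, h'⟩ hyy
      have hy : y = y' := congrArg Subtype.val hyy
      subst hy
      obtain ⟨h1, h2⟩ := graph_right_inj hg h h'
      subst h1
      subst h2
      rfl
    · rintro ⟨y, hy⟩
      obtain ⟨x, u, h⟩ := graph_right_surj hg hy
      exact ⟨⟨(x, u, y), h⟩, rfl⟩
  have hf' : Continuous (Equiv.ofBijective f hfb) := hf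
  have hg' : Continuous (Equiv.ofBijective g hgb) := hgc
  exact ⟨(hf'.homeoOfEquivCompactToT2).symm.trans hg'.homeoOfEquivCompactToT2⟩

end total

section partition

variable {κ : Type u}

/-- An uncountable set carrying positive weights splits into countably infinite blocks (each
enumerated by `ℕ`) such that the weights in each block have infinite sum. -/
lemma exists_partition [Uncountable κ] (w : κ → ℝ) (hw : ∀ i, 0 < w i) :
    ∃ (ι : Type u) (e : ι × ℕ ≃ κ), ∀ α, ¬ Summable (fun n => w (e (α, n))) := by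
  classical
  choose lev hlev using fun i => exists_nat_one_div_lt (hw i)
  -- level sets
  have hE : ∀ m : ℕ, Infinite {j : κ // lev j = m} →
      Nonempty ({j : κ // lev j = m} ≃ {j : κ // lev j = m} × ℕ) := by
    intro m hm
    refine Cardinal.eq.1 ?_
    rw [Cardinal.mk_prod]
    simp only [Cardinal.lift_id', Cardinal.mk_nat, Cardinal.lift_aleph0]
    exact (Cardinal.mul_aleph0_eq (Cardinal.aleph0_le_mk _)).symm
  have hE' : ∀ m : ℕ, ∃ E : Infinite {j : κ // lev j = m} →
      ({j : κ // lev j = m} ≃ {j : κ // lev j = m} × ℕ), True := by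
    intro m
    by_cases hm : Infinite {j : κ // lev j = m}
    · exact ⟨fun _ => (hE m hm).some, trivial⟩
    · exact ⟨fun h => (hm h).elim, trivial⟩
  choose E _ using hE'
  -- the small part is countable
  have hsmall : {i : κ | ¬ Infinite {j : κ // lev j = lev i}}.Countable := by
    have : {i : κ | ¬ Infinite {j : κ // lev j = lev i}} ⊆
        ⋃ m : {m : ℕ // ¬ Infinite {j : κ // lev j = m}}, {j : κ | lev j = m.1} := by
      intro i hi
      exact Set.mem_iUnion.2 ⟨⟨lev i, hi⟩, rfl⟩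
    refine Set.Countable.mono this (Set.countable_iUnion fun m => ?_)
    have hfin : Finite {j : κ // lev j = m.1} := not_infinite_iff_finite.1 m.2
    have hcnt : Countable {j : κ // lev j = m.1} := Finite.to_countable
    exact (Set.countable_coe_iff (s := {j : κ | lev j = m.1})).1 hcnt
  -- there is an infinite level
  have hne : ∃ i0 : κ, Infinite {j : κ // lev j = lev i0} := by
    by_contra hcon
    push Not at hcon
    have huniv : (Set.univ : Set κ).Countable := by
      refine hsmall.mono fun i _ => ?_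
      show ¬ Infinite _
      rw [not_infinite_iff_finite]
      exact hcon i
    exact not_countable (α := κ) (Set.countable_univ_iff.1 huniv)
  obtain ⟨i0, hi0⟩ := hne
  let G : κ → κ := fun i =>
    if h : Infinite {j : κ // lev j = lev i} then (E (lev i) h ⟨i, rfl⟩).1.1 else i0
  have hG : ∀ (m : ℕ) (h : Infinite {j : κ // lev j = m}) (j : {j : κ // lev j = m}),
      G j.1 = (E m h j).1.1 := by
    rintro m h ⟨j, rfl⟩
    simp only [G, dif_pos h]
  have hGinf : ∀ i, Infinite {j : κ // lev j = lev (G i)} := by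
    intro i
    by_cases h : Infinite {j : κ // lev j = lev i}
    · have h1 : lev (G i) = lev i := by
        simp only [G, dif_pos h]
        exact (E (lev i) h ⟨i, rfl⟩).1.2
      rw [h1]
      exact h
    · have h1 : G i = i0 := by simp only [G, dif_neg h]
      rw [h1]
      exact hi0
  let ι : Type u := {i : κ // Infinite {j : κ // lev j = lev i}}
  let π : κ → ι := fun i => ⟨G i, hGinf i⟩
  -- the elements of the fibre over `α` of the right level
  let J : ι → ℕ → κ := fun α n => ((E (lev α.1) α.2).symm (⟨α.1, rfl⟩, n)).1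
  have hJlev : ∀ α n, lev (J α n) = lev α.1 := fun α n =>
    ((E (lev α.1) α.2).symm (⟨α.1, rfl⟩, n)).2
  have hJπ : ∀ α n, π (J α n) = α := by
    intro α n
    apply Subtype.ext
    show G (J α n) = α.1
    rw [hG (lev α.1) α.2 ((E (lev α.1) α.2).symm (⟨α.1, rfl⟩, n)), Equiv.apply_symm_apply]
  have hJinj : ∀ α, Function.Injective (J α) := by
    intro α n n' h
    have h1 := (E (lev α.1) α.2).symm.injective (Subtype.ext h)
    exact (Prod.mk.inj h1).2
  have hcount : ∀ α : ι, Countable {i : κ // π i = α} := by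
    intro α
    have hsub : {i : κ | π i = α} ⊆
        Set.range (J α) ∪ {i : κ | ¬ Infinite {j : κ // lev j = lev i}} := by
      intro i hi
      by_cases h : Infinite {j : κ // lev j = lev i}
      · left
        have h1 : G i = α.1 := congrArg Subtype.val hi
        have h2 : lev α.1 = lev i := by
          rw [← h1]
          simp only [G, dif_pos h]
          exact (E (lev i) h ⟨i, rfl⟩).1.2
        have h3 := hG (lev α.1) α.2 ⟨i, h2.symm⟩
        refine ⟨(E (lev α.1) α.2 ⟨i, h2.symm⟩).2, ?_⟩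
        have h4 : ((⟨α.1, rfl⟩ : {j : κ // lev j = lev α.1}),
            (E (lev α.1) α.2 ⟨i, h2.symm⟩).2) = E (lev α.1) α.2 ⟨i, h2.symm⟩ := by
          refine Prod.ext ?_ rfl
          apply Subtype.ext
          show α.1 = _
          rw [← h3]
          exact h1.symm
        show ((E (lev α.1) α.2).symm (⟨α.1, rfl⟩, (E (lev α.1) α.2 ⟨i, h2.symm⟩).2)).1 = i
        rw [h4, Equiv.symm_apply_apply]
      · right
        exact h
    have hc : ({i : κ | π i = α}).Countable :=
      ((Set.countable_range (J α)).union hsmall).mono hsub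
    exact hc.to_subtype
  have hinf : ∀ α : ι, Infinite {i : κ // π i = α} := by
    intro α
    refine Infinite.of_injective (fun n => (⟨J α n, hJπ α n⟩ : {i : κ // π i = α})) ?_
    intro n n' h
    have h1 := congrArg (fun s : {i : κ // π i = α} => (s : κ)) h
    exact hJinj α h1
  have heq : ∀ α : ι, Nonempty (ℕ ≃ {i : κ // π i = α}) := by
    intro α
    have := hcount α
    have := hinf α
    exact nonempty_equiv_of_countable
  let F : ∀ α : ι, ℕ ≃ {i : κ // π i = α} := fun α => (heq α).some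
  let e : ι × ℕ ≃ κ := ((Equiv.sigmaEquivProd ι ℕ).symm.trans
    (Equiv.sigmaCongrRight F)).trans (Equiv.sigmaFiberEquiv π)
  refine ⟨ι, e, fun α hsum => ?_⟩
  have he : ∀ n, e (α, n) = (F α n).1 := fun n => rfl
  -- indices of the elements `J α k`
  let N : ℕ → ℕ := fun k => (F α).symm ⟨J α k, hJπ α k⟩
  have hN : ∀ k, e (α, N k) = J α k := by
    intro k
    rw [he]
    simp only [N, Equiv.apply_symm_apply]
  have hNinj : Function.Injective N := by
    intro k k' h
    have := congrArg (fun n => e (α, n)) h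
    simp only [hN] at this
    exact hJinj α this
  have h1 : Summable (fun k => w (J α k)) := by
    have := hsum.comp_injective hNinj
    refine this.congr fun k => ?_
    show w (e (α, N k)) = _
    rw [hN]
  have h2 := h1.tendsto_atTop_zero
  have h3 : ∀ k, 1 / ((lev α.1 : ℝ) + 1) ≤ w (J α k) := by
    intro k
    have := hlev (J α k)
    rw [hJlev] at this
    exact this.le
  have h4 : 1 / ((lev α.1 : ℝ) + 1) ≤ 0 := ge_of_tendsto' h2 h3
  have h5 : (0 : ℝ) < 1 / ((lev α.1 : ℝ) + 1) := by positivity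
  linarith

end partition

section reduction

variable {κ : Type u}

lemma band_reindex {κ' : Type v} (e : κ' ≃ κ) (a b : κ → ℝ) :
    Nonempty (Band κ' (fun i => a (e i)) (fun i => b (e i)) ≃ₜ Band κ a b) := by
  refine ⟨Homeomorph.subtype (Homeomorph.piCongrLeft (Y := fun _ => ℝ) e) fun x => ?_⟩
  show x ∈ Band κ' (fun i => a (e i)) (fun i => b (e i)) ↔
    Homeomorph.piCongrLeft (Y := fun _ => ℝ) e x ∈ Band κ a b
  have h : ∀ i, Homeomorph.piCongrLeft (Y := fun _ => ℝ) e x (e i) = x i := fun i =>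
    Equiv.piCongrLeft_apply_apply (fun _ => ℝ) e x i
  rw [mem_band_iff, mem_band_iff]
  refine and_congr ?_ ?_
  · rw [← e.tsum_eq (fun j => ENNReal.ofReal |Homeomorph.piCongrLeft (Y := fun _ => ℝ) e x j|)]
    simp only [h]
  · rw [← e.forall_congr_right (q := fun j => a j ≤ Homeomorph.piCongrLeft (Y := fun _ => ℝ) e x j ∧
      Homeomorph.piCongrLeft (Y := fun _ => ℝ) e x j ≤ b j)]
    simp only [h]

lemma coord {a b r : ℝ} (hab : a < b) (hr : 0 < r) :
    ∃ c σ A B : ℝ, |c| = max 0 a + max 0 (-b) ∧ (σ = 1 ∨ σ = -1) ∧ -1 ≤ A ∧ A ≤ 0 ∧ 0 < B ∧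
      B ≤ 1 ∧ (∀ z, |z| ≤ 1 → ((A ≤ z ∧ z ≤ B) ↔ (a ≤ c + r * σ * z ∧ c + r * σ * z ≤ b))) ∧
      ∀ z, a ≤ c + r * σ * z → c + r * σ * z ≤ b → |c + r * σ * z| = |c| + r * |z| := by
  rcases lt_or_ge 0 a with ha | ha
  · -- `0 < a`
    refine ⟨a, 1, 0, min 1 ((b - a) / r), ?_, Or.inl rfl, by norm_num, le_rfl,
      lt_min one_pos (div_pos (by linarith) hr), min_le_left _ _, ?_, ?_⟩
    · rw [abs_of_pos ha, max_eq_right ha.le, max_eq_left (by linarith), add_zero]
    · intro z hz
      rw [le_min_iff, le_div_iff₀ hr]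
      have hz1 := (abs_le.1 hz).2
      constructor
      · rintro ⟨h1, -, h2⟩
        constructor <;> nlinarith
      · rintro ⟨h1, h2⟩
        refine ⟨?_, hz1, by linarith⟩
        by_contra hneg
        push Not at hneg
        nlinarith
    · intro z h1 h2
      have hz : 0 ≤ z := by
        by_contra hneg
        push Not at hneg
        nlinarith
      rw [abs_of_pos ha, abs_of_nonneg hz, abs_of_nonneg (by nlinarith)]
      ring
  rcases lt_or_ge b 0 with hb | hb
  · -- `b < 0`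
    refine ⟨b, -1, 0, min 1 ((b - a) / r), ?_, Or.inr rfl, by norm_num, le_rfl,
      lt_min one_pos (div_pos (by linarith) hr), min_le_left _ _, ?_, ?_⟩
    · rw [abs_of_neg hb, max_eq_left ha, max_eq_right (by linarith), zero_add]
    · intro z hz
      rw [le_min_iff, le_div_iff₀ hr]
      have hz1 := (abs_le.1 hz).2
      constructor
      · rintro ⟨h1, -, h2⟩
        constructor <;> nlinarith
      · rintro ⟨h1, h2⟩
        refine ⟨?_, hz1, by linarith⟩
        by_contra hneg
        push Not at hneg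
        nlinarith
    · intro z h1 h2
      have hz : 0 ≤ z := by
        by_contra hneg
        push Not at hneg
        nlinarith
      rw [abs_of_neg hb, abs_of_nonneg hz, abs_of_nonpos (by nlinarith)]
      ring
  have hc0 : |(0 : ℝ)| = max 0 a + max 0 (-b) := by
    rw [abs_zero, max_eq_left ha, max_eq_left (by linarith), add_zero]
  have habs : ∀ σ : ℝ, (σ = 1 ∨ σ = -1) → ∀ z : ℝ, |0 + r * σ * z| = |(0 : ℝ)| + r * |z| := by
    intro σ hσ z
    rw [zero_add, abs_zero, zero_add, abs_mul, abs_mul, abs_of_pos hr]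
    rcases hσ with rfl | rfl <;> simp
  rcases le_total (-a) b with hab' | hab'
  · refine ⟨0, 1, max (-1) (a / r), min 1 (b / r), hc0, Or.inl rfl, le_max_left _ _,
      max_le (by norm_num) (div_nonpos_of_nonpos_of_nonneg ha hr.le), ?_, min_le_left _ _, ?_,
      fun z _ _ => habs 1 (Or.inl rfl) z⟩
    · exact lt_min one_pos (div_pos (by linarith) hr)
    · intro z hz
      have hz1 := abs_le.1 hz
      rw [le_min_iff, max_le_iff, le_div_iff₀ hr, div_le_iff₀ hr]
      constructor
      · rintro ⟨⟨-, h1⟩, -, h2⟩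
        constructor <;> linarith
      · rintro ⟨h1, h2⟩
        exact ⟨⟨hz1.1, by linarith⟩, hz1.2, by linarith⟩
  · refine ⟨0, -1, max (-1) (-b / r), min 1 (-a / r), hc0, Or.inr rfl, le_max_left _ _,
      max_le (by norm_num) (div_nonpos_of_nonpos_of_nonneg (by linarith) hr.le), ?_,
      min_le_left _ _, ?_, fun z _ _ => habs (-1) (Or.inr rfl) z⟩
    · exact lt_min one_pos (div_pos (by linarith) hr)
    · intro z hz
      have hz1 := abs_le.1 hz
      rw [le_min_iff, max_le_iff, le_div_iff₀ hr, div_le_iff₀ hr]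
      constructor
      · rintro ⟨⟨-, h1⟩, -, h2⟩
        constructor <;> linarith
      · rintro ⟨h1, h2⟩
        exact ⟨⟨hz1.1, by linarith⟩, hz1.2, by linarith⟩

lemma abs_le_one_of_mem {a b x : κ → ℝ} (hx : x ∈ Band κ a b) (i : κ) : |x i| ≤ 1 := by
  have h1 := (mem_band_iff_fin.1 hx).1 {i}
  rwa [Finset.sum_singleton] at h1

/-- Translating, rescaling and flipping coordinates reduces the general case to the case
`-1 ≤ A ≤ 0 < B ≤ 1`. -/
lemma reduce {a b : κ → ℝ} (h : Admissible a b) :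
    ∃ A B : κ → ℝ, (∀ i, -1 ≤ A i ∧ A i ≤ 0 ∧ 0 < B i ∧ B i ≤ 1) ∧
      Nonempty (Band κ A B ≃ₜ Band κ a b) := by
  set r : ℝ := 1 - ∑' i, (max 0 (a i) + max 0 (-(b i))) with hr_def
  have hr : 0 < r := by
    have := h.tsum_lt
    linarith
  choose c σ A B hc hσ hA1 hA0 hB0 hB1 hiff habs using fun i => coord (h.lt i) hr
  refine ⟨A, B, fun i => ⟨hA1 i, hA0 i, hB0 i, hB1 i⟩, ?_⟩
  have hne : ∀ i, r * σ i ≠ 0 := by
    intro i
    rcases hσ i with h1 | h1 <;> rw [h1] <;> simp [hr.ne']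
  have hcsum : Summable (fun i => |c i|) := by
    refine h.summable.congr fun i => ?_
    rw [hc]
  have hctsum : ∑' i, |c i| = 1 - r := by
    have : ∑' i, |c i| = ∑' i, (max 0 (a i) + max 0 (-(b i))) := tsum_congr hc
    rw [this, hr_def]
    ring
  let Φ : (κ → ℝ) ≃ₜ (κ → ℝ) := Homeomorph.piCongrRight fun i =>
    (Homeomorph.mulLeft₀ (r * σ i) (hne i)).trans (Homeomorph.addLeft (c i))
  have hΦ : ∀ z i, Φ z i = c i + r * σ i * z i := fun z i => rfl
  refine ⟨Homeomorph.subtype Φ fun z => ?_⟩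
  show z ∈ Band κ A B ↔ Φ z ∈ Band κ a b
  constructor
  · intro hz
    have hz1 := abs_le_one_of_mem hz
    have hb : ∀ i, a i ≤ Φ z i ∧ Φ z i ≤ b i := fun i => by
      rw [hΦ]
      exact (hiff i (z i) (hz1 i)).1 (hz.2.2 i)
    have he : ∀ i, |Φ z i| = |c i| + r * |z i| := fun i => by
      have := hb i
      rw [hΦ] at this ⊢
      exact habs i (z i) this.1 this.2
    have hs : Summable (fun i => |c i| + r * |z i|) := hcsum.add (hz.1.mul_left r)
    refine ⟨?_, ?_, hb⟩
    · exact hs.congr fun i => (he i).symm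
    · rw [tsum_congr he, hcsum.tsum_add (hz.1.mul_left r), tsum_mul_left, hctsum]
      nlinarith [hz.2.1]
  · intro hz
    have hb : ∀ i, a i ≤ Φ z i ∧ Φ z i ≤ b i := hz.2.2
    have he : ∀ i, |Φ z i| = |c i| + r * |z i| := fun i => by
      have := hb i
      rw [hΦ] at this ⊢
      exact habs i (z i) this.1 this.2
    have hs1 : Summable (fun i => r * |z i|) := by
      have := hz.1.sub hcsum
      refine this.congr fun i => ?_
      rw [he]
      ring
    have hs : Summable (fun i => |z i|) := by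
      have := hs1.mul_left r⁻¹
      refine this.congr fun i => ?_
      rw [← mul_assoc, inv_mul_cancel₀ hr.ne', one_mul]
    have hle : ∑' i, |z i| ≤ 1 := by
      have h1 := hz.2.1
      rw [tsum_congr he, hcsum.tsum_add hs1, tsum_mul_left, hctsum] at h1
      by_contra hneg
      push Not at hneg
      nlinarith
    have hz1 : ∀ i, |z i| ≤ 1 := fun i => (hs.le_tsum i (fun _ _ => abs_nonneg _)).trans hle
    refine ⟨hs, hle, fun i => (hiff i (z i) (hz1 i)).2 ?_⟩
    have := hb i
    rwa [hΦ] at this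

/-- Every admissible band space is homeomorphic to `B⁺(κ)`. -/
lemma homeo_pos [Uncountable κ] {a b : κ → ℝ} (h : Admissible a b) :
    Nonempty (Band κ a b ≃ₜ Band κ (fun _ => 0) (fun _ => 1)) := by
  obtain ⟨A, B, hAB, ⟨e1⟩⟩ := reduce h
  obtain ⟨ι, e, he⟩ := exists_partition B (fun i => (hAB i).2.2.1)
  obtain ⟨e2⟩ := band_reindex e A B
  obtain ⟨e3⟩ := band_reindex e (fun _ : κ => (0 : ℝ)) (fun _ => 1)
  have hg : GoodAll (fun i => A (e i)) (fun i => B (e i)) := fun α =>
    { a_nonpos := fun n => (hAB _).2.1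
      b_nonneg := fun n => (hAB _).2.2.1.le
      lt := fun n => (hAB _).2.1.trans_lt (hAB _).2.2.1
      neg_one_le := fun n => (hAB _).1
      le_one := fun n => (hAB _).2.2.2
      not_summable := he α }
  obtain ⟨e4⟩ := homeo_block hg
  exact ⟨e1.symm.trans (e2.symm.trans (e4.trans e3))⟩

end reduction

end Pool.Agent.Lib_helper76.Band
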