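import Pool.Agent.Lib_helper76.IcoAlgKap0

/-!
The components along the test field: the entries of row 2 of `R`.
-/

open Matrix

namespace Pool.Agent.Lib_helper76.Ico

theorem kapq_20 {r : ℝ} (hr : r ^ 2 = 5) (p q : Fin 3 → Fin 3 → ℝ) :
    kc r p q 2 0 0 + kc r p q 2 0 1 + kc r p q 2 0 2 + kc r p q 2 0 3 + kc r p q 2 0 4 + kc r p q
    2 0 5 + kc r p q 2 0 6 + kc r p q 2 0 7 + kc r p q 2 0 8 + kc r p q 2 0 9 =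
      5/6*p 0 0*q 0 2 - 1/2*p 0 0*q 0 2*r + 1/3*p 0 1*p 1 2 - 2/3*p 0 1*p 1 2*r - 2/3*p 0 1*q 1 2
      - p 0 1*q 1 2*r - 1/3*p 0 2*p 1 1 + 2/3*p 0 2*p 1 1*r - 5/6*p 0 2*q 0 0 + 1/2*p 0 2*q 0 0*r
      + 2/3*p 0 2*q 1 1 + p 0 2*q 1 1*r + 13/6*p 1 0*p 2 1 + 1/2*p 1 0*p 2 1*r + 5/6*p 1 0*q 1 2 -
      1/2*p 1 0*q 1 2*r - 11/6*p 1 0*q 2 1 - 1/6*p 1 0*q 2 1*r - 13/6*p 1 1*p 2 0 - 1/2*p 1 1*p 2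
      0*r + 2/3*p 1 1*q 0 2 - 2/3*p 1 1*q 0 2*r + 11/6*p 1 1*q 2 0 + 1/6*p 1 1*q 2 0*r - 2/3*p 1
      2*q 0 1 + 2/3*p 1 2*q 0 1*r - 5/6*p 1 2*q 1 0 + 1/2*p 1 2*q 1 0*r + p 2 0*q 1 1 + p 2 0*q 1
      1*r + 5/6*p 2 0*q 2 2 - 1/2*p 2 0*q 2 2*r - p 2 1*q 1 0 - p 2 1*q 1 0*r - 5/6*p 2 2*q 2 0 +
      1/2*p 2 2*q 2 0*r - 1/3*q 0 1*q 1 2 + 1/3*q 0 2*q 1 1 + 7/6*q 1 0*q 2 1 - 1/2*q 1 0*q 2 1*r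
      - 7/6*q 1 1*q 2 0 + 1/2*q 1 1*q 2 0*r := by
  simp only [kc, fS, fx, fy, fz, fn, fG, Matrix.mulVec, dotProduct, Fin.sum_univ_three, cross_apply,
    Pi.smul_apply, Pi.sub_apply, Pi.add_apply, Pi.neg_apply, smul_eq_mul, Matrix.cons_val_zero,
    Matrix.cons_val_one, Matrix.cons_val, Matrix.of_apply]
  linear_combination (-1/3*p 1 0*q 2 1 + 1/3*p 1 1*q 2 0) * hr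

theorem kap_20 {r : ℝ} (hr : r ^ 2 = 5)
    {K Y : Matrix (Fin 3) (Fin 3) ℝ} {p q : Fin 3 → Fin 3 → ℝ}
    (h10 : K 1 0 = K 0 1) (h20 : K 2 0 = K 0 2) (h21 : K 2 1 = K 1 2)
    (hp : ∀ j i, p j i = K i j + Y i j)
    (hq : ∀ j i, q j i = (1 + r) / 2 * K i j + (1 - r) / 2 * Y i j) :
    kc r p q 2 0 0 + kc r p q 2 0 1 + kc r p q 2 0 2 + kc r p q 2 0 3 + kc r p q 2 0 4 + kc r p q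
    2 0 5 + kc r p q 2 0 6 + kc r p q 2 0 7 + kc r p q 2 0 8 + kc r p q 2 0 9 =
      2 * (5/4*K 0 0*Y 2 0 - 5/12*K 0 0*Y 2 0*r - 5/3*K 0 1*K 1 2 - 5/3*K 0 1*K 1 2*r - 5/4*K 0
      1*Y 1 2 + 5/12*K 0 1*Y 1 2*r + 10/3*K 0 1*Y 2 1 - 5/6*K 0 1*Y 2 1*r + 5/3*K 0 2*K 1 1 +
      5/3*K 0 2*K 1 1*r - 5/4*K 0 2*Y 0 0 + 5/12*K 0 2*Y 0 0*r - 35/12*K 0 2*Y 1 1 + 5/12*K 0 2*Y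
      1 1*r + 5/4*K 0 2*Y 2 2 - 5/12*K 0 2*Y 2 2*r + 5/4*K 1 1*Y 0 2 - 5/12*K 1 1*Y 0 2*r +
      25/12*K 1 1*Y 2 0 + 5/12*K 1 1*Y 2 0*r - 5/12*K 1 2*Y 0 1 + 5/12*K 1 2*Y 0 1*r - 25/12*K 1
      2*Y 1 0 - 5/12*K 1 2*Y 1 0*r - 5/4*K 2 2*Y 0 2 + 5/12*K 2 2*Y 0 2*r + 10/3*Y 0 1*Y 1 2 -
      10/3*Y 0 2*Y 1 1) := by
  rw [kapq_20 hr]
  simp only [hp, hq, h10, h20, h21]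
  linear_combination (1/2*K 0 0*Y 2 0 - 19/24*K 0 1*K 1 2 - 1/8*K 0 1*K 1 2*r - 17/24*K 0 1*Y 1 2
  + 1/8*K 0 1*Y 1 2*r + 17/12*K 0 1*Y 2 1 + 19/24*K 0 2*K 1 1 + 1/8*K 0 2*K 1 1*r - 1/2*K 0 2*Y 0
  0 - 25/24*K 0 2*Y 1 1 - 1/8*K 0 2*Y 1 1*r + 1/2*K 0 2*Y 2 2 + 17/24*K 1 1*Y 0 2 - 1/8*K 1 1*Y 0
  2*r + 3/4*K 1 1*Y 2 0 - 3/8*K 1 2*Y 0 1 + 1/8*K 1 2*Y 0 1*r - 3/4*K 1 2*Y 1 0 - 1/2*K 2 2*Y 0 2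
  + 9/8*Y 0 1*Y 1 2 - 1/8*Y 0 1*Y 1 2*r - 9/8*Y 0 2*Y 1 1 + 1/8*Y 0 2*Y 1 1*r + 1/12*Y 1 0*Y 2 1 -
  1/12*Y 1 1*Y 2 0) * hr

theorem kapq_21 {r : ℝ} (hr : r ^ 2 = 5) (p q : Fin 3 → Fin 3 → ℝ) :
    kc r p q 2 1 0 + kc r p q 2 1 1 + kc r p q 2 1 2 + kc r p q 2 1 3 + kc r p q 2 1 4 + kc r p q
    2 1 5 + kc r p q 2 1 6 + kc r p q 2 1 7 + kc r p q 2 1 8 + kc r p q 2 1 9 =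
      4/3*p 0 0*p 1 2 - p 0 0*p 1 2*r - 1/2*p 0 0*p 2 1 - 7/6*p 0 0*p 2 1*r - p 0 0*q 1 2 - 2/3*p
      0 0*q 1 2*r - 2/3*p 0 0*q 2 1 + 2/3*p 0 0*q 2 1*r + 1/2*p 0 1*p 2 0 + 7/6*p 0 1*p 2 0*r -
      5/6*p 0 1*q 0 2 - 1/2*p 0 1*q 0 2*r + 2/3*p 0 1*q 2 0 - 2/3*p 0 1*q 2 0*r - 4/3*p 0 2*p 1 0
      + p 0 2*p 1 0*r + 5/6*p 0 2*q 0 1 + 1/2*p 0 2*q 0 1*r + p 0 2*q 1 0 + 2/3*p 0 2*q 1 0*r + p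
      1 0*q 0 2 - p 1 0*q 0 2*r - 5/6*p 1 1*q 1 2 - 1/2*p 1 1*q 1 2*r - p 1 2*q 0 0 + p 1 2*q 0
      0*r + 5/6*p 1 2*q 1 1 + 1/2*p 1 2*q 1 1*r - 1/6*p 2 0*q 0 1 - 3/2*p 2 0*q 0 1*r + 1/6*p 2
      1*q 0 0 + 3/2*p 2 1*q 0 0*r - 5/6*p 2 1*q 2 2 - 1/2*p 2 1*q 2 2*r + 5/6*p 2 2*q 2 1 + 1/2*p
      2 2*q 2 1*r + 1/3*q 0 0*q 1 2 - 7/6*q 0 0*q 2 1 - 1/2*q 0 0*q 2 1*r + 7/6*q 0 1*q 2 0 +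
      1/2*q 0 1*q 2 0*r - 1/3*q 0 2*q 1 0 := by
  simp only [kc, fS, fx, fy, fz, fn, fG, Matrix.mulVec, dotProduct, Fin.sum_univ_three, cross_apply,
    Pi.smul_apply, Pi.sub_apply, Pi.add_apply, Pi.neg_apply, smul_eq_mul, Matrix.cons_val_zero,
    Matrix.cons_val_one, Matrix.cons_val, Matrix.of_apply]
  linear_combination (1/3*p 0 0*p 2 1 - 1/3*p 0 0*q 2 1 - 1/3*p 0 1*p 2 0 + 1/3*p 0 1*q 2 0) * hr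

theorem kap_21 {r : ℝ} (hr : r ^ 2 = 5)
    {K Y : Matrix (Fin 3) (Fin 3) ℝ} {p q : Fin 3 → Fin 3 → ℝ}
    (h10 : K 1 0 = K 0 1) (h20 : K 2 0 = K 0 2) (h21 : K 2 1 = K 1 2)
    (hp : ∀ j i, p j i = K i j + Y i j)
    (hq : ∀ j i, q j i = (1 + r) / 2 * K i j + (1 - r) / 2 * Y i j) :
    kc r p q 2 1 0 + kc r p q 2 1 1 + kc r p q 2 1 2 + kc r p q 2 1 3 + kc r p q 2 1 4 + kc r p q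
    2 1 5 + kc r p q 2 1 6 + kc r p q 2 1 7 + kc r p q 2 1 8 + kc r p q 2 1 9 =
      2 * (5/3*K 0 0*K 1 2 - 5/3*K 0 0*K 1 2*r + 5/4*K 0 0*Y 1 2 + 5/12*K 0 0*Y 1 2*r + 25/12*K 0
      0*Y 2 1 - 5/12*K 0 0*Y 2 1*r - 5/3*K 0 1*K 0 2 + 5/3*K 0 1*K 0 2*r - 5/4*K 0 1*Y 0 2 -
      5/12*K 0 1*Y 0 2*r + 10/3*K 0 1*Y 2 0 + 5/6*K 0 1*Y 2 0*r - 25/12*K 0 2*Y 0 1 + 5/12*K 0 2*Y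
      0 1*r - 5/12*K 0 2*Y 1 0 - 5/12*K 0 2*Y 1 0*r + 5/4*K 1 1*Y 2 1 + 5/12*K 1 1*Y 2 1*r -
      35/12*K 1 2*Y 0 0 - 5/12*K 1 2*Y 0 0*r - 5/4*K 1 2*Y 1 1 - 5/12*K 1 2*Y 1 1*r + 5/4*K 1 2*Y
      2 2 + 5/12*K 1 2*Y 2 2*r - 5/4*K 2 2*Y 1 2 - 5/12*K 2 2*Y 1 2*r - 10/3*Y 0 0*Y 1 2 + 10/3*Y
      0 2*Y 1 0) := by
  rw [kapq_21 hr]
  simp only [hp, hq, h10, h20, h21]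
  linear_combination (19/24*K 0 0*K 1 2 - 1/8*K 0 0*K 1 2*r + 17/24*K 0 0*Y 1 2 + 1/8*K 0 0*Y 1
  2*r + 3/4*K 0 0*Y 2 1 - 19/24*K 0 1*K 0 2 + 1/8*K 0 1*K 0 2*r - 17/24*K 0 1*Y 0 2 - 1/8*K 0 1*Y
  0 2*r + 17/12*K 0 1*Y 2 0 - 3/4*K 0 2*Y 0 1 - 3/8*K 0 2*Y 1 0 - 1/8*K 0 2*Y 1 0*r + 1/2*K 1 1*Y
  2 1 - 25/24*K 1 2*Y 0 0 + 1/8*K 1 2*Y 0 0*r - 1/2*K 1 2*Y 1 1 + 1/2*K 1 2*Y 2 2 - 1/2*K 2 2*Y 1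
  2 - 9/8*Y 0 0*Y 1 2 - 1/8*Y 0 0*Y 1 2*r - 1/12*Y 0 0*Y 2 1 + 1/12*Y 0 1*Y 2 0 + 9/8*Y 0 2*Y 1 0
  + 1/8*Y 0 2*Y 1 0*r) * hr

theorem kapq_22 {r : ℝ} (hr : r ^ 2 = 5) (p q : Fin 3 → Fin 3 → ℝ) :
    kc r p q 2 2 0 + kc r p q 2 2 1 + kc r p q 2 2 2 + kc r p q 2 2 3 + kc r p q 2 2 4 + kc r p q
    2 2 5 + kc r p q 2 2 6 + kc r p q 2 2 7 + kc r p q 2 2 8 + kc r p q 2 2 9 =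
      10/3*p 0 0*p 1 1 + 1/3*p 0 0*p 1 1*r + 5/6*p 0 0*p 2 2 - 1/6*p 0 0*p 2 2*r - 1/3*p 0 0*q 1
      1*r - 5/3*p 0 0*q 2 2 - 1/3*p 0 0*q 2 2*r - 10/3*p 0 1*p 1 0 - 1/3*p 0 1*p 1 0*r + 1/3*p 0
      1*q 1 0*r - 5/6*p 0 2*p 2 0 + 1/6*p 0 2*p 2 0*r + 5/3*p 0 2*q 2 0 + 1/3*p 0 2*q 2 0*r +
      5/3*p 1 0*q 0 1 + 1/3*p 1 0*q 0 1*r - 5/6*p 1 1*p 2 2 + 1/2*p 1 1*p 2 2*r - 5/3*p 1 1*q 0 0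
      - 1/3*p 1 1*q 0 0*r + 5/2*p 1 1*q 2 2 - 5/6*p 1 1*q 2 2*r + 5/6*p 1 2*p 2 1 - 1/2*p 1 2*p 2
      1*r - 5/2*p 1 2*q 2 1 + 5/6*p 1 2*q 2 1*r - 5/6*p 2 0*q 0 2 - 1/2*p 2 0*q 0 2*r + 5/6*p 2
      2*q 0 0 + 1/2*p 2 2*q 0 0*r + 5/3*q 0 0*q 1 1 - 5/6*q 0 0*q 2 2 - 1/2*q 0 0*q 2 2*r - 5/3*q
      0 1*q 1 0 + 5/6*q 0 2*q 2 0 + 1/2*q 0 2*q 2 0*r - 5/6*q 1 1*q 2 2 + 1/2*q 1 1*q 2 2*r +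
      5/6*q 1 2*q 2 1 - 1/2*q 1 2*q 2 1*r := by
  simp only [kc, fS, fx, fy, fz, fn, fG, Matrix.mulVec, dotProduct, Fin.sum_univ_three, cross_apply,
    Pi.smul_apply, Pi.sub_apply, Pi.add_apply, Pi.neg_apply, smul_eq_mul, Matrix.cons_val_zero,
    Matrix.cons_val_one, Matrix.cons_val, Matrix.of_apply]
  linear_combination (1/3*p 0 0*p 2 2 - 1/3*p 0 0*q 2 2 - 1/3*p 0 2*p 2 0 + 1/3*p 0 2*q 2 0 +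
  1/3*p 1 1*q 2 2 - 1/3*p 1 2*q 2 1) * hr

theorem kap_22 {r : ℝ} (hr : r ^ 2 = 5)
    {K Y : Matrix (Fin 3) (Fin 3) ℝ} {p q : Fin 3 → Fin 3 → ℝ}
    (h10 : K 1 0 = K 0 1) (h20 : K 2 0 = K 0 2) (h21 : K 2 1 = K 1 2)
    (hp : ∀ j i, p j i = K i j + Y i j)
    (hq : ∀ j i, q j i = (1 + r) / 2 * K i j + (1 - r) / 2 * Y i j) :
    kc r p q 2 2 0 + kc r p q 2 2 1 + kc r p q 2 2 2 + kc r p q 2 2 3 + kc r p q 2 2 4 + kc r p q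
    2 2 5 + kc r p q 2 2 6 + kc r p q 2 2 7 + kc r p q 2 2 8 + kc r p q 2 2 9 =
      2 * (5/3*K 0 0*K 1 1 - 5/6*K 0 0*K 2 2 - 5/6*K 0 0*K 2 2*r + 5/12*K 0 0*Y 1 1 - 5/12*K 0 0*Y
      1 1*r + 5/3*K 0 0*Y 2 2 + 5/6*K 0 0*Y 2 2*r - 5/3*K 0 1*K 0 1 - 5/12*K 0 1*Y 0 1 + 5/12*K 0
      1*Y 0 1*r - 5/12*K 0 1*Y 1 0 - 5/12*K 0 1*Y 1 0*r + 5/6*K 0 2*K 0 2 + 5/6*K 0 2*K 0 2*r -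
      5/3*K 0 2*Y 0 2 - 5/6*K 0 2*Y 0 2*r + 5/12*K 0 2*Y 2 0 + 5/12*K 0 2*Y 2 0*r - 5/6*K 1 1*K 2
      2 + 5/6*K 1 1*K 2 2*r + 5/12*K 1 1*Y 0 0 + 5/12*K 1 1*Y 0 0*r + 5/3*K 1 1*Y 2 2 - 5/6*K 1
      1*Y 2 2*r + 5/6*K 1 2*K 1 2 - 5/6*K 1 2*K 1 2*r - 5/3*K 1 2*Y 1 2 + 5/6*K 1 2*Y 1 2*r +
      5/12*K 1 2*Y 2 1 - 5/12*K 1 2*Y 2 1*r - 5/12*K 2 2*Y 0 0 - 5/12*K 2 2*Y 0 0*r - 5/12*K 2 2*Y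
      1 1 + 5/12*K 2 2*Y 1 1*r + 10/3*Y 0 0*Y 1 1 - 10/3*Y 0 1*Y 1 0) := by
  rw [kapq_22 hr]
  simp only [hp, hq, h10, h20, h21]
  linear_combination (1/12*K 0 0*K 1 1 - 3/8*K 0 0*K 2 2 - 1/8*K 0 0*K 2 2*r - 5/12*K 0 0*Y 1 1 +
  5/8*K 0 0*Y 2 2 + 1/8*K 0 0*Y 2 2*r - 1/12*K 0 1*K 0 1 + 5/12*K 0 1*Y 0 1 + 5/12*K 0 1*Y 1 0 +
  3/8*K 0 2*K 0 2 + 1/8*K 0 2*K 0 2*r - 5/8*K 0 2*Y 0 2 - 1/8*K 0 2*Y 0 2*r + 5/24*K 0 2*Y 2 0 -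
  1/8*K 0 2*Y 2 0*r - 3/8*K 1 1*K 2 2 + 1/8*K 1 1*K 2 2*r - 5/12*K 1 1*Y 0 0 + 5/8*K 1 1*Y 2 2 -
  1/8*K 1 1*Y 2 2*r + 3/8*K 1 2*K 1 2 - 1/8*K 1 2*K 1 2*r - 5/8*K 1 2*Y 1 2 + 1/8*K 1 2*Y 1 2*r +
  5/24*K 1 2*Y 2 1 + 1/8*K 1 2*Y 2 1*r - 5/24*K 2 2*Y 0 0 + 1/8*K 2 2*Y 0 0*r - 5/24*K 2 2*Y 1 1 -
  1/8*K 2 2*Y 1 1*r + 3/4*Y 0 0*Y 1 1 - 1/24*Y 0 0*Y 2 2 - 1/8*Y 0 0*Y 2 2*r - 3/4*Y 0 1*Y 1 0 +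
  1/24*Y 0 2*Y 2 0 + 1/8*Y 0 2*Y 2 0*r - 1/24*Y 1 1*Y 2 2 + 1/8*Y 1 1*Y 2 2*r + 1/24*Y 1 2*Y 2 1 -
  1/8*Y 1 2*Y 2 1*r) * hr

end Pool.Agent.Lib_helper76.Ico
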