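import Pool.Agent.Lib_helper76.IcoAlgKap1
import Pool.Agent.Lib_helper76.IcoAlgKap2
import Pool.Agent.Lib_helper76.IcoAlgKap3

/-!
Algebraic identities for the icosahedron: the components along the test field.
-/

open Matrix

namespace Pool.Agent.Lib_helper76.Ico

theorem kap_rhs {K : Matrix (Fin 3) (Fin 3) ℝ} (h10 : K 1 0 = K 0 1) (h20 : K 2 0 = K 0 2)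
    (h21 : K 2 1 = K 1 2) (r : ℝ) (Y R : Matrix (Fin 3) (Fin 3) ℝ) :
    R 0 0 * (-5/6*K 0 0*K 1 1 - 5/6*K 0 0*K 1 1*r - 5/6*K 0 0*K 2 2 + 5/6*K 0 0*K 2 2*r - 5/12*K 0
    0*Y 1 1 - 5/12*K 0 0*Y 1 1*r - 5/12*K 0 0*Y 2 2 + 5/12*K 0 0*Y 2 2*r + 5/6*K 0 1*K 0 1 + 5/6*K
    0 1*K 0 1*r + 5/12*K 0 1*Y 0 1 + 5/12*K 0 1*Y 0 1*r - 5/3*K 0 1*Y 1 0 - 5/6*K 0 1*Y 1 0*r +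
    5/6*K 0 2*K 0 2 - 5/6*K 0 2*K 0 2*r + 5/12*K 0 2*Y 0 2 - 5/12*K 0 2*Y 0 2*r - 5/3*K 0 2*Y 2 0
    + 5/6*K 0 2*Y 2 0*r + 5/3*K 1 1*K 2 2 + 5/3*K 1 1*Y 0 0 + 5/6*K 1 1*Y 0 0*r + 5/12*K 1 1*Y 2 2
    - 5/12*K 1 1*Y 2 2*r - 5/3*K 1 2*K 1 2 - 5/12*K 1 2*Y 1 2 + 5/12*K 1 2*Y 1 2*r - 5/12*K 1 2*Y
    2 1 - 5/12*K 1 2*Y 2 1*r + 5/3*K 2 2*Y 0 0 - 5/6*K 2 2*Y 0 0*r + 5/12*K 2 2*Y 1 1 + 5/12*K 2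
    2*Y 1 1*r + 10/3*Y 1 1*Y 2 2 - 10/3*Y 1 2*Y 2 1) + R 0 1 * (-5/4*K 0 0*Y 1 0 + 5/12*K 0 0*Y 1
    0*r + 5/3*K 0 1*K 2 2 + 5/3*K 0 1*K 2 2*r + 5/4*K 0 1*Y 0 0 - 5/12*K 0 1*Y 0 0*r - 5/4*K 0 1*Y
    1 1 + 5/12*K 0 1*Y 1 1*r - 35/12*K 0 1*Y 2 2 + 5/12*K 0 1*Y 2 2*r - 5/3*K 0 2*K 1 2 - 5/3*K 0
    2*K 1 2*r - 5/12*K 0 2*Y 1 2 + 5/12*K 0 2*Y 1 2*r - 25/12*K 0 2*Y 2 1 - 5/12*K 0 2*Y 2 1*r +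
    5/4*K 1 1*Y 0 1 - 5/12*K 1 1*Y 0 1*r + 10/3*K 1 2*Y 0 2 - 5/6*K 1 2*Y 0 2*r - 5/4*K 1 2*Y 2 0
    + 5/12*K 1 2*Y 2 0*r + 25/12*K 2 2*Y 0 1 + 5/12*K 2 2*Y 0 1*r + 5/4*K 2 2*Y 1 0 - 5/12*K 2 2*Y
    1 0*r - 10/3*Y 1 0*Y 2 2 + 10/3*Y 1 2*Y 2 0) + R 0 2 * (-5/4*K 0 0*Y 2 0 - 5/12*K 0 0*Y 2 0*r
    - 5/3*K 0 1*K 1 2 + 5/3*K 0 1*K 1 2*r - 25/12*K 0 1*Y 1 2 + 5/12*K 0 1*Y 1 2*r - 5/12*K 0 1*Y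
    2 1 - 5/12*K 0 1*Y 2 1*r + 5/3*K 0 2*K 1 1 - 5/3*K 0 2*K 1 1*r + 5/4*K 0 2*Y 0 0 + 5/12*K 0
    2*Y 0 0*r - 35/12*K 0 2*Y 1 1 - 5/12*K 0 2*Y 1 1*r - 5/4*K 0 2*Y 2 2 - 5/12*K 0 2*Y 2 2*r +
    25/12*K 1 1*Y 0 2 - 5/12*K 1 1*Y 0 2*r + 5/4*K 1 1*Y 2 0 + 5/12*K 1 1*Y 2 0*r + 10/3*K 1 2*Y 0
    1 + 5/6*K 1 2*Y 0 1*r - 5/4*K 1 2*Y 1 0 - 5/12*K 1 2*Y 1 0*r + 5/4*K 2 2*Y 0 2 + 5/12*K 2 2*Y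
    0 2*r + 10/3*Y 1 0*Y 2 1 - 10/3*Y 1 1*Y 2 0) + R 1 0 * (5/4*K 0 0*Y 1 0 + 5/12*K 0 0*Y 1 0*r +
    5/3*K 0 1*K 2 2 - 5/3*K 0 1*K 2 2*r - 5/4*K 0 1*Y 0 0 - 5/12*K 0 1*Y 0 0*r + 5/4*K 0 1*Y 1 1 +
    5/12*K 0 1*Y 1 1*r - 35/12*K 0 1*Y 2 2 - 5/12*K 0 1*Y 2 2*r - 5/3*K 0 2*K 1 2 + 5/3*K 0 2*K 1
    2*r + 10/3*K 0 2*Y 1 2 + 5/6*K 0 2*Y 1 2*r - 5/4*K 0 2*Y 2 1 - 5/12*K 0 2*Y 2 1*r - 5/4*K 1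
    1*Y 0 1 - 5/12*K 1 1*Y 0 1*r - 5/12*K 1 2*Y 0 2 - 5/12*K 1 2*Y 0 2*r - 25/12*K 1 2*Y 2 0 +
    5/12*K 1 2*Y 2 0*r + 5/4*K 2 2*Y 0 1 + 5/12*K 2 2*Y 0 1*r + 25/12*K 2 2*Y 1 0 - 5/12*K 2 2*Y 1
    0*r - 10/3*Y 0 1*Y 2 2 + 10/3*Y 0 2*Y 2 1) + R 1 1 * (-5/6*K 0 0*K 1 1 + 5/6*K 0 0*K 1 1*r +
    5/3*K 0 0*K 2 2 + 5/3*K 0 0*Y 1 1 - 5/6*K 0 0*Y 1 1*r + 5/12*K 0 0*Y 2 2 + 5/12*K 0 0*Y 2 2*r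
    + 5/6*K 0 1*K 0 1 - 5/6*K 0 1*K 0 1*r - 5/3*K 0 1*Y 0 1 + 5/6*K 0 1*Y 0 1*r + 5/12*K 0 1*Y 1 0
    - 5/12*K 0 1*Y 1 0*r - 5/3*K 0 2*K 0 2 - 5/12*K 0 2*Y 0 2 - 5/12*K 0 2*Y 0 2*r - 5/12*K 0 2*Y
    2 0 + 5/12*K 0 2*Y 2 0*r - 5/6*K 1 1*K 2 2 - 5/6*K 1 1*K 2 2*r - 5/12*K 1 1*Y 0 0 + 5/12*K 1
    1*Y 0 0*r - 5/12*K 1 1*Y 2 2 - 5/12*K 1 1*Y 2 2*r + 5/6*K 1 2*K 1 2 + 5/6*K 1 2*K 1 2*r +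
    5/12*K 1 2*Y 1 2 + 5/12*K 1 2*Y 1 2*r - 5/3*K 1 2*Y 2 1 - 5/6*K 1 2*Y 2 1*r + 5/12*K 2 2*Y 0 0
    - 5/12*K 2 2*Y 0 0*r + 5/3*K 2 2*Y 1 1 + 5/6*K 2 2*Y 1 1*r + 10/3*Y 0 0*Y 2 2 - 10/3*Y 0 2*Y 2
    0) + R 1 2 * (5/3*K 0 0*K 1 2 + 5/3*K 0 0*K 1 2*r + 25/12*K 0 0*Y 1 2 + 5/12*K 0 0*Y 1 2*r +
    5/4*K 0 0*Y 2 1 - 5/12*K 0 0*Y 2 1*r - 5/3*K 0 1*K 0 2 - 5/3*K 0 1*K 0 2*r - 25/12*K 0 1*Y 0 2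
    - 5/12*K 0 1*Y 0 2*r - 5/12*K 0 1*Y 2 0 + 5/12*K 0 1*Y 2 0*r - 5/4*K 0 2*Y 0 1 + 5/12*K 0 2*Y
    0 1*r + 10/3*K 0 2*Y 1 0 - 5/6*K 0 2*Y 1 0*r - 5/4*K 1 1*Y 2 1 + 5/12*K 1 1*Y 2 1*r - 35/12*K
    1 2*Y 0 0 + 5/12*K 1 2*Y 0 0*r + 5/4*K 1 2*Y 1 1 - 5/12*K 1 2*Y 1 1*r - 5/4*K 1 2*Y 2 2 +
    5/12*K 1 2*Y 2 2*r + 5/4*K 2 2*Y 1 2 - 5/12*K 2 2*Y 1 2*r - 10/3*Y 0 0*Y 2 1 + 10/3*Y 0 1*Y 2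
    0) + R 2 0 * (5/4*K 0 0*Y 2 0 - 5/12*K 0 0*Y 2 0*r - 5/3*K 0 1*K 1 2 - 5/3*K 0 1*K 1 2*r -
    5/4*K 0 1*Y 1 2 + 5/12*K 0 1*Y 1 2*r + 10/3*K 0 1*Y 2 1 - 5/6*K 0 1*Y 2 1*r + 5/3*K 0 2*K 1 1
    + 5/3*K 0 2*K 1 1*r - 5/4*K 0 2*Y 0 0 + 5/12*K 0 2*Y 0 0*r - 35/12*K 0 2*Y 1 1 + 5/12*K 0 2*Y
    1 1*r + 5/4*K 0 2*Y 2 2 - 5/12*K 0 2*Y 2 2*r + 5/4*K 1 1*Y 0 2 - 5/12*K 1 1*Y 0 2*r + 25/12*K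
    1 1*Y 2 0 + 5/12*K 1 1*Y 2 0*r - 5/12*K 1 2*Y 0 1 + 5/12*K 1 2*Y 0 1*r - 25/12*K 1 2*Y 1 0 -
    5/12*K 1 2*Y 1 0*r - 5/4*K 2 2*Y 0 2 + 5/12*K 2 2*Y 0 2*r + 10/3*Y 0 1*Y 1 2 - 10/3*Y 0 2*Y 1
    1) + R 2 1 * (5/3*K 0 0*K 1 2 - 5/3*K 0 0*K 1 2*r + 5/4*K 0 0*Y 1 2 + 5/12*K 0 0*Y 1 2*r +
    25/12*K 0 0*Y 2 1 - 5/12*K 0 0*Y 2 1*r - 5/3*K 0 1*K 0 2 + 5/3*K 0 1*K 0 2*r - 5/4*K 0 1*Y 0 2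
    - 5/12*K 0 1*Y 0 2*r + 10/3*K 0 1*Y 2 0 + 5/6*K 0 1*Y 2 0*r - 25/12*K 0 2*Y 0 1 + 5/12*K 0 2*Y
    0 1*r - 5/12*K 0 2*Y 1 0 - 5/12*K 0 2*Y 1 0*r + 5/4*K 1 1*Y 2 1 + 5/12*K 1 1*Y 2 1*r - 35/12*K
    1 2*Y 0 0 - 5/12*K 1 2*Y 0 0*r - 5/4*K 1 2*Y 1 1 - 5/12*K 1 2*Y 1 1*r + 5/4*K 1 2*Y 2 2 +
    5/12*K 1 2*Y 2 2*r - 5/4*K 2 2*Y 1 2 - 5/12*K 2 2*Y 1 2*r - 10/3*Y 0 0*Y 1 2 + 10/3*Y 0 2*Y 1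
    0) + R 2 2 * (5/3*K 0 0*K 1 1 - 5/6*K 0 0*K 2 2 - 5/6*K 0 0*K 2 2*r + 5/12*K 0 0*Y 1 1 -
    5/12*K 0 0*Y 1 1*r + 5/3*K 0 0*Y 2 2 + 5/6*K 0 0*Y 2 2*r - 5/3*K 0 1*K 0 1 - 5/12*K 0 1*Y 0 1
    + 5/12*K 0 1*Y 0 1*r - 5/12*K 0 1*Y 1 0 - 5/12*K 0 1*Y 1 0*r + 5/6*K 0 2*K 0 2 + 5/6*K 0 2*K 0
    2*r - 5/3*K 0 2*Y 0 2 - 5/6*K 0 2*Y 0 2*r + 5/12*K 0 2*Y 2 0 + 5/12*K 0 2*Y 2 0*r - 5/6*K 1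
    1*K 2 2 + 5/6*K 1 1*K 2 2*r + 5/12*K 1 1*Y 0 0 + 5/12*K 1 1*Y 0 0*r + 5/3*K 1 1*Y 2 2 - 5/6*K
    1 1*Y 2 2*r + 5/6*K 1 2*K 1 2 - 5/6*K 1 2*K 1 2*r - 5/3*K 1 2*Y 1 2 + 5/6*K 1 2*Y 1 2*r +
    5/12*K 1 2*Y 2 1 - 5/12*K 1 2*Y 2 1*r - 5/12*K 2 2*Y 0 0 - 5/12*K 2 2*Y 0 0*r - 5/12*K 2 2*Y 1
    1 + 5/12*K 2 2*Y 1 1*r + 10/3*Y 0 0*Y 1 1 - 10/3*Y 0 1*Y 1 0) =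
      10 * ip (cof K) (Wm r R) + 30 * ip Y (Psi r K R) + 10 / 3 * ip (cof Y) R := by
  simp only [Fin.sum_univ_three, Matrix.cons_val_zero, Matrix.cons_val_one, Matrix.cons_val,
    Matrix.of_apply, ip, cof, Wm, Psi, h10, h20, h21]
  ring

/-- Total of the components along the test field. -/
theorem ident_kap {r : ℝ} (hr : r ^ 2 = 5)
    {K Y R : Matrix (Fin 3) (Fin 3) ℝ} {p q : Fin 3 → Fin 3 → ℝ}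
    (h10 : K 1 0 = K 0 1) (h20 : K 2 0 = K 0 2) (h21 : K 2 1 = K 1 2)
    (hp : ∀ j i, p j i = K i j + Y i j)
    (hq : ∀ j i, q j i = (1 + r) / 2 * K i j + (1 - r) / 2 * Y i j) :
    fS (fx p q 0) (fy p q 0) (fz p q 0) ⬝ᵥ kap R (fG r 0) (fn r 0) (fn (-r) 0)
      + fS (fx p q 1) (fy p q 1) (fz p q 1) ⬝ᵥ kap R (fG r 1) (fn r 1) (fn (-r) 1)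
      + fS (fx p q 2) (fy p q 2) (fz p q 2) ⬝ᵥ kap R (fG r 2) (fn r 2) (fn (-r) 2)
      + fS (fx p q 3) (fy p q 3) (fz p q 3) ⬝ᵥ kap R (fG r 3) (fn r 3) (fn (-r) 3)
      + fS (fx p q 4) (fy p q 4) (fz p q 4) ⬝ᵥ kap R (fG r 4) (fn r 4) (fn (-r) 4)
      + fS (fx p q 5) (fy p q 5) (fz p q 5) ⬝ᵥ kap R (fG r 5) (fn r 5) (fn (-r) 5)
      + fS (fx p q 6) (fy p q 6) (fz p q 6) ⬝ᵥ kap R (fG r 6) (fn r 6) (fn (-r) 6)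
      + fS (fx p q 7) (fy p q 7) (fz p q 7) ⬝ᵥ kap R (fG r 7) (fn r 7) (fn (-r) 7)
      + fS (fx p q 8) (fy p q 8) (fz p q 8) ⬝ᵥ kap R (fG r 8) (fn r 8) (fn (-r) 8)
      + fS (fx p q 9) (fy p q 9) (fz p q 9) ⬝ᵥ kap R (fG r 9) (fn r 9) (fn (-r) 9)
    = 10 * ip (cof K) (Wm r R) + 30 * ip Y (Psi r K R) + 10 / 3 * ip (cof Y) R := by
  simp only [kap_face]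
  rw [← kap_rhs h10 h20 h21]
  linear_combination R 0 0 / 2 * kap_00 hr h10 h20 h21 hp hq + R 0 1 / 2 * kap_01 hr h10 h20 h21 hp hq + R 0 2 / 2 * kap_02 hr h10 h20 h21 hp hq
    + R 1 0 / 2 * kap_10 hr h10 h20 h21 hp hq + R 1 1 / 2 * kap_11 hr h10 h20 h21 hp hq + R 1 2 / 2 * kap_12 hr h10 h20 h21 hp hq
    + R 2 0 / 2 * kap_20 hr h10 h20 h21 hp hq + R 2 1 / 2 * kap_21 hr h10 h20 h21 hp hq + R 2 2 / 2 * kap_22 hr h10 h20 h21 hp hq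

end Pool.Agent.Lib_helper76.Ico
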