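import Pool.Agent.Lib_helper76.IcoAlgDefs

/-!
Algebraic identities for the icosahedron: the normal components.
-/

open Matrix

namespace Pool.Agent.Lib_helper76.Ico

/-- Total of the normal components. -/
theorem ident_n {r : ℝ} (hr : r ^ 2 = 5)
    {K Y : Matrix (Fin 3) (Fin 3) ℝ} {p q : Fin 3 → Fin 3 → ℝ}
    (h10 : K 1 0 = K 0 1) (h20 : K 2 0 = K 0 2) (h21 : K 2 1 = K 1 2)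
    (hp : ∀ j i, p j i = K i j + Y i j)
    (hq : ∀ j i, q j i = (1 + r) / 2 * K i j + (1 - r) / 2 * Y i j) :
    fS (fx p q 0) (fy p q 0) (fz p q 0) ⬝ᵥ fn r 0
      + fS (fx p q 1) (fy p q 1) (fz p q 1) ⬝ᵥ fn r 1
      + fS (fx p q 2) (fy p q 2) (fz p q 2) ⬝ᵥ fn r 2
      + fS (fx p q 3) (fy p q 3) (fz p q 3) ⬝ᵥ fn r 3
      + fS (fx p q 4) (fy p q 4) (fz p q 4) ⬝ᵥ fn r 4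
      + fS (fx p q 5) (fy p q 5) (fz p q 5) ⬝ᵥ fn r 5
      + fS (fx p q 6) (fy p q 6) (fz p q 6) ⬝ᵥ fn r 6
      + fS (fx p q 7) (fy p q 7) (fz p q 7) ⬝ᵥ fn r 7
      + fS (fx p q 8) (fy p q 8) (fz p q 8) ⬝ᵥ fn r 8
      + fS (fx p q 9) (fy p q 9) (fz p q 9) ⬝ᵥ fn r 9
    = 10 * (cof K 0 0 + cof K 1 1 + cof K 2 2) := by
  simp only [fS, kap, fx, fy, fz, fn, fG, dotProduct, Matrix.mulVec, Fin.sum_univ_three, cross_apply,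
    Pi.smul_apply, Pi.sub_apply, Pi.add_apply, Pi.neg_apply, smul_eq_mul, Matrix.cons_val_zero,
    Matrix.cons_val_one, Matrix.cons_val, Matrix.transpose_apply, Matrix.of_apply, hp, hq, ip, cof, Wm, Psi,
    h10, h20, h21]
  linear_combination (-1/2*Y 0 0*Y 1 1 - 1/2*Y 0 0*Y 2 2 - 1/2*Y 0 0*K 1 1 - 1/2*Y 0 0*K 2 2 + 1/2*Y 0 1*Y 1 0 +
    1/2*Y 0 1*K 0 1 + 1/2*Y 0 2*Y 2 0 + 1/2*Y 0 2*K 0 2 + 1/2*Y 1 0*K 0 1 - 1/2*Y 1 1*Y 2 2 -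
    1/2*Y 1 1*K 0 0 - 1/2*Y 1 1*K 2 2 + 1/2*Y 1 2*Y 2 1 + 1/2*Y 1 2*K 1 2 + 1/2*Y 2 0*K 0 2 +
    1/2*Y 2 1*K 1 2 - 1/2*Y 2 2*K 0 0 - 1/2*Y 2 2*K 1 1 + 3/2*K 0 0*K 1 1 + 3/2*K 0 0*K 2 2 +
    3/2*K 1 1*K 2 2 - 3/2*K 1 2^2 - 3/2*K 0 2^2 - 3/2*K 0 1^2) * hr

/-- Total of the conjugate normal components. -/
theorem ident_nt {r : ℝ} (hr : r ^ 2 = 5)
    {K Y R : Matrix (Fin 3) (Fin 3) ℝ} {p q : Fin 3 → Fin 3 → ℝ}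
    (h10 : K 1 0 = K 0 1) (h20 : K 2 0 = K 0 2) (h21 : K 2 1 = K 1 2)
    (hp : ∀ j i, p j i = K i j + Y i j)
    (hq : ∀ j i, q j i = (1 + r) / 2 * K i j + (1 - r) / 2 * Y i j) :
    fS (fx p q 0) (fy p q 0) (fz p q 0) ⬝ᵥ (R *ᵥ fn (-r) 0)
      + fS (fx p q 1) (fy p q 1) (fz p q 1) ⬝ᵥ (R *ᵥ fn (-r) 1)
      + fS (fx p q 2) (fy p q 2) (fz p q 2) ⬝ᵥ (R *ᵥ fn (-r) 2)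
      + fS (fx p q 3) (fy p q 3) (fz p q 3) ⬝ᵥ (R *ᵥ fn (-r) 3)
      + fS (fx p q 4) (fy p q 4) (fz p q 4) ⬝ᵥ (R *ᵥ fn (-r) 4)
      + fS (fx p q 5) (fy p q 5) (fz p q 5) ⬝ᵥ (R *ᵥ fn (-r) 5)
      + fS (fx p q 6) (fy p q 6) (fz p q 6) ⬝ᵥ (R *ᵥ fn (-r) 6)
      + fS (fx p q 7) (fy p q 7) (fz p q 7) ⬝ᵥ (R *ᵥ fn (-r) 7)
      + fS (fx p q 8) (fy p q 8) (fz p q 8) ⬝ᵥ (R *ᵥ fn (-r) 8)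
      + fS (fx p q 9) (fy p q 9) (fz p q 9) ⬝ᵥ (R *ᵥ fn (-r) 9)
    = 10 * ip (cof Y) R := by
  simp only [fS, kap, fx, fy, fz, fn, fG, dotProduct, Matrix.mulVec, Fin.sum_univ_three, cross_apply,
    Pi.smul_apply, Pi.sub_apply, Pi.add_apply, Pi.neg_apply, smul_eq_mul, Matrix.cons_val_zero,
    Matrix.cons_val_one, Matrix.cons_val, Matrix.transpose_apply, Matrix.of_apply, hp, hq, ip, cof, Wm, Psi,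
    h10, h20, h21]
  linear_combination (3/2*Y 0 0*Y 1 1*R 2 2 - 3/2*Y 0 0*Y 1 2*R 2 1 - 3/2*Y 0 0*Y 2 1*R 1 2 + 3/2*Y 0 0*Y 2 2*R 1
    1 - 1/2*Y 0 0*R 1 1*K 2 2 + 1/2*Y 0 0*R 1 2*K 1 2 + 1/2*Y 0 0*R 2 1*K 1 2 - 1/2*Y 0 0*R 2
    2*K 1 1 - 3/2*Y 0 1*Y 1 0*R 2 2 + 3/2*Y 0 1*Y 1 2*R 2 0 + 3/2*Y 0 1*Y 2 0*R 1 2 - 3/2*Y 0
    1*Y 2 2*R 1 0 + 1/2*Y 0 1*R 1 0*K 2 2 - 1/2*Y 0 1*R 1 2*K 0 2 - 1/2*Y 0 1*R 2 0*K 1 2 +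
    1/2*Y 0 1*R 2 2*K 0 1 + 3/2*Y 0 2*Y 1 0*R 2 1 - 3/2*Y 0 2*Y 1 1*R 2 0 - 3/2*Y 0 2*Y 2 0*R 1
    1 + 3/2*Y 0 2*Y 2 1*R 1 0 - 1/2*Y 0 2*R 1 0*K 1 2 + 1/2*Y 0 2*R 1 1*K 0 2 + 1/2*Y 0 2*R 2
    0*K 1 1 - 1/2*Y 0 2*R 2 1*K 0 1 + 3/2*Y 1 0*Y 2 1*R 0 2 - 3/2*Y 1 0*Y 2 2*R 0 1 + 1/2*Y 1
    0*R 0 1*K 2 2 - 1/2*Y 1 0*R 0 2*K 1 2 - 1/2*Y 1 0*R 2 1*K 0 2 + 1/2*Y 1 0*R 2 2*K 0 1 -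
    3/2*Y 1 1*Y 2 0*R 0 2 + 3/2*Y 1 1*Y 2 2*R 0 0 - 1/2*Y 1 1*R 0 0*K 2 2 + 1/2*Y 1 1*R 0 2*K 0
    2 + 1/2*Y 1 1*R 2 0*K 0 2 - 1/2*Y 1 1*R 2 2*K 0 0 + 3/2*Y 1 2*Y 2 0*R 0 1 - 3/2*Y 1 2*Y 2
    1*R 0 0 + 1/2*Y 1 2*R 0 0*K 1 2 - 1/2*Y 1 2*R 0 1*K 0 2 - 1/2*Y 1 2*R 2 0*K 0 1 + 1/2*Y 1
    2*R 2 1*K 0 0 - 1/2*Y 2 0*R 0 1*K 1 2 + 1/2*Y 2 0*R 0 2*K 1 1 + 1/2*Y 2 0*R 1 1*K 0 2 -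
    1/2*Y 2 0*R 1 2*K 0 1 + 1/2*Y 2 1*R 0 0*K 1 2 - 1/2*Y 2 1*R 0 2*K 0 1 - 1/2*Y 2 1*R 1 0*K 0
    2 + 1/2*Y 2 1*R 1 2*K 0 0 - 1/2*Y 2 2*R 0 0*K 1 1 + 1/2*Y 2 2*R 0 1*K 0 1 + 1/2*Y 2 2*R 1
    0*K 0 1 - 1/2*Y 2 2*R 1 1*K 0 0 - 1/2*R 0 0*K 1 1*K 2 2 + 1/2*R 0 0*K 1 2^2 + 1/2*R 0 1*K 2
    2*K 0 1 - 1/2*R 0 1*K 1 2*K 0 2 + 1/2*R 0 2*K 1 1*K 0 2 - 1/2*R 0 2*K 1 2*K 0 1 + 1/2*R 1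
    0*K 2 2*K 0 1 - 1/2*R 1 0*K 1 2*K 0 2 - 1/2*R 1 1*K 0 0*K 2 2 + 1/2*R 1 1*K 0 2^2 + 1/2*R 1
    2*K 0 0*K 1 2 - 1/2*R 1 2*K 0 2*K 0 1 + 1/2*R 2 0*K 1 1*K 0 2 - 1/2*R 2 0*K 1 2*K 0 1 +
    1/2*R 2 1*K 0 0*K 1 2 - 1/2*R 2 1*K 0 2*K 0 1 - 1/2*R 2 2*K 0 0*K 1 1 + 1/2*R 2 2*K 0 1^2) * hr

end Pool.Agent.Lib_helper76.Ico
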