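import Pool.Agent.Lib_helper76.IcoAlgDefs
import Pool.Agent.Lib_helper76.IcoAlgN
import Pool.Agent.Lib_helper76.IcoAlgKap

/-!
Face data of the icosahedron and the algebraic identities behind the isoperimetric inequality for
centrally symmetric icosahedra (split into `IcoAlgDefs`, `IcoAlgN` and `IcoAlgKap`).
-/
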