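import Mathlib

/-!
Face data of the icosahedron and the algebraic identities behind the isoperimetric inequality for
centrally symmetric icosahedra. `r` is a square root of five (of either sign).
-/

open Matrix

namespace Pool.Agent.Lib_helper76.Ico

/-- Half the cross product of two edge vectors of a triangle. -/
noncomputable def fS (x y z : Fin 3 → ℝ) : Fin 3 → ℝ := (1 / 2 : ℝ) • ((y - x) ⨯₃ (z - x))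

/-- The test field. -/
noncomputable def kap (R G : Matrix (Fin 3) (Fin 3) ℝ) (n nt : Fin 3 → ℝ) : Fin 3 → ℝ :=
  (1 / 2 : ℝ) • (R *ᵥ nt - Gᵀ *ᵥ (Rᵀ *ᵥ n))

/-- Inner product of matrices. -/
noncomputable def ip (A B : Matrix (Fin 3) (Fin 3) ℝ) : ℝ := ∑ i, ∑ j, A i j * B i j

/-- The cofactor matrix. -/
noncomputable def cof (A : Matrix (Fin 3) (Fin 3) ℝ) : Matrix (Fin 3) (Fin 3) ℝ :=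
  !![A 1 1 * A 2 2 - A 1 2 * A 2 1, A 1 2 * A 2 0 - A 1 0 * A 2 2, A 1 0 * A 2 1 - A 1 1 * A 2 0;
    A 2 1 * A 0 2 - A 2 2 * A 0 1, A 2 2 * A 0 0 - A 2 0 * A 0 2, A 2 0 * A 0 1 - A 2 1 * A 0 0;
    A 0 1 * A 1 2 - A 0 2 * A 1 1, A 0 2 * A 1 0 - A 0 0 * A 1 2, A 0 0 * A 1 1 - A 0 1 * A 1 0]

/-- The normals (of squared length three) of ten faces, one of each antipodal pair. -/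
noncomputable def fn (r : ℝ) : Fin 10 → Fin 3 → ℝ :=
  ![![1, 1, 1],
    ![1, -1, -1],
    ![-1, 1, -1],
    ![-1, -1, 1],
    ![-1/2 + 1/2*r, 1/2 + 1/2*r, 0],
    ![1/2 - 1/2*r, 1/2 + 1/2*r, 0],
    ![0, -1/2 + 1/2*r, 1/2 + 1/2*r],
    ![0, 1/2 - 1/2*r, 1/2 + 1/2*r],
    ![1/2 + 1/2*r, 0, -1/2 + 1/2*r],
    ![1/2 + 1/2*r, 0, 1/2 - 1/2*r]]

/-- Rotations taking the edges of a face to those of its Galois conjugate. -/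
noncomputable def fG (r : ℝ) : Fin 10 → Matrix (Fin 3) (Fin 3) ℝ :=
  ![!![1/6, 5/12 - 1/4*r, 5/12 + 1/4*r;
      5/12 + 1/4*r, 1/6, 5/12 - 1/4*r;
      5/12 - 1/4*r, 5/12 + 1/4*r, 1/6],
    !![1/6, -5/12 + 1/4*r, -5/12 - 1/4*r;
      -5/12 - 1/4*r, 1/6, 5/12 - 1/4*r;
      -5/12 + 1/4*r, 5/12 + 1/4*r, 1/6],
    !![1/6, -5/12 + 1/4*r, 5/12 + 1/4*r;
      -5/12 - 1/4*r, 1/6, -5/12 + 1/4*r;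
      5/12 - 1/4*r, -5/12 - 1/4*r, 1/6],
    !![1/6, 5/12 - 1/4*r, -5/12 - 1/4*r;
      5/12 + 1/4*r, 1/6, -5/12 + 1/4*r;
      -5/12 + 1/4*r, -5/12 - 1/4*r, 1/6],
    !![-2/3, -1/3*r, 0;
      1/3*r, -2/3, 0;
      0, 0, 1],
    !![-2/3, 1/3*r, 0;
      -1/3*r, -2/3, 0;
      0, 0, 1],
    !![1, 0, 0;
      0, -2/3, -1/3*r;
      0, 1/3*r, -2/3],
    !![1, 0, 0;
      0, -2/3, 1/3*r;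
      0, -1/3*r, -2/3],
    !![-2/3, 0, 1/3*r;
      0, 1, 0;
      -1/3*r, 0, -2/3],
    !![-2/3, 0, -1/3*r;
      0, 1, 0;
      1/3*r, 0, -2/3]]

/-- Vertices of the ten faces. -/
def fx (p q : Fin 3 → Fin 3 → ℝ) : Fin 10 → Fin 3 → ℝ :=
  ![q 1 + p 2, -q 1 - p 2, q 1 - p 2, -q 1 + p 2, q 1 - p 2,
    q 1 + p 2, q 2 - p 0, q 2 + p 0, q 0 - p 1, q 0 + p 1]

/-- Vertices of the ten faces. -/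
def fy (p q : Fin 3 → Fin 3 → ℝ) : Fin 10 → Fin 3 → ℝ :=
  ![q 2 + p 0, -q 2 + p 0, -q 2 - p 0, q 2 - p 0, q 1 + p 2,
    q 1 - p 2, q 2 + p 0, q 2 - p 0, q 0 + p 1, q 0 - p 1]

/-- Vertices of the ten faces. -/
def fz (p q : Fin 3 → Fin 3 → ℝ) : Fin 10 → Fin 3 → ℝ :=
  ![q 0 + p 1, q 0 - p 1, -q 0 + p 1, -q 0 - p 1, q 0 + p 1,
    -q 0 + p 1, q 1 + p 2, -q 1 + p 2, q 2 + p 0, -q 2 + p 0]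

/-- The traceless symmetric matrix `W₀(R)`. -/
noncomputable def Wm (r : ℝ) (R : Matrix (Fin 3) (Fin 3) ℝ) : Matrix (Fin 3) (Fin 3) ℝ :=
  !![1/6*R 0 0 - 1/12*R 1 1 - 1/12*R 1 1*r - 1/12*R 2 2 + 1/12*R 2 2*r, -1/12*R 0 1 - 1/12*R 0
      1*r - 1/12*R 1 0 + 1/12*R 1 0*r, -1/12*R 0 2 + 1/12*R 0 2*r - 1/12*R 2 0 - 1/12*R 2 0*r;
      -1/12*R 0 1 - 1/12*R 0 1*r - 1/12*R 1 0 + 1/12*R 1 0*r, -1/12*R 0 0 + 1/12*R 0 0*r + 1/6*R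
      1 1 - 1/12*R 2 2 - 1/12*R 2 2*r, -1/12*R 1 2 - 1/12*R 1 2*r - 1/12*R 2 1 + 1/12*R 2 1*r;
      -1/12*R 0 2 + 1/12*R 0 2*r - 1/12*R 2 0 - 1/12*R 2 0*r, -1/12*R 1 2 - 1/12*R 1 2*r -
      1/12*R 2 1 + 1/12*R 2 1*r, -1/12*R 0 0 - 1/12*R 0 0*r - 1/12*R 1 1 + 1/12*R 1 1*r + 1/6*R
      2 2]

/-- The bilinear map `Psi`. -/
noncomputable def Psi (r : ℝ) (K R : Matrix (Fin 3) (Fin 3) ℝ) : Matrix (Fin 3) (Fin 3) ℝ :=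
  !![1/18*R 0 0*K 1 1 + 1/36*R 0 0*K 1 1*r + 1/18*R 0 0*K 2 2 - 1/36*R 0 0*K 2 2*r + 1/24*R 0
      1*K 0 1 - 1/72*R 0 1*K 0 1*r + 1/24*R 0 2*K 0 2 + 1/72*R 0 2*K 0 2*r - 1/24*R 1 0*K 0 1 -
      1/72*R 1 0*K 0 1*r - 1/72*R 1 1*K 1 1 + 1/72*R 1 1*K 1 1*r + 1/72*R 1 1*K 2 2 - 1/72*R 1
      1*K 2 2*r - 7/72*R 1 2*K 1 2 + 1/72*R 1 2*K 1 2*r - 1/24*R 2 0*K 0 2 + 1/72*R 2 0*K 0 2*r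
      - 7/72*R 2 1*K 1 2 - 1/72*R 2 1*K 1 2*r + 1/72*R 2 2*K 1 1 + 1/72*R 2 2*K 1 1*r - 1/72*R 2
      2*K 2 2 - 1/72*R 2 2*K 2 2*r,
    1/72*R 0 0*K 0 1 + 1/72*R 0 0*K 0 1*r + 1/24*R 0 1*K 1 1 - 1/72*R 0 1*K 1 1*r + 5/72*R 0
      1*K 2 2 + 1/72*R 0 1*K 2 2*r + 1/9*R 0 2*K 1 2 + 1/36*R 0 2*K 1 2*r - 1/24*R 1 0*K 1 1 -
      1/72*R 1 0*K 1 1*r + 1/24*R 1 0*K 2 2 + 1/72*R 1 0*K 2 2*r - 1/18*R 1 1*K 0 1 + 1/36*R 1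
      1*K 0 1*r - 1/24*R 1 2*K 0 2 + 1/72*R 1 2*K 0 2*r - 1/72*R 2 0*K 1 2 + 1/72*R 2 0*K 1 2*r
      - 5/72*R 2 1*K 0 2 + 1/72*R 2 1*K 0 2*r - 1/72*R 2 2*K 0 1 + 1/72*R 2 2*K 0 1*r,
    1/72*R 0 0*K 0 2 - 1/72*R 0 0*K 0 2*r + 1/9*R 0 1*K 1 2 - 1/36*R 0 1*K 1 2*r + 5/72*R 0
      2*K 1 1 - 1/72*R 0 2*K 1 1*r + 1/24*R 0 2*K 2 2 + 1/72*R 0 2*K 2 2*r - 1/72*R 1 0*K 1 2 -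
      1/72*R 1 0*K 1 2*r - 1/72*R 1 1*K 0 2 - 1/72*R 1 1*K 0 2*r - 5/72*R 1 2*K 0 1 - 1/72*R 1
      2*K 0 1*r + 1/24*R 2 0*K 1 1 - 1/72*R 2 0*K 1 1*r - 1/24*R 2 0*K 2 2 + 1/72*R 2 0*K 2 2*r
      - 1/24*R 2 1*K 0 1 - 1/72*R 2 1*K 0 1*r - 1/18*R 2 2*K 0 2 - 1/36*R 2 2*K 0 2*r;
    -1/18*R 0 0*K 0 1 - 1/36*R 0 0*K 0 1*r - 1/24*R 0 1*K 0 0 + 1/72*R 0 1*K 0 0*r + 1/24*R 0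
      1*K 2 2 - 1/72*R 0 1*K 2 2*r - 1/24*R 0 2*K 1 2 - 1/72*R 0 2*K 1 2*r + 1/24*R 1 0*K 0 0 +
      1/72*R 1 0*K 0 0*r + 5/72*R 1 0*K 2 2 - 1/72*R 1 0*K 2 2*r + 1/72*R 1 1*K 0 1 - 1/72*R 1
      1*K 0 1*r + 1/9*R 1 2*K 0 2 - 1/36*R 1 2*K 0 2*r - 5/72*R 2 0*K 1 2 - 1/72*R 2 0*K 1 2*r -
      1/72*R 2 1*K 0 2 - 1/72*R 2 1*K 0 2*r - 1/72*R 2 2*K 0 1 - 1/72*R 2 2*K 0 1*r,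
    -1/72*R 0 0*K 0 0 - 1/72*R 0 0*K 0 0*r + 1/72*R 0 0*K 2 2 + 1/72*R 0 0*K 2 2*r - 1/24*R 0
      1*K 0 1 + 1/72*R 0 1*K 0 1*r - 7/72*R 0 2*K 0 2 - 1/72*R 0 2*K 0 2*r + 1/24*R 1 0*K 0 1 +
      1/72*R 1 0*K 0 1*r + 1/18*R 1 1*K 0 0 - 1/36*R 1 1*K 0 0*r + 1/18*R 1 1*K 2 2 + 1/36*R 1
      1*K 2 2*r + 1/24*R 1 2*K 1 2 - 1/72*R 1 2*K 1 2*r - 7/72*R 2 0*K 0 2 + 1/72*R 2 0*K 0 2*r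
      - 1/24*R 2 1*K 1 2 - 1/72*R 2 1*K 1 2*r + 1/72*R 2 2*K 0 0 - 1/72*R 2 2*K 0 0*r - 1/72*R 2
      2*K 2 2 + 1/72*R 2 2*K 2 2*r,
    -1/72*R 0 0*K 1 2 + 1/72*R 0 0*K 1 2*r - 1/72*R 0 1*K 0 2 + 1/72*R 0 1*K 0 2*r - 5/72*R 0
      2*K 0 1 + 1/72*R 0 2*K 0 1*r + 1/9*R 1 0*K 0 2 + 1/36*R 1 0*K 0 2*r + 1/72*R 1 1*K 1 2 +
      1/72*R 1 1*K 1 2*r + 5/72*R 1 2*K 0 0 + 1/72*R 1 2*K 0 0*r + 1/24*R 1 2*K 2 2 - 1/72*R 1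
      2*K 2 2*r - 1/24*R 2 0*K 0 1 + 1/72*R 2 0*K 0 1*r + 1/24*R 2 1*K 0 0 + 1/72*R 2 1*K 0 0*r
      - 1/24*R 2 1*K 2 2 - 1/72*R 2 1*K 2 2*r - 1/18*R 2 2*K 1 2 + 1/36*R 2 2*K 1 2*r;
    -1/18*R 0 0*K 0 2 + 1/36*R 0 0*K 0 2*r - 1/24*R 0 1*K 1 2 + 1/72*R 0 1*K 1 2*r - 1/24*R 0
      2*K 0 0 - 1/72*R 0 2*K 0 0*r + 1/24*R 0 2*K 1 1 + 1/72*R 0 2*K 1 1*r - 5/72*R 1 0*K 1 2 +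
      1/72*R 1 0*K 1 2*r - 1/72*R 1 1*K 0 2 + 1/72*R 1 1*K 0 2*r - 1/72*R 1 2*K 0 1 + 1/72*R 1
      2*K 0 1*r + 1/24*R 2 0*K 0 0 - 1/72*R 2 0*K 0 0*r + 5/72*R 2 0*K 1 1 + 1/72*R 2 0*K 1 1*r
      + 1/9*R 2 1*K 0 1 + 1/36*R 2 1*K 0 1*r + 1/72*R 2 2*K 0 2 + 1/72*R 2 2*K 0 2*r,
    -1/72*R 0 0*K 1 2 - 1/72*R 0 0*K 1 2*r - 5/72*R 0 1*K 0 2 - 1/72*R 0 1*K 0 2*r - 1/72*R 0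
      2*K 0 1 - 1/72*R 0 2*K 0 1*r - 1/24*R 1 0*K 0 2 - 1/72*R 1 0*K 0 2*r - 1/18*R 1 1*K 1 2 -
      1/36*R 1 1*K 1 2*r + 1/24*R 1 2*K 0 0 - 1/72*R 1 2*K 0 0*r - 1/24*R 1 2*K 1 1 + 1/72*R 1
      2*K 1 1*r + 1/9*R 2 0*K 0 1 - 1/36*R 2 0*K 0 1*r + 5/72*R 2 1*K 0 0 - 1/72*R 2 1*K 0 0*r +
      1/24*R 2 1*K 1 1 + 1/72*R 2 1*K 1 1*r + 1/72*R 2 2*K 1 2 - 1/72*R 2 2*K 1 2*r,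
    -1/72*R 0 0*K 0 0 + 1/72*R 0 0*K 0 0*r + 1/72*R 0 0*K 1 1 - 1/72*R 0 0*K 1 1*r - 7/72*R 0
      1*K 0 1 + 1/72*R 0 1*K 0 1*r - 1/24*R 0 2*K 0 2 - 1/72*R 0 2*K 0 2*r - 7/72*R 1 0*K 0 1 -
      1/72*R 1 0*K 0 1*r + 1/72*R 1 1*K 0 0 + 1/72*R 1 1*K 0 0*r - 1/72*R 1 1*K 1 1 - 1/72*R 1
      1*K 1 1*r - 1/24*R 1 2*K 1 2 + 1/72*R 1 2*K 1 2*r + 1/24*R 2 0*K 0 2 - 1/72*R 2 0*K 0 2*r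
      + 1/24*R 2 1*K 1 2 + 1/72*R 2 1*K 1 2*r + 1/18*R 2 2*K 0 0 + 1/36*R 2 2*K 0 0*r + 1/18*R 2
      2*K 1 1 - 1/36*R 2 2*K 1 1*r]

lemma fS_dot (x y z : Fin 3 → ℝ) : fS x y z ⬝ᵥ fS x y z
    = 1 / 4 * (((y - x) ⬝ᵥ (y - x)) * ((z - x) ⬝ᵥ (z - x)) - ((y - x) ⬝ᵥ (z - x)) ^ 2) := by
  rw [fS, dotProduct_smul, smul_dotProduct, cross_dot_cross]
  have : (z - x) ⬝ᵥ (y - x) = (y - x) ⬝ᵥ (z - x) := dotProduct_comm _ _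
  rw [this]
  simp only [smul_eq_mul]
  ring

end Pool.Agent.Lib_helper76.Ico
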