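import Pool.Agent.Lib_helper76.IcoAlgDefs

/-!
The components along the test field, entry by entry.
-/

open Matrix

namespace Pool.Agent.Lib_helper76.Ico

/-- Twice the coefficient of `R a b` in the component of the `i`-th face vector along the test
field. -/
noncomputable def kc (r : ℝ) (p q : Fin 3 → Fin 3 → ℝ) (a b : Fin 3) (i : Fin 10) : ℝ :=
  fS (fx p q i) (fy p q i) (fz p q i) a * fn (-r) i b
    - fn r i a * (fG r i *ᵥ fS (fx p q i) (fy p q i) (fz p q i)) b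

theorem kap_dot (R G : Matrix (Fin 3) (Fin 3) ℝ) (S n m : Fin 3 → ℝ) :
    S ⬝ᵥ kap R G n m =
      (R 0 0 * (S 0 * m 0 - n 0 * (G *ᵥ S) 0) + R 0 1 * (S 0 * m 1 - n 0 * (G *ᵥ S) 1) +
        R 0 2 * (S 0 * m 2 - n 0 * (G *ᵥ S) 2) + R 1 0 * (S 1 * m 0 - n 1 * (G *ᵥ S) 0) +
        R 1 1 * (S 1 * m 1 - n 1 * (G *ᵥ S) 1) + R 1 2 * (S 1 * m 2 - n 1 * (G *ᵥ S) 2) +
        R 2 0 * (S 2 * m 0 - n 2 * (G *ᵥ S) 0) + R 2 1 * (S 2 * m 1 - n 2 * (G *ᵥ S) 1) +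
        R 2 2 * (S 2 * m 2 - n 2 * (G *ᵥ S) 2)) / 2 := by
  simp only [kap, dotProduct, Matrix.mulVec, Fin.sum_univ_three, Pi.smul_apply, Pi.sub_apply,
    smul_eq_mul, Matrix.transpose_apply]
  ring

theorem kap_face (r : ℝ) (p q : Fin 3 → Fin 3 → ℝ) (R : Matrix (Fin 3) (Fin 3) ℝ) (i : Fin 10) :
    fS (fx p q i) (fy p q i) (fz p q i) ⬝ᵥ kap R (fG r i) (fn r i) (fn (-r) i) =
      (R 0 0 * kc r p q 0 0 i + R 0 1 * kc r p q 0 1 i + R 0 2 * kc r p q 0 2 i +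
        R 1 0 * kc r p q 1 0 i + R 1 1 * kc r p q 1 1 i + R 1 2 * kc r p q 1 2 i +
        R 2 0 * kc r p q 2 0 i + R 2 1 * kc r p q 2 1 i + R 2 2 * kc r p q 2 2 i) / 2 :=
  kap_dot _ _ _ _ _

end Pool.Agent.Lib_helper76.Ico
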