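import Pool.Agent.Lib_helper76.IcoAlgDefs

/-!
The face data of the icosahedron: norms, rotations.
-/

open Matrix

namespace Pool.Agent.Lib_helper76.Ico

lemma fn_dot {r : ℝ} (hr : r ^ 2 = 5) (i : Fin 10) : fn r i ⬝ᵥ fn r i = 3 := by
  fin_cases i <;> simp [fn, dotProduct, Fin.sum_univ_three] <;> nlinarith [hr]

lemma fG_orth {r : ℝ} (hr : r ^ 2 = 5) (i : Fin 10) : (fG r i)ᵀ * fG r i = 1 := by
  fin_cases i <;> ext a b <;> fin_cases a <;> fin_cases b <;>
    simp [fG, Matrix.mul_apply, Fin.sum_univ_three] <;> nlinarith [hr]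

lemma fG_fn {r : ℝ} (hr : r ^ 2 = 5) (i : Fin 10) : fG r i *ᵥ fn r i = fn (-r) i := by
  fin_cases i <;> ext a <;> fin_cases a <;>
    simp [fG, fn, Matrix.mulVec, dotProduct, Fin.sum_univ_three] <;> nlinarith [hr]

end Pool.Agent.Lib_helper76.Ico
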