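import Pool.Agent.Lib_helper76.IcoAlgDefs

/-!
Cofactor matrices and traces.
-/

open Matrix

namespace Pool.Agent.Lib_helper76.Ico

lemma ip_eq_trace (A B : Matrix (Fin 3) (Fin 3) ℝ) : ip A B = (A * Bᵀ).trace := by
  simp only [ip, Matrix.trace, Matrix.diag, Matrix.mul_apply, Matrix.transpose_apply]

lemma cof_mul (A B : Matrix (Fin 3) (Fin 3) ℝ) : cof (A * B) = cof A * cof B := by
  ext i j
  fin_cases i <;> fin_cases j <;>
    simp [cof, Matrix.mul_apply, Fin.sum_univ_three] <;> ring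

lemma mul_cof (A : Matrix (Fin 3) (Fin 3) ℝ) : A * (cof A)ᵀ = A.det • (1 : Matrix (Fin 3) (Fin 3) ℝ) := by
  ext i j
  fin_cases i <;> fin_cases j <;>
    simp [cof, Matrix.mul_apply, Fin.sum_univ_three, Matrix.det_fin_three] <;> ring

lemma cof_orth {R : Matrix (Fin 3) (Fin 3) ℝ} (hR : Rᵀ * R = 1) (hdet : R.det = 1) :
    cof R = R := by
  have h1 := mul_cof R
  rw [hdet, one_smul] at h1
  have h2 : (cof R)ᵀ = Rᵀ := by
    calc (cof R)ᵀ = (Rᵀ * R) * (cof R)ᵀ := by rw [hR, Matrix.one_mul]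
      _ = Rᵀ * (R * (cof R)ᵀ) := by rw [Matrix.mul_assoc]
      _ = Rᵀ := by rw [h1, Matrix.mul_one]
  have h3 := congrArg Matrix.transpose h2
  rwa [Matrix.transpose_transpose, Matrix.transpose_transpose] at h3

lemma trace_cof (A : Matrix (Fin 3) (Fin 3) ℝ) :
    2 * (cof A).trace = A.trace ^ 2 - (A * A).trace := by
  simp [cof, Matrix.trace, Matrix.mul_apply, Fin.sum_univ_three]
  ring

lemma ip_cof_cof (A : Matrix (Fin 3) (Fin 3) ℝ) (h10 : A 1 0 = A 0 1) (h20 : A 2 0 = A 0 2)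
    (h21 : A 2 1 = A 1 2) :
    ip (cof A) (cof A) = (cof A).trace ^ 2 - 2 * A.det * A.trace := by
  simp [ip, cof, Matrix.trace, Fin.sum_univ_three, Matrix.det_fin_three, h10, h20, h21]
  ring

end Pool.Agent.Lib_helper76.Ico
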