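import Pool.Agent.Lib_helper76.IcoSos

/-!
The core inequality: test field argument in the polar gauge.
-/

open Matrix

namespace Pool.Agent.Lib_helper76.Ico

lemma ip_cs (A B : Matrix (Fin 3) (Fin 3) ℝ) : (ip A B) ^ 2 ≤ ip A A * ip B B := by
  have h := Finset.sum_mul_sq_le_sq_mul_sq (Finset.univ : Finset (Fin 3 × Fin 3))
    (fun x => A x.1 x.2) (fun x => B x.1 x.2)
  simp only [Fintype.sum_prod_type, pow_two] at h
  simpa only [ip, pow_two] using h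

lemma combine {x y A B τ : ℝ} (hx : x ^ 2 ≤ A * τ) (hy : y ^ 2 ≤ B * (1 - τ)) (hA : 0 ≤ A)
    (hB : 0 ≤ B) (h0 : 0 ≤ τ) (h1 : τ ≤ 1) : (x + y) ^ 2 ≤ A + B := by
  have h2 : (x * y) ^ 2 ≤ ((A * (1 - τ) + B * τ) / 2) ^ 2 := by
    have h3 : (x * y) ^ 2 ≤ (A * τ) * (B * (1 - τ)) := by
      rw [mul_pow]
      exact mul_le_mul hx hy (sq_nonneg y) (mul_nonneg hA h0)
    nlinarith [sq_nonneg (A * (1 - τ) - B * τ)]
  have h4 : 0 ≤ (A * (1 - τ) + B * τ) / 2 := by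
    have := mul_nonneg hA (sub_nonneg.mpr h1)
    have := mul_nonneg hB h0
    linarith
  have h5 : x * y ≤ (A * (1 - τ) + B * τ) / 2 := by
    have := abs_le_of_sq_le_sq h2 h4
    exact (abs_le.mp this).2
  nlinarith

/-- The loss in the lower bound of the test field energy. -/
theorem loss {r : ℝ} (hr : r ^ 2 = 5) {K Y R : Matrix (Fin 3) (Fin 3) ℝ}
    (h10 : K 1 0 = K 0 1) (h20 : K 2 0 = K 0 2) (h21 : K 2 1 = K 1 2) (hRR : ip R R = 3)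
    {k t : ℝ} (hk : 3 * k = K 0 0 + K 1 1 + K 2 2)
    (ht : 3 * t = cof K 0 0 + cof K 1 1 + cof K 2 2) :
    ((10 * ip (cof K) (Wm r R) + 30 * ip Y (Psi r K R)) / 30 - k / 9 * ip Y R) ^ 2
      ≤ 5 / 81 * (ip K K - 3 * k ^ 2) * ip Y Y + (ip (cof K) (cof K) - 3 * t ^ 2) / 12 := by
  obtain ⟨x0, x1, x2, x3, d1, d2, y1, y2, y3, r00, r01, r02, r10, r11, r12, r20, r21, r22⟩ :=
    decomp hr R
  obtain ⟨p00, p01, p02, p10, p11, p12, p20, p21, p22⟩ := Psi_coord hr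
    (K := K) (R := R) (k0 := k) (k1 := K 0 0 - k) (k2 := K 1 1 - k) (l1 := K 1 2) (l2 := K 0 2)
    (l3 := K 0 1) (by ring) (by ring) (by linarith) rfl rfl rfl r00 r01 r02 r10 r11 r12 r20 r21 r22
  have hsos := sos hr (K 0 0 - k) (K 1 1 - k) (K 1 2) (K 0 2) (K 0 1) x0 x1 x2 x3 d1 d2 y1 y2 y3
  rw [← p00, ← p01, ← p02, ← p10, ← p11, ← p12, ← p20, ← p21, ← p22] at hsos
  have hW := Wm_coord hr r00 r01 r02 r10 r11 r12 r20 r21 r22
  have hN := norm_coord hr r00 r01 r02 r10 r11 r12 r20 r21 r22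
  obtain ⟨ρ, hρ⟩ : ∃ ρ, ρ = d1 ^ 2 + d2 ^ 2 + (d1 + d2) ^ 2 + 3 * (y1 ^ 2 + y2 ^ 2 + y3 ^ 2) :=
    ⟨_, rfl⟩
  have hρ0 : 0 ≤ ρ := by rw [hρ]; positivity
  rw [← hρ] at hsos hW hN
  clear p00 p01 p02 p10 p11 p12 p20 p21 p22 r00 r01 r02 r10 r11 r12 r20 r21 r22
  rw [hRR] at hN
  have hx4 : 0 ≤ 3 * (x0 ^ 2 + x1 ^ 2 + x2 ^ 2 + x3 ^ 2) := by positivity
  have hρ3 : ρ ≤ 3 := by linarith
  -- the traceless matrix
  set Z : Matrix (Fin 3) (Fin 3) ℝ := Matrix.of fun i j => Psi r K R i j - k / 9 * R i j with hZ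
  have hZZ : ip Z Z ≤ 5 / 243 * (ip K K - 3 * k ^ 2) * (3 - 2 / 3 * ρ) := by
    have e1 : ip Z Z = (Psi r K R 0 0 - k / 9 * R 0 0) ^ 2 + (Psi r K R 0 1 - k / 9 * R 0 1) ^ 2
        + (Psi r K R 0 2 - k / 9 * R 0 2) ^ 2 + (Psi r K R 1 0 - k / 9 * R 1 0) ^ 2
        + (Psi r K R 1 1 - k / 9 * R 1 1) ^ 2 + (Psi r K R 1 2 - k / 9 * R 1 2) ^ 2
        + (Psi r K R 2 0 - k / 9 * R 2 0) ^ 2 + (Psi r K R 2 1 - k / 9 * R 2 1) ^ 2
        + (Psi r K R 2 2 - k / 9 * R 2 2) ^ 2 := by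
      simp only [ip, hZ, Matrix.of_apply, Fin.sum_univ_three]
      ring
    have e2 : ip K K - 3 * k ^ 2 = (K 0 0 - k) ^ 2 + (K 1 1 - k) ^ 2
        + (K 0 0 - k + (K 1 1 - k)) ^ 2 + 2 * (K 1 2 ^ 2 + K 0 2 ^ 2 + K 0 1 ^ 2) := by
      have e3 : K 2 2 = 3 * k - K 0 0 - K 1 1 := by linarith
      simp only [ip, Fin.sum_univ_three, h10, h20, h21, e3]
      ring
    have e4 : 3 * (x0 ^ 2 + x1 ^ 2 + x2 ^ 2 + x3 ^ 2) + 1 / 3 * ρ = 3 - 2 / 3 * ρ := by linarith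
    rw [e1, e2]
    rw [e4] at hsos
    exact hsos
  have hYZ : ip Y Z = ip Y (Psi r K R) - k / 9 * ip Y R := by
    simp only [ip, hZ, Matrix.of_apply, Fin.sum_univ_three]
    ring
  set C0 : Matrix (Fin 3) (Fin 3) ℝ := cof K - t • (1 : Matrix (Fin 3) (Fin 3) ℝ) with hC0
  have hCW : ip (cof K) (Wm r R) = ip C0 (Wm r R) := by
    have h := Wm_trace r R
    have e : ip C0 (Wm r R) = ip (cof K) (Wm r R)
        - t * (Wm r R 0 0 + Wm r R 1 1 + Wm r R 2 2) := by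
      simp only [ip, hC0, Fin.sum_univ_three, Matrix.sub_apply, Matrix.smul_apply, smul_eq_mul,
        Matrix.one_apply_eq, Matrix.one_apply]
      simp
      ring
    rw [e, h]; ring
  have hCC : ip C0 C0 = ip (cof K) (cof K) - 3 * t ^ 2 := by
    have e : ip C0 C0 = ip (cof K) (cof K)
        - 2 * t * (cof K 0 0 + cof K 1 1 + cof K 2 2) + 3 * t ^ 2 := by
      simp only [ip, hC0, Fin.sum_univ_three, Matrix.sub_apply, Matrix.smul_apply, smul_eq_mul,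
        Matrix.one_apply]
      simp
      ring
    rw [e, ← ht]; ring
  have hb1 : (ip Y Z) ^ 2 ≤ (5 / 81 * (ip K K - 3 * k ^ 2) * ip Y Y) * (1 - 2 / 9 * ρ) := by
    have h1 := ip_cs Y Z
    have hYY : 0 ≤ ip Y Y := by
      simp only [ip]
      exact Finset.sum_nonneg fun i _ => Finset.sum_nonneg fun j _ => mul_self_nonneg _
    have h2 := mul_le_mul_of_nonneg_left hZZ hYY
    calc (ip Y Z) ^ 2 ≤ ip Y Y * ip Z Z := h1
      _ ≤ ip Y Y * (5 / 243 * (ip K K - 3 * k ^ 2) * (3 - 2 / 3 * ρ)) := h2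
      _ = _ := by ring
  have hb2 : (ip (cof K) (Wm r R) / 3) ^ 2
      ≤ ((ip (cof K) (cof K) - 3 * t ^ 2) / 12) * (1 - (1 - 2 / 9 * ρ)) := by
    have h1 := ip_cs C0 (Wm r R)
    rw [hW, hCC, ← hCW] at h1
    calc (ip (cof K) (Wm r R) / 3) ^ 2 = (ip (cof K) (Wm r R)) ^ 2 / 9 := by ring
      _ ≤ (ip (cof K) (cof K) - 3 * t ^ 2) * (ρ / 6) / 9 := by linarith
      _ = _ := by ring
  have hA : 0 ≤ 5 / 81 * (ip K K - 3 * k ^ 2) * ip Y Y := by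
    have e2 : ip K K - 3 * k ^ 2 = (K 0 0 - k) ^ 2 + (K 1 1 - k) ^ 2
        + (K 0 0 - k + (K 1 1 - k)) ^ 2 + 2 * (K 1 2 ^ 2 + K 0 2 ^ 2 + K 0 1 ^ 2) := by
      have e3 : K 2 2 = 3 * k - K 0 0 - K 1 1 := by linarith
      simp only [ip, Fin.sum_univ_three, h10, h20, h21, e3]
      ring
    have hYY : 0 ≤ ip Y Y := by
      simp only [ip]
      exact Finset.sum_nonneg fun i _ => Finset.sum_nonneg fun j _ => mul_self_nonneg _
    rw [e2]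
    positivity
  have hB : 0 ≤ (ip (cof K) (cof K) - 3 * t ^ 2) / 12 := by
    rw [← hCC]
    have : 0 ≤ ip C0 C0 := by
      simp only [ip]
      exact Finset.sum_nonneg fun i _ => Finset.sum_nonneg fun j _ => mul_self_nonneg _
    positivity
  have hfin := combine hb1 hb2 hA hB (by linarith) (by linarith)
  have e5 : (10 * ip (cof K) (Wm r R) + 30 * ip Y (Psi r K R)) / 30 - k / 9 * ip Y R
      = ip Y Z + ip (cof K) (Wm r R) / 3 := by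
    rw [hYZ]; ring
  rw [e5]
  exact hfin

end Pool.Agent.Lib_helper76.Ico
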