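import Mathlib

/-!
Polar decomposition of real `3 × 3` matrices with positive determinant.
-/

open Matrix

namespace Pool.Agent.Lib_helper76.Ico

/-- Polar decomposition `M = Q P` with `Q` a rotation and `P` symmetric with positive
eigenvalues `s 0, s 1, s 2`. -/
lemma polar (M : Matrix (Fin 3) (Fin 3) ℝ) (hM : 0 < M.det) :
    ∃ (Q P : Matrix (Fin 3) (Fin 3) ℝ) (s : Fin 3 → ℝ), Qᵀ * Q = 1 ∧ Q.det = 1 ∧ Pᵀ = P ∧
      M = Q * P ∧ (∀ i, 0 < s i) ∧ P.trace = ∑ i, s i ∧ (P * P).trace = ∑ i, s i ^ 2 ∧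
      P.det = ∏ i, s i := by
  have hMinj : Function.Injective M.mulVec := by
    have hu : IsUnit M := (Matrix.isUnit_iff_isUnit_det M).mpr (isUnit_iff_ne_zero.mpr hM.ne')
    exact Matrix.mulVec_injective_iff_isUnit.mpr hu
  have hpd : (Mᴴ * M).PosDef := Matrix.PosDef.conjTranspose_mul_self M hMinj
  have hA : (Mᴴ * M).IsHermitian := hpd.1
  have hpos : ∀ i, 0 < hA.eigenvalues i := hpd.eigenvalues_pos
  have hspec := hA.spectral_theorem
  rw [Unitary.conjStarAlgAut_apply] at hspec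
  set U : Matrix (Fin 3) (Fin 3) ℝ := (hA.eigenvectorUnitary : Matrix (Fin 3) (Fin 3) ℝ) with hU
  have hstar : (star U : Matrix (Fin 3) (Fin 3) ℝ) = Uᵀ := by
    rw [Matrix.star_eq_conjTranspose, Matrix.conjTranspose_eq_transpose_of_trivial]
  have hUU : Uᵀ * U = 1 := by
    rw [← hstar]; exact Unitary.coe_star_mul_self hA.eigenvectorUnitary
  have hUU' : U * Uᵀ = 1 := by
    rw [← hstar]; exact Unitary.coe_mul_star_self hA.eigenvectorUnitary
  have hMt : Mᴴ = Mᵀ := Matrix.conjTranspose_eq_transpose_of_trivial M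
  set l : Fin 3 → ℝ := hA.eigenvalues with hl
  have hdet_l : ∀ i, Real.sqrt (l i) * Real.sqrt (l i) = l i := fun i =>
    Real.mul_self_sqrt (hpos i).le
  set s : Fin 3 → ℝ := fun i => Real.sqrt (l i) with hs
  have hs0 : ∀ i, 0 < s i := fun i => Real.sqrt_pos.mpr (hpos i)
  have hss : ∀ i, s i * s i = l i := hdet_l
  set P : Matrix (Fin 3) (Fin 3) ℝ := U * diagonal s * Uᵀ with hP
  have hPt : Pᵀ = P := by
    rw [hP]; simp [Matrix.transpose_mul, Matrix.mul_assoc]
  have hPP : P * P = Mᵀ * M := by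
    have h1 : P * P = U * (diagonal s * diagonal s) * Uᵀ := by
      calc P * P = U * diagonal s * (Uᵀ * U) * diagonal s * Uᵀ := by
            rw [hP]; simp only [Matrix.mul_assoc]
        _ = U * (diagonal s * diagonal s) * Uᵀ := by
            rw [hUU]; simp only [Matrix.mul_assoc, Matrix.mul_one, Matrix.one_mul]
    rw [h1, Matrix.diagonal_mul_diagonal]
    have h2 : (fun i => s i * s i) = l := funext hss
    rw [h2, ← hMt, hspec, hstar]
    rfl
  have hdetU : U.det * U.det = 1 := by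
    have := congrArg Matrix.det hUU
    rwa [Matrix.det_mul, Matrix.det_transpose, Matrix.det_one] at this
  have hPdet : P.det = ∏ i, s i := by
    rw [hP, Matrix.det_mul, Matrix.det_mul, Matrix.det_transpose, Matrix.det_diagonal]
    linear_combination (∏ i, s i) * hdetU
  have hPdet0 : 0 < P.det := by rw [hPdet]; exact Finset.prod_pos fun i _ => hs0 i
  have hPunit : IsUnit P.det := isUnit_iff_ne_zero.mpr hPdet0.ne'
  have hPinv : P * P⁻¹ = 1 := Matrix.mul_nonsing_inv P hPunit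
  have hPinv' : P⁻¹ * P = 1 := Matrix.nonsing_inv_mul P hPunit
  have hPinvt : (P⁻¹)ᵀ = P⁻¹ := by rw [Matrix.transpose_nonsing_inv, hPt]
  have hQQ : (M * P⁻¹)ᵀ * (M * P⁻¹) = 1 := by
    calc (M * P⁻¹)ᵀ * (M * P⁻¹) = P⁻¹ * (Mᵀ * M) * P⁻¹ := by
          rw [Matrix.transpose_mul, hPinvt]; simp only [Matrix.mul_assoc]
      _ = (P⁻¹ * P) * (P * P⁻¹) := by rw [← hPP]; simp only [Matrix.mul_assoc]
      _ = 1 := by rw [hPinv, hPinv', Matrix.one_mul]
  have hQdet : (M * P⁻¹).det = 1 := by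
    have h1 : (M * P⁻¹).det * (M * P⁻¹).det = 1 := by
      have := congrArg Matrix.det hQQ
      rwa [Matrix.det_mul, Matrix.det_transpose, Matrix.det_one] at this
    have h2 : (M * P⁻¹).det * P.det = M.det := by
      rw [← Matrix.det_mul, Matrix.mul_assoc, hPinv', Matrix.mul_one]
    have h3 : 0 < (M * P⁻¹).det := by
      by_contra hle
      push Not at hle
      have : (M * P⁻¹).det * P.det ≤ 0 := mul_nonpos_of_nonpos_of_nonneg hle hPdet0.le
      linarith
    nlinarith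
  refine ⟨M * P⁻¹, P, s, hQQ, hQdet, hPt, ?_, hs0, ?_, ?_, hPdet⟩
  · rw [Matrix.mul_assoc, hPinv', Matrix.mul_one]
  · rw [hP, Matrix.trace_mul_comm, ← Matrix.mul_assoc, hUU, Matrix.one_mul, Matrix.trace_diagonal]
  · have h1 : P * P = U * (diagonal s * diagonal s) * Uᵀ := by
      calc P * P = U * diagonal s * (Uᵀ * U) * diagonal s * Uᵀ := by
            rw [hP]; simp only [Matrix.mul_assoc]
        _ = U * (diagonal s * diagonal s) * Uᵀ := by
            rw [hUU]; simp only [Matrix.mul_assoc, Matrix.mul_one, Matrix.one_mul]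
    rw [h1, Matrix.trace_mul_comm, ← Matrix.mul_assoc, hUU, Matrix.one_mul,
      Matrix.diagonal_mul_diagonal, Matrix.trace_diagonal]
    simp only [sq]

/-- Sorting three numbers. -/
lemma sort3 (s : Fin 3 → ℝ) (hs : ∀ i, 0 < s i) :
    ∃ a b c : ℝ, 0 < c ∧ c ≤ b ∧ b ≤ a ∧ ∑ i, s i = a + b + c ∧
      ∑ i, s i ^ 2 = a ^ 2 + b ^ 2 + c ^ 2 ∧ ∏ i, s i = a * b * c := by
  have h0 := hs 0
  have h1 := hs 1
  have h2 := hs 2
  simp only [Fin.sum_univ_three, Fin.prod_univ_three]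
  rcases le_total (s 0) (s 1) with h | h <;> rcases le_total (s 1) (s 2) with h' | h' <;>
    rcases le_total (s 0) (s 2) with h'' | h''
  · exact ⟨s 2, s 1, s 0, h0, h, h', by ring, by ring, by ring⟩
  · exact ⟨s 2, s 1, s 0, h0, h, h', by ring, by ring, by ring⟩
  · exact ⟨s 1, s 2, s 0, h0, h'', h', by ring, by ring, by ring⟩
  · exact ⟨s 1, s 0, s 2, h2, h'', h, by ring, by ring, by ring⟩
  · exact ⟨s 2, s 0, s 1, h1, h, h'', by ring, by ring, by ring⟩
  · exact ⟨s 0, s 2, s 1, h1, h', h'', by ring, by ring, by ring⟩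
  · exact ⟨s 0, s 1, s 2, h2, h', h, by ring, by ring, by ring⟩
  · exact ⟨s 0, s 1, s 2, h2, h', h, by ring, by ring, by ring⟩

end Pool.Agent.Lib_helper76.Ico
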