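import Mathlib

/-!
Scalar inequalities used in the proof of the isoperimetric inequality for centrally symmetric
icosahedra.
-/

namespace Pool.Agent.Lib_helper76.IcoScalar

/-- Arithmetic-geometric mean inequality for three numbers. -/
lemma amgm3 {x y z : ℝ} (hx : 0 < x) (hy : 0 < y) (hz : 0 < z) :
    27 * (x * y * z) ≤ (x + y + z) ^ 3 := by
  nlinarith [mul_nonneg hx.le (sq_nonneg (y - z)), mul_nonneg hy.le (sq_nonneg (x - z)),
    mul_nonneg hz.le (sq_nonneg (x - y)), mul_nonneg (add_pos (add_pos hx hy) hz).le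
      (add_nonneg (add_nonneg (sq_nonneg (x - y)) (sq_nonneg (y - z))) (sq_nonneg (x - z)))]

lemma amgm3_one {x y z : ℝ} (hx : 0 < x) (hy : 0 < y) (hz : 0 < z) (h : x * y * z = 1) :
    3 ≤ x + y + z := by
  have h1 := amgm3 hx hy hz
  rw [h] at h1
  by_contra hlt
  push Not at hlt
  have hpos : 0 < x + y + z := by positivity
  have : (x + y + z) ^ 3 < 3 ^ 3 := pow_lt_pow_left₀ hlt hpos.le (by norm_num)
  linarith

/-- The comparison of the two mean eigenvalues, with the smallest eigenvalue singled out. -/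
lemma lam_aux {u v m : ℝ} (hu : 0 < u) (hv : 0 < v) (hm : 0 < m) (h : u * v * m = 1)
    (hmu : m ≤ u) (hmv : m ≤ v) (hs : u + v + m ≤ 33 / 10) :
    (u * v + v * m + m * u) - 3 ≤ 5 / 4 * (u + v + m - 3) := by
  obtain ⟨β, hβ0, hβ⟩ : ∃ β : ℝ, 0 < β ∧ β ^ 2 = u * v :=
    ⟨Real.sqrt (u * v), Real.sqrt_pos.mpr (mul_pos hu hv), Real.sq_sqrt (mul_pos hu hv).le⟩
  have hmβ : m * β ^ 2 = 1 := by rw [hβ]; linarith
  have hs2 : 2 * β ≤ u + v := by
    have : (2 * β) ^ 2 ≤ (u + v) ^ 2 := by nlinarith [sq_nonneg (u - v)]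
    by_contra hlt
    push Not at hlt
    nlinarith
  have hm1 : m ≤ 1 := by
    by_contra hlt
    push Not at hlt
    have : m * m ≤ u * v := mul_le_mul hmu hmv hm.le hu.le
    nlinarith
  have hβ1 : 1 ≤ β := by
    by_contra hlt
    push Not at hlt
    have : β ^ 2 < 1 := by nlinarith
    nlinarith
  have hcub : 2 * β ^ 3 - 33 / 10 * β ^ 2 + 1 ≤ 0 := by
    have h1 : 2 * β + m ≤ 33 / 10 := by linarith
    have h2 : (2 * β + m) * β ^ 2 ≤ 33 / 10 * β ^ 2 := mul_le_mul_of_nonneg_right h1 (by positivity)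
    nlinarith
  have hquad : β ^ 2 - β / 2 - 5 / 4 ≤ 0 := by
    by_contra hlt
    push Not at hlt
    have hβ2 : 1389 / 1000 < β := by
      by_contra hle
      push Not at hle
      nlinarith
    nlinarith [mul_pos hlt (show (0:ℝ) < 2 * β - 23 / 10 by linarith)]
  have hbr : (β ^ 2 + 2 * m * β - 3 - 5 / 4 * (2 * β + m - 3)) * β ^ 2 ≤ 0 := by
    have e : (β ^ 2 + 2 * m * β - 3 - 5 / 4 * (2 * β + m - 3)) * β ^ 2
        = (β - 1) ^ 2 * (β ^ 2 - β / 2 - 5 / 4) + (m * β ^ 2 - 1) * (2 * β - 5 / 4) := by ring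
    rw [e, hmβ]
    nlinarith [mul_nonneg (sq_nonneg (β - 1)) (neg_nonneg.mpr hquad)]
  have hbr2 : β ^ 2 + 2 * m * β - 3 - 5 / 4 * (2 * β + m - 3) ≤ 0 := by
    by_contra hlt
    push Not at hlt
    have : 0 < (β ^ 2 + 2 * m * β - 3 - 5 / 4 * (2 * β + m - 3)) * β ^ 2 := by positivity
    linarith
  have h3 : 0 ≤ (u + v - 2 * β) * (5 / 4 - m) := mul_nonneg (by linarith) (by linarith)
  nlinarith

/-- Comparison of the two mean eigenvalues. -/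
lemma lam {u v m : ℝ} (hu : 0 < u) (hv : 0 < v) (hm : 0 < m) (h : u * v * m = 1)
    (hs : u + v + m ≤ 33 / 10) :
    (u * v + v * m + m * u) - 3 ≤ 5 / 4 * (u + v + m - 3) := by
  rcases le_total m u with h1 | h1
  · rcases le_total m v with h2 | h2
    · exact lam_aux hu hv hm h h1 h2 hs
    · have := lam_aux hm hu hv (by linarith) h2 (h2.trans h1) (by linarith)
      linarith
  · rcases le_total u v with h2 | h2
    · have := lam_aux hv hm hu (by linarith) h2 h1 (by linarith)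
      linarith
    · have := lam_aux hm hu hv (by linarith) (h2.trans h1) h2 (by linarith)
      linarith

/-- One-variable part of the final inequality. -/
lemma one_var {u : ℝ} (h0 : 0 ≤ u) (h1 : u ≤ 1) {A : ℝ}
    (hA1 : 1 - 577 / 200 * u + 4 * u ^ 2 ≤ A) (hA2 : (1 + 2 * u) ^ 2 - 9 / 2 ≤ A)
    (hc : 4 - 739 / 80 * u + 4 * u ^ 2 - 9 * u ^ 3 ≤ 0) :
    (4 - 739 / 80 * u + 4 * u ^ 2 - 9 * u ^ 3) ^ 2 ≤ 4 * A * (2 + u) ^ 2 := by
  have hu : 2 / 5 ≤ u := by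
    by_contra hlt
    push Not at hlt
    nlinarith [sq_nonneg u, mul_nonneg h0 (sq_nonneg u), mul_nonneg h0 (sub_nonneg.mpr hlt.le),
      mul_nonneg (mul_nonneg h0 h0) (sub_nonneg.mpr hlt.le)]
  set C := -(4 - 739 / 80 * u + 4 * u ^ 2 - 9 * u ^ 3) with hC
  have hC0 : 0 ≤ C := by linarith
  have e : (4 - 739 / 80 * u + 4 * u ^ 2 - 9 * u ^ 3) ^ 2 = C ^ 2 := by rw [hC]; ring
  rw [e]
  rcases le_total u (13 / 20) with h2 | h2
  · have hC1 : C ≤ 14 / 5 := by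
      rw [hC]
      nlinarith [mul_nonneg h0 (sub_nonneg.mpr h2), mul_nonneg (mul_nonneg h0 h0) (sub_nonneg.mpr h2)]
    have hA : 4797 / 10000 ≤ A := by nlinarith [sq_nonneg (u - 577 / 1600)]
    have h3 : (2 + 2 / 5) ^ 2 ≤ (2 + u) ^ 2 := pow_le_pow_left₀ (by norm_num) (by linarith) 2
    have h4 : 4 * (4797 / 10000) * (2 + 2 / 5) ^ 2 ≤ 4 * A * (2 + u) ^ 2 :=
      mul_le_mul (by linarith) h3 (by norm_num) (by linarith)
    have h5 : C ^ 2 ≤ (14 / 5) ^ 2 := pow_le_pow_left₀ hC0 hC1 2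
    norm_num at h4 h5 ⊢
    linarith
  · have hg : C ≤ 2129 / 100 * u - 1105 / 100 := by
      rw [hC]
      nlinarith [mul_nonneg (sub_nonneg.mpr h2) (sub_nonneg.mpr h1),
        mul_nonneg (mul_nonneg (sub_nonneg.mpr h2) (sub_nonneg.mpr h1)) h0]
    have h3 : C ^ 2 ≤ (2129 / 100 * u - 1105 / 100) ^ 2 := pow_le_pow_left₀ hC0 hg 2
    have h4 : 4 * ((1 + 2 * u) ^ 2 - 9 / 2) * (2 + u) ^ 2 ≤ 4 * A * (2 + u) ^ 2 :=
      mul_le_mul_of_nonneg_right (by linarith) (by positivity)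
    nlinarith [mul_nonneg (sub_nonneg.mpr h2) (sub_nonneg.mpr h1),
        mul_nonneg (mul_nonneg (sub_nonneg.mpr h2) (sub_nonneg.mpr h1)) h0,
        mul_nonneg (mul_nonneg (sub_nonneg.mpr h2) (sub_nonneg.mpr h1)) (mul_nonneg h0 h0)]

/-- The final inequality when the two smaller numbers agree. -/
lemma two_eq {a u : ℝ} (hu : 0 < u) (hau : u ≤ a) (hR : a * u ^ 2 ≤ 1)
    (hQ : 2 * a * u + u ^ 2 ≤ 3 + 3 / 10 * (a * u ^ 2)) :
    a * u ^ 2 * (1539 / 80 + 9 / 2 * (a ^ 2 + 2 * u ^ 2)) ≤ (a + 2 * u + 2 * a * u + u ^ 2) ^ 2 := by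
  have hu1 : u ≤ 1 := by
    by_contra hlt
    push Not at hlt
    have : 1 < a := lt_of_lt_of_le hlt hau
    have h2 : 1 < u ^ 2 := by nlinarith
    nlinarith
  have ha : 0 < a := lt_of_lt_of_le hu hau
  -- bound of `a * u ^ 2` by `1.53 u`
  have hR2 : a * u ^ 2 ≤ 153 / 100 * u := by
    have h1 : a * u ^ 2 * (2 - 3 / 10 * u) ≤ u * (3 - u ^ 2) := by
      have := mul_le_mul_of_nonneg_left hQ hu.le
      nlinarith
    have h2 : u * (3 - u ^ 2) ≤ 153 / 100 * u * (2 - 3 / 10 * u) := by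
      have : 3 - u ^ 2 ≤ 153 / 100 * (2 - 3 / 10 * u) := by nlinarith [sq_nonneg (u - 459 / 2000)]
      nlinarith
    have h3 : 0 < 2 - 3 / 10 * u := by linarith
    exact le_of_mul_le_mul_right (h1.trans h2) h3
  set A := (1 + 2 * u) ^ 2 - 9 / 2 * (a * u ^ 2) with hA
  have hA1 : 1 - 577 / 200 * u + 4 * u ^ 2 ≤ A := by rw [hA]; nlinarith
  have hA2 : (1 + 2 * u) ^ 2 - 9 / 2 ≤ A := by rw [hA]; linarith
  have hA0 : 0 < A := by nlinarith [sq_nonneg (u - 577 / 1600)]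
  have e : (a + 2 * u + 2 * a * u + u ^ 2) ^ 2
      - a * u ^ 2 * (1539 / 80 + 9 / 2 * (a ^ 2 + 2 * u ^ 2))
      = A * a ^ 2 + u * (4 - 739 / 80 * u + 4 * u ^ 2 - 9 * u ^ 3) * a + u ^ 2 * (2 + u) ^ 2 := by
    rw [hA]; ring
  suffices 0 ≤ A * a ^ 2 + u * (4 - 739 / 80 * u + 4 * u ^ 2 - 9 * u ^ 3) * a
      + u ^ 2 * (2 + u) ^ 2 by linarith
  rcases le_total 0 (4 - 739 / 80 * u + 4 * u ^ 2 - 9 * u ^ 3) with h | h
  · positivity
  · have h1 := one_var hu.le hu1 hA1 hA2 h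
    set c := 4 - 739 / 80 * u + 4 * u ^ 2 - 9 * u ^ 3
    have h2 : 0 ≤ 4 * A * (A * a ^ 2 + u * c * a + u ^ 2 * (2 + u) ^ 2) := by
      have : 4 * A * (A * a ^ 2 + u * c * a + u ^ 2 * (2 + u) ^ 2)
        = (2 * A * a + u * c) ^ 2 + u ^ 2 * (4 * A * (2 + u) ^ 2 - c ^ 2) := by ring
      rw [this]
      have := mul_nonneg (sq_nonneg u) (sub_nonneg.mpr h1)
      positivity
    by_contra hlt
    push Not at hlt
    have : 4 * A * (A * a ^ 2 + u * c * a + u ^ 2 * (2 + u) ^ 2) < 0 :=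
      mul_neg_of_pos_of_neg (by positivity) hlt
    linarith

/-- The final inequality in terms of the three singular values. -/
lemma diamond {a b c : ℝ} (hc : 0 < c) (hcb : c ≤ b) (hba : b ≤ a) (hR : a * b * c ≤ 1)
    (hQ : a * b + b * c + c * a ≤ 3 + 3 / 10 * (a * b * c)) :
    a * b * c * (1539 / 80 + 9 / 2 * (a ^ 2 + b ^ 2 + c ^ 2))
      ≤ (a + b + c + a * b + b * c + c * a) ^ 2 := by
  have hb : 0 < b := lt_of_lt_of_le hc hcb
  have ha : 0 < a := lt_of_lt_of_le hb hba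
  obtain ⟨u, hu0, hu⟩ : ∃ u : ℝ, 0 < u ∧ u ^ 2 = b * c :=
    ⟨Real.sqrt (b * c), Real.sqrt_pos.mpr (mul_pos hb hc), Real.sq_sqrt (mul_pos hb hc).le⟩
  have hua : u ≤ a := by
    by_contra hlt
    push Not at hlt
    have : b * c ≤ a * a := mul_le_mul hba (hcb.trans hba) hc.le ha.le
    nlinarith
  set y := b + c with hy
  have hy1 : 2 * u ≤ y := by
    by_contra hlt
    push Not at hlt
    have h1 : y ^ 2 < (2 * u) ^ 2 := pow_lt_pow_left₀ hlt (by positivity) (by norm_num)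
    nlinarith [sq_nonneg (b - c)]
  have hy2 : y + 2 * u ≤ 4 * a := by linarith
  have hR' : a * u ^ 2 ≤ 1 := by rw [hu]; linarith
  have hQ' : 2 * a * u + u ^ 2 ≤ 3 + 3 / 10 * (a * u ^ 2) := by
    have h1 : a * (2 * u) ≤ a * y := mul_le_mul_of_nonneg_left hy1 ha.le
    have h2 : a * u ^ 2 = a * b * c := by rw [hu]; ring
    rw [h2, hu]
    have h3 : a * y = a * b + c * a := by rw [hy]; ring
    linarith
  have hE := two_eq hu0 hua hR' hQ'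
  have hbr : 0 ≤ 2 * (1 + a) * (a + u ^ 2) + ((1 + a) ^ 2 - 9 / 2 * (a * u ^ 2)) * (y + 2 * u) := by
    rcases le_total 0 ((1 + a) ^ 2 - 9 / 2 * (a * u ^ 2)) with h | h
    · positivity
    · have h1 : ((1 + a) ^ 2 - 9 / 2 * (a * u ^ 2)) * (4 * a)
          ≤ ((1 + a) ^ 2 - 9 / 2 * (a * u ^ 2)) * (y + 2 * u) :=
        mul_le_mul_of_nonpos_left hy2 h
      have h2 : 0 ≤ 2 * (1 + a) + 4 * (1 + a) ^ 2 - 18 * (a * u ^ 2) := by
        rcases le_total 1 a with h3 | h3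
        · nlinarith
        · have h4 : a * u ^ 2 ≤ a ^ 3 := by
            have : u ^ 2 ≤ a ^ 2 := pow_le_pow_left₀ hu0.le hua 2
            nlinarith
          nlinarith [mul_nonneg ha.le (sub_nonneg.mpr h3),
            mul_nonneg (mul_nonneg ha.le ha.le) (sub_nonneg.mpr h3)]
      have h5 := mul_nonneg ha.le h2
      nlinarith [mul_nonneg (show (0:ℝ) ≤ 1 + a by linarith) (sq_nonneg u)]
  have hfin := mul_nonneg (sub_nonneg.mpr hy1) hbr
  have e1 : (a + b + c + a * b + b * c + c * a) ^ 2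
      - a * b * c * (1539 / 80 + 9 / 2 * (a ^ 2 + b ^ 2 + c ^ 2))
      = ((a + 2 * u + 2 * a * u + u ^ 2) ^ 2
        - a * u ^ 2 * (1539 / 80 + 9 / 2 * (a ^ 2 + 2 * u ^ 2)))
        + (y - 2 * u) * (2 * (1 + a) * (a + u ^ 2)
          + ((1 + a) ^ 2 - 9 / 2 * (a * u ^ 2)) * (y + 2 * u)) := by
    have e2 : a * b * c = a * u ^ 2 := by rw [hu]; ring
    have e3 : a + b + c + a * b + b * c + c * a = a + u ^ 2 + (1 + a) * y := by
      rw [hy, hu]; ring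
    have e4 : b ^ 2 + c ^ 2 = y ^ 2 - 2 * u ^ 2 := by rw [hy, hu]; ring
    have e5 : a ^ 2 + b ^ 2 + c ^ 2 = a ^ 2 + (y ^ 2 - 2 * u ^ 2) := by linarith
    rw [e2, e3, e5]
    ring
  linarith

lemma easy_case {S e δ : ℝ} (hS0 : 0 ≤ S) (hS : S ≤ 1 / 2) (he0 : 0 ≤ e) (heδ : e ≤ 5 / 4 * δ)
    (he8 : e ≤ 1 / 8) : 2 * (10 / 9 * S * (2 * e + e ^ 2 - δ)) ≤ 2 * δ + δ ^ 2 + e := by
  have h7 : e ^ 2 ≤ e / 8 := by nlinarith
  have h8 : 0 ≤ δ ^ 2 := sq_nonneg δ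
  rcases le_total 0 (2 * e + e ^ 2 - δ) with h5 | h5
  · have h6 : S * (2 * e + e ^ 2 - δ) ≤ 1 / 2 * (2 * e + e ^ 2 - δ) :=
      mul_le_mul_of_nonneg_right hS h5
    linarith
  · have h6 : S * (2 * e + e ^ 2 - δ) ≤ 0 := mul_nonpos_of_nonneg_of_nonpos hS0 h5
    linarith

lemma loss_case {S e δ L : ℝ} (hS : 1 / 2 ≤ S) (he0 : 0 ≤ e) (heδ : e ≤ 5 / 4 * δ)
    (hL : L = 5 / 3 * S + 3 / 8) :
    L / 2 * (-2 * δ - δ ^ 2) + (10 / 9 * S * (2 * e + e ^ 2 - δ)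
        + 1 / 2 * (2 * δ + δ ^ 2 - e)) ≤ 41 / 100 * L * e ^ 2 := by
  have h6 : 0 ≤ (20 / 9 * S - 1 / 2) * (5 / 4 * δ - e) :=
    mul_nonneg (by linarith) (by linarith)
  have h7 : 16 / 25 * e ^ 2 ≤ δ ^ 2 := by
    have h : (4 / 5 * e) ^ 2 ≤ δ ^ 2 := pow_le_pow_left₀ (by positivity) (by linarith) 2
    linarith
  have h8 : (L - 1) / 2 * (16 / 25 * e ^ 2) ≤ (L - 1) / 2 * δ ^ 2 :=
    mul_le_mul_of_nonneg_left h7 (by linarith)
  have h9 : (26 / 45 * S + 1 / 5) * e ^ 2 ≤ 41 / 100 * L * e ^ 2 :=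
    mul_le_mul_of_nonneg_right (by linarith) (sq_nonneg e)
  rw [hL] at h8 h9 ⊢
  linarith

lemma weight {L X w l : ℝ} (hL0 : 0 < L) (h : X = w + l) :
    X ^ 2 ≤ (2 + L) / 2 * w ^ 2 + (2 + L) / L * l ^ 2 := by
  have h3 : (2 + L) / 2 * w ^ 2 + (2 + L) / L * l ^ 2 - (w + l) ^ 2
      = (L * w - 2 * l) ^ 2 / (2 * L) := by
    field_simp; ring
  have h4 : 0 ≤ (L * w - 2 * l) ^ 2 / (2 * L) := by positivity
  rw [h]; linarith

lemma h10_aux {L w l z δ S e : ℝ} (hL0 : 0 < L) (hw2 : w ^ 2 < z / 5 - 2 * δ - δ ^ 2)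
    (hl2 : l ^ 2 ≤ 10 / 9 * S * (2 * e + e ^ 2 - δ) + 1 / 2 * (2 * δ + δ ^ 2 - e))
    (h5 : L / 2 * (-2 * δ - δ ^ 2) + (10 / 9 * S * (2 * e + e ^ 2 - δ)
        + 1 / 2 * (2 * δ + δ ^ 2 - e)) ≤ 41 / 100 * L * e ^ 2) :
    (2 + L) / 2 * w ^ 2 + (2 + L) / L * l ^ 2
        < (2 + L) * z / 10 + (2 + L) * (41 / 100 * e ^ 2) := by
  have h11 : (2 + L) / 2 * w ^ 2 < (2 + L) / 2 * (z / 5 - 2 * δ - δ ^ 2) :=
    mul_lt_mul_of_pos_left hw2 (by positivity)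
  have h12 : (2 + L) / L * l ^ 2 ≤ (2 + L) / L * (10 / 9 * S * (2 * e + e ^ 2 - δ)
      + 1 / 2 * (2 * δ + δ ^ 2 - e)) := mul_le_mul_of_nonneg_left hl2 (by positivity)
  have h13 : (2 + L) / L * (L / 2 * (-2 * δ - δ ^ 2) + (10 / 9 * S * (2 * e + e ^ 2 - δ)
      + 1 / 2 * (2 * δ + δ ^ 2 - e))) ≤ (2 + L) / L * (41 / 100 * L * e ^ 2) :=
    mul_le_mul_of_nonneg_left h5 (by positivity)
  have h14 : (2 + L) / L * (L / 2 * (-2 * δ - δ ^ 2)) = (2 + L) / 2 * (-2 * δ - δ ^ 2) := by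
    field_simp
  have h15 : (2 + L) / L * (41 / 100 * L * e ^ 2) = (2 + L) * (41 / 100 * e ^ 2) := by
    field_simp
  rw [mul_add, h14, h15] at h13
  have h16 : (2 + L) / 2 * (z / 5 - 2 * δ - δ ^ 2)
    = (2 + L) * z / 10 + (2 + L) / 2 * (-2 * δ - δ ^ 2) := by ring
  linarith

lemma h16_aux {L p q e z : ℝ} (hL0 : 0 < L) (he0 : 0 ≤ e) (hp0 : 0 < p) (hq0 : 0 < q)
    (hez : e ≤ z / 8) (hdia : (2 + L) * z / 10 ≤ (p + q) ^ 2 / 9) (hqp : q ≤ 11 / 10 * p) :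
    (2 + L) * (41 / 100 * e ^ 2) ≤ 2 * e * p * (p + q) / 9 := by
  have h17 : (2 + L) * e ≤ (2 + L) * (z / 8) := mul_le_mul_of_nonneg_left hez (by positivity)
  have h18 : (2 + L) * e ≤ 10 / 8 * ((p + q) ^ 2 / 9) := by linarith
  have h19 : (2 + L) * e * (41 / 100 * e) ≤ 10 / 8 * ((p + q) ^ 2 / 9) * (41 / 100 * e) :=
    mul_le_mul_of_nonneg_right h18 (by positivity)
  have h22 : 10 / 8 * (41 / 100) * (p + q) ≤ 2 * p := by linarith
  have h23 : 10 / 8 * (41 / 100) * (p + q) * (e * (p + q)) ≤ 2 * p * (e * (p + q)) :=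
    mul_le_mul_of_nonneg_right h22 (by positivity)
  have h24 : 10 / 8 * ((p + q) ^ 2 / 9) * (41 / 100 * e)
    = 10 / 8 * (41 / 100) * (p + q) * (e * (p + q)) / 9 := by ring
  have h25 : (2 + L) * (41 / 100 * e ^ 2) = (2 + L) * e * (41 / 100 * e) := by ring
  have h26 : 2 * e * p * (p + q) / 9 = 2 * p * (e * (p + q)) / 9 := by ring
  rw [h25, h26]
  linarith

lemma sq_bound {z w t : ℝ} (hz0 : 0 ≤ z) (h : t ^ 2 + w ^ 2 < 1 + z / 5) :
    t < 1 + z / 10 := by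
  by_contra h1
  push Not at h1
  have h2 : (1 + z / 10) ^ 2 ≤ t ^ 2 := pow_le_pow_left₀ (by positivity) h1 2
  nlinarith [sq_nonneg w, sq_nonneg z]

lemma pq_aux {a b c : ℝ} (ha : 0 < a) (hb : 0 < b) (hc : 0 < c) :
    9 * (a * b * c) ≤ (a + b + c) * (a * b + b * c + c * a) := by
  nlinarith [mul_nonneg ha.le (sq_nonneg (b - c)), mul_nonneg hb.le (sq_nonneg (a - c)),
      mul_nonneg hc.le (sq_nonneg (a - b))]

lemma q_le {a b c : ℝ} : 3 * (a * b + b * c + c * a) ≤ (a + b + c) ^ 2 := by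
  nlinarith [sq_nonneg (a - b), sq_nonneg (b - c), sq_nonneg (a - c)]

lemma qp_aux {p q : ℝ} (hp : 0 < p) (h1 : q ≤ p ^ 2) (h2 : q ≤ 11 / 10) : q ≤ 11 / 10 * p := by
  rcases le_total 1 p with h | h
  · linarith
  · nlinarith

/-- The scalar inequality behind the main theorem. -/
theorem scalar_final {k₁ k₂ k₃ a b c α w t k p q : ℝ} (hk₁ : 0 < k₁) (hk₂ : 0 < k₂) (hk₃ : 0 < k₃)
    (hk : k₁ * k₂ * k₃ = 1) (hc : 0 < c) (hcb : c ≤ b) (hba : b ≤ a) (hz : a * b * c ≤ 1)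
    (ht : 3 * t = k₁ * k₂ + k₂ * k₃ + k₃ * k₁) (hkk : 3 * k = k₁ + k₂ + k₃)
    (hp : 3 * p = a + b + c) (hq : 3 * q = a * b + b * c + c * a)
    (hα : 0 ≤ α) (hα1 : t ^ 2 + w ^ 2 ≤ α ^ 2) (hα2 : q ≤ α)
    (hw : ((k * p + q) / 3 - w) ^ 2
      ≤ 10 / 9 * (k ^ 2 - t) * (3 * p ^ 2 - 2 * q) + 1 / 2 * (t ^ 2 - k)) :
    1 + a * b * c / 5 ≤ α ^ 2 := by
  by_contra hlt
  push Not at hlt
  have hb : 0 < b := lt_of_lt_of_le hc hcb
  have ha : 0 < a := lt_of_lt_of_le hb hba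
  set z := a * b * c with hzdef
  have hz0 : 0 < z := by positivity
  have hp0 : 0 < p := by linarith
  have hq0 : 0 < q := by
    have : 0 < a * b + b * c + c * a := by positivity
    linarith
  have ht0 : 0 < t := by
    have : 0 < k₁ * k₂ + k₂ * k₃ + k₃ * k₁ := by positivity
    linarith
  have ht1 : t < 1 + z / 10 := sq_bound (w := w) hz0.le (by linarith)
  have hq1 : q < 1 + z / 10 := by
    have h2 : q ^ 2 ≤ α ^ 2 := pow_le_pow_left₀ hq0.le hα2 2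
    exact sq_bound (w := 0) hz0.le (by linarith)
  -- comparison of `k` and `t`
  have hk1 : 1 ≤ k := by
    have := amgm3_one hk₁ hk₂ hk₃ hk
    linarith
  have hprod : (k₁ * k₂) * (k₂ * k₃) * (k₃ * k₁) = 1 := by
    have : (k₁ * k₂) * (k₂ * k₃) * (k₃ * k₁) = (k₁ * k₂ * k₃) ^ 2 := by ring
    rw [this, hk]; norm_num
  have ht2 : 1 ≤ t := by
    have := amgm3_one (mul_pos hk₁ hk₂) (mul_pos hk₂ hk₃) (mul_pos hk₃ hk₁) hprod
    linarith
  have hkt : k - 1 ≤ 5 / 4 * (t - 1) := by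
    have h1 := lam (mul_pos hk₁ hk₂) (mul_pos hk₂ hk₃) (mul_pos hk₃ hk₁) hprod (by linarith)
    have h2 : (k₁ * k₂) * (k₂ * k₃) + (k₂ * k₃) * (k₃ * k₁) + (k₃ * k₁) * (k₁ * k₂)
        = k₁ * k₂ * k₃ * (k₁ + k₂ + k₃) := by ring
    rw [h2, hk, ← hkk, ← ht] at h1
    linarith
  obtain ⟨δ, hδ⟩ : ∃ δ, δ = t - 1 := ⟨_, rfl⟩
  obtain ⟨e, he⟩ : ∃ e, e = k - 1 := ⟨_, rfl⟩
  have hδ0 : 0 ≤ δ := by linarith
  have hδz : δ ≤ z / 10 := by linarith
  have he0 : 0 ≤ e := by linarith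
  have heδ : e ≤ 5 / 4 * δ := by linarith
  have hez : e ≤ z / 8 := by linarith
  have htd : t = 1 + δ := by linarith
  have hke : k = 1 + e := by linarith
  obtain ⟨S, hS⟩ : ∃ S, S = 3 * p ^ 2 - 2 * q := ⟨_, rfl⟩
  have hS3 : 3 * S = a ^ 2 + b ^ 2 + c ^ 2 := by
    have h1 : 3 * S = (3 * p) ^ 2 - 2 * (3 * q) := by rw [hS]; ring
    rw [h1, hp, hq]; ring
  have hS0 : 0 < S := by
    have : 0 < a ^ 2 + b ^ 2 + c ^ 2 := by positivity
    linarith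
  rw [← hS] at hw
  obtain ⟨X, hX⟩ : ∃ X, X = (k * p + q) / 3 := ⟨_, rfl⟩
  obtain ⟨l, hl⟩ : ∃ l, l = X - w := ⟨_, rfl⟩
  rw [← hX, ← hl] at hw
  have hw2 : w ^ 2 < z / 5 - 2 * δ - δ ^ 2 := by
    have : t ^ 2 = 1 + 2 * δ + δ ^ 2 := by rw [htd]; ring
    linarith
  have hl2 : l ^ 2 ≤ 10 / 9 * S * (2 * e + e ^ 2 - δ) + 1 / 2 * (2 * δ + δ ^ 2 - e) := by
    have h1 : 10 / 9 * (k ^ 2 - t) * S + 1 / 2 * (t ^ 2 - k)
      = 10 / 9 * S * (2 * e + e ^ 2 - δ) + 1 / 2 * (2 * δ + δ ^ 2 - e) := by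
      rw [htd, hke]; ring
    linarith
  have hX2 : ((p + q) ^ 2 + 2 * e * p * (p + q)) / 9 ≤ X ^ 2 := by
    have : X ^ 2 = ((p + q) ^ 2 + 2 * e * p * (p + q)) / 9 + (e * p) ^ 2 / 9 := by
      rw [hX, hke]; ring
    rw [this]
    have := sq_nonneg (e * p)
    linarith
  have hpqz : z ≤ p * q := by
    have h1 := pq_aux ha hb hc
    rw [← hp, ← hq] at h1
    linarith
  rcases le_total S (1 / 2) with hcase | hcase
  · -- the easy case
    have h1 : X ^ 2 ≤ 2 * w ^ 2 + 2 * l ^ 2 := by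
      have h : X = w + l := by linarith
      rw [h]
      have h' := sq_nonneg (w - l)
      linarith
    have h2 : 4 * z / 9 ≤ ((p + q) ^ 2 + 2 * e * p * (p + q)) / 9 := by
      have h3 : 0 ≤ 2 * e * p * (p + q) := by positivity
      have h4 := sq_nonneg (p - q)
      linarith
    have h4 := easy_case hS0.le hcase he0 heδ (by linarith)
    linarith
  · -- the main case
    obtain ⟨L, hL⟩ : ∃ L, L = 5 / 3 * S + 3 / 8 := ⟨_, rfl⟩
    have hL0 : 0 < L := by linarith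
    have h1 := weight (X := X) (w := w) (l := l) hL0 (by linarith)
    have hdia : (2 + L) * z / 10 ≤ (p + q) ^ 2 / 9 := by
      have h2 := diamond hc hcb hba hz (by rw [← hq]; linarith)
      have h3 : a + b + c + a * b + b * c + c * a = 3 * (p + q) := by linarith
      rw [h3, ← hS3, ← hzdef] at h2
      rw [hL]
      linarith
    have h5 := loss_case hcase he0 heδ hL
    have h10 := h10_aux hL0 hw2 hl2 h5
    have hqp : q ≤ 11 / 10 * p := by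
      have h20 := @q_le a b c
      rw [← hp, ← hq] at h20
      exact qp_aux hp0 (by linarith) (by linarith)
    have h16 := h16_aux hL0 he0 hp0 hq0 hez hdia hqp
    linarith

end Pool.Agent.Lib_helper76.IcoScalar
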