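import Pool.Agent.Lib_helper76.IcoAlg
import Pool.Agent.Lib_helper76.IcoLoss
import Pool.Agent.Lib_helper76.IcoScalar
import Pool.Agent.Lib_helper76.IcoPolar
import Pool.Agent.Lib_helper76.IcoCoreFace
import Pool.Agent.Lib_helper76.IcoCoreMat

/-!
The core inequality: test field argument in the polar gauge.
-/

open Matrix

namespace Pool.Agent.Lib_helper76.Ico

lemma orth_dot {A : Matrix (Fin 3) (Fin 3) ℝ} (hA : Aᵀ * A = 1) (u v : Fin 3 → ℝ) :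
    (A *ᵥ u) ⬝ᵥ (A *ᵥ v) = u ⬝ᵥ v := by
  rw [Matrix.dotProduct_mulVec, Matrix.vecMul_mulVec, hA, Matrix.vecMul_one]

lemma orth_comm {A : Matrix (Fin 3) (Fin 3) ℝ} (hA : Aᵀ * A = 1) : A * Aᵀ = 1 :=
  mul_eq_one_comm.mp hA

lemma dot_nonneg (v : Fin 3 → ℝ) : 0 ≤ v ⬝ᵥ v := by
  simp only [dotProduct, Fin.sum_univ_three]
  nlinarith [mul_self_nonneg (v 0), mul_self_nonneg (v 1), mul_self_nonneg (v 2)]

/-- Cauchy-Schwarz for three-vectors. -/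
lemma dot_le {u v : Fin 3 → ℝ} (hv : v ⬝ᵥ v ≤ 3) :
    u ⬝ᵥ v ≤ Real.sqrt 3 * Real.sqrt (u ⬝ᵥ u) := by
  have h1 : (u ⬝ᵥ v) ^ 2 ≤ (u ⬝ᵥ u) * (v ⬝ᵥ v) := by
    simp only [dotProduct, Fin.sum_univ_three]
    nlinarith [sq_nonneg (u 0 * v 1 - u 1 * v 0), sq_nonneg (u 0 * v 2 - u 2 * v 0),
      sq_nonneg (u 1 * v 2 - u 2 * v 1)]
  have h2 : (u ⬝ᵥ v) ^ 2 ≤ 3 * (u ⬝ᵥ u) := by nlinarith [dot_nonneg u]
  rw [← Real.sqrt_mul (by norm_num)]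
  exact Real.le_sqrt_of_sq_le h2

lemma kap_props {R G : Matrix (Fin 3) (Fin 3) ℝ} (hR : Rᵀ * R = 1) (hG : Gᵀ * G = 1)
    {n nt : Fin 3 → ℝ} (hn : n ⬝ᵥ n = 3) (hnt : G *ᵥ n = nt) :
    n ⬝ᵥ kap R G n nt = 0 ∧ kap R G n nt ⬝ᵥ kap R G n nt ≤ 3 := by
  have hR' := orth_comm hR
  have hG' := orth_comm hG
  have e1 : n ⬝ᵥ (Gᵀ *ᵥ (Rᵀ *ᵥ n)) = n ⬝ᵥ (R *ᵥ nt) := by
    rw [Matrix.dotProduct_mulVec, Matrix.vecMul_transpose, hnt, Matrix.dotProduct_mulVec,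
      Matrix.vecMul_transpose, dotProduct_comm]
  have e2 : (R *ᵥ nt) ⬝ᵥ (R *ᵥ nt) = 3 := by
    rw [orth_dot hR, ← hnt, orth_dot hG, hn]
  have e3 : (Gᵀ *ᵥ (Rᵀ *ᵥ n)) ⬝ᵥ (Gᵀ *ᵥ (Rᵀ *ᵥ n)) = 3 := by
    rw [orth_dot (by rw [Matrix.transpose_transpose]; exact hG'),
      orth_dot (by rw [Matrix.transpose_transpose]; exact hR'), hn]
  constructor
  · rw [kap, dotProduct_smul, dotProduct_sub, e1]; simp
  · set u := R *ᵥ nt
    set v := Gᵀ *ᵥ (Rᵀ *ᵥ n)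
    have h := dot_nonneg (u + v)
    rw [kap, dotProduct_smul, smul_dotProduct, dotProduct_sub, sub_dotProduct, sub_dotProduct]
    rw [add_dotProduct, dotProduct_add, dotProduct_add] at h
    rw [e2, e3] at *
    simp only [smul_eq_mul]
    have hc : v ⬝ᵥ u = u ⬝ᵥ v := dotProduct_comm v u
    linarith

lemma face_bound {S n κ : Fin 3 → ℝ} {c s : ℝ} (hcs : c ^ 2 + s ^ 2 ≤ 1) (hn : n ⬝ᵥ n = 3)
    (h0 : n ⬝ᵥ κ = 0) (hκ : κ ⬝ᵥ κ ≤ 3) :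
    c * (S ⬝ᵥ n) + s * (S ⬝ᵥ κ) ≤ Real.sqrt 3 * Real.sqrt (S ⬝ᵥ S) := by
  have h1 : (c • n + s • κ) ⬝ᵥ (c • n + s • κ) ≤ 3 := by
    have h0' : κ ⬝ᵥ n = 0 := by rw [dotProduct_comm]; exact h0
    simp only [add_dotProduct, dotProduct_add, smul_dotProduct, dotProduct_smul, smul_eq_mul,
      hn, h0, h0']
    nlinarith [sq_nonneg s]
  have h2 := dot_le (u := S) h1
  rw [dotProduct_add, dotProduct_smul, dotProduct_smul, smul_eq_mul, smul_eq_mul] at h2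
  exact h2

/-- Sum of the norms of the ten face vectors. -/
noncomputable def Ssum (p q : Fin 3 → Fin 3 → ℝ) : ℝ :=
  ∑ i, Real.sqrt (fS (fx p q i) (fy p q i) (fz p q i) ⬝ᵥ fS (fx p q i) (fy p q i) (fz p q i))

lemma Ssum_nonneg (p q : Fin 3 → Fin 3 → ℝ) : 0 ≤ Ssum p q :=
  Finset.sum_nonneg fun _ _ => Real.sqrt_nonneg _

lemma sum10 (f : Fin 10 → ℝ) :
    ∑ i, f i = f 0 + f 1 + f 2 + f 3 + f 4 + f 5 + f 6 + f 7 + f 8 + f 9 := by
  simp only [Fin.sum_univ_succ, Fin.sum_univ_zero, Fin.succ_zero_eq_one, Fin.succ_one_eq_two]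

  ring_nf
  rfl

section field

variable {r : ℝ} {K Y R : Matrix (Fin 3) (Fin 3) ℝ} {p q : Fin 3 → Fin 3 → ℝ}

theorem field_bound (hr : r ^ 2 = 5)
    (h10 : K 1 0 = K 0 1) (h20 : K 2 0 = K 0 2) (h21 : K 2 1 = K 1 2)
    (hp : ∀ j i, p j i = K i j + Y i j)
    (hq : ∀ j i, q j i = (1 + r) / 2 * K i j + (1 - r) / 2 * Y i j)
    (hR : Rᵀ * R = 1) {c s : ℝ} (hcs : c ^ 2 + s ^ 2 ≤ 1) :
    c * (10 * (cof K 0 0 + cof K 1 1 + cof K 2 2))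
      + s * (10 * ip (cof K) (Wm r R) + 30 * ip Y (Psi r K R) + 10 / 3 * ip (cof Y) R)
      ≤ Real.sqrt 3 * Ssum p q := by
  have h : ∀ i : Fin 10, c * (fS (fx p q i) (fy p q i) (fz p q i) ⬝ᵥ fn r i)
      + s * (fS (fx p q i) (fy p q i) (fz p q i) ⬝ᵥ kap R (fG r i) (fn r i) (fn (-r) i))
      ≤ Real.sqrt 3 * Real.sqrt (fS (fx p q i) (fy p q i) (fz p q i)
        ⬝ᵥ fS (fx p q i) (fy p q i) (fz p q i)) := fun i =>
    face_bound hcs (fn_dot hr i)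
      (kap_props hR (fG_orth hr i) (fn_dot hr i) (fG_fn hr i)).1
      (kap_props hR (fG_orth hr i) (fn_dot hr i) (fG_fn hr i)).2
  have h2 := Finset.sum_le_sum (s := Finset.univ) (fun i _ => h i)
  rw [Finset.sum_add_distrib, ← Finset.mul_sum, ← Finset.mul_sum, ← Finset.mul_sum, sum10, sum10,
    ident_n hr h10 h20 h21 hp hq, ident_kap hr h10 h20 h21 hp hq] at h2
  exact h2

theorem conj_bound (hr : r ^ 2 = 5)
    (h10 : K 1 0 = K 0 1) (h20 : K 2 0 = K 0 2) (h21 : K 2 1 = K 1 2)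
    (hp : ∀ j i, p j i = K i j + Y i j)
    (hq : ∀ j i, q j i = (1 + r) / 2 * K i j + (1 - r) / 2 * Y i j)
    (hR : Rᵀ * R = 1) :
    10 * ip (cof Y) R ≤ Real.sqrt 3 * Ssum p q := by
  have hr' : (-r) ^ 2 = 5 := by rw [neg_sq]; exact hr
  have h : ∀ i : Fin 10, fS (fx p q i) (fy p q i) (fz p q i) ⬝ᵥ (R *ᵥ fn (-r) i)
      ≤ Real.sqrt 3 * Real.sqrt (fS (fx p q i) (fy p q i) (fz p q i)
        ⬝ᵥ fS (fx p q i) (fy p q i) (fz p q i)) := fun i =>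
    dot_le (by rw [orth_dot hR, fn_dot hr'])
  have h2 := Finset.sum_le_sum (s := Finset.univ) (fun i _ => h i)
  rw [← Finset.mul_sum, sum10, ident_nt hr h10 h20 h21 hp hq] at h2
  exact h2

end field

/-- The core inequality in the polar gauge. -/
theorem core {r : ℝ} (hr : r ^ 2 = 5) {K P R : Matrix (Fin 3) (Fin 3) ℝ}
    {p q : Fin 3 → Fin 3 → ℝ} (hKt : Kᵀ = K) (hPt : Pᵀ = P) (hR : Rᵀ * R = 1) (hRdet : R.det = 1)
    (hp : ∀ j i, p j i = K i j + (P * R) i j)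
    (hq : ∀ j i, q j i = (1 + r) / 2 * K i j + (1 - r) / 2 * (P * R) i j)
    {k₁ k₂ k₃ a b c : ℝ} (hk₁ : 0 < k₁) (hk₂ : 0 < k₂) (hk₃ : 0 < k₃)
    (hKtr : K.trace = k₁ + k₂ + k₃) (hKtr2 : (K * K).trace = k₁ ^ 2 + k₂ ^ 2 + k₃ ^ 2)
    (hKdet : K.det = 1) (hk : k₁ * k₂ * k₃ = 1)
    (hc : 0 < c) (hcb : c ≤ b) (hba : b ≤ a) (habc : a * b * c ≤ 1)
    (hPtr : P.trace = a + b + c) (hPtr2 : (P * P).trace = a ^ 2 + b ^ 2 + c ^ 2) :
    1 + a * b * c / 5 ≤ (Real.sqrt 3 * Ssum p q / 30) ^ 2 := by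
  have h10 : K 1 0 = K 0 1 := by
    have := congrFun (congrFun hKt 0) 1
    rwa [Matrix.transpose_apply] at this
  have h20 : K 2 0 = K 0 2 := by
    have := congrFun (congrFun hKt 0) 2
    rwa [Matrix.transpose_apply] at this
  have h21 : K 2 1 = K 1 2 := by
    have := congrFun (congrFun hKt 1) 2
    rwa [Matrix.transpose_apply] at this
  have hR' := orth_comm hR
  obtain ⟨α, hα⟩ : ∃ α, α = Real.sqrt 3 * Ssum p q / 30 := ⟨_, rfl⟩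
  have hα0 : 0 ≤ α := by
    rw [hα]
    have := Ssum_nonneg p q
    positivity
  rw [← hα]
  have hα30 : Real.sqrt 3 * Ssum p q = 30 * α := by rw [hα]; ring
  -- the mean eigenvalues
  obtain ⟨t, ht⟩ : ∃ t, 3 * t = k₁ * k₂ + k₂ * k₃ + k₃ * k₁ :=
    ⟨(k₁ * k₂ + k₂ * k₃ + k₃ * k₁) / 3, by ring⟩
  obtain ⟨k, hkk⟩ : ∃ k, 3 * k = k₁ + k₂ + k₃ := ⟨(k₁ + k₂ + k₃) / 3, by ring⟩
  obtain ⟨p0, hp0⟩ : ∃ p0, 3 * p0 = a + b + c := ⟨(a + b + c) / 3, by ring⟩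
  obtain ⟨q0, hq0⟩ : ∃ q0, 3 * q0 = a * b + b * c + c * a := ⟨(a * b + b * c + c * a) / 3, by ring⟩
  have hCtr : (cof K).trace = 3 * t := by
    have h := trace_cof K
    rw [hKtr, hKtr2] at h
    rw [ht]; linarith
  have hPC : (cof P).trace = 3 * q0 := by
    have h := trace_cof P
    rw [hPtr, hPtr2] at h
    rw [hq0]; linarith
  have hYR : ip (P * R) R = 3 * p0 := by
    rw [ip_eq_trace, Matrix.mul_assoc, hR', Matrix.mul_one, hPtr, hp0]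
  have hYY : ip (P * R) (P * R) = 9 * p0 ^ 2 - 6 * q0 := by
    rw [ip_eq_trace, Matrix.transpose_mul, hPt]
    have : P * R * (Rᵀ * P) = P * P := by
      calc P * R * (Rᵀ * P) = P * (R * Rᵀ) * P := by simp only [Matrix.mul_assoc]
        _ = P * P := by rw [hR', Matrix.mul_one]
    rw [this, hPtr2]
    have e : 9 * p0 ^ 2 - 6 * q0 = (3 * p0) ^ 2 - 2 * (3 * q0) := by ring
    rw [e, hp0, hq0]; ring
  have hcY : ip (cof (P * R)) R = 3 * q0 := by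
    rw [cof_mul, cof_orth hR hRdet, ip_eq_trace, Matrix.mul_assoc, hR', Matrix.mul_one, hPC]
  have hRR : ip R R = 3 := by
    rw [ip_eq_trace, hR']
    simp [Matrix.trace_one]
  have hKK : ip K K = 9 * k ^ 2 - 6 * t := by
    rw [ip_eq_trace, hKt, hKtr2]
    have e : 9 * k ^ 2 - 6 * t = (3 * k) ^ 2 - 2 * (3 * t) := by ring
    rw [e, hkk, ht]; ring
  have hCC : ip (cof K) (cof K) = 9 * t ^ 2 - 6 * k := by
    rw [ip_cof_cof K h10 h20 h21, hCtr, hKdet, hKtr, ← hkk]; ring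
  have hCtr' : cof K 0 0 + cof K 1 1 + cof K 2 2 = 3 * t := by
    rw [← hCtr]; simp [Matrix.trace, Fin.sum_univ_three]
  have hKtr' : K 0 0 + K 1 1 + K 2 2 = 3 * k := by
    rw [hkk, ← hKtr]; simp [Matrix.trace, Fin.sum_univ_three]
  -- the energy of the test field
  obtain ⟨w, hw⟩ : ∃ w, 30 * w = 10 * ip (cof K) (Wm r R) + 30 * ip (P * R) (Psi r K R)
      + 10 / 3 * ip (cof (P * R)) R :=
    ⟨(10 * ip (cof K) (Wm r R) + 30 * ip (P * R) (Psi r K R)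
      + 10 / 3 * ip (cof (P * R)) R) / 30, by ring⟩
  have hfield : ∀ c s : ℝ, c ^ 2 + s ^ 2 ≤ 1 → c * t + s * w ≤ α := by
    intro c s hcs
    have h := field_bound (R := R) hr h10 h20 h21 hp hq hR hcs
    rw [hCtr', ← hw, hα30] at h
    linarith
  have hα1 : t ^ 2 + w ^ 2 ≤ α ^ 2 := by
    rcases eq_or_lt_of_le (show 0 ≤ t ^ 2 + w ^ 2 by positivity) with h0 | h0
    · rw [← h0]; positivity
    · set d := Real.sqrt (t ^ 2 + w ^ 2) with hd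
      have hd0 : 0 < d := Real.sqrt_pos.mpr h0
      have hd2 : d ^ 2 = t ^ 2 + w ^ 2 := Real.sq_sqrt h0.le
      have h := hfield (t / d) (w / d) (by
        rw [div_pow, div_pow, ← add_div, hd2, div_self h0.ne'])
      have e : t / d * t + w / d * w = d := by
        field_simp
        linarith
      rw [e] at h
      rw [← hd2]
      exact pow_le_pow_left₀ hd0.le h 2
  have hα2 : q0 ≤ α := by
    have h := conj_bound (R := R) hr h10 h20 h21 hp hq hR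
    rw [hcY, hα30] at h
    linarith
  have hloss := loss hr (Y := P * R) h10 h20 h21 hRR (k := k) (t := t) hKtr'.symm hCtr'.symm
  rw [hKK, hYY, hCC, hYR] at hloss
  have hwf : ((k * p0 + q0) / 3 - w) ^ 2
      ≤ 10 / 9 * (k ^ 2 - t) * (3 * p0 ^ 2 - 2 * q0) + 1 / 2 * (t ^ 2 - k) := by
    rw [hcY] at hw
    have e : (k * p0 + q0) / 3 - w
        = -((10 * ip (cof K) (Wm r R) + 30 * ip (P * R) (Psi r K R)) / 30 - k / 9 * (3 * p0)) := by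
      linarith
    rw [e, neg_sq]
    refine hloss.trans (le_of_eq ?_)
    ring
  exact IcoScalar.scalar_final hk₁ hk₂ hk₃ hk hc hcb hba habc ht hkk hp0 hq0 hα0 hα1 hα2 hwf

end Pool.Agent.Lib_helper76.Ico
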