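import Pool.Agent.Lib_helper76.IcoCore

/-!
Gauge fixing, scaling, Galois duality and signs.
-/

open Matrix

namespace Pool.Agent.Lib_helper76.Ico

lemma fx_gauge (Q : Matrix (Fin 3) (Fin 3) ℝ) (p q : Fin 3 → Fin 3 → ℝ) (i : Fin 10) :
    fx (fun j => Q *ᵥ p j) (fun j => Q *ᵥ q j) i = Q *ᵥ fx p q i := by
  fin_cases i <;> simp [fx, Matrix.mulVec_add, Matrix.mulVec_sub, Matrix.mulVec_neg]

lemma fy_gauge (Q : Matrix (Fin 3) (Fin 3) ℝ) (p q : Fin 3 → Fin 3 → ℝ) (i : Fin 10) :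
    fy (fun j => Q *ᵥ p j) (fun j => Q *ᵥ q j) i = Q *ᵥ fy p q i := by
  fin_cases i <;> simp [fy, Matrix.mulVec_add, Matrix.mulVec_sub, Matrix.mulVec_neg]

lemma fz_gauge (Q : Matrix (Fin 3) (Fin 3) ℝ) (p q : Fin 3 → Fin 3 → ℝ) (i : Fin 10) :
    fz (fun j => Q *ᵥ p j) (fun j => Q *ᵥ q j) i = Q *ᵥ fz p q i := by
  fin_cases i <;> simp [fz, Matrix.mulVec_add, Matrix.mulVec_sub, Matrix.mulVec_neg]

lemma Ssum_gauge {Q : Matrix (Fin 3) (Fin 3) ℝ} (hQ : Qᵀ * Q = 1) (p q : Fin 3 → Fin 3 → ℝ) :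
    Ssum (fun j => Q *ᵥ p j) (fun j => Q *ᵥ q j) = Ssum p q := by
  unfold Ssum
  refine Finset.sum_congr rfl fun i _ => ?_
  rw [fx_gauge, fy_gauge, fz_gauge, fS_dot, fS_dot, ← Matrix.mulVec_sub, ← Matrix.mulVec_sub,
    orth_dot hQ, orth_dot hQ, orth_dot hQ]

lemma fx_smul (c : ℝ) (p q : Fin 3 → Fin 3 → ℝ) (i : Fin 10) :
    fx (fun j => c • p j) (fun j => c • q j) i = c • fx p q i := by
  fin_cases i <;> simp [fx, smul_add, smul_sub]

lemma fy_smul (c : ℝ) (p q : Fin 3 → Fin 3 → ℝ) (i : Fin 10) :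
    fy (fun j => c • p j) (fun j => c • q j) i = c • fy p q i := by
  fin_cases i <;> simp [fy, smul_add, smul_sub]

lemma fz_smul (c : ℝ) (p q : Fin 3 → Fin 3 → ℝ) (i : Fin 10) :
    fz (fun j => c • p j) (fun j => c • q j) i = c • fz p q i := by
  fin_cases i <;> simp [fz, smul_add, smul_sub]

lemma Ssum_smul (c : ℝ) (p q : Fin 3 → Fin 3 → ℝ) :
    Ssum (fun j => c • p j) (fun j => c • q j) = c ^ 2 * Ssum p q := by
  unfold Ssum
  rw [Finset.mul_sum]
  refine Finset.sum_congr rfl fun i _ => ?_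
  rw [fx_smul, fy_smul, fz_smul, fS_dot, fS_dot, ← smul_sub, ← smul_sub]
  simp only [smul_dotProduct, dotProduct_smul, smul_eq_mul]
  rw [← Real.sqrt_sq (sq_nonneg c), ← Real.sqrt_mul (by positivity)]
  congr 1
  ring

/-- The normalised area. -/
noncomputable def al (p q : Fin 3 → Fin 3 → ℝ) : ℝ := Real.sqrt 3 * Ssum p q / 30

lemma al_nonneg (p q : Fin 3 → Fin 3 → ℝ) : 0 ≤ al p q := by
  have := Ssum_nonneg p q
  unfold al
  positivity

lemma al_gauge {Q : Matrix (Fin 3) (Fin 3) ℝ} (hQ : Qᵀ * Q = 1) (p q : Fin 3 → Fin 3 → ℝ) :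
    al (fun j => Q *ᵥ p j) (fun j => Q *ᵥ q j) = al p q := by
  unfold al; rw [Ssum_gauge hQ]

lemma al_smul (c : ℝ) (p q : Fin 3 → Fin 3 → ℝ) :
    al (fun j => c • p j) (fun j => c • q j) = c ^ 2 * al p q := by
  unfold al; rw [Ssum_smul]; ring

/-- The two linear coordinates of a centrally symmetric configuration. -/
def Rep (r : ℝ) (N Y : Matrix (Fin 3) (Fin 3) ℝ) (p q : Fin 3 → Fin 3 → ℝ) : Prop :=
  (∀ j i, p j i = N i j + Y i j) ∧
    (∀ j i, q j i = (1 + r) / 2 * N i j + (1 - r) / 2 * Y i j)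

lemma Rep.gauge {r : ℝ} {N Y : Matrix (Fin 3) (Fin 3) ℝ} {p q : Fin 3 → Fin 3 → ℝ}
    (h : Rep r N Y p q) (Q : Matrix (Fin 3) (Fin 3) ℝ) :
    Rep r (Q * N) (Q * Y) (fun j => Q *ᵥ p j) (fun j => Q *ᵥ q j) := by
  constructor
  · intro j i
    simp only [Matrix.mulVec, dotProduct, Matrix.mul_apply, h.1, Fin.sum_univ_three]
    ring
  · intro j i
    simp only [Matrix.mulVec, dotProduct, Matrix.mul_apply, h.2, Fin.sum_univ_three]
    ring

lemma Rep.smul {r : ℝ} {N Y : Matrix (Fin 3) (Fin 3) ℝ} {p q : Fin 3 → Fin 3 → ℝ}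
    (h : Rep r N Y p q) (c : ℝ) :
    Rep r (c • N) (c • Y) (fun j => c • p j) (fun j => c • q j) := by
  constructor
  · intro j i
    simp only [Pi.smul_apply, Matrix.smul_apply, smul_eq_mul, h.1]
    ring
  · intro j i
    simp only [Pi.smul_apply, Matrix.smul_apply, smul_eq_mul, h.2]
    ring

lemma Rep.dual {r : ℝ} {N Y : Matrix (Fin 3) (Fin 3) ℝ} {p q : Fin 3 → Fin 3 → ℝ}
    (h : Rep r N Y p q) : Rep (-r) Y N p q := by
  constructor
  · intro j i; rw [h.1]; ring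
  · intro j i; rw [h.2]; ring

lemma Rep.neg {r : ℝ} {N Y : Matrix (Fin 3) (Fin 3) ℝ} {p q : Fin 3 → Fin 3 → ℝ}
    (h : Rep r N Y p q) :
    Rep r (-N) (-Y) (fun j => (-1 : ℝ) • p j) (fun j => (-1 : ℝ) • q j) := by
  have := h.smul (-1)
  simpa using this

lemma al_neg (p q : Fin 3 → Fin 3 → ℝ) :
    al (fun j => (-1 : ℝ) • p j) (fun j => (-1 : ℝ) • q j) = al p q := by
  rw [al_smul]; ring

/-- The weak bound by one of the two determinants. -/
lemma weak {r : ℝ} (hr : r ^ 2 = 5) {N Y : Matrix (Fin 3) (Fin 3) ℝ} {p q : Fin 3 → Fin 3 → ℝ}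
    (h : Rep r N Y p q) (hN : 0 < N.det) : N.det ^ 2 ≤ al p q ^ 3 := by
  obtain ⟨Q, K, s, hQ, hQdet, hKt, hNQ, hs, hKtr, hKtr2, hKdet⟩ := polar N hN
  have hQ' := orth_comm hQ
  have hg := h.gauge Qᵀ
  have hQN : Qᵀ * N = K := by rw [hNQ, ← Matrix.mul_assoc, hQ, Matrix.one_mul]
  rw [hQN] at hg
  have hal := al_gauge (Q := Qᵀ) (by rw [Matrix.transpose_transpose]; exact hQ') p q
  have h10 : K 1 0 = K 0 1 := by
    have := congrFun (congrFun hKt 0) 1
    rwa [Matrix.transpose_apply] at this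
  have h20 : K 2 0 = K 0 2 := by
    have := congrFun (congrFun hKt 0) 2
    rwa [Matrix.transpose_apply] at this
  have h21 : K 2 1 = K 1 2 := by
    have := congrFun (congrFun hKt 1) 2
    rwa [Matrix.transpose_apply] at this
  have hb := field_bound (R := 1) hr h10 h20 h21 hg.1 hg.2 (by simp) (c := 1) (s := 0) (by norm_num)
  have hb2 : (cof K).trace ≤ 3 * al p q := by
    rw [← hal]
    unfold al
    have e : (cof K).trace = cof K 0 0 + cof K 1 1 + cof K 2 2 := by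
      simp [Matrix.trace, Fin.sum_univ_three]
    rw [e]
    linarith
  have hdet : N.det = s 0 * s 1 * s 2 := by
    rw [hNQ, Matrix.det_mul, hQdet, hKdet, one_mul, Fin.prod_univ_three]
  have htr : (cof K).trace = s 0 * s 1 + s 1 * s 2 + s 2 * s 0 := by
    have h := trace_cof K
    rw [hKtr, hKtr2, Fin.sum_univ_three, Fin.sum_univ_three] at h
    linarith
  have ham := IcoScalar.amgm3 (mul_pos (hs 0) (hs 1)) (mul_pos (hs 1) (hs 2)) (mul_pos (hs 2) (hs 0))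
  rw [← htr] at ham
  have hpos : 0 ≤ (cof K).trace := by
    rw [htr]
    have := mul_pos (hs 0) (hs 1)
    have := mul_pos (hs 1) (hs 2)
    have := mul_pos (hs 2) (hs 0)
    linarith
  have h3 : (cof K).trace ^ 3 ≤ (3 * al p q) ^ 3 := pow_le_pow_left₀ hpos hb2 3
  rw [hdet]
  nlinarith

/-- The main inequality when the first determinant dominates. -/
lemma strong {r : ℝ} (hr : r ^ 2 = 5) {N Y : Matrix (Fin 3) (Fin 3) ℝ} {p q : Fin 3 → Fin 3 → ℝ}
    (h : Rep r N Y p q) (hN : 0 < N.det) (hY : 0 < Y.det) (hle : Y.det ≤ N.det) {θ : ℝ}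
    (hθ0 : 0 ≤ θ) (hθ : θ ≤ 146 / 1000) :
    (N.det + θ * Y.det) ^ 4 ≤ al p q ^ 6 := by
  -- scaling
  obtain ⟨c, hc0, hc⟩ : ∃ c : ℝ, 0 < c ∧ c ^ 3 = N.det := by
    refine ⟨N.det ^ ((1 : ℝ) / 3), Real.rpow_pos_of_pos hN _, ?_⟩
    rw [← Real.rpow_natCast, ← Real.rpow_mul hN.le]
    norm_num
  have hci : (c⁻¹) ^ 3 * N.det = 1 := by
    rw [← hc]; field_simp
  have h1 := h.smul c⁻¹
  have hal1 := al_smul c⁻¹ p q
  have hdetN : (c⁻¹ • N).det = 1 := by
    rw [Matrix.det_smul, Fintype.card_fin, hci]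
  have hdetY : (c⁻¹ • Y).det = (c⁻¹) ^ 3 * Y.det := by
    rw [Matrix.det_smul, Fintype.card_fin]
  have hz0 : 0 < (c⁻¹ • Y).det := by rw [hdetY]; positivity
  have hz1 : (c⁻¹ • Y).det ≤ 1 := by
    rw [hdetY, ← hci]
    exact mul_le_mul_of_nonneg_left hle (by positivity)
  -- polar decomposition of the first matrix
  obtain ⟨Q, K, s, hQ, hQdet, hKt, hNQ, hs, hKtr, hKtr2, hKdet⟩ :=
    polar (c⁻¹ • N) (by rw [hdetN]; norm_num)
  have hQ' := orth_comm hQ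
  have hg := h1.gauge Qᵀ
  have hQN : Qᵀ * (c⁻¹ • N) = K := by rw [hNQ, ← Matrix.mul_assoc, hQ, Matrix.one_mul]
  rw [hQN] at hg
  have hal2 := al_gauge (Q := Qᵀ) (by rw [Matrix.transpose_transpose]; exact hQ')
    (fun j => c⁻¹ • p j) (fun j => c⁻¹ • q j)
  have hKd1 : K.det = 1 := by
    have h2 : (c⁻¹ • N).det = Q.det * K.det := by rw [← Matrix.det_mul, ← hNQ]
    rw [hdetN, hQdet, one_mul] at h2
    exact h2.symm
  -- polar decomposition of the second matrix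
  have hY1det : (Qᵀ * (c⁻¹ • Y)).det = (c⁻¹ • Y).det := by
    rw [Matrix.det_mul, Matrix.det_transpose, hQdet, one_mul]
  have hY2 : 0 < ((Qᵀ * (c⁻¹ • Y))ᵀ).det := by
    rw [Matrix.det_transpose, hY1det]; exact hz0
  obtain ⟨S, P, s', hS, hSdet, hPt, hYS, hs', hPtr, hPtr2, hPdet⟩ := polar _ hY2
  have hYPR : Qᵀ * (c⁻¹ • Y) = P * Sᵀ := by
    have h3 := congrArg Matrix.transpose hYS
    rwa [Matrix.transpose_transpose, Matrix.transpose_mul, hPt] at h3
  have hS' := orth_comm hS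
  obtain ⟨a, b, c', hc', hcb, hba, hsum, hsum2, hprod⟩ := sort3 s' hs'
  have hPd : a * b * c' = (c⁻¹ • Y).det := by
    rw [← hprod, ← hPdet, ← hY1det, hYPR, Matrix.det_mul, Matrix.det_transpose, hSdet, mul_one]
  rw [hYPR] at hg
  have hKprod : s 0 * s 1 * s 2 = 1 := by
    rw [← hKd1, hKdet, Fin.prod_univ_three]
  have hcore := core hr (R := Sᵀ) hKt hPt (by rw [Matrix.transpose_transpose]; exact hS')
    (by rw [Matrix.det_transpose]; exact hSdet) hg.1 hg.2 (hs 0) (hs 1) (hs 2)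
    (by rw [hKtr, Fin.sum_univ_three]) (by rw [hKtr2, Fin.sum_univ_three]) hKd1 hKprod hc' hcb hba
    (by rw [hPd]; exact hz1) (by rw [hPtr, hsum]) (by rw [hPtr2, hsum2])
  have hcore2 : 1 + (c⁻¹ • Y).det / 5 ≤ (c⁻¹ ^ 2 * al p q) ^ 2 := by
    rw [← hal1, ← hal2, ← hPd]
    exact hcore
  obtain ⟨z, hz⟩ : ∃ z, z = (c⁻¹ • Y).det := ⟨_, rfl⟩
  rw [← hz] at hcore2 hz0 hz1
  obtain ⟨β, hβ⟩ : ∃ β, β = c⁻¹ ^ 2 * al p q := ⟨_, rfl⟩
  rw [← hβ] at hcore2
  have hβ6 : (1 + z / 5) ^ 3 ≤ β ^ 6 := by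
    have := pow_le_pow_left₀ (by positivity) hcore2 3
    calc (1 + z / 5) ^ 3 ≤ (β ^ 2) ^ 3 := this
      _ = β ^ 6 := by ring
  have hθz : (1 + θ * z) ^ 4 ≤ (1 + z / 5) ^ 3 := by
    have h4 : (1 + θ * z) ^ 4 ≤ (1 + 146 / 1000 * z) ^ 4 :=
      pow_le_pow_left₀ (by positivity)
        (by have h40 := mul_le_mul_of_nonneg_right hθ hz0.le; linarith only [h40]) 4
    have h5 : (1 + 146 / 1000 * z) ^ 4 ≤ (1 + z / 5) ^ 3 := by
      have h6 : (1 + z / 5) ^ 3 - (1 + 146 / 1000 * z) ^ 4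
        = z * (16 / 1000 - 7896 / 1000000 * z - 4448544 / 1000000000 * z ^ 2
          - 454371856 / 1000000000000 * z ^ 3) := by ring
      have h7 : z ^ 2 ≤ 1 := pow_le_one₀ hz0.le hz1
      have h8 : z ^ 3 ≤ 1 := pow_le_one₀ hz0.le hz1
      have h9 : 0 ≤ z * (16 / 1000 - 7896 / 1000000 * z - 4448544 / 1000000000 * z ^ 2
          - 454371856 / 1000000000000 * z ^ 3) := mul_nonneg hz0.le (by linarith)
      linarith
    exact h4.trans h5
  have hal6 : al p q ^ 6 = c ^ 12 * β ^ 6 := by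
    rw [hβ]; field_simp
  have hNY : N.det + θ * Y.det = c ^ 3 * (1 + θ * z) := by
    rw [hz, hdetY, ← hc]; field_simp
  rw [hNY, hal6, mul_pow]
  calc (c ^ 3) ^ 4 * (1 + θ * z) ^ 4 = c ^ 12 * (1 + θ * z) ^ 4 := by ring
    _ ≤ c ^ 12 * β ^ 6 := mul_le_mul_of_nonneg_left (hθz.trans hβ6) (by positivity)

lemma weak' {r : ℝ} (hr : r ^ 2 = 5) {N Y : Matrix (Fin 3) (Fin 3) ℝ} {p q : Fin 3 → Fin 3 → ℝ}
    (h : Rep r N Y p q) : N.det ^ 2 ≤ al p q ^ 3 := by
  rcases lt_trichotomy N.det 0 with h0 | h0 | h0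
  · have h1 := h.neg
    have hd : (-N).det = -N.det := by
      rw [Matrix.det_neg, Fintype.card_fin]; ring
    have h2 := weak hr h1 (by rw [hd]; linarith)
    rw [al_neg, hd, neg_sq] at h2
    exact h2
  · have h1 := al_nonneg p q
    have h2 : 0 ≤ al p q ^ 3 := by positivity
    rw [h0]
    simpa using h2
  · exact weak hr h h0

lemma strong' {r : ℝ} (hr : r ^ 2 = 5) {N Y : Matrix (Fin 3) (Fin 3) ℝ} {p q : Fin 3 → Fin 3 → ℝ}
    (h : Rep r N Y p q) (hN : 0 < N.det) (hY : 0 < Y.det) {θ : ℝ}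
    (hθ0 : 0 ≤ θ) (hθ : θ ≤ 146 / 1000) :
    (N.det + θ * Y.det) ^ 4 ≤ al p q ^ 6 := by
  rcases le_total Y.det N.det with hle | hle
  · exact strong hr h hN hY hle hθ0 hθ
  · have h1 := strong (r := -r) (by rw [neg_sq]; exact hr) h.dual hY hN hle hθ0 hθ
    refine le_trans (pow_le_pow_left₀ (by positivity) ?_ 4) h1
    nlinarith

/-- The main inequality in the linear coordinates. -/
theorem main {r : ℝ} (hr : r ^ 2 = 5) {N Y : Matrix (Fin 3) (Fin 3) ℝ} {p q : Fin 3 → Fin 3 → ℝ}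
    (h : Rep r N Y p q) {θ : ℝ} (hθ0 : 0 ≤ θ) (hθ : θ ≤ 146 / 1000) :
    (N.det + θ * Y.det) ^ 2 ≤ al p q ^ 3 := by
  have hal := al_nonneg p q
  have key : (N.det + θ * Y.det) ^ 4 ≤ al p q ^ 6 → (N.det + θ * Y.det) ^ 2 ≤ al p q ^ 3 := by
    intro h4
    have h5 : ((N.det + θ * Y.det) ^ 2) ^ 2 ≤ (al p q ^ 3) ^ 2 := by
      calc ((N.det + θ * Y.det) ^ 2) ^ 2 = (N.det + θ * Y.det) ^ 4 := by ring
        _ ≤ al p q ^ 6 := h4
        _ = (al p q ^ 3) ^ 2 := by ring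
    exact (pow_le_pow_iff_left₀ (by positivity) (by positivity) (by norm_num)).mp h5
  have hwN := weak' hr h
  have hwY := weak' (r := -r) (by rw [neg_sq]; exact hr) h.dual
  have hθ1 : θ ≤ 1 := by linarith
  rcases le_or_gt N.det 0 with hN | hN
  · rcases le_or_gt 0 Y.det with hY | hY
    · -- N ≤ 0 ≤ Y
      rcases le_total 0 (N.det + θ * Y.det) with h0 | h0
      · have h1 : N.det + θ * Y.det ≤ Y.det := by nlinarith
        exact (pow_le_pow_left₀ h0 h1 2).trans hwY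
      · have h1 : -(N.det + θ * Y.det) ≤ -N.det := by nlinarith
        have h2 := pow_le_pow_left₀ (by linarith) h1 2
        rw [neg_sq, neg_sq] at h2
        exact h2.trans hwN
    · rcases eq_or_lt_of_le hN with hN0 | hN0
      · -- N = 0
        rw [hN0]
        have h1 : (0 + θ * Y.det) ^ 2 ≤ Y.det ^ 2 := by
          have : θ ^ 2 ≤ 1 := by nlinarith
          nlinarith [sq_nonneg Y.det]
        exact h1.trans hwY
      · apply key
        have h1 := h.neg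
        have hd : ∀ M : Matrix (Fin 3) (Fin 3) ℝ, (-M).det = -M.det := fun M => by
          rw [Matrix.det_neg, Fintype.card_fin]; ring
        have h2 := strong' hr h1 (by rw [hd]; linarith) (by rw [hd]; linarith) hθ0 hθ
        rw [al_neg, hd, hd] at h2
        calc (N.det + θ * Y.det) ^ 4 = (-N.det + θ * -Y.det) ^ 4 := by ring
          _ ≤ _ := h2
  · rcases le_or_gt Y.det 0 with hY | hY
    · rcases le_total 0 (N.det + θ * Y.det) with h0 | h0
      · have h1 : N.det + θ * Y.det ≤ N.det := by nlinarith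
        exact (pow_le_pow_left₀ h0 h1 2).trans hwN
      · have h1 : -(N.det + θ * Y.det) ≤ -Y.det := by nlinarith
        have h2 := pow_le_pow_left₀ (by linarith) h1 2
        rw [neg_sq, neg_sq] at h2
        exact h2.trans hwY
    · exact key (strong' hr h hN hY hθ0 hθ)

end Pool.Agent.Lib_helper76.Ico
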