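import Mathlib

/-!
A part of the sum-of-squares certificate in `IcoSosCert` (an identity over the rationals).
-/

set_option autoImplicit false

namespace Pool.Agent.Lib_helper76.Ico

/-- The terms of degree two in the `k`, with the square root of five. -/
theorem ico_kkr (k1 k2 x0 x1 x2 x3 d1 d2 y1 y2 y3 : ℝ) :
    0 + 45 * ((k1*(-5*d1 - 2*d2 - 4*x0) + k2*(-2*d1 - 4*d2)) * (k1*(d1 + 4*x0) + k2*(2*d1 +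
    8*x0))) + 45 * ((k1*(-4*x3 - 4*y3) + k2*(-12*x3 - 4*y3)) * (k1*(-4*x3 - 2*y3) + k2*(-4*x3)))
    + 45 * ((k1*(-8*x2) + k2*(-12*x2 + 4*y2)) * (k1*2*y2 + k2*4*x2)) + 45 * ((k1*(12*x3 - 4*y3)
    + k2*(4*x3 - 4*y3)) * (k1*(-4*x3) + k2*(-4*x3 + 2*y3))) + 45 * ((k1*(-4*d1 - 2*d2) +
    k2*(-2*d1 - 5*d2 - 4*x0)) * (k1*(-2*d2 - 8*x0) + k2*(-d2 - 4*x0))) + 45 * ((k1*(12*x1 +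
    4*y1) + k2*8*x1) * (k1*4*x1 + k2*(-2*y1))) + 45 * ((k1*(-8*x2) + k2*(4*x2 + 4*y2)) *
    (k1*2*y2 + k2*(4*x2 + 2*y2))) + 45 * ((k1*(-4*x1 + 4*y1) + k2*8*x1) * (k1*(4*x1 - 2*y1) +
    k2*(-2*y1))) + 45 * ((k1*(-5*d1 - 3*d2 + 4*x0) + k2*(-3*d1 - 5*d2 + 4*x0)) * (k1*(-d1 - d2 +
    4*x0) + k2*(d1 + d2 - 4*x0))) + 9 * ((k1*(20*x1 + 15*y1) + k2*40*x1) * (k1*(-12*x1 + y1) +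
    k2*2*y1)) + 9 * ((k1*(-40*x2) + k2*(-20*x2 + 15*y2)) * (k1*(-2*y2) + k2*(-12*x2 - y2))) + 9
    * ((k1*(20*x3 - 15*y3) + k2*(-20*x3 - 15*y3)) * (k1*(12*x3 + y3) + k2*(12*x3 - y3))) + 45 *
    ((k1*y1 + k2*2*y1) * (k1*3*y1)) + 45 * ((k1*(-2*y2) + k2*(-y2)) * (k2*3*y2)) + 45 * ((k1*y3
    + k2*(-y3)) * (k1*(-3*y3) + k2*(-3*y3))) + 240 * ((k1*2*y1 + k2*4*y1) * (0)) + 240 *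
    ((k1*(-4*y2) + k2*(-2*y2)) * (0)) + 240 * ((k1*2*y3 + k2*(-2*y3)) * (0)) + 240 * ((k1*(-2*d1
    - d2) + k2*(-d1 - 2*d2)) * (k1*d2 + k2*(-d1))) + 5 * ((k1*(7*d1 - 7*d2 + 24*x0) + k2*(-7*d1
    - 14*d2)) * (k1*(3*d1 + 3*d2) + k2*3*d1)) + 5 * ((k1*(-14*d1 - 7*d2) + k2*(-7*d1 + 7*d2 +
    24*x0)) * (k1*(-3*d2) + k2*(-3*d1 - 3*d2))) + 5 * ((k1*(7*d1 + 14*d2 - 24*x0) + k2*(14*d1 +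
    7*d2 - 24*x0)) * (k1*(-3*d1) + k2*3*d2)) + 15 * ((k1*(8*x1 - 3*y1) + k2*16*x1) * (k1*3*y1 +
    k2*6*y1)) + 15 * ((k1*(-16*x2) + k2*(-8*x2 - 3*y2)) * (k1*(-6*y2) + k2*(-3*y2))) + 15 *
    ((k1*(8*x3 + 3*y3) + k2*(-8*x3 + 3*y3)) * (k1*3*y3 + k2*(-3*y3))) + 15 * ((k1*(-2*d1 - d2) +
    k2*(-d1 - 2*d2)) * (k1*3*d2 + k2*(-3*d1))) + 15 * ((k1*(12*x1 - 3*y1) + k2*(-6*y1)) *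
    (k1*(4*x1 - 3*y1) + k2*8*x1)) + 15 * ((k1*6*y2 + k2*(12*x2 + 3*y2)) * (k1*(-8*x2) +
    k2*(-4*x2 - 3*y2))) + 15 * ((k1*(-12*x3 - 3*y3) + k2*(-12*x3 + 3*y3)) * (k1*(4*x3 + 3*y3) +
    k2*(-4*x3 + 3*y3))) + 10 * ((k1*(-2*d1 - d2) + k2*(-d1 - 2*d2)) * (k1*3*d2 + k2*(-3*d1))) +
    10 * ((k1*(-3*y1) + k2*(-6*y1)) * (k1*(-3*y1))) + 10 * ((k1*6*y2 + k2*3*y2) * (k2*(-3*y2)))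
    + 10 * ((k1*(-3*y3) + k2*3*y3) * (k1*3*y3 + k2*3*y3)) =
      0 := by
  ring

/-- The mixed terms, without the square root of five. -/
theorem ico_kl (k1 k2 l1 l2 l3 x0 x1 x2 x3 d1 d2 y1 y2 y3 : ℝ) :
    0 + 45 * ((k1*(-5*d1 - 2*d2 - 4*x0) + k2*(-2*d1 - 4*d2)) * (l1*(-2*y1) + l2*8*x2 +
    l3*(-8*x3)) + 5 * ((k1*(d1 + 4*x0) + k2*(2*d1 + 8*x0)) * (l1*(-8*x1) + l2*(-2*y2) +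
    l3*2*y3))) + 45 * ((k1*(-4*x3 - 4*y3) + k2*(-12*x3 - 4*y3)) * (l1*(12*x2 + y2) + l2*(4*x1 -
    4*y1) + l3*(2*d1 - 3*d2 - 4*x0)) + 5 * ((k1*(-4*x3 - 2*y3) + k2*(-4*x3)) * (l1*(4*x2 - 3*y2)
    + l2*(-4*x1 + 2*y1) + l3*(d2 + 4*x0)))) + 45 * ((k1*(-8*x2) + k2*(-12*x2 + 4*y2)) *
    (l1*(-12*x3 + y3) + l2*(5*d1 + 3*d2 - 4*x0) + l3*(-4*x1 - 4*y1)) + 5 * ((k1*2*y2 + k2*4*x2)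
    * (l1*(4*x3 + 3*y3) + l2*(d1 + d2 - 4*x0) + l3*(-4*x1 - 2*y1)))) + 45 * ((k1*(12*x3 - 4*y3)
    + k2*(4*x3 - 4*y3)) * (l1*(-4*x2 - 4*y2) + l2*(-12*x1 + y1) + l3*(-3*d1 + 2*d2 - 4*x0)) + 5
    * ((k1*(-4*x3) + k2*(-4*x3 + 2*y3)) * (l1*(-4*x2 - 2*y2) + l2*(4*x1 + 3*y1) + l3*(-d1 -
    4*x0)))) + 45 * ((k1*(-4*d1 - 2*d2) + k2*(-2*d1 - 5*d2 - 4*x0)) * (l1*(-8*x1) + l2*(-2*y2) +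
    l3*8*x3) + 5 * ((k1*(-2*d2 - 8*x0) + k2*(-d2 - 4*x0)) * (l1*2*y1 + l2*(-8*x2) +
    l3*(-2*y3)))) + 45 * ((k1*(12*x1 + 4*y1) + k2*8*x1) * (l1*(3*d1 + 5*d2 - 4*x0) + l2*(12*x3 +
    y3) + l3*(4*x2 - 4*y2)) + 5 * ((k1*4*x1 + k2*(-2*y1)) * (l1*(-d1 - d2 + 4*x0) + l2*(4*x3 -
    3*y3) + l3*(-4*x2 + 2*y2)))) + 45 * ((k1*(-8*x2) + k2*(4*x2 + 4*y2)) * (l1*(4*x3 - 4*y3) +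
    l2*(-5*d1 - 2*d2 - 4*x0) + l3*(12*x1 + y1)) + 5 * ((k1*2*y2 + k2*(4*x2 + 2*y2)) * (l1*(-4*x3
    + 2*y3) + l2*(d1 + 4*x0) + l3*(4*x1 - 3*y1)))) + 45 * ((k1*(-4*x1 + 4*y1) + k2*8*x1) *
    (l1*(-2*d1 - 5*d2 - 4*x0) + l2*(-4*x3 - 4*y3) + l3*(-12*x2 + y2)) + 5 * ((k1*(4*x1 - 2*y1) +
    k2*(-2*y1)) * (l1*(-d2 - 4*x0) + l2*(-4*x3 - 2*y3) + l3*(4*x2 + 3*y2)))) + 45 * ((k1*(-5*d1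
    - 3*d2 + 4*x0) + k2*(-3*d1 - 5*d2 + 4*x0)) * (l1*8*x1 + l2*(-8*x2) + l3*(-2*y3)) + 5 *
    ((k1*(-d1 - d2 + 4*x0) + k2*(d1 + d2 - 4*x0)) * (l1*(-2*y1) + l2*2*y2 + l3*(-8*x3)))) + 9 *
    ((k1*(20*x1 + 15*y1) + k2*40*x1) * (l1*(10*d1 + 40*x0) + l2*20*x3 + l3*(-20*x2)) + 5 *
    ((k1*(-12*x1 + y1) + k2*2*y1) * (l1*(-2*d1 - 4*d2) + l2*(-12*x3 + 4*y3) + l3*(-12*x2 -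
    4*y2)))) + 9 * ((k1*(-40*x2) + k2*(-20*x2 + 15*y2)) * (l1*(-20*x3) + l2*(10*d2 + 40*x0) +
    l3*20*x1) + 5 * ((k1*(-2*y2) + k2*(-12*x2 - y2)) * (l1*(-12*x3 - 4*y3) + l2*(4*d1 + 2*d2) +
    l3*(-12*x1 + 4*y1)))) + 9 * ((k1*(20*x3 - 15*y3) + k2*(-20*x3 - 15*y3)) * (l1*20*x2 +
    l2*(-20*x1) + l3*(-10*d1 - 10*d2 + 40*x0)) + 5 * ((k1*(12*x3 + y3) + k2*(12*x3 - y3)) *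
    (l1*(-12*x2 + 4*y2) + l2*(-12*x1 - 4*y1) + l3*(-2*d1 + 2*d2)))) + 45 * ((k1*y1 + k2*2*y1) *
    (l1*(-2*d1 - 4*d2) + l2*4*y3 + l3*(-4*y2)) + 5 * ((k1*3*y1) * (l1*2*d1))) + 45 *
    ((k1*(-2*y2) + k2*(-y2)) * (l1*(-4*y3) + l2*(4*d1 + 2*d2) + l3*4*y1) + 5 * ((k2*3*y2) *
    (l2*2*d2))) + 45 * ((k1*y3 + k2*(-y3)) * (l1*4*y2 + l2*(-4*y1) + l3*(-2*d1 + 2*d2)) + 5 *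
    ((k1*(-3*y3) + k2*(-3*y3)) * (l3*(-2*d1 - 2*d2)))) + 240 * ((k1*2*y1 + k2*4*y1) * (l1*(d1 +
    2*d2) + l2*(-2*y3) + l3*2*y2) + 5 * ((0) * (l1*d1))) + 240 * ((k1*(-4*y2) + k2*(-2*y2)) *
    (l1*2*y3 + l2*(-2*d1 - d2) + l3*(-2*y1)) + 5 * ((0) * (l2*d2))) + 240 * ((k1*2*y3 +
    k2*(-2*y3)) * (l1*(-2*y2) + l2*2*y1 + l3*(d1 - d2)) + 5 * ((0) * (l3*(-d1 - d2)))) + 240 *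
    ((k1*(-2*d1 - d2) + k2*(-d1 - 2*d2)) * (l1*4*y1 + l2*4*y2 + l3*4*y3) + 5 * ((k1*d2 +
    k2*(-d1)) * (0))) + 5 * ((k1*(7*d1 - 7*d2 + 24*x0) + k2*(-7*d1 - 14*d2)) * (l1*(-12*y1) +
    l2*(-12*x2 + 6*y2) + l3*(12*x3 + 6*y3)) + 5 * ((k1*(3*d1 + 3*d2) + k2*3*d1) * (l1*(-8*x1) +
    l2*(4*x2 + 6*y2) + l3*(4*x3 - 6*y3)))) + 5 * ((k1*(-14*d1 - 7*d2) + k2*(-7*d1 + 7*d2 +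
    24*x0)) * (l1*(12*x1 + 6*y1) + l2*(-12*y2) + l3*(-12*x3 + 6*y3)) + 5 * ((k1*(-3*d2) +
    k2*(-3*d1 - 3*d2)) * (l1*(4*x1 - 6*y1) + l2*(-8*x2) + l3*(4*x3 + 6*y3)))) + 5 * ((k1*(7*d1 +
    14*d2 - 24*x0) + k2*(14*d1 + 7*d2 - 24*x0)) * (l1*(-12*x1 + 6*y1) + l2*(12*x2 + 6*y2) +
    l3*(-12*y3)) + 5 * ((k1*(-3*d1) + k2*3*d2) * (l1*(4*x1 + 6*y1) + l2*(4*x2 - 6*y2) +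
    l3*(-8*x3)))) + 15 * ((k1*(8*x1 - 3*y1) + k2*16*x1) * (l1*(-6*d1 + 8*x0) + l2*(-12*x3 -
    12*y3) + l3*(12*x2 - 12*y2)) + 5 * ((k1*3*y1 + k2*6*y1) * (l1*(-2*d1 - 4*d2) + l2*4*x3 +
    l3*4*x2))) + 15 * ((k1*(-16*x2) + k2*(-8*x2 - 3*y2)) * (l1*(12*x3 - 12*y3) + l2*(-6*d2 +
    8*x0) + l3*(-12*x1 - 12*y1)) + 5 * ((k1*(-6*y2) + k2*(-3*y2)) * (l1*4*x3 + l2*(4*d1 + 2*d2)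
    + l3*4*x1))) + 15 * ((k1*(8*x3 + 3*y3) + k2*(-8*x3 + 3*y3)) * (l1*(-12*x2 - 12*y2) +
    l2*(12*x1 - 12*y1) + l3*(6*d1 + 6*d2 + 8*x0)) + 5 * ((k1*3*y3 + k2*(-3*y3)) * (l1*4*x2 +
    l2*4*x1 + l3*(-2*d1 + 2*d2)))) + 15 * ((k1*(-2*d1 - d2) + k2*(-d1 - 2*d2)) * (l1*(-6*y1) +
    l2*(-6*y2) + l3*(-6*y3)) + 5 * ((k1*3*d2 + k2*(-3*d1)) * (l1*(-8*x1) + l2*(-8*x2) +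
    l3*(-8*x3)))) + 15 * ((k1*(12*x1 - 3*y1) + k2*(-6*y1)) * (l1*(d1 + 2*d2) + l2*(-8*x3 + 3*y3)
    + l3*(-8*x2 - 3*y2)) + 5 * ((k1*(4*x1 - 3*y1) + k2*8*x1) * (l1*(3*d1 - 8*x0) + l2*(-3*y3) +
    l3*(-3*y2)))) + 15 * ((k1*6*y2 + k2*(12*x2 + 3*y2)) * (l1*(-8*x3 - 3*y3) + l2*(-2*d1 - d2) +
    l3*(-8*x1 + 3*y1)) + 5 * ((k1*(-8*x2) + k2*(-4*x2 - 3*y2)) * (l1*(-3*y3) + l2*(3*d2 - 8*x0)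
    + l3*(-3*y1)))) + 15 * ((k1*(-12*x3 - 3*y3) + k2*(-12*x3 + 3*y3)) * (l1*(-8*x2 + 3*y2) +
    l2*(-8*x1 - 3*y1) + l3*(d1 - d2)) + 5 * ((k1*(4*x3 + 3*y3) + k2*(-4*x3 + 3*y3)) *
    (l1*(-3*y2) + l2*(-3*y1) + l3*(-3*d1 - 3*d2 - 8*x0)))) + 10 * ((k1*(-2*d1 - d2) + k2*(-d1 -
    2*d2)) * (l1*(-6*y1) + l2*(-6*y2) + l3*(-6*y3)) + 5 * ((k1*3*d2 + k2*(-3*d1)) * (0))) + 10 *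
    ((k1*(-3*y1) + k2*(-6*y1)) * (l1*(d1 + 2*d2) + l2*3*y3 + l3*(-3*y2)) + 5 * ((k1*(-3*y1)) *
    (l1*3*d1 + l2*(-3*y3) + l3*(-3*y2)))) + 10 * ((k1*6*y2 + k2*3*y2) * (l1*(-3*y3) + l2*(-2*d1
    - d2) + l3*3*y1) + 5 * ((k2*(-3*y2)) * (l1*(-3*y3) + l2*3*d2 + l3*(-3*y1)))) + 10 *
    ((k1*(-3*y3) + k2*3*y3) * (l1*3*y2 + l2*(-3*y1) + l3*(d1 - d2)) + 5 * ((k1*3*y3 + k2*3*y3) *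
    (l1*(-3*y2) + l2*(-3*y1) + l3*(-3*d1 - 3*d2)))) =
      0 := by
  ring

/-- The mixed terms, with the square root of five. -/
theorem ico_klr (k1 k2 l1 l2 l3 x0 x1 x2 x3 d1 d2 y1 y2 y3 : ℝ) :
    0 + 45 * ((k1*(-5*d1 - 2*d2 - 4*x0) + k2*(-2*d1 - 4*d2)) * (l1*(-8*x1) + l2*(-2*y2) +
    l3*2*y3) + (k1*(d1 + 4*x0) + k2*(2*d1 + 8*x0)) * (l1*(-2*y1) + l2*8*x2 + l3*(-8*x3))) + 45 *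
    ((k1*(-4*x3 - 4*y3) + k2*(-12*x3 - 4*y3)) * (l1*(4*x2 - 3*y2) + l2*(-4*x1 + 2*y1) + l3*(d2 +
    4*x0)) + (k1*(-4*x3 - 2*y3) + k2*(-4*x3)) * (l1*(12*x2 + y2) + l2*(4*x1 - 4*y1) + l3*(2*d1 -
    3*d2 - 4*x0))) + 45 * ((k1*(-8*x2) + k2*(-12*x2 + 4*y2)) * (l1*(4*x3 + 3*y3) + l2*(d1 + d2 -
    4*x0) + l3*(-4*x1 - 2*y1)) + (k1*2*y2 + k2*4*x2) * (l1*(-12*x3 + y3) + l2*(5*d1 + 3*d2 -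
    4*x0) + l3*(-4*x1 - 4*y1))) + 45 * ((k1*(12*x3 - 4*y3) + k2*(4*x3 - 4*y3)) * (l1*(-4*x2 -
    2*y2) + l2*(4*x1 + 3*y1) + l3*(-d1 - 4*x0)) + (k1*(-4*x3) + k2*(-4*x3 + 2*y3)) * (l1*(-4*x2
    - 4*y2) + l2*(-12*x1 + y1) + l3*(-3*d1 + 2*d2 - 4*x0))) + 45 * ((k1*(-4*d1 - 2*d2) +
    k2*(-2*d1 - 5*d2 - 4*x0)) * (l1*2*y1 + l2*(-8*x2) + l3*(-2*y3)) + (k1*(-2*d2 - 8*x0) +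
    k2*(-d2 - 4*x0)) * (l1*(-8*x1) + l2*(-2*y2) + l3*8*x3)) + 45 * ((k1*(12*x1 + 4*y1) +
    k2*8*x1) * (l1*(-d1 - d2 + 4*x0) + l2*(4*x3 - 3*y3) + l3*(-4*x2 + 2*y2)) + (k1*4*x1 +
    k2*(-2*y1)) * (l1*(3*d1 + 5*d2 - 4*x0) + l2*(12*x3 + y3) + l3*(4*x2 - 4*y2))) + 45 *
    ((k1*(-8*x2) + k2*(4*x2 + 4*y2)) * (l1*(-4*x3 + 2*y3) + l2*(d1 + 4*x0) + l3*(4*x1 - 3*y1)) +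
    (k1*2*y2 + k2*(4*x2 + 2*y2)) * (l1*(4*x3 - 4*y3) + l2*(-5*d1 - 2*d2 - 4*x0) + l3*(12*x1 +
    y1))) + 45 * ((k1*(-4*x1 + 4*y1) + k2*8*x1) * (l1*(-d2 - 4*x0) + l2*(-4*x3 - 2*y3) +
    l3*(4*x2 + 3*y2)) + (k1*(4*x1 - 2*y1) + k2*(-2*y1)) * (l1*(-2*d1 - 5*d2 - 4*x0) + l2*(-4*x3
    - 4*y3) + l3*(-12*x2 + y2))) + 45 * ((k1*(-5*d1 - 3*d2 + 4*x0) + k2*(-3*d1 - 5*d2 + 4*x0)) *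
    (l1*(-2*y1) + l2*2*y2 + l3*(-8*x3)) + (k1*(-d1 - d2 + 4*x0) + k2*(d1 + d2 - 4*x0)) *
    (l1*8*x1 + l2*(-8*x2) + l3*(-2*y3))) + 9 * ((k1*(20*x1 + 15*y1) + k2*40*x1) * (l1*(-2*d1 -
    4*d2) + l2*(-12*x3 + 4*y3) + l3*(-12*x2 - 4*y2)) + (k1*(-12*x1 + y1) + k2*2*y1) * (l1*(10*d1
    + 40*x0) + l2*20*x3 + l3*(-20*x2))) + 9 * ((k1*(-40*x2) + k2*(-20*x2 + 15*y2)) * (l1*(-12*x3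
    - 4*y3) + l2*(4*d1 + 2*d2) + l3*(-12*x1 + 4*y1)) + (k1*(-2*y2) + k2*(-12*x2 - y2)) *
    (l1*(-20*x3) + l2*(10*d2 + 40*x0) + l3*20*x1)) + 9 * ((k1*(20*x3 - 15*y3) + k2*(-20*x3 -
    15*y3)) * (l1*(-12*x2 + 4*y2) + l2*(-12*x1 - 4*y1) + l3*(-2*d1 + 2*d2)) + (k1*(12*x3 + y3) +
    k2*(12*x3 - y3)) * (l1*20*x2 + l2*(-20*x1) + l3*(-10*d1 - 10*d2 + 40*x0))) + 45 * ((k1*y1 +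
    k2*2*y1) * (l1*2*d1) + (k1*3*y1) * (l1*(-2*d1 - 4*d2) + l2*4*y3 + l3*(-4*y2))) + 45 *
    ((k1*(-2*y2) + k2*(-y2)) * (l2*2*d2) + (k2*3*y2) * (l1*(-4*y3) + l2*(4*d1 + 2*d2) +
    l3*4*y1)) + 45 * ((k1*y3 + k2*(-y3)) * (l3*(-2*d1 - 2*d2)) + (k1*(-3*y3) + k2*(-3*y3)) *
    (l1*4*y2 + l2*(-4*y1) + l3*(-2*d1 + 2*d2))) + 240 * ((k1*2*y1 + k2*4*y1) * (l1*d1) + (0) *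
    (l1*(d1 + 2*d2) + l2*(-2*y3) + l3*2*y2)) + 240 * ((k1*(-4*y2) + k2*(-2*y2)) * (l2*d2) + (0)
    * (l1*2*y3 + l2*(-2*d1 - d2) + l3*(-2*y1))) + 240 * ((k1*2*y3 + k2*(-2*y3)) * (l3*(-d1 -
    d2)) + (0) * (l1*(-2*y2) + l2*2*y1 + l3*(d1 - d2))) + 240 * ((k1*(-2*d1 - d2) + k2*(-d1 -
    2*d2)) * (0) + (k1*d2 + k2*(-d1)) * (l1*4*y1 + l2*4*y2 + l3*4*y3)) + 5 * ((k1*(7*d1 - 7*d2 +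
    24*x0) + k2*(-7*d1 - 14*d2)) * (l1*(-8*x1) + l2*(4*x2 + 6*y2) + l3*(4*x3 - 6*y3)) +
    (k1*(3*d1 + 3*d2) + k2*3*d1) * (l1*(-12*y1) + l2*(-12*x2 + 6*y2) + l3*(12*x3 + 6*y3))) + 5 *
    ((k1*(-14*d1 - 7*d2) + k2*(-7*d1 + 7*d2 + 24*x0)) * (l1*(4*x1 - 6*y1) + l2*(-8*x2) +
    l3*(4*x3 + 6*y3)) + (k1*(-3*d2) + k2*(-3*d1 - 3*d2)) * (l1*(12*x1 + 6*y1) + l2*(-12*y2) +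
    l3*(-12*x3 + 6*y3))) + 5 * ((k1*(7*d1 + 14*d2 - 24*x0) + k2*(14*d1 + 7*d2 - 24*x0)) *
    (l1*(4*x1 + 6*y1) + l2*(4*x2 - 6*y2) + l3*(-8*x3)) + (k1*(-3*d1) + k2*3*d2) * (l1*(-12*x1 +
    6*y1) + l2*(12*x2 + 6*y2) + l3*(-12*y3))) + 15 * ((k1*(8*x1 - 3*y1) + k2*16*x1) * (l1*(-2*d1
    - 4*d2) + l2*4*x3 + l3*4*x2) + (k1*3*y1 + k2*6*y1) * (l1*(-6*d1 + 8*x0) + l2*(-12*x3 -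
    12*y3) + l3*(12*x2 - 12*y2))) + 15 * ((k1*(-16*x2) + k2*(-8*x2 - 3*y2)) * (l1*4*x3 +
    l2*(4*d1 + 2*d2) + l3*4*x1) + (k1*(-6*y2) + k2*(-3*y2)) * (l1*(12*x3 - 12*y3) + l2*(-6*d2 +
    8*x0) + l3*(-12*x1 - 12*y1))) + 15 * ((k1*(8*x3 + 3*y3) + k2*(-8*x3 + 3*y3)) * (l1*4*x2 +
    l2*4*x1 + l3*(-2*d1 + 2*d2)) + (k1*3*y3 + k2*(-3*y3)) * (l1*(-12*x2 - 12*y2) + l2*(12*x1 -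
    12*y1) + l3*(6*d1 + 6*d2 + 8*x0))) + 15 * ((k1*(-2*d1 - d2) + k2*(-d1 - 2*d2)) * (l1*(-8*x1)
    + l2*(-8*x2) + l3*(-8*x3)) + (k1*3*d2 + k2*(-3*d1)) * (l1*(-6*y1) + l2*(-6*y2) +
    l3*(-6*y3))) + 15 * ((k1*(12*x1 - 3*y1) + k2*(-6*y1)) * (l1*(3*d1 - 8*x0) + l2*(-3*y3) +
    l3*(-3*y2)) + (k1*(4*x1 - 3*y1) + k2*8*x1) * (l1*(d1 + 2*d2) + l2*(-8*x3 + 3*y3) + l3*(-8*x2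
    - 3*y2))) + 15 * ((k1*6*y2 + k2*(12*x2 + 3*y2)) * (l1*(-3*y3) + l2*(3*d2 - 8*x0) +
    l3*(-3*y1)) + (k1*(-8*x2) + k2*(-4*x2 - 3*y2)) * (l1*(-8*x3 - 3*y3) + l2*(-2*d1 - d2) +
    l3*(-8*x1 + 3*y1))) + 15 * ((k1*(-12*x3 - 3*y3) + k2*(-12*x3 + 3*y3)) * (l1*(-3*y2) +
    l2*(-3*y1) + l3*(-3*d1 - 3*d2 - 8*x0)) + (k1*(4*x3 + 3*y3) + k2*(-4*x3 + 3*y3)) * (l1*(-8*x2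
    + 3*y2) + l2*(-8*x1 - 3*y1) + l3*(d1 - d2))) + 10 * ((k1*(-2*d1 - d2) + k2*(-d1 - 2*d2)) *
    (0) + (k1*3*d2 + k2*(-3*d1)) * (l1*(-6*y1) + l2*(-6*y2) + l3*(-6*y3))) + 10 * ((k1*(-3*y1) +
    k2*(-6*y1)) * (l1*3*d1 + l2*(-3*y3) + l3*(-3*y2)) + (k1*(-3*y1)) * (l1*(d1 + 2*d2) + l2*3*y3
    + l3*(-3*y2))) + 10 * ((k1*6*y2 + k2*3*y2) * (l1*(-3*y3) + l2*3*d2 + l3*(-3*y1)) +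
    (k2*(-3*y2)) * (l1*(-3*y3) + l2*(-2*d1 - d2) + l3*3*y1)) + 10 * ((k1*(-3*y3) + k2*3*y3) *
    (l1*(-3*y2) + l2*(-3*y1) + l3*(-3*d1 - 3*d2)) + (k1*3*y3 + k2*3*y3) * (l1*3*y2 + l2*(-3*y1)
    + l3*(d1 - d2))) =
      0 := by
  ring

/-- The terms of degree two in the `l`, with the square root of five. -/
theorem ico_llr (l1 l2 l3 x0 x1 x2 x3 d1 d2 y1 y2 y3 : ℝ) :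
    0 + 45 * ((l1*(-2*y1) + l2*8*x2 + l3*(-8*x3)) * (l1*(-8*x1) + l2*(-2*y2) + l3*2*y3)) + 45 *
    ((l1*(12*x2 + y2) + l2*(4*x1 - 4*y1) + l3*(2*d1 - 3*d2 - 4*x0)) * (l1*(4*x2 - 3*y2) +
    l2*(-4*x1 + 2*y1) + l3*(d2 + 4*x0))) + 45 * ((l1*(-12*x3 + y3) + l2*(5*d1 + 3*d2 - 4*x0) +
    l3*(-4*x1 - 4*y1)) * (l1*(4*x3 + 3*y3) + l2*(d1 + d2 - 4*x0) + l3*(-4*x1 - 2*y1))) + 45 *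
    ((l1*(-4*x2 - 4*y2) + l2*(-12*x1 + y1) + l3*(-3*d1 + 2*d2 - 4*x0)) * (l1*(-4*x2 - 2*y2) +
    l2*(4*x1 + 3*y1) + l3*(-d1 - 4*x0))) + 45 * ((l1*(-8*x1) + l2*(-2*y2) + l3*8*x3) * (l1*2*y1
    + l2*(-8*x2) + l3*(-2*y3))) + 45 * ((l1*(3*d1 + 5*d2 - 4*x0) + l2*(12*x3 + y3) + l3*(4*x2 -
    4*y2)) * (l1*(-d1 - d2 + 4*x0) + l2*(4*x3 - 3*y3) + l3*(-4*x2 + 2*y2))) + 45 * ((l1*(4*x3 -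
    4*y3) + l2*(-5*d1 - 2*d2 - 4*x0) + l3*(12*x1 + y1)) * (l1*(-4*x3 + 2*y3) + l2*(d1 + 4*x0) +
    l3*(4*x1 - 3*y1))) + 45 * ((l1*(-2*d1 - 5*d2 - 4*x0) + l2*(-4*x3 - 4*y3) + l3*(-12*x2 + y2))
    * (l1*(-d2 - 4*x0) + l2*(-4*x3 - 2*y3) + l3*(4*x2 + 3*y2))) + 45 * ((l1*8*x1 + l2*(-8*x2) +
    l3*(-2*y3)) * (l1*(-2*y1) + l2*2*y2 + l3*(-8*x3))) + 9 * ((l1*(10*d1 + 40*x0) + l2*20*x3 +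
    l3*(-20*x2)) * (l1*(-2*d1 - 4*d2) + l2*(-12*x3 + 4*y3) + l3*(-12*x2 - 4*y2))) + 9 *
    ((l1*(-20*x3) + l2*(10*d2 + 40*x0) + l3*20*x1) * (l1*(-12*x3 - 4*y3) + l2*(4*d1 + 2*d2) +
    l3*(-12*x1 + 4*y1))) + 9 * ((l1*20*x2 + l2*(-20*x1) + l3*(-10*d1 - 10*d2 + 40*x0)) *
    (l1*(-12*x2 + 4*y2) + l2*(-12*x1 - 4*y1) + l3*(-2*d1 + 2*d2))) + 45 * ((l1*(-2*d1 - 4*d2) +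
    l2*4*y3 + l3*(-4*y2)) * (l1*2*d1)) + 45 * ((l1*(-4*y3) + l2*(4*d1 + 2*d2) + l3*4*y1) *
    (l2*2*d2)) + 45 * ((l1*4*y2 + l2*(-4*y1) + l3*(-2*d1 + 2*d2)) * (l3*(-2*d1 - 2*d2))) + 240 *
    ((l1*(d1 + 2*d2) + l2*(-2*y3) + l3*2*y2) * (l1*d1)) + 240 * ((l1*2*y3 + l2*(-2*d1 - d2) +
    l3*(-2*y1)) * (l2*d2)) + 240 * ((l1*(-2*y2) + l2*2*y1 + l3*(d1 - d2)) * (l3*(-d1 - d2))) +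
    240 * ((l1*4*y1 + l2*4*y2 + l3*4*y3) * (0)) + 5 * ((l1*(-12*y1) + l2*(-12*x2 + 6*y2) +
    l3*(12*x3 + 6*y3)) * (l1*(-8*x1) + l2*(4*x2 + 6*y2) + l3*(4*x3 - 6*y3))) + 5 * ((l1*(12*x1 +
    6*y1) + l2*(-12*y2) + l3*(-12*x3 + 6*y3)) * (l1*(4*x1 - 6*y1) + l2*(-8*x2) + l3*(4*x3 +
    6*y3))) + 5 * ((l1*(-12*x1 + 6*y1) + l2*(12*x2 + 6*y2) + l3*(-12*y3)) * (l1*(4*x1 + 6*y1) +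
    l2*(4*x2 - 6*y2) + l3*(-8*x3))) + 15 * ((l1*(-6*d1 + 8*x0) + l2*(-12*x3 - 12*y3) + l3*(12*x2
    - 12*y2)) * (l1*(-2*d1 - 4*d2) + l2*4*x3 + l3*4*x2)) + 15 * ((l1*(12*x3 - 12*y3) + l2*(-6*d2
    + 8*x0) + l3*(-12*x1 - 12*y1)) * (l1*4*x3 + l2*(4*d1 + 2*d2) + l3*4*x1)) + 15 * ((l1*(-12*x2
    - 12*y2) + l2*(12*x1 - 12*y1) + l3*(6*d1 + 6*d2 + 8*x0)) * (l1*4*x2 + l2*4*x1 + l3*(-2*d1 +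
    2*d2))) + 15 * ((l1*(-6*y1) + l2*(-6*y2) + l3*(-6*y3)) * (l1*(-8*x1) + l2*(-8*x2) +
    l3*(-8*x3))) + 15 * ((l1*(d1 + 2*d2) + l2*(-8*x3 + 3*y3) + l3*(-8*x2 - 3*y2)) * (l1*(3*d1 -
    8*x0) + l2*(-3*y3) + l3*(-3*y2))) + 15 * ((l1*(-8*x3 - 3*y3) + l2*(-2*d1 - d2) + l3*(-8*x1 +
    3*y1)) * (l1*(-3*y3) + l2*(3*d2 - 8*x0) + l3*(-3*y1))) + 15 * ((l1*(-8*x2 + 3*y2) +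
    l2*(-8*x1 - 3*y1) + l3*(d1 - d2)) * (l1*(-3*y2) + l2*(-3*y1) + l3*(-3*d1 - 3*d2 - 8*x0))) +
    10 * ((l1*(-6*y1) + l2*(-6*y2) + l3*(-6*y3)) * (0)) + 10 * ((l1*(d1 + 2*d2) + l2*3*y3 +
    l3*(-3*y2)) * (l1*3*d1 + l2*(-3*y3) + l3*(-3*y2))) + 10 * ((l1*(-3*y3) + l2*(-2*d1 - d2) +
    l3*3*y1) * (l1*(-3*y3) + l2*3*d2 + l3*(-3*y1))) + 10 * ((l1*3*y2 + l2*(-3*y1) + l3*(d1 -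
    d2)) * (l1*(-3*y2) + l2*(-3*y1) + l3*(-3*d1 - 3*d2))) =
      0 := by
  ring

end Pool.Agent.Lib_helper76.Ico
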