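import Mathlib

/-!
A part of the sum-of-squares certificate in `IcoSosCert` (an identity over the rationals).
-/

set_option autoImplicit false

namespace Pool.Agent.Lib_helper76.Ico

/-- The terms of degree two in the `l`, without the square root of five. -/
theorem ico_ll (l1 l2 l3 x0 x1 x2 x3 d1 d2 y1 y2 y3 : ℝ) :
    0 + 45 * ((l1*(-2*y1) + l2*8*x2 + l3*(-8*x3)) ^ 2 + 5 * (l1*(-8*x1) + l2*(-2*y2) + l3*2*y3)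
    ^ 2) + 45 * ((l1*(12*x2 + y2) + l2*(4*x1 - 4*y1) + l3*(2*d1 - 3*d2 - 4*x0)) ^ 2 + 5 *
    (l1*(4*x2 - 3*y2) + l2*(-4*x1 + 2*y1) + l3*(d2 + 4*x0)) ^ 2) + 45 * ((l1*(-12*x3 + y3) +
    l2*(5*d1 + 3*d2 - 4*x0) + l3*(-4*x1 - 4*y1)) ^ 2 + 5 * (l1*(4*x3 + 3*y3) + l2*(d1 + d2 -
    4*x0) + l3*(-4*x1 - 2*y1)) ^ 2) + 45 * ((l1*(-4*x2 - 4*y2) + l2*(-12*x1 + y1) + l3*(-3*d1 +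
    2*d2 - 4*x0)) ^ 2 + 5 * (l1*(-4*x2 - 2*y2) + l2*(4*x1 + 3*y1) + l3*(-d1 - 4*x0)) ^ 2) + 45 *
    ((l1*(-8*x1) + l2*(-2*y2) + l3*8*x3) ^ 2 + 5 * (l1*2*y1 + l2*(-8*x2) + l3*(-2*y3)) ^ 2) + 45
    * ((l1*(3*d1 + 5*d2 - 4*x0) + l2*(12*x3 + y3) + l3*(4*x2 - 4*y2)) ^ 2 + 5 * (l1*(-d1 - d2 +
    4*x0) + l2*(4*x3 - 3*y3) + l3*(-4*x2 + 2*y2)) ^ 2) + 45 * ((l1*(4*x3 - 4*y3) + l2*(-5*d1 -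
    2*d2 - 4*x0) + l3*(12*x1 + y1)) ^ 2 + 5 * (l1*(-4*x3 + 2*y3) + l2*(d1 + 4*x0) + l3*(4*x1 -
    3*y1)) ^ 2) + 45 * ((l1*(-2*d1 - 5*d2 - 4*x0) + l2*(-4*x3 - 4*y3) + l3*(-12*x2 + y2)) ^ 2 +
    5 * (l1*(-d2 - 4*x0) + l2*(-4*x3 - 2*y3) + l3*(4*x2 + 3*y2)) ^ 2) + 45 * ((l1*8*x1 +
    l2*(-8*x2) + l3*(-2*y3)) ^ 2 + 5 * (l1*(-2*y1) + l2*2*y2 + l3*(-8*x3)) ^ 2) + 9 *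
    ((l1*(10*d1 + 40*x0) + l2*20*x3 + l3*(-20*x2)) ^ 2 + 5 * (l1*(-2*d1 - 4*d2) + l2*(-12*x3 +
    4*y3) + l3*(-12*x2 - 4*y2)) ^ 2) + 9 * ((l1*(-20*x3) + l2*(10*d2 + 40*x0) + l3*20*x1) ^ 2 +
    5 * (l1*(-12*x3 - 4*y3) + l2*(4*d1 + 2*d2) + l3*(-12*x1 + 4*y1)) ^ 2) + 9 * ((l1*20*x2 +
    l2*(-20*x1) + l3*(-10*d1 - 10*d2 + 40*x0)) ^ 2 + 5 * (l1*(-12*x2 + 4*y2) + l2*(-12*x1 -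
    4*y1) + l3*(-2*d1 + 2*d2)) ^ 2) + 45 * ((l1*(-2*d1 - 4*d2) + l2*4*y3 + l3*(-4*y2)) ^ 2 + 5 *
    (l1*2*d1) ^ 2) + 45 * ((l1*(-4*y3) + l2*(4*d1 + 2*d2) + l3*4*y1) ^ 2 + 5 * (l2*2*d2) ^ 2) +
    45 * ((l1*4*y2 + l2*(-4*y1) + l3*(-2*d1 + 2*d2)) ^ 2 + 5 * (l3*(-2*d1 - 2*d2)) ^ 2) + 240 *
    ((l1*(d1 + 2*d2) + l2*(-2*y3) + l3*2*y2) ^ 2 + 5 * (l1*d1) ^ 2) + 240 * ((l1*2*y3 +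
    l2*(-2*d1 - d2) + l3*(-2*y1)) ^ 2 + 5 * (l2*d2) ^ 2) + 240 * ((l1*(-2*y2) + l2*2*y1 + l3*(d1
    - d2)) ^ 2 + 5 * (l3*(-d1 - d2)) ^ 2) + 240 * ((l1*4*y1 + l2*4*y2 + l3*4*y3) ^ 2 + 5 * (0) ^
    2) + 5 * ((l1*(-12*y1) + l2*(-12*x2 + 6*y2) + l3*(12*x3 + 6*y3)) ^ 2 + 5 * (l1*(-8*x1) +
    l2*(4*x2 + 6*y2) + l3*(4*x3 - 6*y3)) ^ 2) + 5 * ((l1*(12*x1 + 6*y1) + l2*(-12*y2) +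
    l3*(-12*x3 + 6*y3)) ^ 2 + 5 * (l1*(4*x1 - 6*y1) + l2*(-8*x2) + l3*(4*x3 + 6*y3)) ^ 2) + 5 *
    ((l1*(-12*x1 + 6*y1) + l2*(12*x2 + 6*y2) + l3*(-12*y3)) ^ 2 + 5 * (l1*(4*x1 + 6*y1) +
    l2*(4*x2 - 6*y2) + l3*(-8*x3)) ^ 2) + 15 * ((l1*(-6*d1 + 8*x0) + l2*(-12*x3 - 12*y3) +
    l3*(12*x2 - 12*y2)) ^ 2 + 5 * (l1*(-2*d1 - 4*d2) + l2*4*x3 + l3*4*x2) ^ 2) + 15 *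
    ((l1*(12*x3 - 12*y3) + l2*(-6*d2 + 8*x0) + l3*(-12*x1 - 12*y1)) ^ 2 + 5 * (l1*4*x3 +
    l2*(4*d1 + 2*d2) + l3*4*x1) ^ 2) + 15 * ((l1*(-12*x2 - 12*y2) + l2*(12*x1 - 12*y1) +
    l3*(6*d1 + 6*d2 + 8*x0)) ^ 2 + 5 * (l1*4*x2 + l2*4*x1 + l3*(-2*d1 + 2*d2)) ^ 2) + 15 *
    ((l1*(-6*y1) + l2*(-6*y2) + l3*(-6*y3)) ^ 2 + 5 * (l1*(-8*x1) + l2*(-8*x2) + l3*(-8*x3)) ^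
    2) + 15 * ((l1*(d1 + 2*d2) + l2*(-8*x3 + 3*y3) + l3*(-8*x2 - 3*y2)) ^ 2 + 5 * (l1*(3*d1 -
    8*x0) + l2*(-3*y3) + l3*(-3*y2)) ^ 2) + 15 * ((l1*(-8*x3 - 3*y3) + l2*(-2*d1 - d2) +
    l3*(-8*x1 + 3*y1)) ^ 2 + 5 * (l1*(-3*y3) + l2*(3*d2 - 8*x0) + l3*(-3*y1)) ^ 2) + 15 *
    ((l1*(-8*x2 + 3*y2) + l2*(-8*x1 - 3*y1) + l3*(d1 - d2)) ^ 2 + 5 * (l1*(-3*y2) + l2*(-3*y1) +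
    l3*(-3*d1 - 3*d2 - 8*x0)) ^ 2) + 10 * ((l1*(-6*y1) + l2*(-6*y2) + l3*(-6*y3)) ^ 2 + 5 * (0)
    ^ 2) + 10 * ((l1*(d1 + 2*d2) + l2*3*y3 + l3*(-3*y2)) ^ 2 + 5 * (l1*3*d1 + l2*(-3*y3) +
    l3*(-3*y2)) ^ 2) + 10 * ((l1*(-3*y3) + l2*(-2*d1 - d2) + l3*3*y1) ^ 2 + 5 * (l1*(-3*y3) +
    l2*3*d2 + l3*(-3*y1)) ^ 2) + 10 * ((l1*3*y2 + l2*(-3*y1) + l3*(d1 - d2)) ^ 2 + 5 *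
    (l1*(-3*y2) + l2*(-3*y1) + l3*(-3*d1 - 3*d2)) ^ 2) =
      (2 * (l1 ^ 2 + l2 ^ 2 + l3 ^ 2)) * (14400 * (x0 ^ 2 + x1 ^ 2 + x2 ^ 2 + x3 ^ 2) + 1600 *
      (d1 ^ 2 + d2 ^ 2 + (d1 + d2) ^ 2 + 3 * (y1 ^ 2 + y2 ^ 2 + y3 ^ 2))) := by
  ring

end Pool.Agent.Lib_helper76.Ico
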