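import Pool.Agent.Lib_helper76.IcoSosK
import Pool.Agent.Lib_helper76.IcoSosL
import Pool.Agent.Lib_helper76.IcoSosKL

/-!
Sum-of-squares certificate (the key inequality for the traceless part of the bilinear map `Psi`,
written out in coordinates).
-/

namespace Pool.Agent.Lib_helper76.Ico

/-- The inequality which is accumulated square by square. -/
def IcoAcc (r S t1 t2 t3 t4 t5 t6 : ℝ) : Prop :=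
  S ≤ t1 + 2 * r * t2 + 2 * t3 + 2 * r * t4 + t5 + 2 * r * t6

theorem icoAcc_zero (r : ℝ) : IcoAcc r 0 0 0 0 0 0 0 := by
  simp [IcoAcc]

theorem ico_sq {r : ℝ} (hr : r ^ 2 = 5) (w a b c d : ℝ) :
    w * (a + b + r * (c + d)) ^ 2 = w * (a ^ 2 + 5 * c ^ 2) + 2 * r * (w * (a * c)) +
      2 * (w * (a * b + 5 * (c * d))) + 2 * r * (w * (a * d + c * b)) +
      w * (b ^ 2 + 5 * d ^ 2) + 2 * r * (w * (b * d)) := by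
  linear_combination w * (c + d) ^ 2 * hr

theorem icoAcc_left {r : ℝ} (hr : r ^ 2 = 5) {S t1 t2 t3 t4 t5 t6 : ℝ} (w a b c d : ℝ)
    (h : IcoAcc r S t1 t2 t3 t4 t5 t6) :
    IcoAcc r (S + w * (a + b + r * (c + d)) ^ 2) (t1 + w * (a ^ 2 + 5 * c ^ 2))
      (t2 + w * (a * c)) (t3 + w * (a * b + 5 * (c * d))) (t4 + w * (a * d + c * b))
      (t5 + w * (b ^ 2 + 5 * d ^ 2)) (t6 + w * (b * d)) := by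
  unfold IcoAcc at *
  have := ico_sq hr w a b c d
  linarith

theorem icoAcc_right {r : ℝ} (hr : r ^ 2 = 5) {S t1 t2 t3 t4 t5 t6 : ℝ} (w a b c d : ℝ)
    (hw : 0 ≤ w) (h : IcoAcc r S t1 t2 t3 t4 t5 t6) :
    IcoAcc r S (t1 + w * (a ^ 2 + 5 * c ^ 2))
      (t2 + w * (a * c)) (t3 + w * (a * b + 5 * (c * d))) (t4 + w * (a * d + c * b))
      (t5 + w * (b ^ 2 + 5 * d ^ 2)) (t6 + w * (b * d)) := by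
  unfold IcoAcc at *
  have := ico_sq hr w a b c d
  have h2 : 0 ≤ w * (a + b + r * (c + d)) ^ 2 := mul_nonneg hw (sq_nonneg _)
  linarith

theorem icoAcc_end {r S t1 t2 t3 t4 t5 t6 M1 M2 : ℝ} (h : IcoAcc r S t1 t2 t3 t4 t5 t6)
    (h1 : t1 = M1) (h2 : t2 = 0) (h3 : t3 = 0) (h4 : t4 = 0) (h5 : t5 = M2) (h6 : t6 = 0) :
    S ≤ M1 + M2 := by
  unfold IcoAcc at h
  rw [h1, h2, h3, h4, h5, h6] at h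
  linarith

theorem ico_fin {f1 f2 f3 f4 f5 f6 f7 f8 f9 g1 g2 g3 g4 g5 g6 g7 g8 g9 M R : ℝ}
    (h : 0 + 45 * g1 ^ 2 + 45 * g2 ^ 2 + 45 * g3 ^ 2 + 45 * g4 ^ 2 + 45 * g5 ^ 2 + 45 * g6 ^ 2 +
      45 * g7 ^ 2 + 45 * g8 ^ 2 + 45 * g9 ^ 2 ≤ M)
    (h1 : f1 = g1 / 72) (h2 : f2 = g2 / 72) (h3 : f3 = g3 / 72) (h4 : f4 = g4 / 72)
    (h5 : f5 = g5 / 72) (h6 : f6 = g6 / 72) (h7 : f7 = g7 / 72) (h8 : f8 = g8 / 72)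
    (h9 : f9 = g9 / 72) (hM : M = 233280 * R) :
    f1 ^ 2 + f2 ^ 2 + f3 ^ 2 + f4 ^ 2 + f5 ^ 2 + f6 ^ 2 + f7 ^ 2 + f8 ^ 2 + f9 ^ 2 ≤ R := by
  rw [h1, h2, h3, h4, h5, h6, h7, h8, h9]
  rw [hM] at h
  linarith

/-- The accumulated inequality. -/
theorem ico_total {r : ℝ} (hr : r ^ 2 = 5) (k1 k2 l1 l2 l3 x0 x1 x2 x3 d1 d2 y1 y2 y3 : ℝ) :
    0 + 45 * ((k1*(-5*d1 - 2*d2 - 4*x0) + k2*(-2*d1 - 4*d2)) + (l1*(-2*y1) + l2*8*x2 +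
    l3*(-8*x3)) + r * ((k1*(d1 + 4*x0) + k2*(2*d1 + 8*x0)) + (l1*(-8*x1) + l2*(-2*y2) +
    l3*2*y3))) ^ 2 + 45 * ((k1*(-4*x3 - 4*y3) + k2*(-12*x3 - 4*y3)) + (l1*(12*x2 + y2) +
    l2*(4*x1 - 4*y1) + l3*(2*d1 - 3*d2 - 4*x0)) + r * ((k1*(-4*x3 - 2*y3) + k2*(-4*x3)) +
    (l1*(4*x2 - 3*y2) + l2*(-4*x1 + 2*y1) + l3*(d2 + 4*x0)))) ^ 2 + 45 * ((k1*(-8*x2) +
    k2*(-12*x2 + 4*y2)) + (l1*(-12*x3 + y3) + l2*(5*d1 + 3*d2 - 4*x0) + l3*(-4*x1 - 4*y1)) + r *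
    ((k1*2*y2 + k2*4*x2) + (l1*(4*x3 + 3*y3) + l2*(d1 + d2 - 4*x0) + l3*(-4*x1 - 2*y1)))) ^ 2 +
    45 * ((k1*(12*x3 - 4*y3) + k2*(4*x3 - 4*y3)) + (l1*(-4*x2 - 4*y2) + l2*(-12*x1 + y1) +
    l3*(-3*d1 + 2*d2 - 4*x0)) + r * ((k1*(-4*x3) + k2*(-4*x3 + 2*y3)) + (l1*(-4*x2 - 2*y2) +
    l2*(4*x1 + 3*y1) + l3*(-d1 - 4*x0)))) ^ 2 + 45 * ((k1*(-4*d1 - 2*d2) + k2*(-2*d1 - 5*d2 -
    4*x0)) + (l1*(-8*x1) + l2*(-2*y2) + l3*8*x3) + r * ((k1*(-2*d2 - 8*x0) + k2*(-d2 - 4*x0)) +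
    (l1*2*y1 + l2*(-8*x2) + l3*(-2*y3)))) ^ 2 + 45 * ((k1*(12*x1 + 4*y1) + k2*8*x1) + (l1*(3*d1
    + 5*d2 - 4*x0) + l2*(12*x3 + y3) + l3*(4*x2 - 4*y2)) + r * ((k1*4*x1 + k2*(-2*y1)) +
    (l1*(-d1 - d2 + 4*x0) + l2*(4*x3 - 3*y3) + l3*(-4*x2 + 2*y2)))) ^ 2 + 45 * ((k1*(-8*x2) +
    k2*(4*x2 + 4*y2)) + (l1*(4*x3 - 4*y3) + l2*(-5*d1 - 2*d2 - 4*x0) + l3*(12*x1 + y1)) + r *
    ((k1*2*y2 + k2*(4*x2 + 2*y2)) + (l1*(-4*x3 + 2*y3) + l2*(d1 + 4*x0) + l3*(4*x1 - 3*y1)))) ^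
    2 + 45 * ((k1*(-4*x1 + 4*y1) + k2*8*x1) + (l1*(-2*d1 - 5*d2 - 4*x0) + l2*(-4*x3 - 4*y3) +
    l3*(-12*x2 + y2)) + r * ((k1*(4*x1 - 2*y1) + k2*(-2*y1)) + (l1*(-d2 - 4*x0) + l2*(-4*x3 -
    2*y3) + l3*(4*x2 + 3*y2)))) ^ 2 + 45 * ((k1*(-5*d1 - 3*d2 + 4*x0) + k2*(-3*d1 - 5*d2 +
    4*x0)) + (l1*8*x1 + l2*(-8*x2) + l3*(-2*y3)) + r * ((k1*(-d1 - d2 + 4*x0) + k2*(d1 + d2 -
    4*x0)) + (l1*(-2*y1) + l2*2*y2 + l3*(-8*x3)))) ^ 2 ≤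
      (k1 ^ 2 + k2 ^ 2 + (k1 + k2) ^ 2) * (14400 * (x0 ^ 2 + x1 ^ 2 + x2 ^ 2 + x3 ^ 2) + 1600 *
      (d1 ^ 2 + d2 ^ 2 + (d1 + d2) ^ 2 + 3 * (y1 ^ 2 + y2 ^ 2 + y3 ^ 2))) + (2 * (l1 ^ 2 + l2 ^
      2 + l3 ^ 2)) * (14400 * (x0 ^ 2 + x1 ^ 2 + x2 ^ 2 + x3 ^ 2) + 1600 * (d1 ^ 2 + d2 ^ 2 +
      (d1 + d2) ^ 2 + 3 * (y1 ^ 2 + y2 ^ 2 + y3 ^ 2))) := by
  refine icoAcc_end (r := r) ?_ (ico_kk k1 k2 x0 x1 x2 x3 d1 d2 y1 y2 y3) (ico_kkr k1 k2 x0 x1 x2 x3 d1 d2 y1 y2 y3) (ico_kl k1 k2 l1 l2 l3 x0 x1 x2 x3 d1 d2 y1 y2 y3) (ico_klr k1 k2 l1 l2 l3 x0 x1 x2 x3 d1 d2 y1 y2 y3) (ico_ll l1 l2 l3 x0 x1 x2 x3 d1 d2 y1 y2 y3) (ico_llr l1 l2 l3 x0 x1 x2 x3 d1 d2 y1 y2 y3)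
  refine icoAcc_right hr _ _ _ _ _ (by norm_num) ?_
  refine icoAcc_right hr _ _ _ _ _ (by norm_num) ?_
  refine icoAcc_right hr _ _ _ _ _ (by norm_num) ?_
  refine icoAcc_right hr _ _ _ _ _ (by norm_num) ?_
  refine icoAcc_right hr _ _ _ _ _ (by norm_num) ?_
  refine icoAcc_right hr _ _ _ _ _ (by norm_num) ?_
  refine icoAcc_right hr _ _ _ _ _ (by norm_num) ?_
  refine icoAcc_right hr _ _ _ _ _ (by norm_num) ?_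
  refine icoAcc_right hr _ _ _ _ _ (by norm_num) ?_
  refine icoAcc_right hr _ _ _ _ _ (by norm_num) ?_
  refine icoAcc_right hr _ _ _ _ _ (by norm_num) ?_
  refine icoAcc_right hr _ _ _ _ _ (by norm_num) ?_
  refine icoAcc_right hr _ _ _ _ _ (by norm_num) ?_
  refine icoAcc_right hr _ _ _ _ _ (by norm_num) ?_
  refine icoAcc_right hr _ _ _ _ _ (by norm_num) ?_
  refine icoAcc_right hr _ _ _ _ _ (by norm_num) ?_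
  refine icoAcc_right hr _ _ _ _ _ (by norm_num) ?_
  refine icoAcc_right hr _ _ _ _ _ (by norm_num) ?_
  refine icoAcc_right hr _ _ _ _ _ (by norm_num) ?_
  refine icoAcc_right hr _ _ _ _ _ (by norm_num) ?_
  refine icoAcc_right hr _ _ _ _ _ (by norm_num) ?_
  refine icoAcc_right hr _ _ _ _ _ (by norm_num) ?_
  refine icoAcc_right hr _ _ _ _ _ (by norm_num) ?_
  refine icoAcc_right hr _ _ _ _ _ (by norm_num) ?_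
  refine icoAcc_left hr _ _ _ _ _ ?_
  refine icoAcc_left hr _ _ _ _ _ ?_
  refine icoAcc_left hr _ _ _ _ _ ?_
  refine icoAcc_left hr _ _ _ _ _ ?_
  refine icoAcc_left hr _ _ _ _ _ ?_
  refine icoAcc_left hr _ _ _ _ _ ?_
  refine icoAcc_left hr _ _ _ _ _ ?_
  refine icoAcc_left hr _ _ _ _ _ ?_
  refine icoAcc_left hr _ _ _ _ _ ?_
  exact icoAcc_zero r

/-- Sum-of-squares certificate. -/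
theorem sos {r : ℝ} (hr : r ^ 2 = 5) (k1 k2 l1 l2 l3 x0 x1 x2 x3 d1 d2 y1 y2 y3 : ℝ) :
    (-5/72*d1*k1 + 1/72*d1*k1*r - 1/36*d1*k2 + 1/36*d1*k2*r - 1/36*d2*k1 - 1/18*d2*k2 +
        1/18*k1*r*x0 - 1/18*k1*x0 + 1/9*k2*r*x0 - 1/9*l1*r*x1 - 1/36*l1*y1 - 1/36*l2*r*y2 +
        1/9*l2*x2 + 1/36*l3*r*y3 - 1/9*l3*x3) ^ 2
      + (1/36*d1*l3 - 1/24*d2*l3 + 1/72*d2*l3*r - 1/18*k1*r*x3 - 1/36*k1*r*y3 - 1/18*k1*x3 -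
        1/18*k1*y3 - 1/18*k2*r*x3 - 1/6*k2*x3 - 1/18*k2*y3 + 1/18*l1*r*x2 - 1/24*l1*r*y2 +
        1/6*l1*x2 + 1/72*l1*y2 - 1/18*l2*r*x1 + 1/36*l2*r*y1 + 1/18*l2*x1 - 1/18*l2*y1 +
        1/18*l3*r*x0 - 1/18*l3*x0) ^ 2
      + (5/72*d1*l2 + 1/72*d1*l2*r + 1/24*d2*l2 + 1/72*d2*l2*r + 1/36*k1*r*y2 - 1/9*k1*x2 +
        1/18*k2*r*x2 - 1/6*k2*x2 + 1/18*k2*y2 + 1/18*l1*r*x3 + 1/24*l1*r*y3 - 1/6*l1*x3 +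
        1/72*l1*y3 - 1/18*l2*r*x0 - 1/18*l2*x0 - 1/18*l3*r*x1 - 1/36*l3*r*y1 - 1/18*l3*x1 -
        1/18*l3*y1) ^ 2
      + (-1/24*d1*l3 - 1/72*d1*l3*r + 1/36*d2*l3 - 1/18*k1*r*x3 + 1/6*k1*x3 - 1/18*k1*y3 -
        1/18*k2*r*x3 + 1/36*k2*r*y3 + 1/18*k2*x3 - 1/18*k2*y3 - 1/18*l1*r*x2 - 1/36*l1*r*y2 -
        1/18*l1*x2 - 1/18*l1*y2 + 1/18*l2*r*x1 + 1/24*l2*r*y1 - 1/6*l2*x1 + 1/72*l2*y1 -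
        1/18*l3*r*x0 - 1/18*l3*x0) ^ 2
      + (-1/18*d1*k1 - 1/36*d1*k2 - 1/36*d2*k1 - 1/36*d2*k1*r - 5/72*d2*k2 - 1/72*d2*k2*r -
        1/9*k1*r*x0 - 1/18*k2*r*x0 - 1/18*k2*x0 + 1/36*l1*r*y1 - 1/9*l1*x1 - 1/9*l2*r*x2 -
        1/36*l2*y2 - 1/36*l3*r*y3 + 1/9*l3*x3) ^ 2
      + (1/24*d1*l1 - 1/72*d1*l1*r + 5/72*d2*l1 - 1/72*d2*l1*r + 1/18*k1*r*x1 + 1/6*k1*x1 +
        1/18*k1*y1 - 1/36*k2*r*y1 + 1/9*k2*x1 + 1/18*l1*r*x0 - 1/18*l1*x0 + 1/18*l2*r*x3 -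
        1/24*l2*r*y3 + 1/6*l2*x3 + 1/72*l2*y3 - 1/18*l3*r*x2 + 1/36*l3*r*y2 + 1/18*l3*x2 -
        1/18*l3*y2) ^ 2
      + (-5/72*d1*l2 + 1/72*d1*l2*r - 1/36*d2*l2 + 1/36*k1*r*y2 - 1/9*k1*x2 + 1/18*k2*r*x2 +
        1/36*k2*r*y2 + 1/18*k2*x2 + 1/18*k2*y2 - 1/18*l1*r*x3 + 1/36*l1*r*y3 + 1/18*l1*x3 -
        1/18*l1*y3 + 1/18*l2*r*x0 - 1/18*l2*x0 + 1/18*l3*r*x1 - 1/24*l3*r*y1 + 1/6*l3*x1 +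
        1/72*l3*y1) ^ 2
      + (-1/36*d1*l1 - 5/72*d2*l1 - 1/72*d2*l1*r + 1/18*k1*r*x1 - 1/36*k1*r*y1 - 1/18*k1*x1 +
        1/18*k1*y1 - 1/36*k2*r*y1 + 1/9*k2*x1 - 1/18*l1*r*x0 - 1/18*l1*x0 - 1/18*l2*r*x3 -
        1/36*l2*r*y3 - 1/18*l2*x3 - 1/18*l2*y3 + 1/18*l3*r*x2 + 1/24*l3*r*y2 - 1/6*l3*x2 +
        1/72*l3*y2) ^ 2
      + (-5/72*d1*k1 - 1/72*d1*k1*r - 1/24*d1*k2 + 1/72*d1*k2*r - 1/24*d2*k1 - 1/72*d2*k1*r -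
        5/72*d2*k2 + 1/72*d2*k2*r + 1/18*k1*r*x0 + 1/18*k1*x0 - 1/18*k2*r*x0 + 1/18*k2*x0 -
        1/36*l1*r*y1 + 1/9*l1*x1 + 1/36*l2*r*y2 - 1/9*l2*x2 - 1/9*l3*r*x3 - 1/36*l3*y3) ^ 2
    ≤ 5 / 243 * (k1 ^ 2 + k2 ^ 2 + (k1 + k2) ^ 2 + 2 * (l1 ^ 2 + l2 ^ 2 + l3 ^ 2))
      * (3 * (x0 ^ 2 + x1 ^ 2 + x2 ^ 2 + x3 ^ 2)
        + 1 / 3 * (d1 ^ 2 + d2 ^ 2 + (d1 + d2) ^ 2 + 3 * (y1 ^ 2 + y2 ^ 2 + y3 ^ 2))) := by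
  refine ico_fin (ico_total hr k1 k2 l1 l2 l3 x0 x1 x2 x3 d1 d2 y1 y2 y3)
    (by ring) (by ring) (by ring) (by ring) (by ring) (by ring) (by ring) (by ring) (by ring) ?_
  ring

end Pool.Agent.Lib_helper76.Ico
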