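import Pool.Agent.Lib_helper76.IcoAlgDefs
import Pool.Agent.Lib_helper76.IcoSosCert

/-!
The sum-of-squares bound for the traceless part of the bilinear map `Psi`.
-/

open Matrix

namespace Pool.Agent.Lib_helper76.Ico

/-- Isotypic coordinates of a matrix. -/
lemma decomp {r : ℝ} (hr : r ^ 2 = 5) (R : Matrix (Fin 3) (Fin 3) ℝ) :
    ∃ x0 x1 x2 x3 d1 d2 y1 y2 y3 : ℝ,
      R 0 0 = d1 + x0 ∧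
      R 0 1 = 1/2*r*x3 + 1/2*r*y3 - 1/2*x3 + 1/2*y3 ∧
      R 0 2 = 1/2*r*x2 - 1/2*r*y2 + 1/2*x2 + 1/2*y2 ∧
      R 1 0 = 1/2*r*x3 - 1/2*r*y3 + 1/2*x3 + 1/2*y3 ∧
      R 1 1 = d2 + x0 ∧
      R 1 2 = 1/2*r*x1 + 1/2*r*y1 - 1/2*x1 + 1/2*y1 ∧
      R 2 0 = 1/2*r*x2 + 1/2*r*y2 - 1/2*x2 + 1/2*y2 ∧
      R 2 1 = 1/2*r*x1 - 1/2*r*y1 + 1/2*x1 + 1/2*y1 ∧
      R 2 2 = -d1 - d2 + x0 := by
  refine ⟨(R 0 0 + R 1 1 + R 2 2) / 3,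
    ((r - 1) / 2 * R 1 2 + (1 + r) / 2 * R 2 1) / 3,
    ((r - 1) / 2 * R 2 0 + (1 + r) / 2 * R 0 2) / 3,
    ((r - 1) / 2 * R 0 1 + (1 + r) / 2 * R 1 0) / 3,
    R 0 0 - (R 0 0 + R 1 1 + R 2 2) / 3,
    R 1 1 - (R 0 0 + R 1 1 + R 2 2) / 3,
    ((1 + r) / 2 * R 1 2 + (1 - r) / 2 * R 2 1) / 3,
    ((1 + r) / 2 * R 2 0 + (1 - r) / 2 * R 0 2) / 3,
    ((1 + r) / 2 * R 0 1 + (1 - r) / 2 * R 1 0) / 3,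
    ?_, ?_, ?_, ?_, ?_, ?_, ?_, ?_, ?_⟩
  · linear_combination (0) * hr
  · linear_combination (-1/6*R 0 1) * hr
  · linear_combination (-1/6*R 0 2) * hr
  · linear_combination (-1/6*R 1 0) * hr
  · linear_combination (0) * hr
  · linear_combination (-1/6*R 1 2) * hr
  · linear_combination (-1/6*R 2 0) * hr
  · linear_combination (-1/6*R 2 1) * hr
  · linear_combination (0) * hr

/-- `Psi` in isotypic coordinates. -/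
lemma Psi_coord {r : ℝ} (hr : r ^ 2 = 5) {K R : Matrix (Fin 3) (Fin 3) ℝ}
    {k0 k1 k2 l1 l2 l3 x0 x1 x2 x3 d1 d2 y1 y2 y3 : ℝ}
    (e00 : K 0 0 = k0 + k1) (e11 : K 1 1 = k0 + k2) (e22 : K 2 2 = k0 - k1 - k2)
    (e12 : K 1 2 = l1) (e02 : K 0 2 = l2) (e01 : K 0 1 = l3)
    (h00 : R 0 0 = d1 + x0)
    (h01 : R 0 1 = 1/2*r*x3 + 1/2*r*y3 - 1/2*x3 + 1/2*y3)
    (h02 : R 0 2 = 1/2*r*x2 - 1/2*r*y2 + 1/2*x2 + 1/2*y2)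
    (h10 : R 1 0 = 1/2*r*x3 - 1/2*r*y3 + 1/2*x3 + 1/2*y3)
    (h11 : R 1 1 = d2 + x0)
    (h12 : R 1 2 = 1/2*r*x1 + 1/2*r*y1 - 1/2*x1 + 1/2*y1)
    (h20 : R 2 0 = 1/2*r*x2 + 1/2*r*y2 - 1/2*x2 + 1/2*y2)
    (h21 : R 2 1 = 1/2*r*x1 - 1/2*r*y1 + 1/2*x1 + 1/2*y1)
    (h22 : R 2 2 = -d1 - d2 + x0) :
    Psi r K R 0 0 - k0 / 9 * R 0 0 = -5/72*d1*k1 + 1/72*d1*k1*r - 1/36*d1*k2 + 1/36*d1*k2*r - 1/36*d2*k1 - 1/18*d2*k2 +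
      1/18*k1*r*x0 - 1/18*k1*x0 + 1/9*k2*r*x0 - 1/9*l1*r*x1 - 1/36*l1*y1 - 1/36*l2*r*y2 +
      1/9*l2*x2 + 1/36*l3*r*y3 - 1/9*l3*x3 ∧
    Psi r K R 0 1 - k0 / 9 * R 0 1 = 1/36*d1*l3 - 1/24*d2*l3 + 1/72*d2*l3*r - 1/18*k1*r*x3 - 1/36*k1*r*y3 - 1/18*k1*x3 -
      1/18*k1*y3 - 1/18*k2*r*x3 - 1/6*k2*x3 - 1/18*k2*y3 + 1/18*l1*r*x2 - 1/24*l1*r*y2 +
      1/6*l1*x2 + 1/72*l1*y2 - 1/18*l2*r*x1 + 1/36*l2*r*y1 + 1/18*l2*x1 - 1/18*l2*y1 +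
      1/18*l3*r*x0 - 1/18*l3*x0 ∧
    Psi r K R 0 2 - k0 / 9 * R 0 2 = 5/72*d1*l2 + 1/72*d1*l2*r + 1/24*d2*l2 + 1/72*d2*l2*r + 1/36*k1*r*y2 - 1/9*k1*x2 +
      1/18*k2*r*x2 - 1/6*k2*x2 + 1/18*k2*y2 + 1/18*l1*r*x3 + 1/24*l1*r*y3 - 1/6*l1*x3 +
      1/72*l1*y3 - 1/18*l2*r*x0 - 1/18*l2*x0 - 1/18*l3*r*x1 - 1/36*l3*r*y1 - 1/18*l3*x1 -
      1/18*l3*y1 ∧
    Psi r K R 1 0 - k0 / 9 * R 1 0 = -1/24*d1*l3 - 1/72*d1*l3*r + 1/36*d2*l3 - 1/18*k1*r*x3 + 1/6*k1*x3 - 1/18*k1*y3 -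
      1/18*k2*r*x3 + 1/36*k2*r*y3 + 1/18*k2*x3 - 1/18*k2*y3 - 1/18*l1*r*x2 - 1/36*l1*r*y2 -
      1/18*l1*x2 - 1/18*l1*y2 + 1/18*l2*r*x1 + 1/24*l2*r*y1 - 1/6*l2*x1 + 1/72*l2*y1 -
      1/18*l3*r*x0 - 1/18*l3*x0 ∧
    Psi r K R 1 1 - k0 / 9 * R 1 1 = -1/18*d1*k1 - 1/36*d1*k2 - 1/36*d2*k1 - 1/36*d2*k1*r - 5/72*d2*k2 - 1/72*d2*k2*r -
      1/9*k1*r*x0 - 1/18*k2*r*x0 - 1/18*k2*x0 + 1/36*l1*r*y1 - 1/9*l1*x1 - 1/9*l2*r*x2 -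
      1/36*l2*y2 - 1/36*l3*r*y3 + 1/9*l3*x3 ∧
    Psi r K R 1 2 - k0 / 9 * R 1 2 = 1/24*d1*l1 - 1/72*d1*l1*r + 5/72*d2*l1 - 1/72*d2*l1*r + 1/18*k1*r*x1 + 1/6*k1*x1 +
      1/18*k1*y1 - 1/36*k2*r*y1 + 1/9*k2*x1 + 1/18*l1*r*x0 - 1/18*l1*x0 + 1/18*l2*r*x3 -
      1/24*l2*r*y3 + 1/6*l2*x3 + 1/72*l2*y3 - 1/18*l3*r*x2 + 1/36*l3*r*y2 + 1/18*l3*x2 -
      1/18*l3*y2 ∧
    Psi r K R 2 0 - k0 / 9 * R 2 0 = -5/72*d1*l2 + 1/72*d1*l2*r - 1/36*d2*l2 + 1/36*k1*r*y2 - 1/9*k1*x2 + 1/18*k2*r*x2 +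
      1/36*k2*r*y2 + 1/18*k2*x2 + 1/18*k2*y2 - 1/18*l1*r*x3 + 1/36*l1*r*y3 + 1/18*l1*x3 -
      1/18*l1*y3 + 1/18*l2*r*x0 - 1/18*l2*x0 + 1/18*l3*r*x1 - 1/24*l3*r*y1 + 1/6*l3*x1 +
      1/72*l3*y1 ∧
    Psi r K R 2 1 - k0 / 9 * R 2 1 = -1/36*d1*l1 - 5/72*d2*l1 - 1/72*d2*l1*r + 1/18*k1*r*x1 - 1/36*k1*r*y1 - 1/18*k1*x1 +
      1/18*k1*y1 - 1/36*k2*r*y1 + 1/9*k2*x1 - 1/18*l1*r*x0 - 1/18*l1*x0 - 1/18*l2*r*x3 -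
      1/36*l2*r*y3 - 1/18*l2*x3 - 1/18*l2*y3 + 1/18*l3*r*x2 + 1/24*l3*r*y2 - 1/6*l3*x2 +
      1/72*l3*y2 ∧
    Psi r K R 2 2 - k0 / 9 * R 2 2 = -5/72*d1*k1 - 1/72*d1*k1*r - 1/24*d1*k2 + 1/72*d1*k2*r - 1/24*d2*k1 - 1/72*d2*k1*r -
      5/72*d2*k2 + 1/72*d2*k2*r + 1/18*k1*r*x0 + 1/18*k1*x0 - 1/18*k2*r*x0 + 1/18*k2*x0 -
      1/36*l1*r*y1 + 1/9*l1*x1 + 1/36*l2*r*y2 - 1/9*l2*x2 - 1/9*l3*r*x3 - 1/36*l3*y3 := by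
  refine ⟨?_, ?_, ?_, ?_, ?_, ?_, ?_, ?_, ?_⟩
  · simp only [Psi, Matrix.cons_val, Matrix.cons_val_zero, Matrix.cons_val_one, Matrix.of_apply,
      e00, e11, e22, e12, e02, e01, h00, h01, h02, h10, h11, h12, h20, h21, h22]
    linear_combination (1/72*l1*y1 + 1/72*l2*x2 - 1/72*l3*x3) * hr
  · simp only [Psi, Matrix.cons_val, Matrix.cons_val_zero, Matrix.cons_val_one, Matrix.of_apply,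
      e00, e11, e22, e12, e02, e01, h00, h01, h02, h10, h11, h12, h20, h21, h22]
    linear_combination (-1/72*k1*x3 - 1/36*k2*x3 + 1/48*l1*x2 - 1/144*l1*y2 + 1/72*l2*x1) * hr
  · simp only [Psi, Matrix.cons_val, Matrix.cons_val_zero, Matrix.cons_val_one, Matrix.of_apply,
      e00, e11, e22, e12, e02, e01, h00, h01, h02, h10, h11, h12, h20, h21, h22]
    linear_combination (-1/72*k1*x2 - 1/36*k2*x2 - 1/48*l1*x3 - 1/144*l1*y3 - 1/72*l3*x1) * hr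
  · simp only [Psi, Matrix.cons_val, Matrix.cons_val_zero, Matrix.cons_val_one, Matrix.of_apply,
      e00, e11, e22, e12, e02, e01, h00, h01, h02, h10, h11, h12, h20, h21, h22]
    linear_combination (1/36*k1*x3 + 1/72*k2*x3 - 1/72*l1*x2 - 1/48*l2*x1 - 1/144*l2*y1) * hr
  · simp only [Psi, Matrix.cons_val, Matrix.cons_val_zero, Matrix.cons_val_one, Matrix.of_apply,
      e00, e11, e22, e12, e02, e01, h00, h01, h02, h10, h11, h12, h20, h21, h22]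
    linear_combination (-1/72*l1*x1 + 1/72*l2*y2 + 1/72*l3*x3) * hr
  · simp only [Psi, Matrix.cons_val, Matrix.cons_val_zero, Matrix.cons_val_one, Matrix.of_apply,
      e00, e11, e22, e12, e02, e01, h00, h01, h02, h10, h11, h12, h20, h21, h22]
    linear_combination (1/36*k1*x1 + 1/72*k2*x1 + 1/48*l2*x3 - 1/144*l2*y3 + 1/72*l3*x2) * hr
  · simp only [Psi, Matrix.cons_val, Matrix.cons_val_zero, Matrix.cons_val_one, Matrix.of_apply,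
      e00, e11, e22, e12, e02, e01, h00, h01, h02, h10, h11, h12, h20, h21, h22]
    linear_combination (-1/72*k1*x2 + 1/72*k2*x2 + 1/72*l1*x3 + 1/48*l3*x1 - 1/144*l3*y1) * hr
  · simp only [Psi, Matrix.cons_val, Matrix.cons_val_zero, Matrix.cons_val_one, Matrix.of_apply,
      e00, e11, e22, e12, e02, e01, h00, h01, h02, h10, h11, h12, h20, h21, h22]
    linear_combination (-1/72*k1*x1 + 1/72*k2*x1 - 1/72*l2*x3 - 1/48*l3*x2 - 1/144*l3*y2) * hr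
  · simp only [Psi, Matrix.cons_val, Matrix.cons_val_zero, Matrix.cons_val_one, Matrix.of_apply,
      e00, e11, e22, e12, e02, e01, h00, h01, h02, h10, h11, h12, h20, h21, h22]
    linear_combination (1/72*l1*x1 - 1/72*l2*x2 + 1/72*l3*y3) * hr

/-- `Wm` in isotypic coordinates. -/
lemma Wm_coord {r : ℝ} (hr : r ^ 2 = 5) {R : Matrix (Fin 3) (Fin 3) ℝ}
    {x0 x1 x2 x3 d1 d2 y1 y2 y3 : ℝ}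
    (h00 : R 0 0 = d1 + x0)
    (h01 : R 0 1 = 1/2*r*x3 + 1/2*r*y3 - 1/2*x3 + 1/2*y3)
    (h02 : R 0 2 = 1/2*r*x2 - 1/2*r*y2 + 1/2*x2 + 1/2*y2)
    (h10 : R 1 0 = 1/2*r*x3 - 1/2*r*y3 + 1/2*x3 + 1/2*y3)
    (h11 : R 1 1 = d2 + x0)
    (h12 : R 1 2 = 1/2*r*x1 + 1/2*r*y1 - 1/2*x1 + 1/2*y1)
    (h20 : R 2 0 = 1/2*r*x2 + 1/2*r*y2 - 1/2*x2 + 1/2*y2)
    (h21 : R 2 1 = 1/2*r*x1 - 1/2*r*y1 + 1/2*x1 + 1/2*y1)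
    (h22 : R 2 2 = -d1 - d2 + x0) :
    ip (Wm r R) (Wm r R) = (d1 ^ 2 + d2 ^ 2 + (d1 + d2) ^ 2 + 3 * (y1 ^ 2 + y2 ^ 2 + y3 ^ 2)) / 6 := by
  simp only [ip, Wm, Fin.sum_univ_three, Matrix.cons_val, Matrix.cons_val_zero, Matrix.cons_val_one,
    Matrix.of_apply, h00, h01, h02, h10, h11, h12, h20, h21, h22]
  linear_combination (1/24*d1^2 + 1/24*d1*d2 + 1/24*d2^2 + 1/72*r^2*y1^2 + 1/72*r^2*y2^2 + 1/72*r^2*y3^2 +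
    7/72*y1^2 + 7/72*y2^2 + 7/72*y3^2) * hr

lemma Wm_trace (r : ℝ) (R : Matrix (Fin 3) (Fin 3) ℝ) :
    Wm r R 0 0 + Wm r R 1 1 + Wm r R 2 2 = 0 := by
  simp only [Wm, Matrix.cons_val, Matrix.cons_val_zero, Matrix.cons_val_one, Matrix.of_apply]
  ring

lemma norm_coord {r : ℝ} (hr : r ^ 2 = 5) {R : Matrix (Fin 3) (Fin 3) ℝ}
    {x0 x1 x2 x3 d1 d2 y1 y2 y3 : ℝ}
    (h00 : R 0 0 = d1 + x0)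
    (h01 : R 0 1 = 1/2*r*x3 + 1/2*r*y3 - 1/2*x3 + 1/2*y3)
    (h02 : R 0 2 = 1/2*r*x2 - 1/2*r*y2 + 1/2*x2 + 1/2*y2)
    (h10 : R 1 0 = 1/2*r*x3 - 1/2*r*y3 + 1/2*x3 + 1/2*y3)
    (h11 : R 1 1 = d2 + x0)
    (h12 : R 1 2 = 1/2*r*x1 + 1/2*r*y1 - 1/2*x1 + 1/2*y1)
    (h20 : R 2 0 = 1/2*r*x2 + 1/2*r*y2 - 1/2*x2 + 1/2*y2)
    (h21 : R 2 1 = 1/2*r*x1 - 1/2*r*y1 + 1/2*x1 + 1/2*y1)
    (h22 : R 2 2 = -d1 - d2 + x0) :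
    ip R R = 3 * (x0 ^ 2 + x1 ^ 2 + x2 ^ 2 + x3 ^ 2)
      + (d1 ^ 2 + d2 ^ 2 + (d1 + d2) ^ 2 + 3 * (y1 ^ 2 + y2 ^ 2 + y3 ^ 2)) := by
  simp only [ip, Fin.sum_univ_three, h00, h01, h02, h10, h11, h12, h20, h21, h22]
  linear_combination (1/2*x1^2 + 1/2*x2^2 + 1/2*x3^2 + 1/2*y1^2 + 1/2*y2^2 + 1/2*y3^2) * hr

end Pool.Agent.Lib_helper76.Ico
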