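import Mathlib

/-!
A part of the sum-of-squares certificate in `IcoSosCert` (an identity over the rationals).
-/

set_option autoImplicit false

namespace Pool.Agent.Lib_helper76.Ico

/-- The terms of degree two in the `k`, without the square root of five. -/
theorem ico_kk (k1 k2 x0 x1 x2 x3 d1 d2 y1 y2 y3 : ℝ) :
    0 + 45 * ((k1*(-5*d1 - 2*d2 - 4*x0) + k2*(-2*d1 - 4*d2)) ^ 2 + 5 * (k1*(d1 + 4*x0) +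
    k2*(2*d1 + 8*x0)) ^ 2) + 45 * ((k1*(-4*x3 - 4*y3) + k2*(-12*x3 - 4*y3)) ^ 2 + 5 * (k1*(-4*x3
    - 2*y3) + k2*(-4*x3)) ^ 2) + 45 * ((k1*(-8*x2) + k2*(-12*x2 + 4*y2)) ^ 2 + 5 * (k1*2*y2 +
    k2*4*x2) ^ 2) + 45 * ((k1*(12*x3 - 4*y3) + k2*(4*x3 - 4*y3)) ^ 2 + 5 * (k1*(-4*x3) +
    k2*(-4*x3 + 2*y3)) ^ 2) + 45 * ((k1*(-4*d1 - 2*d2) + k2*(-2*d1 - 5*d2 - 4*x0)) ^ 2 + 5 *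
    (k1*(-2*d2 - 8*x0) + k2*(-d2 - 4*x0)) ^ 2) + 45 * ((k1*(12*x1 + 4*y1) + k2*8*x1) ^ 2 + 5 *
    (k1*4*x1 + k2*(-2*y1)) ^ 2) + 45 * ((k1*(-8*x2) + k2*(4*x2 + 4*y2)) ^ 2 + 5 * (k1*2*y2 +
    k2*(4*x2 + 2*y2)) ^ 2) + 45 * ((k1*(-4*x1 + 4*y1) + k2*8*x1) ^ 2 + 5 * (k1*(4*x1 - 2*y1) +
    k2*(-2*y1)) ^ 2) + 45 * ((k1*(-5*d1 - 3*d2 + 4*x0) + k2*(-3*d1 - 5*d2 + 4*x0)) ^ 2 + 5 *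
    (k1*(-d1 - d2 + 4*x0) + k2*(d1 + d2 - 4*x0)) ^ 2) + 9 * ((k1*(20*x1 + 15*y1) + k2*40*x1) ^ 2
    + 5 * (k1*(-12*x1 + y1) + k2*2*y1) ^ 2) + 9 * ((k1*(-40*x2) + k2*(-20*x2 + 15*y2)) ^ 2 + 5 *
    (k1*(-2*y2) + k2*(-12*x2 - y2)) ^ 2) + 9 * ((k1*(20*x3 - 15*y3) + k2*(-20*x3 - 15*y3)) ^ 2 +
    5 * (k1*(12*x3 + y3) + k2*(12*x3 - y3)) ^ 2) + 45 * ((k1*y1 + k2*2*y1) ^ 2 + 5 * (k1*3*y1) ^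
    2) + 45 * ((k1*(-2*y2) + k2*(-y2)) ^ 2 + 5 * (k2*3*y2) ^ 2) + 45 * ((k1*y3 + k2*(-y3)) ^ 2 +
    5 * (k1*(-3*y3) + k2*(-3*y3)) ^ 2) + 240 * ((k1*2*y1 + k2*4*y1) ^ 2 + 5 * (0) ^ 2) + 240 *
    ((k1*(-4*y2) + k2*(-2*y2)) ^ 2 + 5 * (0) ^ 2) + 240 * ((k1*2*y3 + k2*(-2*y3)) ^ 2 + 5 * (0)
    ^ 2) + 240 * ((k1*(-2*d1 - d2) + k2*(-d1 - 2*d2)) ^ 2 + 5 * (k1*d2 + k2*(-d1)) ^ 2) + 5 *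
    ((k1*(7*d1 - 7*d2 + 24*x0) + k2*(-7*d1 - 14*d2)) ^ 2 + 5 * (k1*(3*d1 + 3*d2) + k2*3*d1) ^ 2)
    + 5 * ((k1*(-14*d1 - 7*d2) + k2*(-7*d1 + 7*d2 + 24*x0)) ^ 2 + 5 * (k1*(-3*d2) + k2*(-3*d1 -
    3*d2)) ^ 2) + 5 * ((k1*(7*d1 + 14*d2 - 24*x0) + k2*(14*d1 + 7*d2 - 24*x0)) ^ 2 + 5 *
    (k1*(-3*d1) + k2*3*d2) ^ 2) + 15 * ((k1*(8*x1 - 3*y1) + k2*16*x1) ^ 2 + 5 * (k1*3*y1 +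
    k2*6*y1) ^ 2) + 15 * ((k1*(-16*x2) + k2*(-8*x2 - 3*y2)) ^ 2 + 5 * (k1*(-6*y2) + k2*(-3*y2))
    ^ 2) + 15 * ((k1*(8*x3 + 3*y3) + k2*(-8*x3 + 3*y3)) ^ 2 + 5 * (k1*3*y3 + k2*(-3*y3)) ^ 2) +
    15 * ((k1*(-2*d1 - d2) + k2*(-d1 - 2*d2)) ^ 2 + 5 * (k1*3*d2 + k2*(-3*d1)) ^ 2) + 15 *
    ((k1*(12*x1 - 3*y1) + k2*(-6*y1)) ^ 2 + 5 * (k1*(4*x1 - 3*y1) + k2*8*x1) ^ 2) + 15 *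
    ((k1*6*y2 + k2*(12*x2 + 3*y2)) ^ 2 + 5 * (k1*(-8*x2) + k2*(-4*x2 - 3*y2)) ^ 2) + 15 *
    ((k1*(-12*x3 - 3*y3) + k2*(-12*x3 + 3*y3)) ^ 2 + 5 * (k1*(4*x3 + 3*y3) + k2*(-4*x3 + 3*y3))
    ^ 2) + 10 * ((k1*(-2*d1 - d2) + k2*(-d1 - 2*d2)) ^ 2 + 5 * (k1*3*d2 + k2*(-3*d1)) ^ 2) + 10
    * ((k1*(-3*y1) + k2*(-6*y1)) ^ 2 + 5 * (k1*(-3*y1)) ^ 2) + 10 * ((k1*6*y2 + k2*3*y2) ^ 2 + 5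
    * (k2*(-3*y2)) ^ 2) + 10 * ((k1*(-3*y3) + k2*3*y3) ^ 2 + 5 * (k1*3*y3 + k2*3*y3) ^ 2) =
      (k1 ^ 2 + k2 ^ 2 + (k1 + k2) ^ 2) * (14400 * (x0 ^ 2 + x1 ^ 2 + x2 ^ 2 + x3 ^ 2) + 1600 *
      (d1 ^ 2 + d2 ^ 2 + (d1 + d2) ^ 2 + 3 * (y1 ^ 2 + y2 ^ 2 + y3 ^ 2))) := by
  ring

end Pool.Agent.Lib_helper76.Ico
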