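import Mathlib

/-!
A zero-dimensional space `Xt` with one non-isolated point for which `C_p(Xt)` is isocompact
but not a g-space.
-/

open Cardinal Set Filter Topology

namespace Pool.Agent.Lib_helper76.Isocompact

/-- A set is small if its cardinality is at most `ℵ_n` for some natural number `n`. -/
def Small {α : Type} (B : Set α) : Prop := ∃ n : ℕ, #B ≤ ℵ_ (n : Ordinal.{0})

lemma Small.mono {α : Type} {B B' : Set α} (h : B ⊆ B') (hB : Small B') : Small B := by
  obtain ⟨n, hn⟩ := hB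
  exact ⟨n, (mk_le_mk_of_subset h).trans hn⟩

lemma aleph_mono_nat {m n : ℕ} (h : m ≤ n) :
    (ℵ_ (m : Ordinal.{0}) : Cardinal.{0}) ≤ ℵ_ (n : Ordinal.{0}) :=
  aleph_le_aleph.2 (by exact_mod_cast h)

lemma Small.union {α : Type} {B B' : Set α} (hB : Small B) (hB' : Small B') :
    Small (B ∪ B') := by
  obtain ⟨n, hn⟩ := hB
  obtain ⟨m, hm⟩ := hB'
  refine ⟨max n m, (mk_union_le B B').trans ?_⟩
  have h1 := hn.trans (aleph_mono_nat (le_max_left n m))
  have h2 := hm.trans (aleph_mono_nat (le_max_right n m))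
  calc #B + #B' ≤ ℵ_ ((max n m : ℕ) : Ordinal.{0}) + ℵ_ ((max n m : ℕ) : Ordinal.{0}) :=
        add_le_add h1 h2
    _ = ℵ_ ((max n m : ℕ) : Ordinal.{0}) := add_eq_self (aleph0_le_aleph _)

lemma small_of_countable {α : Type} {B : Set α} (h : B.Countable) : Small B := by
  refine ⟨0, ?_⟩
  have : #B ≤ ℵ₀ := le_aleph0_iff_set_countable.2 h
  exact this.trans (aleph0_le_aleph _)

/-- index type of cardinality `ℵ_ω` -/
def D : Type := Σ n : ℕ, (ℵ_ (n : Ordinal.{0}) : Cardinal.{0}).out

/-- The underlying set of the space: `D` together with one more point `none`. -/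
def Xt : Type := Option D

/-- the non-isolated point -/
def pt : Xt := (none : Option D)

lemma aleph_le_of_range_some (n : ℕ) :
    (ℵ_ (n : Ordinal.{0}) : Cardinal.{0}) ≤ #({x : Xt | x ≠ pt} : Set Xt) := by
  have h : #((ℵ_ (n : Ordinal.{0}) : Cardinal.{0}).out) = ℵ_ (n : Ordinal.{0}) := mk_out _
  rw [← h]
  refine mk_le_of_injective (f := fun t => (⟨(some ⟨n, t⟩ : Option D), ?_⟩ :
    ({x : Xt | x ≠ pt} : Set Xt))) ?_
  · intro hc
    cases hc
  · intro t t' ht
    have h1 : (some (⟨n, t⟩ : D) : Option D) = some ⟨n, t'⟩ := congrArg Subtype.val ht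
    have h2 : (⟨n, t⟩ : D) = ⟨n, t'⟩ := Option.some.inj h1
    simpa using h2

lemma not_small_of {α : Type} {B : Set α} (h : ∀ n : ℕ, ℵ_ (n : Ordinal.{0}) ≤ #B) :
    ¬ Small B := by
  rintro ⟨n, hn⟩
  have h1 := (h (n + 1)).trans hn
  rw [aleph_le_aleph] at h1
  have h2 : (n + 1 : ℕ) ≤ n := by exact_mod_cast h1
  omega

/-- The filter of sets with small complement. -/
def F : Filter Xt where
  sets := {s | Small sᶜ}
  univ_sets := by
    show Small (univᶜ : Set Xt)
    rw [compl_univ]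
    exact small_of_countable countable_empty
  sets_of_superset := by
    intro s t hs hst
    exact hs.mono (compl_subset_compl.2 hst)
  inter_sets := by
    intro s t hs ht
    show Small (s ∩ t)ᶜ
    rw [compl_inter]
    exact hs.union ht

lemma mem_F {s : Set Xt} : s ∈ F ↔ Small sᶜ := Iff.rfl

instance : TopologicalSpace Xt := nhdsAdjoint pt F

lemma isOpen_iff {U : Set Xt} : IsOpen U ↔ (pt ∈ U → Small Uᶜ) := Iff.rfl

lemma continuous_iff {f : Xt → ℝ} :
    Continuous f ↔ ∀ ε > 0, Small {x | ε ≤ |f x - f pt|} := by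
  rw [continuous_iff_continuousAt]
  constructor
  · intro h ε hε
    have h1 : Tendsto f (𝓝 pt) (𝓝 (f pt)) := h pt
    have h2 : 𝓝 pt = pure pt ⊔ F := nhds_nhdsAdjoint_same pt F
    rw [h2] at h1
    have h3 : Tendsto f F (𝓝 (f pt)) := h1.mono_left le_sup_right
    have h4 := (Metric.tendsto_nhds.1 h3) ε hε
    refine Small.mono ?_ (mem_F.1 h4)
    intro x hx
    have hx' : ε ≤ |f x - f pt| := hx
    show ¬ (dist (f x) (f pt) < ε)
    rw [Real.dist_eq]
    exact not_lt.2 hx'
  · intro h x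
    by_cases hx : x = pt
    · subst hx
      have h2 : 𝓝 pt = pure pt ⊔ F := nhds_nhdsAdjoint_same pt F
      show Tendsto f (𝓝 pt) (𝓝 (f pt))
      rw [h2, tendsto_sup]
      refine ⟨tendsto_pure_nhds f pt, ?_⟩
      rw [Metric.tendsto_nhds]
      intro ε hε
      refine mem_F.2 (Small.mono ?_ (h ε hε))
      intro x hx
      have hx' : ¬ (dist (f x) (f pt) < ε) := hx
      rw [Real.dist_eq] at hx'
      exact not_lt.1 hx'
    · have h2 : 𝓝 x = pure x := nhds_nhdsAdjoint_of_ne F hx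
      show Tendsto f (𝓝 x) (𝓝 (f x))
      rw [h2]
      exact tendsto_pure_nhds f x

instance : T1Space Xt := by
  refine ⟨fun x => ?_⟩
  rw [← isOpen_compl_iff, isOpen_iff]
  intro _
  rw [compl_compl]
  exact small_of_countable (countable_singleton x)

instance : NormalSpace Xt := by
  refine ⟨fun s t hs ht hst => ?_⟩
  by_cases hp : pt ∈ s
  · have hpt : pt ∉ t := fun h => (Set.disjoint_left.1 hst hp) h
    refine ⟨tᶜ, t, ht.isOpen_compl, ?_, Set.subset_compl_iff_disjoint_right.2 hst, subset_rfl,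
      disjoint_compl_left⟩
    rw [isOpen_iff]
    exact fun h => (hpt h).elim
  · refine ⟨s, sᶜ, ?_, hs.isOpen_compl, subset_rfl,
      Set.subset_compl_iff_disjoint_left.2 hst, disjoint_compl_right⟩
    rw [isOpen_iff]
    exact fun h => (hp h).elim

instance : T35Space Xt := inferInstance

/-- The functions on `Xt` which are continuous, described by smallness. -/
def C : Set (Xt → ℝ) := {f | ∀ ε > 0, Small {x | ε ≤ |f x - f pt|}}

lemma mapClusterPt_apply {α : Type} {z : α → ℝ} {u : ℕ → α → ℝ} (h : MapClusterPt z atTop u)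
    (x : α) : MapClusterPt (z x) atTop (fun n => u n x) :=
  h.continuousAt_comp (f := fun g : α → ℝ => g x) (continuous_apply x).continuousAt

lemma eq_of_cluster_tendsto {y z : ℝ} {v : ℕ → ℝ} (h : MapClusterPt z atTop v)
    (ht : Tendsto v atTop (𝓝 y)) : z = y := by
  have h1 : NeBot (𝓝 z ⊓ map v atTop) := h
  have h2 : NeBot (𝓝 z ⊓ 𝓝 y) := h1.mono (inf_le_inf_left _ ht)
  exact eq_of_nhds_neBot h2

lemma eq_of_cluster_const {y z : ℝ} {v : ℕ → ℝ} (h : MapClusterPt z atTop v) (N : ℕ)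
    (ht : ∀ n ≥ N, v n = y) : z = y :=
  eq_of_cluster_tendsto h (tendsto_const_nhds.congr' (by
    filter_upwards [eventually_ge_atTop N] with n hn
    exact (ht n hn).symm))

section main

variable {T : Set (Xt → ℝ)}

lemma bounded_of_cc
    (hcc : ∀ u : ℕ → Xt → ℝ, (∀ n, u n ∈ T) → ∃ z ∈ T, MapClusterPt z atTop u) (x : Xt) :
    ∃ M : ℝ, ∀ g ∈ T, |g x| ≤ M := by
  by_contra hcon
  push Not at hcon
  choose u hu hM using fun n : ℕ => hcon n
  obtain ⟨z, -, hz⟩ := hcc u hu
  have h1 := mapClusterPt_apply hz x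
  have h2 : ∀ᶠ y in 𝓝 (z x), |y| < |z x| + 1 := by
    have : Tendsto (fun y : ℝ => |y|) (𝓝 (z x)) (𝓝 |z x|) := continuous_abs.continuousAt
    exact this.eventually (gt_mem_nhds (by linarith))
  have h3 := h1.frequently h2
  obtain ⟨N, hN⟩ := exists_nat_gt (|z x| + 1)
  have h4 : ∀ᶠ n : ℕ in atTop, ¬ |u n x| < |z x| + 1 := by
    filter_upwards [eventually_ge_atTop N] with n hn
    have h5 := hM n
    have h6 : (N : ℝ) ≤ n := by exact_mod_cast hn
    linarith
  obtain ⟨n, hn1, hn2⟩ := (h3.and_eventually h4).exists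
  exact hn2 hn1

lemma isCompact_closure_of_cc
    (hcc : ∀ u : ℕ → Xt → ℝ, (∀ n, u n ∈ T) → ∃ z ∈ T, MapClusterPt z atTop u) :
    IsCompact (closure T) := by
  choose M hM using bounded_of_cc hcc
  have hK : IsCompact (Set.univ.pi fun x => Icc (-(M x)) (M x)) :=
    isCompact_univ_pi fun _ => isCompact_Icc
  refine hK.of_isClosed_subset isClosed_closure (closure_minimal ?_ hK.isClosed)
  intro g hg x _
  exact abs_le.1 (hM x g hg)

lemma approx_countable
    (hcc : ∀ u : ℕ → Xt → ℝ, (∀ n, u n ∈ T) → ∃ z ∈ T, MapClusterPt z atTop u)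
    {f : Xt → ℝ} (hf : f ∈ closure T) {B : Set Xt} (hB : B.Countable) :
    ∃ g ∈ T, g pt = f pt ∧ ∀ x ∈ B, g x = f x := by
  obtain ⟨e, he⟩ := (hB.insert pt).exists_eq_range (insert_nonempty pt B)
  let r : (Xt → ℝ) → (ℕ → ℝ) := fun h i => h (e i)
  have hr : Continuous r := by fun_prop
  have h1 : r f ∈ closure (r '' T) := image_closure_subset_closure_image hr ⟨f, hf, rfl⟩
  obtain ⟨v, hv, hlim⟩ := mem_closure_iff_seq_limit.1 h1
  choose u hu huv using hv
  obtain ⟨z, hzT, hz⟩ := hcc u hu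
  have h2 : ∀ i, z (e i) = f (e i) := by
    intro i
    refine eq_of_cluster_tendsto (mapClusterPt_apply hz (e i)) ?_
    have h3 := (tendsto_pi_nhds.1 hlim) i
    refine h3.congr fun n => ?_
    rw [← huv n]
  refine ⟨z, hzT, ?_, ?_⟩
  · have : pt ∈ range e := he ▸ mem_insert pt B
    obtain ⟨i, hi⟩ := this
    rw [← hi]
    exact h2 i
  · intro x hx
    have : x ∈ range e := he ▸ mem_insert_of_mem pt hx
    obtain ⟨i, hi⟩ := this
    rw [← hi]
    exact h2 i

lemma approx_aleph (hT : T ⊆ C) (hcl : closure T ∩ C ⊆ T)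
    (hcc : ∀ u : ℕ → Xt → ℝ, (∀ n, u n ∈ T) → ∃ z ∈ T, MapClusterPt z atTop u)
    {f : Xt → ℝ} (hf : f ∈ closure T) (n : ℕ) :
    ∀ B : Set Xt, #B ≤ ℵ_ (n : Ordinal.{0}) → ∃ g ∈ T, g pt = f pt ∧ ∀ x ∈ B, g x = f x := by
  induction n with
  | zero =>
    intro B hB
    have h0 : #B ≤ ℵ₀ := by simpa using hB
    exact approx_countable hcc hf (le_aleph0_iff_set_countable.1 h0)
  | succ n ih =>
    intro B hB
    set c : Cardinal.{0} := ℵ_ ((n + 1 : ℕ) : Ordinal.{0}) with hc
    have hcs : c = Order.succ (ℵ_ (n : Ordinal.{0})) := by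
      rw [hc, Nat.cast_succ, ← succ_aleph]
    have hreg : c.IsRegular := by
      rw [hcs]
      exact isRegular_succ (aleph0_le_aleph _)
    have hc0 : ℵ₀ < c := by
      rw [hcs]
      exact Order.lt_succ_iff.2 (aleph0_le_aleph _)
    let J : Type := c.ord.ToType
    have hJ : #J = c := mk_ord_toType c
    have hIic : ∀ j : J, #(Iic j) < c := by
      intro j
      have h1 : #(Iio j) < c := by
        have := mk_Iio_lt j (by simp [J])
        rwa [hJ] at this
      have h2 : (Iic j : Set J) ⊆ Iio j ∪ {j} := by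
        intro i hi
        rcases lt_or_eq_of_le (show i ≤ j from hi) with h | h
        · exact Or.inl h
        · exact Or.inr h
      refine ((mk_le_mk_of_subset h2).trans (mk_union_le _ _)).trans_lt ?_
      refine add_lt_of_lt hc0.le h1 ?_
      rw [mk_singleton]
      exact (one_lt_aleph0).trans hc0
    have hBJ : #B ≤ #J := by rw [hJ]; exact hB
    obtain ⟨e⟩ : Nonempty (B ↪ J) := hBJ
    let Bj : J → Set Xt := fun j => {x | ∃ h : x ∈ B, e ⟨x, h⟩ ≤ j}
    have hBj : ∀ j, #(Bj j) ≤ ℵ_ (n : Ordinal.{0}) := by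
      intro j
      have h1 : #(Bj j) ≤ #(Iic j) := by
        refine mk_le_of_injective (f := fun x : Bj j => (⟨e ⟨x.1, x.2.choose⟩,
          x.2.choose_spec⟩ : Iic j)) ?_
        intro x y hxy
        have h2 : e ⟨x.1, x.2.choose⟩ = e ⟨y.1, y.2.choose⟩ := congrArg Subtype.val hxy
        have h3 := e.injective h2
        exact Subtype.ext (congrArg (fun z : B => (z : Xt)) h3)
      have h2 := h1.trans_lt (hIic j)
      rw [hcs] at h2
      exact Order.lt_succ_iff.1 h2
    choose g hgT hgpt hgB using fun j => ih (Bj j) (hBj j)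
    -- the sizes of the level sets
    have hk : ∀ (j : J) (m : ℕ), ∃ k : ℕ,
        #{x | 1 / ((m : ℝ) + 1) ≤ |g j x - g j pt|} ≤ ℵ_ (k : Ordinal.{0}) := fun j m =>
      hT (hgT j) _ (by positivity)
    choose K hK using hk
    have step : ∀ (m : ℕ) (Γ : Set J), c ≤ #Γ →
        ∃ Γ' : Set J, Γ' ⊆ Γ ∧ c ≤ #Γ' ∧ ∃ k, ∀ j ∈ Γ', K j m = k := by
      intro m Γ hΓ
      obtain ⟨k, t, ht, hct, hkt⟩ := infinite_pigeonhole_set (fun j : Γ => K j.1 m) c hΓ hc0.le
        (by rw [hreg.cof_ord, mk_nat]; exact hc0)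
      exact ⟨t, ht, hct, k, fun j hj => hkt hj⟩
    choose! next hnext_sub hnext_card hnext_const using step
    let Γ : ℕ → Set J := fun m => Nat.rec Set.univ (fun m G => next m G) m
    have hΓ0 : Γ 0 = Set.univ := rfl
    have hΓs : ∀ m, Γ (m + 1) = next m (Γ m) := fun m => rfl
    have hΓc : ∀ m : ℕ, c ≤ #(↥(Γ m)) := by
      intro m
      induction m with
      | zero => rw [hΓ0, mk_univ, hJ]
      | succ m ihm => rw [hΓs]; exact hnext_card m _ ihm
    have hΓanti : Antitone Γ := by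
      refine antitone_nat_of_succ_le fun m => ?_
      rw [hΓs]
      exact hnext_sub m _ (hΓc m)
    have hΓne : ∀ (m : ℕ) (i : J), (Γ m ∩ Ici i).Nonempty := by
      intro m i
      by_contra hne
      rw [not_nonempty_iff_eq_empty] at hne
      have h1 : Γ m ⊆ Iic i := by
        intro j hj
        by_contra hji
        have h3 : i < j := not_le.1 (fun h => hji (mem_Iic.2 h))
        have h2 : j ∈ Γ m ∩ Ici i := ⟨hj, mem_Ici.2 h3.le⟩
        rw [hne] at h2
        exact h2
      exact absurd ((hΓc m).trans (mk_le_mk_of_subset h1)) (not_le.2 (hIic i))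
    -- a common cluster point
    have hKc := isCompact_closure_of_cc hcc
    have : Nonempty J := by
      have : #J ≠ 0 := by rw [hJ]; exact (aleph0_pos.trans hc0).ne'
      exact mk_ne_zero_iff.1 this
    obtain ⟨a, ha⟩ := IsCompact.nonempty_iInter_of_directed_nonempty_isCompact_isClosed
      (fun p : ℕ × J => closure (g '' (Γ p.1 ∩ Ici p.2)))
      (by
        rintro ⟨m, i⟩ ⟨m', i'⟩
        refine ⟨(max m m', max i i'), ?_, ?_⟩
        · exact closure_mono (image_mono (inter_subset_inter (hΓanti (le_max_left _ _))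
            (Ici_subset_Ici.2 (le_max_left _ _))))
        · exact closure_mono (image_mono (inter_subset_inter (hΓanti (le_max_right _ _))
            (Ici_subset_Ici.2 (le_max_right _ _)))))
      (fun p => ((hΓne p.1 p.2).image g).closure)
      (fun p => hKc.of_isClosed_subset isClosed_closure (closure_mono (by
        rintro _ ⟨j, -, rfl⟩
        exact hgT j)))
      (fun p => isClosed_closure)
    have ha' : ∀ m i, a ∈ closure (g '' (Γ m ∩ Ici i)) := fun m i =>
      mem_iInter.1 ha (m, i)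
    have hapt : a pt = f pt := by
      have hcl1 : IsClosed {h : Xt → ℝ | h pt = f pt} :=
        isClosed_eq (continuous_apply pt) continuous_const
      refine closure_minimal ?_ hcl1 (ha' 0 (Classical.arbitrary J))
      rintro _ ⟨j, -, rfl⟩
      exact hgpt j
    have haB : ∀ x ∈ B, a x = f x := by
      intro x hx
      have hcl1 : IsClosed {h : Xt → ℝ | h x = f x} :=
        isClosed_eq (continuous_apply x) continuous_const
      refine closure_minimal ?_ hcl1 (ha' 0 (e ⟨x, hx⟩))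
      rintro _ ⟨j, ⟨-, hj⟩, rfl⟩
      exact hgB j x ⟨hx, hj⟩
    have haC : a ∈ C := by
      intro ε hε
      obtain ⟨m, hm⟩ := exists_nat_one_div_lt hε
      obtain ⟨k, hkm⟩ := hnext_const m (Γ m) (hΓc m)
      have hsub : {x | ε ≤ |a x - a pt|} ⊆
          ⋃ j : Γ (m + 1), {x | 1 / ((m : ℝ) + 1) ≤ |g j x - g j pt|} := by
        intro x hx
        have hx' : ε ≤ |a x - a pt| := hx
        have hopen : IsOpen {h : Xt → ℝ | 1 / ((m : ℝ) + 1) < |h x - h pt|} :=
          isOpen_lt continuous_const (by fun_prop)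
        have hmem : a ∈ {h : Xt → ℝ | 1 / ((m : ℝ) + 1) < |h x - h pt|} := by
          show 1 / ((m : ℝ) + 1) < |a x - a pt|
          linarith
        obtain ⟨_, h1, ⟨j, ⟨hj, -⟩, rfl⟩⟩ := mem_closure_iff.1
          (ha' (m + 1) (Classical.arbitrary J)) _ hopen hmem
        have h1' : 1 / ((m : ℝ) + 1) < |g j x - g j pt| := h1
        exact mem_iUnion.2 ⟨⟨j, hj⟩, h1'.le⟩
      refine Small.mono hsub ?_
      refine ⟨max (n + 1) k, ?_⟩
      refine (mk_iUnion_le_sum_mk).trans ?_
      have h2 : ∀ j : Γ (m + 1), #{x | 1 / ((m : ℝ) + 1) ≤ |g j x - g j pt|} ≤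
          ℵ_ (k : Ordinal.{0}) := by
        intro j
        have h3 := hK j.1 m
        have h4 : K j.1 m = k := hkm j.1 j.2
        rw [h4] at h3
        exact h3
      refine (sum_le_sum _ _ h2).trans ?_
      rw [sum_const']
      have h5 : #(Γ (m + 1)) ≤ ℵ_ ((n + 1 : ℕ) : Ordinal.{0}) := by
        refine (mk_set_le _).trans ?_
        rw [hJ]
      calc #(Γ (m + 1)) * ℵ_ (k : Ordinal.{0})
          ≤ ℵ_ ((max (n + 1) k : ℕ) : Ordinal.{0}) * ℵ_ ((max (n + 1) k : ℕ) : Ordinal.{0}) :=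
            mul_le_mul' (h5.trans (aleph_mono_nat (le_max_left _ _)))
              (aleph_mono_nat (le_max_right _ _))
        _ = ℵ_ ((max (n + 1) k : ℕ) : Ordinal.{0}) := mul_eq_self (aleph0_le_aleph _)
    have haT : a ∈ closure T := by
      refine closure_mono ?_ (ha' 0 (Classical.arbitrary J))
      rintro _ ⟨j, -, rfl⟩
      exact hgT j
    exact ⟨a, hcl ⟨haT, haC⟩, hapt, haB⟩

lemma closure_subset_C (hT : T ⊆ C) (hcl : closure T ∩ C ⊆ T)
    (hcc : ∀ u : ℕ → Xt → ℝ, (∀ n, u n ∈ T) → ∃ z ∈ T, MapClusterPt z atTop u) :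
    closure T ⊆ C := by
  intro f hf
  by_contra hfC
  have h1 : ∃ ε > 0, ¬ Small {x | ε ≤ |f x - f pt|} := by
    by_contra hcon
    push Not at hcon
    exact hfC hcon
  obtain ⟨ε, hε, hY⟩ := h1
  have h2 : ∀ n : ℕ, ∃ B : Set Xt, B ⊆ {x | ε ≤ |f x - f pt|} ∧ #B = ℵ_ (n : Ordinal.{0}) := by
    intro n
    have h3 : ℵ_ (n : Ordinal.{0}) ≤ #{x | ε ≤ |f x - f pt|} := by
      by_contra hlt
      exact hY ⟨n, (not_le.1 hlt).le⟩
    exact le_mk_iff_exists_subset.1 h3
  choose B hBsub hBcard using h2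
  -- finite unions
  have hU : ∀ n : ℕ, Small (⋃ i ∈ Finset.range (n + 1), B i) := by
    intro n
    induction n with
    | zero =>
      have h0 : (⋃ i ∈ Finset.range (0 + 1), B i) = B 0 := by simp
      rw [h0]
      exact ⟨0, (hBcard 0).le⟩
    | succ n ihn =>
      rw [Finset.range_add_one, Finset.set_biUnion_insert]
      exact Small.union ⟨n + 1, (hBcard (n + 1)).le⟩ ihn
  have h4 : ∀ n : ℕ, ∃ g ∈ T, g pt = f pt ∧ ∀ x ∈ ⋃ i ∈ Finset.range (n + 1), B i, g x = f x := by
    intro n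
    obtain ⟨m, hm⟩ := hU n
    exact approx_aleph hT hcl hcc hf m _ hm
  choose g hgT hgpt hgB using h4
  obtain ⟨z, hzT, hz⟩ := hcc g hgT
  have hzpt : z pt = f pt := eq_of_cluster_const (mapClusterPt_apply hz pt) 0 fun n _ => hgpt n
  have hzB : ∀ i, ∀ x ∈ B i, z x = f x := by
    intro i x hx
    refine eq_of_cluster_const (mapClusterPt_apply hz x) i fun n hn => ?_
    refine hgB n x ?_
    simp only [mem_iUnion]
    exact ⟨i, Finset.mem_range.2 (Nat.lt_succ_of_le hn), hx⟩
  refine not_small_of (B := {x | ε ≤ |z x - z pt|}) (fun n => ?_) (hT hzT ε hε)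
  rw [← hBcard n]
  refine mk_le_mk_of_subset fun x hx => ?_
  show ε ≤ |z x - z pt|
  rw [hzB n x hx, hzpt]
  exact hBsub n hx

theorem isCompact_of_cc (hT : T ⊆ C) (hcl : closure T ∩ C ⊆ T)
    (hcc : ∀ u : ℕ → Xt → ℝ, (∀ n, u n ∈ T) → ∃ z ∈ T, MapClusterPt z atTop u) :
    IsCompact T := by
  have h1 : closure T ⊆ T := fun f hf => hcl ⟨hf, closure_subset_C hT hcl hcc hf⟩
  have h2 : closure T = T := subset_antisymm h1 subset_closure
  rw [← h2]
  exact isCompact_closure_of_cc hcc

end main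

section final

lemma mem_C_iff {f : Xt → ℝ} : f ∈ C ↔ Continuous f := continuous_iff.symm

/-- `C_p(Xt)` is isocompact. -/
theorem isocompact (S : Set {f : Xt → ℝ // Continuous f}) (hS : IsClosed S)
    (hcc : ∀ u : ℕ → {f : Xt → ℝ // Continuous f}, (∀ n, u n ∈ S) →
      ∃ z ∈ S, MapClusterPt z Filter.atTop u) : IsCompact S := by
  rw [Subtype.isCompact_iff]
  apply isCompact_of_cc
  · rintro _ ⟨f, -, rfl⟩
    exact mem_C_iff.2 f.2
  · rintro f ⟨hf, hfC⟩
    have hc : Continuous f := mem_C_iff.1 hfC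
    have h1 : (⟨f, hc⟩ : {f : Xt → ℝ // Continuous f}) ∈ closure S := by
      rw [closure_subtype]
      exact hf
    rw [hS.closure_eq] at h1
    exact ⟨_, h1, rfl⟩
  · intro u hu
    choose v hv hvu using hu
    obtain ⟨z, hzS, hz⟩ := hcc v hv
    refine ⟨z.1, ⟨z, hzS, rfl⟩, ?_⟩
    have h1 := hz.continuousAt_comp (f := fun g : {f : Xt → ℝ // Continuous f} => g.1)
      continuous_subtype_val.continuousAt
    have h2 : (fun g : {f : Xt → ℝ // Continuous f} => g.1) ∘ v = u := by
      funext n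
      exact hvu n
    rwa [h2] at h1

/-- The characteristic functions of countable sets avoiding `pt`. -/
def A : Set {f : Xt → ℝ // Continuous f} :=
  {f | ∃ B : Set Xt, B.Countable ∧ pt ∉ B ∧ f.1 = B.indicator (fun _ => 1)}

lemma mem_C_of_support {f : Xt → ℝ} {U : Set Xt} (hU : U.Countable) (hpt : pt ∉ U)
    (hf : ∀ x ∉ U, f x = 0) : f ∈ C := by
  intro ε hε
  refine Small.mono (fun x hx => ?_) (small_of_countable hU)
  by_contra hxU
  have hx' : ε ≤ |f x - f pt| := hx
  rw [hf x hxU, hf pt hpt] at hx'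
  simp at hx'
  linarith

theorem A_cc (u : ℕ → {f : Xt → ℝ // Continuous f}) (hu : ∀ n, u n ∈ A) :
    ∃ z, MapClusterPt z Filter.atTop u := by
  classical
  choose B hBc hBpt hB using hu
  have hUc : (⋃ n, B n).Countable := countable_iUnion hBc
  have hUpt : pt ∉ ⋃ n, B n := by
    simp only [mem_iUnion, not_exists]
    exact hBpt
  let W : Xt → Set ℝ := fun x => if x ∈ ⋃ n, B n then Icc 0 1 else {0}
  have hWpos : ∀ x, x ∈ ⋃ n, B n → W x = Icc 0 1 := fun x hx => if_pos hx
  have hWneg : ∀ x, x ∉ ⋃ n, B n → W x = {0} := fun x hx => if_neg hx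
  let K : Set (Xt → ℝ) := Set.univ.pi W
  have hK : IsCompact K := by
    refine isCompact_univ_pi fun x => ?_
    by_cases hx : x ∈ ⋃ n, B n
    · rw [hWpos x hx]; exact isCompact_Icc
    · rw [hWneg x hx]; exact isCompact_singleton
  have hKC : ∀ f ∈ K, Continuous f := by
    intro f hf
    refine mem_C_iff.1 (mem_C_of_support hUc hUpt fun x hx => ?_)
    have h1 := hf x (mem_univ x)
    rw [hWneg x hx] at h1
    exact h1
  have hK' : IsCompact {f : {f : Xt → ℝ // Continuous f} | f.1 ∈ K} := by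
    rw [Subtype.isCompact_iff]
    have : Subtype.val '' {f : {f : Xt → ℝ // Continuous f} | f.1 ∈ K} = K := by
      ext f
      constructor
      · rintro ⟨g, hg, rfl⟩
        exact hg
      · intro hf
        exact ⟨⟨f, hKC f hf⟩, hf, rfl⟩
    rw [this]
    exact hK
  have huK : ∀ n, u n ∈ {f : {f : Xt → ℝ // Continuous f} | f.1 ∈ K} := by
    intro n x _
    show (u n).1 x ∈ W x
    rw [hB n]
    by_cases hxB : x ∈ B n
    · have hx : x ∈ ⋃ n, B n := mem_iUnion.2 ⟨n, hxB⟩
      rw [indicator_of_mem hxB, hWpos x hx]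
      exact ⟨zero_le_one, le_rfl⟩
    · rw [indicator_of_notMem hxB]
      by_cases hx : x ∈ ⋃ n, B n
      · rw [hWpos x hx]
        exact ⟨le_rfl, zero_le_one⟩
      · rw [hWneg x hx]
        exact mem_singleton 0
  obtain ⟨z, -, hz⟩ := hK'.exists_clusterPt (f := map u atTop)
    (le_principal_iff.2 (Filter.mem_map.2 (Filter.Eventually.of_forall huK)))
  exact ⟨z, hz⟩

theorem A_not_compact : ¬ IsCompact (closure A) := by
  classical
  intro hcomp
  have h1 : IsCompact (Subtype.val '' (closure A)) := Subtype.isCompact_iff.1 hcomp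
  have h2 : IsClosed (Subtype.val '' (closure A)) := h1.isClosed
  let χ : Xt → ℝ := ({pt}ᶜ : Set Xt).indicator (fun _ => 1)
  have h3 : χ ∈ closure (Subtype.val '' (closure A)) := by
    have ht : Tendsto (fun s : Finset Xt => ((s : Set Xt) \ {pt}).indicator (fun _ => (1 : ℝ)))
        atTop (𝓝 χ) := by
      rw [tendsto_pi_nhds]
      intro x
      refine tendsto_const_nhds.congr' ?_
      filter_upwards [eventually_ge_atTop ({x} : Finset Xt)] with s hs
      have hxs : x ∈ s := hs (Finset.mem_singleton_self x)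
      by_cases hx : x = pt
      · simp [χ, hx]
      · simp [χ, hx, hxs]
    refine mem_closure_of_tendsto ht (Filter.Eventually.of_forall fun s => ?_)
    have hc : ((s : Set Xt) \ {pt}).Countable := s.countable_toSet.mono sdiff_subset
    have hp : pt ∉ (s : Set Xt) \ {pt} := fun h => h.2 rfl
    have hcont : Continuous (((s : Set Xt) \ {pt}).indicator (fun _ => (1 : ℝ))) :=
      mem_C_iff.1 (mem_C_of_support hc hp fun x hx => indicator_of_notMem hx _)
    exact ⟨⟨_, hcont⟩, subset_closure ⟨_, hc, hp, rfl⟩, rfl⟩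
  rw [h2.closure_eq] at h3
  obtain ⟨g, -, hg⟩ := h3
  have h4 : χ ∈ C := by
    rw [← hg]
    exact mem_C_iff.2 g.2
  have h5 := h4 1 one_pos
  refine not_small_of (B := {x : Xt | x ≠ pt}) aleph_le_of_range_some (Small.mono ?_ h5)
  intro x hx
  show (1 : ℝ) ≤ |χ x - χ pt|
  have hx' : x ≠ pt := hx
  simp [χ, hx']

end final

end Pool.Agent.Lib_helper76.Isocompact
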