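import Mathlib

/-!
Volumes of Minkowski sums of segments and triangles with compact convex sets, by dissection.
-/

open MeasureTheory Set Metric
open scoped Pointwise

set_option linter.unusedSectionVars false

namespace Pool.Agent.Lib_helper76.Steiner

variable {E : Type*} [NormedAddCommGroup E] [NormedSpace ℝ E] [MeasurableSpace E] [BorelSpace E]
  [FiniteDimensional ℝ E] (μ : Measure E) [μ.IsAddHaarMeasure]

/-- Compact convex sets. -/
structure CC {F : Type*} [NormedAddCommGroup F] [NormedSpace ℝ F] (L : Set F) : Prop where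
  comp : IsCompact L
  conv : Convex ℝ L

lemma CC.add {F : Type*} [NormedAddCommGroup F] [NormedSpace ℝ F] {K L : Set F}
    (hK : CC K) (hL : CC L) : CC (K + L) :=
  ⟨hK.comp.add hL.comp, hK.conv.add hL.conv⟩

lemma CC.image {F G : Type*} [NormedAddCommGroup F] [NormedSpace ℝ F] [NormedAddCommGroup G]
    [NormedSpace ℝ G] (M : F →L[ℝ] G) {K : Set F} (hK : CC K) : CC (M '' K) :=
  ⟨hK.comp.image M.continuous, hK.conv.linear_image M.toLinearMap⟩

lemma real_translate (w : E) (A : Set E) : μ.real ({w} + A) = μ.real A := by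
  rw [singleton_add, image_add_left, measureReal_def, measure_preimage_add, measureReal_def]

/-- The basic valuation identity: cutting a compact convex set `U` by a hyperplane. -/
lemma val {F : Type*} [NormedAddCommGroup F] [NormedSpace ℝ F] (M : F →L[ℝ] E) (f : F →L[ℝ] ℝ)
    (c : ℝ) {U : Set F} (hU : CC U) {L : Set E} (hL : CC L) :
    μ.real (M '' U + L) + μ.real (M '' (U ∩ {x | f x = c}) + L) =
      μ.real (M '' (U ∩ {x | f x ≤ c}) + L) + μ.real (M '' (U ∩ {x | c ≤ f x}) + L) := by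
  set X := M '' (U ∩ {x | f x ≤ c}) + L with hX
  set Y := M '' (U ∩ {x | c ≤ f x}) + L with hY
  have hcX : IsCompact X := by
    refine ((hU.comp.inter_right ?_).image M.continuous).add hL.comp
    exact isClosed_le f.continuous continuous_const
  have hcY : IsCompact Y := by
    refine ((hU.comp.inter_right ?_).image M.continuous).add hL.comp
    exact isClosed_le continuous_const f.continuous
  have h1 : M '' U + L = X ∪ Y := by
    rw [hX, hY, ← union_add, ← image_union]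
    congr 2
    ext x
    constructor
    · intro hx
      rcases le_total (f x) c with h | h
      · exact Or.inl ⟨hx, h⟩
      · exact Or.inr ⟨hx, h⟩
    · rintro (⟨hx, -⟩ | ⟨hx, -⟩) <;> exact hx
  have h2 : M '' (U ∩ {x | f x = c}) + L = X ∩ Y := by
    apply subset_antisymm
    · rintro _ ⟨_, ⟨u, ⟨hu, huc⟩, rfl⟩, l, hl, rfl⟩
      have huc' : f u = c := huc
      exact ⟨⟨M u, ⟨u, ⟨hu, huc'.le⟩, rfl⟩, l, hl, rfl⟩, ⟨M u, ⟨u, ⟨hu, huc'.ge⟩, rfl⟩, l, hl, rfl⟩⟩
    · rintro z ⟨⟨_, ⟨u, ⟨hu, huc⟩, rfl⟩, l, hl, hz⟩, ⟨_, ⟨u', ⟨hu', huc'⟩, rfl⟩, l', hl', hz'⟩⟩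
      have huc1 : f u ≤ c := huc
      have huc2 : c ≤ f u' := huc'
      have hz1 : M u + l = z := hz
      have hz2 : M u' + l' = z := hz'
      -- choose the parameter
      obtain ⟨t, ht0, ht1, htc⟩ : ∃ t : ℝ, 0 ≤ t ∧ t ≤ 1 ∧ (1 - t) * f u + t * f u' = c := by
        rcases eq_or_lt_of_le (huc1.trans huc2) with h | h
        · exact ⟨0, le_rfl, zero_le_one, by linarith⟩
        · refine ⟨(c - f u) / (f u' - f u), div_nonneg (by linarith) (by linarith), ?_, ?_⟩
          · rw [div_le_one (by linarith)]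
            linarith
          · have : f u' - f u ≠ 0 := by linarith
            field_simp
            ring
      refine ⟨M ((1 - t) • u + t • u'), ⟨(1 - t) • u + t • u', ⟨?_, ?_⟩, rfl⟩,
        (1 - t) • l + t • l', ?_, ?_⟩
      · exact hU.conv hu hu' (by linarith) ht0 (by ring)
      · show f ((1 - t) • u + t • u') = c
        rw [map_add, map_smul, map_smul, smul_eq_mul, smul_eq_mul]
        exact htc
      · exact hL.conv hl hl' (by linarith) ht0 (by ring)
      · show M ((1 - t) • u + t • u') + ((1 - t) • l + t • l') = z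
        rw [map_add, map_smul, map_smul]
        have e1 : l = z - M u := by rw [← hz1]; abel
        have e2 : l' = z - M u' := by rw [← hz2]; abel
        rw [e1, e2, smul_sub, smul_sub]
        have : (1 - t) • z + t • z = z := by rw [← add_smul]; simp
        calc (1 - t) • M u + t • M u' + ((1 - t) • z - (1 - t) • M u + (t • z - t • M u'))
            = (1 - t) • z + t • z := by abel
          _ = z := this
  rw [h1, h2]
  exact measureReal_union_add_inter hcY.measurableSet (hcX.measure_lt_top.ne)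
    (hcY.measure_lt_top.ne)

/-- Segments. -/
def sg (v : E) (s : ℝ) : Set E := (fun r : ℝ => r • v) '' Icc 0 s

/-- Triangles. -/
def tri (a b : E) (s : ℝ) : Set E :=
  (fun z : ℝ × ℝ => z.1 • a + z.2 • b) '' {z | 0 ≤ z.1 ∧ 0 ≤ z.2 ∧ z.1 + z.2 ≤ s}

/-- The linear map `(p,q) ↦ p a + q b`. -/
noncomputable def M2 (a b : E) : (ℝ × ℝ) →L[ℝ] E :=
  (ContinuousLinearMap.toSpanSingleton ℝ a).comp (ContinuousLinearMap.fst ℝ ℝ ℝ) +
    (ContinuousLinearMap.toSpanSingleton ℝ b).comp (ContinuousLinearMap.snd ℝ ℝ ℝ)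

lemma M2_apply (a b : E) (z : ℝ × ℝ) : M2 a b z = z.1 • a + z.2 • b := by
  simp [M2]

lemma M2_coe (a b : E) : (M2 a b : ℝ × ℝ → E) = fun z => z.1 • a + z.2 • b := by
  funext z
  exact M2_apply a b z

lemma cc_Icc (s t : ℝ) : CC (Icc s t) := ⟨isCompact_Icc, convex_Icc s t⟩

lemma cc_sg (v : E) (s : ℝ) : CC (sg v s) :=
  (cc_Icc 0 s).image (ContinuousLinearMap.toSpanSingleton ℝ v)

lemma cc_simplex (s : ℝ) : CC {z : ℝ × ℝ | 0 ≤ z.1 ∧ 0 ≤ z.2 ∧ z.1 + z.2 ≤ s} := by
  constructor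
  · refine (isCompact_Icc (a := ((0 : ℝ), (0 : ℝ))) (b := (s, s))).of_isClosed_subset ?_ ?_
    · exact (isClosed_le continuous_const continuous_fst).inter
        ((isClosed_le continuous_const continuous_snd).inter
          (isClosed_le (continuous_fst.add continuous_snd) continuous_const))
    · rintro ⟨p, q⟩ ⟨h1, h2, h3⟩
      simp only at h1 h2 h3
      exact ⟨⟨h1, h2⟩, ⟨by simp only; linarith, by simp only; linarith⟩⟩
  · rintro ⟨p, q⟩ ⟨h1, h2, h3⟩ ⟨p', q'⟩ ⟨h1', h2', h3'⟩ α β hα hβ hαβ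
    simp only at h1 h2 h3 h1' h2' h3'
    refine ⟨?_, ?_, ?_⟩
    · show 0 ≤ α * p + β * p'
      positivity
    · show 0 ≤ α * q + β * q'
      positivity
    · show α * p + β * p' + (α * q + β * q') ≤ s
      have : α * (p + q) + β * (p' + q') ≤ α * s + β * s := by gcongr
      have h4 : α * s + β * s = s := by rw [← add_mul, hαβ, one_mul]
      linarith

lemma cc_tri (a b : E) (s : ℝ) : CC (tri a b s) := by
  have := (cc_simplex s).image (M2 a b)
  rwa [M2_coe] at this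

lemma singleton_add_eq_image (w : E) (A : Set E) : {w} + A = (fun x => w + x) '' A :=
  singleton_add

/-- Segment additivity. -/
lemma sg_add_vol (v : E) {s s' : ℝ} (hs : 0 ≤ s) (hs' : 0 ≤ s') {L : Set E} (hL : CC L) :
    μ.real (sg v (s + s') + L) + μ.real L = μ.real (sg v s + L) + μ.real (sg v s' + L) := by
  have h := val μ (ContinuousLinearMap.toSpanSingleton ℝ v) (ContinuousLinearMap.id ℝ ℝ) s
    (cc_Icc 0 (s + s')) hL
  have e0 : (ContinuousLinearMap.toSpanSingleton ℝ v) '' (Icc 0 (s + s')) = sg v (s + s') := rfl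
  have e1 : (ContinuousLinearMap.toSpanSingleton ℝ v) ''
      (Icc 0 (s + s') ∩ {x | ContinuousLinearMap.id ℝ ℝ x = s}) = {s • v} := by
    ext x
    constructor
    · rintro ⟨r, ⟨-, hr⟩, rfl⟩
      have hr' : r = s := hr
      rw [hr']
      rfl
    · intro hx
      have hx' : x = s • v := hx
      refine ⟨s, ⟨⟨hs, by linarith⟩, rfl⟩, hx'.symm⟩
  have e2 : (ContinuousLinearMap.toSpanSingleton ℝ v) ''
      (Icc 0 (s + s') ∩ {x | ContinuousLinearMap.id ℝ ℝ x ≤ s}) = sg v s := by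
    have : (Icc 0 (s + s') ∩ {x | ContinuousLinearMap.id ℝ ℝ x ≤ s}) = Icc 0 s := by
      ext r
      constructor
      · rintro ⟨⟨h1, -⟩, h2⟩
        exact ⟨h1, h2⟩
      · rintro ⟨h1, h2⟩
        exact ⟨⟨h1, by linarith⟩, h2⟩
    rw [this]
    rfl
  have e3 : (ContinuousLinearMap.toSpanSingleton ℝ v) ''
      (Icc 0 (s + s') ∩ {x | s ≤ ContinuousLinearMap.id ℝ ℝ x}) = {s • v} + sg v s' := by
    rw [singleton_add_eq_image]
    ext x
    constructor
    · rintro ⟨r, ⟨⟨-, h1⟩, h2⟩, rfl⟩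
      have h2' : s ≤ r := h2
      refine ⟨(r - s) • v, ⟨r - s, ⟨by linarith, by linarith⟩, rfl⟩, ?_⟩
      show s • v + (r - s) • v = r • v
      rw [← add_smul]
      congr 1
      ring
    · rintro ⟨_, ⟨r, ⟨h1, h2⟩, rfl⟩, rfl⟩
      refine ⟨s + r, ⟨⟨by linarith, by linarith⟩, ?_⟩, ?_⟩
      · show s ≤ s + r
        linarith
      · show (s + r) • v = s • v + r • v
        rw [add_smul]
  rw [e0, e1, e2, e3, real_translate, add_assoc, real_translate] at h
  exact h

/-- Additive monotone functions on `[0,∞)` are linear. -/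
lemma linear_of_additive_mono {f : ℝ → ℝ} (hadd : ∀ x y, 0 ≤ x → 0 ≤ y → f (x + y) = f x + f y)
    (hmono : ∀ x y, 0 ≤ x → x ≤ y → f x ≤ f y) (x : ℝ) (hx : 0 ≤ x) : f x = x * f 1 := by
  have h0 : f 0 = 0 := by
    have := hadd 0 0 le_rfl le_rfl
    rw [add_zero] at this
    linarith
  have hn : ∀ (n : ℕ) (y : ℝ), 0 ≤ y → f (n * y) = n * f y := by
    intro n y hy
    induction n with
    | zero => simp [h0]
    | succ n ih =>
      push_cast
      rw [add_mul, one_mul, hadd _ _ (by positivity) hy, ih]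
      ring
  have h1 : 0 ≤ f 1 := by
    have := hmono 0 1 le_rfl zero_le_one
    linarith
  have key : ∀ n : ℕ, (n : ℝ) * |f x - x * f 1| ≤ f 1 := by
    intro n
    set m := ⌊(n : ℝ) * x⌋₊ with hm
    have hnx : 0 ≤ (n : ℝ) * x := by positivity
    have h2 : (m : ℝ) ≤ n * x := Nat.floor_le hnx
    have h3 : (n : ℝ) * x < m + 1 := Nat.lt_floor_add_one _
    have h4 : (m : ℝ) * f 1 ≤ n * f x := by
      have := hmono (m * 1) (n * x) (by positivity) (by linarith)
      rwa [hn m 1 zero_le_one, hn n x hx] at this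
    have h5 : (n : ℝ) * f x ≤ (m + 1) * f 1 := by
      have := hmono (n * x) ((m + 1 : ℕ) * 1) (by positivity) (by push_cast; linarith)
      rw [hn (m + 1) 1 zero_le_one, hn n x hx] at this
      push_cast at this
      exact this
    have h6 : (n : ℝ) * |f x - x * f 1| = |n * f x - n * x * f 1| := by
      rw [← abs_of_nonneg (show (0 : ℝ) ≤ n by positivity), ← abs_mul]
      congr 1
      rw [abs_of_nonneg (show (0 : ℝ) ≤ n by positivity)]
      ring
    rw [h6, abs_le]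
    constructor <;> nlinarith
  by_contra hne
  have hpos : 0 < |f x - x * f 1| := abs_pos.2 (sub_ne_zero.2 hne)
  obtain ⟨n, hn'⟩ := exists_nat_gt (f 1 / |f x - x * f 1|)
  rw [div_lt_iff₀ hpos] at hn'
  linarith [key n]

lemma sg_mono (v : E) {s s' : ℝ} (h : s ≤ s') : sg v s ⊆ sg v s' :=
  image_mono (Icc_subset_Icc_right h)

lemma tri_mono (a b : E) {s s' : ℝ} (h : s ≤ s') : tri a b s ⊆ tri a b s' := by
  rintro _ ⟨z, ⟨h1, h2, h3⟩, rfl⟩
  exact ⟨z, ⟨h1, h2, h3.trans h⟩, rfl⟩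

lemma real_mono {A B : Set E} (h : A ⊆ B) (hB : CC B) : μ.real A ≤ μ.real B :=
  measureReal_mono h hB.comp.measure_lt_top.ne

lemma sg_zero (v : E) : sg v 0 = {0} := by
  ext x
  constructor
  · rintro ⟨r, ⟨h1, h2⟩, rfl⟩
    have : r = 0 := le_antisymm h2 h1
    simp [this]
  · intro hx
    exact ⟨0, ⟨le_rfl, le_rfl⟩, by rw [mem_singleton_iff.1 hx]; simp⟩

lemma tri_zero (a b : E) : tri a b 0 = {0} := by
  ext x
  constructor
  · rintro ⟨⟨p, q⟩, ⟨h1, h2, h3⟩, rfl⟩
    simp only at h1 h2 h3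
    have e1 : p = 0 := by linarith
    have e2 : q = 0 := by linarith
    simp [e1, e2]
  · intro hx
    refine ⟨(0, 0), ⟨le_rfl, le_rfl, by simp⟩, ?_⟩
    rw [mem_singleton_iff.1 hx]
    simp

/-- first difference -/
noncomputable def d1 (v : E) (L : Set E) : ℝ := μ.real (sg v 1 + L) - μ.real L

/-- second difference -/
noncomputable def d2 (v w : E) (L : Set E) : ℝ :=
  μ.real (sg v 1 + (sg w 1 + L)) - μ.real (sg v 1 + L) - μ.real (sg w 1 + L) + μ.real L

lemma seg_formula (v : E) {s : ℝ} (hs : 0 ≤ s) {L : Set E} (hL : CC L) :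
    μ.real (sg v s + L) = μ.real L + s * d1 μ v L := by
  have := linear_of_additive_mono (f := fun s => μ.real (sg v s + L) - μ.real L) ?_ ?_ s hs
  · unfold d1
    linarith
  · intro x y hx hy
    have := sg_add_vol μ v hx hy hL
    linarith
  · intro x y hx hxy
    have := real_mono μ (add_subset_add_right (sg_mono v hxy)) ((cc_sg v y).add hL)
    linarith

lemma seg2_formula (v w : E) {s t : ℝ} (hs : 0 ≤ s) (ht : 0 ≤ t) {L : Set E} (hL : CC L) :
    μ.real (sg v s + (sg w t + L)) =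
      μ.real L + s * d1 μ v L + t * d1 μ w L + s * t * d2 μ v w L := by
  have hsw : ∀ t, sg v 1 + (sg w t + L) = sg w t + (sg v 1 + L) := fun t => by
    rw [← add_assoc, add_comm (sg v 1), add_assoc]
  rw [seg_formula μ v hs ((cc_sg w t).add hL)]
  unfold d1
  rw [hsw t, seg_formula μ w ht ((cc_sg v 1).add hL), seg_formula μ w ht hL]
  unfold d1 d2
  rw [hsw 1]
  ring

/-- Cutting off a triangle. -/
lemma tri_cut (a b : E) {s t : ℝ} (hs : 0 ≤ s) (ht : 0 ≤ t) {L : Set E} (hL : CC L) :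
    μ.real (tri a b (s + t) + L) + μ.real (sg (b - a) s + L) + μ.real (sg a t + L) =
      μ.real (tri a b s + L) + μ.real (tri a b t + L) +
        μ.real (sg (b - a) s + (sg a t + L)) := by
  -- first cut
  have h1 := val μ (M2 a b)
    (ContinuousLinearMap.fst ℝ ℝ ℝ + ContinuousLinearMap.snd ℝ ℝ ℝ) s (cc_simplex (s + t)) hL
  have e1 : (M2 a b) '' {z : ℝ × ℝ | 0 ≤ z.1 ∧ 0 ≤ z.2 ∧ z.1 + z.2 ≤ s + t} =
      tri a b (s + t) := by rw [M2_coe]; rfl
  have e2 : (M2 a b) '' ({z : ℝ × ℝ | 0 ≤ z.1 ∧ 0 ≤ z.2 ∧ z.1 + z.2 ≤ s + t} ∩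
      {x | (ContinuousLinearMap.fst ℝ ℝ ℝ + ContinuousLinearMap.snd ℝ ℝ ℝ) x = s}) =
      {s • a} + sg (b - a) s := by
    rw [singleton_add_eq_image]
    ext x
    constructor
    · rintro ⟨⟨p, q⟩, ⟨⟨h1, h2, -⟩, h4⟩, rfl⟩
      have h4' : p + q = s := h4
      simp only at h1 h2
      refine ⟨q • (b - a), ⟨q, ⟨h2, by linarith⟩, rfl⟩, ?_⟩
      rw [M2_apply]
      show s • a + q • (b - a) = p • a + q • b
      rw [← h4', add_smul, smul_sub]
      abel
    · rintro ⟨_, ⟨q, ⟨h1, h2⟩, rfl⟩, rfl⟩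
      refine ⟨(s - q, q), ⟨⟨by simp only; linarith, h1, by simp only; linarith⟩, ?_⟩, ?_⟩
      · show (s - q) + q = s
        ring
      · rw [M2_apply]
        show (s - q) • a + q • b = s • a + q • (b - a)
        rw [sub_smul, smul_sub]
        abel
  have e3 : (M2 a b) '' ({z : ℝ × ℝ | 0 ≤ z.1 ∧ 0 ≤ z.2 ∧ z.1 + z.2 ≤ s + t} ∩
      {x | (ContinuousLinearMap.fst ℝ ℝ ℝ + ContinuousLinearMap.snd ℝ ℝ ℝ) x ≤ s}) =
      tri a b s := by
    rw [M2_coe]
    unfold tri
    congr 1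
    ext ⟨p, q⟩
    constructor
    · rintro ⟨⟨h1, h2, -⟩, h4⟩
      exact ⟨h1, h2, h4⟩
    · rintro ⟨h1, h2, h3⟩
      exact ⟨⟨h1, h2, h3.trans (by linarith)⟩, h3⟩
  rw [e1, e2, e3, add_assoc, real_translate] at h1
  -- second cut
  set Z : Set (ℝ × ℝ) := {z : ℝ × ℝ | 0 ≤ z.1 ∧ 0 ≤ z.2 ∧ z.1 + z.2 ≤ s + t} ∩
      {x | s ≤ (ContinuousLinearMap.fst ℝ ℝ ℝ + ContinuousLinearMap.snd ℝ ℝ ℝ) x} with hZ
  have hZcc : CC Z := by
    refine ⟨(cc_simplex (s + t)).comp.inter_right ?_, (cc_simplex (s + t)).conv.inter ?_⟩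
    · exact isClosed_le continuous_const (ContinuousLinearMap.continuous _)
    · exact convex_halfSpace_ge
        (ContinuousLinearMap.fst ℝ ℝ ℝ + ContinuousLinearMap.snd ℝ ℝ ℝ).toLinearMap.isLinear s
  have h2 := val μ (M2 a b) (ContinuousLinearMap.snd ℝ ℝ ℝ) s hZcc hL
  have f2 : (M2 a b) '' (Z ∩ {x | (ContinuousLinearMap.snd ℝ ℝ ℝ) x = s}) =
      {s • b} + sg a t := by
    rw [singleton_add_eq_image]
    ext x
    constructor
    · rintro ⟨⟨p, q⟩, ⟨⟨⟨h1, h2, h3⟩, h4⟩, h5⟩, rfl⟩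
      have h5' : q = s := h5
      simp only at h1 h2 h3
      refine ⟨p • a, ⟨p, ⟨h1, by linarith⟩, rfl⟩, ?_⟩
      rw [M2_apply]
      show s • b + p • a = p • a + q • b
      rw [h5']
      abel
    · rintro ⟨_, ⟨p, ⟨h1, h2⟩, rfl⟩, rfl⟩
      refine ⟨(p, s), ⟨⟨⟨h1, hs, by simp only; linarith⟩, ?_⟩, rfl⟩, ?_⟩
      · show s ≤ p + s
        linarith
      · rw [M2_apply]
        show p • a + s • b = s • b + p • a
        abel
  have f3 : (M2 a b) '' (Z ∩ {x | (ContinuousLinearMap.snd ℝ ℝ ℝ) x ≤ s}) =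
      {s • a} + (sg (b - a) s + sg a t) := by
    rw [singleton_add_eq_image]
    ext x
    constructor
    · rintro ⟨⟨p, q⟩, ⟨⟨⟨h1, h2, h3⟩, h4⟩, h5⟩, rfl⟩
      have h4' : s ≤ p + q := h4
      have h5' : q ≤ s := h5
      simp only at h1 h2 h3
      refine ⟨q • (b - a) + (p + q - s) • a, ⟨q • (b - a), ⟨q, ⟨h2, h5'⟩, rfl⟩,
        (p + q - s) • a, ⟨p + q - s, ⟨by linarith, by linarith⟩, rfl⟩, rfl⟩, ?_⟩
      rw [M2_apply]
      show s • a + (q • (b - a) + (p + q - s) • a) = p • a + q • b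
      module
    · rintro ⟨_, ⟨_, ⟨q, ⟨h1, h2⟩, rfl⟩, _, ⟨r, ⟨h3, h4⟩, rfl⟩, rfl⟩, rfl⟩
      refine ⟨(s - q + r, q), ⟨⟨⟨by simp only; linarith, h1, by simp only; linarith⟩, ?_⟩, h2⟩, ?_⟩
      · show s ≤ (s - q + r) + q
        linarith
      · rw [M2_apply]
        show (s - q + r) • a + q • b = s • a + (q • (b - a) + r • a)
        module
  have f4 : (M2 a b) '' (Z ∩ {x | s ≤ (ContinuousLinearMap.snd ℝ ℝ ℝ) x}) =
      {s • b} + tri a b t := by
    rw [singleton_add_eq_image]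
    ext x
    constructor
    · rintro ⟨⟨p, q⟩, ⟨⟨⟨h1, h2, h3⟩, h4⟩, h5⟩, rfl⟩
      have h5' : s ≤ q := h5
      simp only at h1 h2 h3
      refine ⟨p • a + (q - s) • b, ⟨(p, q - s), ⟨h1, by simp only; linarith,
        by simp only; linarith⟩, rfl⟩, ?_⟩
      rw [M2_apply]
      show s • b + (p • a + (q - s) • b) = p • a + q • b
      module
    · rintro ⟨_, ⟨⟨p, q⟩, ⟨h1, h2, h3⟩, rfl⟩, rfl⟩
      simp only at h1 h2 h3
      refine ⟨(p, s + q), ⟨⟨⟨h1, by simp only; linarith, by simp only; linarith⟩, ?_⟩, ?_⟩, ?_⟩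
      · show s ≤ p + (s + q)
        linarith
      · show s ≤ s + q
        linarith
      · rw [M2_apply]
        show p • a + (s + q) • b = s • b + (p • a + q • b)
        module
  rw [f2, f3, f4, add_assoc, real_translate, add_assoc, real_translate, add_assoc ({s • b}),
    real_translate, add_assoc] at h2
  linarith

/-- Additive functions on `[0,∞)` bounded on `[0,1]` are linear. -/
lemma linear_of_additive_bdd {f : ℝ → ℝ}
    (hadd : ∀ x y, 0 ≤ x → 0 ≤ y → f (x + y) = f x + f y) (C : ℝ)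
    (hC : ∀ x, 0 ≤ x → x ≤ 1 → |f x| ≤ C) (x : ℝ) (hx : 0 ≤ x) : f x = x * f 1 := by
  have h0 : f 0 = 0 := by
    have := hadd 0 0 le_rfl le_rfl
    rw [add_zero] at this
    linarith
  have hn : ∀ (n : ℕ) (y : ℝ), 0 ≤ y → f (n * y) = n * f y := by
    intro n y hy
    induction n with
    | zero => simp [h0]
    | succ n ih =>
      push_cast
      rw [add_mul, one_mul, hadd _ _ (by positivity) hy, ih]
      ring
  have key : ∀ n : ℕ, (n : ℝ) * |f x - x * f 1| ≤ 2 * C := by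
    intro n
    set m := ⌊(n : ℝ) * x⌋₊ with hm
    have hnx : 0 ≤ (n : ℝ) * x := by positivity
    have h2 : (m : ℝ) ≤ n * x := Nat.floor_le hnx
    have h3 : (n : ℝ) * x < m + 1 := Nat.lt_floor_add_one _
    set r : ℝ := n * x - m with hr
    have hr0 : 0 ≤ r := by linarith
    have hr1 : r ≤ 1 := by linarith
    have h4 : (n : ℝ) * f x = m * f 1 + f r := by
      rw [← hn n x hx, ← hn m 1 zero_le_one, ← hadd _ _ (by positivity) hr0]
      congr 1
      rw [hr]
      ring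
    have h6 : (n : ℝ) * |f x - x * f 1| = |n * f x - n * x * f 1| := by
      rw [← abs_of_nonneg (show (0 : ℝ) ≤ n by positivity), ← abs_mul]
      congr 1
      rw [abs_of_nonneg (show (0 : ℝ) ≤ n by positivity)]
      ring
    have h7 : (n : ℝ) * f x - n * x * f 1 = f r - r * f 1 := by
      rw [h4, hr]
      ring
    rw [h6, h7]
    have h8 := hC r hr0 hr1
    have h9 := hC 1 zero_le_one le_rfl
    have h10 : |r * f 1| ≤ C := by
      rw [abs_mul, abs_of_nonneg hr0]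
      have := abs_nonneg (f 1)
      nlinarith
    calc |f r - r * f 1| ≤ |f r| + |r * f 1| := abs_sub _ _
      _ ≤ 2 * C := by linarith
  by_contra hne
  have hpos : 0 < |f x - x * f 1| := abs_pos.2 (sub_ne_zero.2 hne)
  obtain ⟨n, hn'⟩ := exists_nat_gt (2 * C / |f x - x * f 1|)
  rw [div_lt_iff₀ hpos] at hn'
  linarith [key n]

lemma tri_formula_aux (a b : E) {L : Set E} (hL : CC L) :
    ∃ ψ : ℝ, ∀ s, 0 ≤ s →
      μ.real (tri a b s + L) = μ.real L + s * ψ + s ^ 2 * (d2 μ (b - a) a L / 2) := by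
  set D := d2 μ (b - a) a L with hD
  let g : ℝ → ℝ := fun s => μ.real (tri a b s + L) - μ.real L - s ^ 2 * (D / 2)
  have hadd : ∀ x y, 0 ≤ x → 0 ≤ y → g (x + y) = g x + g y := by
    intro x y hx hy
    have h1 := tri_cut μ a b hx hy hL
    rw [seg_formula μ (b - a) hx hL, seg_formula μ a hy hL,
      seg2_formula μ (b - a) a hx hy hL, ← hD] at h1
    simp only [g]
    nlinarith
  have hbd : ∀ x, 0 ≤ x → x ≤ 1 → |g x| ≤ μ.real (tri a b 1 + L) + μ.real L + |D / 2| := by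
    intro x hx hx1
    have h1 := real_mono μ (add_subset_add_right (t := L) (tri_mono a b hx1))
      ((cc_tri a b 1).add hL)
    have h2 : 0 ≤ μ.real (tri a b x + L) := measureReal_nonneg
    have h3 : 0 ≤ μ.real L := measureReal_nonneg
    have h4 : |x ^ 2 * (D / 2)| ≤ |D / 2| := by
      rw [abs_mul, abs_of_nonneg (by positivity : (0 : ℝ) ≤ x ^ 2)]
      have h5 : x ^ 2 ≤ 1 := by nlinarith
      have := abs_nonneg (D / 2)
      nlinarith
    have h6 := abs_le.1 h4
    simp only [g]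
    rw [abs_le]
    constructor <;> linarith [h6.1, h6.2]
  refine ⟨g 1, fun s hs => ?_⟩
  have := linear_of_additive_bdd hadd _ hbd s hs
  simp only [g] at this ⊢
  linarith

/-- The even part. -/
lemma tri_even (a b : E) {s : ℝ} (hs : 0 ≤ s) {L : Set E} (hL : CC L) :
    μ.real (sg a s + (sg b s + L)) + μ.real (sg (b - a) s + L) =
      μ.real (tri a b s + L) + μ.real (tri (-a) (-b) s + L) := by
  have hU : CC (Icc (0 : ℝ) s ×ˢ Icc (0 : ℝ) s) :=
    ⟨isCompact_Icc.prod isCompact_Icc, (convex_Icc 0 s).prod (convex_Icc 0 s)⟩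
  have h1 := val μ (M2 a b)
    (ContinuousLinearMap.fst ℝ ℝ ℝ + ContinuousLinearMap.snd ℝ ℝ ℝ) s hU hL
  have e1 : (M2 a b) '' (Icc (0 : ℝ) s ×ˢ Icc (0 : ℝ) s) = sg a s + sg b s := by
    ext x
    constructor
    · rintro ⟨⟨p, q⟩, ⟨h1, h2⟩, rfl⟩
      rw [M2_apply]
      exact ⟨p • a, ⟨p, h1, rfl⟩, q • b, ⟨q, h2, rfl⟩, rfl⟩
    · rintro ⟨_, ⟨p, h1, rfl⟩, _, ⟨q, h2, rfl⟩, rfl⟩
      exact ⟨(p, q), ⟨h1, h2⟩, M2_apply a b (p, q)⟩
  have e2 : (M2 a b) '' ((Icc (0 : ℝ) s ×ˢ Icc (0 : ℝ) s) ∩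
      {x | (ContinuousLinearMap.fst ℝ ℝ ℝ + ContinuousLinearMap.snd ℝ ℝ ℝ) x = s}) =
      {s • a} + sg (b - a) s := by
    rw [singleton_add_eq_image]
    ext x
    constructor
    · rintro ⟨⟨p, q⟩, ⟨⟨h1, h2⟩, h4⟩, rfl⟩
      have h4' : p + q = s := h4
      refine ⟨q • (b - a), ⟨q, h2, rfl⟩, ?_⟩
      rw [M2_apply]
      show s • a + q • (b - a) = p • a + q • b
      rw [← h4']
      module
    · rintro ⟨_, ⟨q, ⟨h1, h2⟩, rfl⟩, rfl⟩
      refine ⟨(s - q, q), ⟨⟨⟨by simp only; linarith, by simp only; linarith⟩, ⟨h1, h2⟩⟩, ?_⟩, ?_⟩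
      · show (s - q) + q = s
        ring
      · rw [M2_apply]
        show (s - q) • a + q • b = s • a + q • (b - a)
        module
  have e3 : (M2 a b) '' ((Icc (0 : ℝ) s ×ˢ Icc (0 : ℝ) s) ∩
      {x | (ContinuousLinearMap.fst ℝ ℝ ℝ + ContinuousLinearMap.snd ℝ ℝ ℝ) x ≤ s}) =
      tri a b s := by
    rw [M2_coe]
    unfold tri
    congr 1
    ext ⟨p, q⟩
    constructor
    · rintro ⟨⟨h1, h2⟩, h4⟩
      exact ⟨h1.1, h2.1, h4⟩
    · rintro ⟨h1, h2, h3⟩
      simp only at h1 h2 h3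
      exact ⟨⟨⟨h1, by simp only; linarith⟩, ⟨h2, by simp only; linarith⟩⟩, h3⟩
  have e4 : (M2 a b) '' ((Icc (0 : ℝ) s ×ˢ Icc (0 : ℝ) s) ∩
      {x | s ≤ (ContinuousLinearMap.fst ℝ ℝ ℝ + ContinuousLinearMap.snd ℝ ℝ ℝ) x}) =
      {s • (a + b)} + tri (-a) (-b) s := by
    rw [singleton_add_eq_image]
    ext x
    constructor
    · rintro ⟨⟨p, q⟩, ⟨⟨h1, h2⟩, h4⟩, rfl⟩
      have h4' : s ≤ p + q := h4
      have h1' : p ≤ s := h1.2
      have h2' : q ≤ s := h2.2
      refine ⟨(s - p) • (-a) + (s - q) • (-b), ⟨(s - p, s - q), ⟨by simp only; linarith,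
        by simp only; linarith, by simp only; linarith⟩, rfl⟩, ?_⟩
      rw [M2_apply]
      show s • (a + b) + ((s - p) • (-a) + (s - q) • (-b)) = p • a + q • b
      module
    · rintro ⟨_, ⟨⟨p, q⟩, ⟨h1, h2, h3⟩, rfl⟩, rfl⟩
      simp only at h1 h2 h3
      refine ⟨(s - p, s - q), ⟨⟨⟨by simp only; linarith, by simp only; linarith⟩,
        ⟨by simp only; linarith, by simp only; linarith⟩⟩, ?_⟩, ?_⟩
      · show s ≤ (s - p) + (s - q)
        linarith
      · rw [M2_apply]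
        show (s - p) • a + (s - q) • b = s • (a + b) + (p • (-a) + q • (-b))
        module
  rw [e1, e2, e3, e4, add_assoc, add_assoc, real_translate, add_assoc, real_translate] at h1
  exact h1

lemma real_neg (A : Set E) : μ.real (-A) = μ.real A := by
  have h : -A = (-1 : ℝ) • A := by
    ext x
    rw [Set.mem_neg, Set.mem_smul_set]
    constructor
    · intro hx
      exact ⟨-x, hx, by simp⟩
    · rintro ⟨y, hy, rfl⟩
      simpa using hy
  rw [h, measureReal_def, Measure.addHaar_smul, measureReal_def]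
  have : |(-1 : ℝ) ^ Module.finrank ℝ E| = 1 := by rw [abs_pow]; simp
  rw [this]
  simp

/-- Centrally symmetric sets. -/
def Sym (L : Set E) : Prop := ∃ w : E, -L = {w} + L

lemma neg_sg (v : E) (s : ℝ) : -(sg v s) = {-(s • v)} + sg v s := by
  rw [singleton_add_eq_image]
  ext x
  rw [Set.mem_neg]
  constructor
  · rintro ⟨r, ⟨h1, h2⟩, hr⟩
    have hr' : r • v = -x := hr
    refine ⟨(s - r) • v, ⟨s - r, ⟨by linarith, by linarith⟩, rfl⟩, ?_⟩
    show -(s • v) + (s - r) • v = x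
    have : x = -(r • v) := by rw [hr', neg_neg]
    rw [this]
    module
  · rintro ⟨_, ⟨r, ⟨h1, h2⟩, rfl⟩, rfl⟩
    refine ⟨s - r, ⟨by linarith, by linarith⟩, ?_⟩
    show (s - r) • v = -(-(s • v) + r • v)
    module

lemma neg_add_set (A B : Set E) : -(A + B) = -A + -B := by
  ext x
  rw [Set.mem_neg]
  constructor
  · rintro ⟨a, ha, b, hb, hab⟩
    have hab' : a + b = -x := hab
    refine ⟨-a, by simpa using ha, -b, by simpa using hb, ?_⟩
    show -a + -b = x
    rw [← neg_add, hab', neg_neg]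
  · rintro ⟨a, ha, b, hb, rfl⟩
    rw [Set.mem_neg] at ha hb
    refine ⟨-a, ha, -b, hb, ?_⟩
    show -a + -b = -(a + b)
    abel

lemma Sym.sg_add {L : Set E} (hL : Sym L) (v : E) (s : ℝ) : Sym (sg v s + L) := by
  obtain ⟨w, hw⟩ := hL
  refine ⟨-(s • v) + w, ?_⟩
  rw [neg_add_set, neg_sg, hw]
  have : ({-(s • v) + w} : Set E) = {-(s • v)} + {w} := by rw [Set.singleton_add_singleton]
  rw [this]
  abel

lemma neg_tri (a b : E) (s : ℝ) : tri (-a) (-b) s = -(tri a b s) := by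
  ext x
  rw [Set.mem_neg]
  constructor
  · rintro ⟨z, hz, rfl⟩
    refine ⟨z, hz, ?_⟩
    show z.1 • a + z.2 • b = -(z.1 • (-a) + z.2 • (-b))
    module
  · rintro ⟨z, hz, hzx⟩
    have hzx' : z.1 • a + z.2 • b = -x := hzx
    refine ⟨z, hz, ?_⟩
    show z.1 • (-a) + z.2 • (-b) = x
    have : x = -(z.1 • a + z.2 • b) := by rw [hzx', neg_neg]
    rw [this]
    module

lemma real_tri_neg (a b : E) (s : ℝ) {L : Set E} (hL : Sym L) :
    μ.real (tri (-a) (-b) s + L) = μ.real (tri a b s + L) := by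
  obtain ⟨w, hw⟩ := hL
  have h1 : tri (-a) (-b) s + L = -(tri a b s + -L) := by
    rw [neg_add_set, neg_neg, neg_tri]
  rw [h1, real_neg, hw]
  have h2 : tri a b s + ({w} + L) = {w} + (tri a b s + L) := by abel
  rw [h2, real_translate]

lemma sg_neg (v : E) (s : ℝ) : sg (-v) s = {-(s • v)} + sg v s := by
  rw [← neg_sg]
  ext x
  rw [Set.mem_neg]
  constructor
  · rintro ⟨r, hr, rfl⟩
    refine ⟨r, hr, ?_⟩
    show r • v = -(r • -v)
    module
  · rintro ⟨r, hr, hrx⟩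
    have hrx' : r • v = -x := hrx
    refine ⟨r, hr, ?_⟩
    show r • (-v) = x
    have : x = -(r • v) := by rw [hrx', neg_neg]
    rw [this]
    module

lemma real_sg_neg (v : E) (s : ℝ) (L : Set E) :
    μ.real (sg (-v) s + L) = μ.real (sg v s + L) := by
  rw [sg_neg, add_assoc, real_translate]

lemma real_sg_sg_neg (w v : E) (s t : ℝ) (L : Set E) :
    μ.real (sg w t + (sg (-v) s + L)) = μ.real (sg w t + (sg v s + L)) := by
  have h1 : sg w t + (sg (-v) s + L) = sg (-v) s + (sg w t + L) := by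
    rw [← add_assoc, add_comm (sg w t), add_assoc]
  have h2 : sg w t + (sg v s + L) = sg v s + (sg w t + L) := by
    rw [← add_assoc, add_comm (sg w t), add_assoc]
  rw [h1, h2, real_sg_neg]

lemma d2_neg_left (v w : E) (L : Set E) : d2 μ (-v) w L = d2 μ v w L := by
  unfold d2
  rw [real_sg_neg, real_sg_neg]

lemma d2_neg_right (v w : E) (L : Set E) : d2 μ v (-w) L = d2 μ v w L := by
  unfold d2
  rw [real_sg_sg_neg, real_sg_neg]

lemma d2_comm (v w : E) (L : Set E) : d2 μ v w L = d2 μ w v L := by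
  unfold d2
  have h1 : sg v 1 + (sg w 1 + L) = sg w 1 + (sg v 1 + L) := by
    rw [← add_assoc, add_comm (sg v 1), add_assoc]
  rw [h1]
  ring

lemma d2_sub (a b : E) {L : Set E} (hL : CC L) : d2 μ (b - a) a L = d2 μ a b L := by
  obtain ⟨ψ, hψ⟩ := tri_formula_aux μ a b hL
  obtain ⟨ψ', hψ'⟩ := tri_formula_aux μ (-a) (-b) hL
  have e : d2 μ (-b - -a) (-a) L = d2 μ (b - a) a L := by
    have : -b - -a = -(b - a) := by abel
    rw [this, d2_neg_left, d2_neg_right]
  rw [e] at hψ'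
  have h1 := tri_even μ a b (zero_le_one) hL
  have h2 := tri_even μ a b (zero_le_two) hL
  rw [hψ 1 zero_le_one, hψ' 1 zero_le_one, seg2_formula μ a b zero_le_one zero_le_one hL,
    seg_formula μ (b - a) zero_le_one hL] at h1
  rw [hψ 2 zero_le_two, hψ' 2 zero_le_two, seg2_formula μ a b zero_le_two zero_le_two hL,
    seg_formula μ (b - a) zero_le_two hL] at h2
  linarith

/-- the number `S` -/
noncomputable def dS (a b : E) (L : Set E) : ℝ := (d1 μ a L + d1 μ b L + d1 μ (b - a) L) / 2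

lemma tri_formula (a b : E) {L : Set E} (hL : CC L) :
    ∃ ψ : ℝ, ∀ s, 0 ≤ s →
      μ.real (tri a b s + L) = μ.real L + s * ψ + s ^ 2 * (d2 μ a b L / 2) := by
  obtain ⟨ψ, hψ⟩ := tri_formula_aux μ a b hL
  rw [d2_sub μ a b hL] at hψ
  exact ⟨ψ, hψ⟩

lemma tri_formula_sym (a b : E) {L : Set E} (hL : CC L) (hsym : Sym L) {s : ℝ} (hs : 0 ≤ s) :
    μ.real (tri a b s + L) = μ.real L + s * dS μ a b L + s ^ 2 * (d2 μ a b L / 2) := by
  have h1 := tri_even μ a b hs hL
  rw [real_tri_neg μ a b s hsym, seg2_formula μ a b hs hs hL, seg_formula μ (b - a) hs hL] at h1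
  unfold dS
  nlinarith

lemma cubic_nonneg {p q r d : ℝ} (h : ∀ s : ℝ, 0 ≤ s → 0 ≤ p + q * s + r * s ^ 2 + d * s ^ 3) :
    0 ≤ d := by
  by_contra hd
  push Not at hd
  set M := |p| + |q| + |r| with hM
  have hM0 : 0 ≤ M := by positivity
  set s := M / (-d) + 1 with hs
  have hs1 : 1 ≤ s := by
    have : 0 ≤ M / (-d) := div_nonneg hM0 (by linarith)
    linarith
  have h1 := h s (by linarith)
  have h2 : M + d * s = d := by
    rw [hs]
    have : d ≠ 0 := hd.ne
    field_simp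
    ring
  have h3 : p ≤ |p| * s ^ 2 := by
    have := le_abs_self p
    have := abs_nonneg p
    nlinarith [pow_le_pow_left₀ zero_le_one hs1 2]
  have h4 : q * s ≤ |q| * s ^ 2 := by
    have := le_abs_self q
    have := abs_nonneg q
    nlinarith [mul_nonneg (abs_nonneg q) (sub_nonneg.2 hs1)]
  have h5 : r * s ^ 2 ≤ |r| * s ^ 2 := by
    have := le_abs_self r
    nlinarith [sq_nonneg s]
  have h6 : p + q * s + r * s ^ 2 + d * s ^ 3 ≤ s ^ 2 * (M + d * s) := by
    rw [hM]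
    nlinarith
  rw [h2] at h6
  have h7 : s ^ 2 * d < 0 := mul_neg_of_pos_of_neg (by positivity) hd
  linarith

/-- Hexagons. -/
def hex (a b : E) (s : ℝ) : Set E := sg a s + (sg b s + sg (b - a) s)

lemma cc_hex (a b : E) (s : ℝ) : CC (hex a b s) :=
  (cc_sg a s).add ((cc_sg b s).add (cc_sg (b - a) s))

lemma seg_swap (v w : E) (s t : ℝ) (L : Set E) :
    sg v s + (sg w t + L) = sg w t + (sg v s + L) := by
  rw [← add_assoc, add_comm (sg v s), add_assoc]

lemma hex_aux (a b : E) {L : Set E} (hL : CC L) :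
    ∃ d3 : ℝ, ∀ s, 0 ≤ s → μ.real (hex a b s + L) = μ.real L + s * (2 * dS μ a b L) +
      s ^ 2 * (3 * d2 μ a b L) + s ^ 3 * d3 := by
  have hbb : d2 μ b (b - a) L = d2 μ a b L := by
    have h1 := d2_sub μ b a hL
    rw [show a - b = -(b - a) by abel, d2_neg_left] at h1
    rw [d2_comm μ b (b - a), h1, d2_comm]
  have haa : d2 μ a (b - a) L = d2 μ a b L := by
    rw [d2_comm μ a (b - a), d2_sub μ a b hL]
  set c := b - a with hc
  refine ⟨d1 μ c (sg a 1 + (sg b 1 + L)) - d1 μ c (sg a 1 + L) - d1 μ c (sg b 1 + L) +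
    d1 μ c L, fun s hs => ?_⟩
  have hcs := (cc_sg c s).add hL
  have e0 : hex a b s + L = sg a s + (sg b s + (sg c s + L)) := by
    unfold hex
    rw [add_assoc, add_assoc]
  rw [e0, seg2_formula μ a b hs hs hcs]
  have e1 : μ.real (sg c s + L) = μ.real L + s * d1 μ c L := seg_formula μ c hs hL
  have e2 : d1 μ a (sg c s + L) = d1 μ a L + s * d2 μ a c L := by
    unfold d1
    rw [e1, seg2_formula μ a c zero_le_one hs hL]
    unfold d1
    ring
  have e3 : d1 μ b (sg c s + L) = d1 μ b L + s * d2 μ b c L := by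
    unfold d1
    rw [e1, seg2_formula μ b c zero_le_one hs hL]
    unfold d1
    ring
  have e4 : d2 μ a b (sg c s + L) = d2 μ a b L + s * (d1 μ c (sg a 1 + (sg b 1 + L)) -
      d1 μ c (sg a 1 + L) - d1 μ c (sg b 1 + L) + d1 μ c L) := by
    unfold d2
    have g1 : sg a 1 + (sg b 1 + (sg c s + L)) = sg c s + (sg a 1 + (sg b 1 + L)) := by
      rw [seg_swap b c, seg_swap a c]
    rw [g1, seg_swap a c, seg_swap b c, seg_formula μ c hs hL,
      seg_formula μ c hs ((cc_sg a 1).add hL), seg_formula μ c hs ((cc_sg b 1).add hL),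
      seg_formula μ c hs ((cc_sg a 1).add ((cc_sg b 1).add hL))]
    ring
  rw [e1, e2, e3, e4, hbb, haa]
  unfold dS
  rw [← hc]
  ring

lemma hex_formula (a b : E) {L : Set E} (hL : CC L) {s : ℝ} (hs : 0 ≤ s) :
    μ.real (hex a b s + L) = μ.real L + s * (2 * dS μ a b L) + s ^ 2 * (3 * d2 μ a b L) := by
  obtain ⟨d3, hd3⟩ := hex_aux μ a b hL
  have h1 : 0 ≤ d3 := by
    refine cubic_nonneg (p := μ.real L) (q := 2 * dS μ a b L) (r := 3 * d2 μ a b L)
      fun s hs => ?_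
    have h2 := hd3 s hs
    have h3 : 0 ≤ μ.real (hex a b s + L) := measureReal_nonneg
    linarith
  have h2 : 0 ≤ -d3 := by
    refine cubic_nonneg (p := 0) (q := 2 * d1 μ a L + 2 * d1 μ b L - 2 * dS μ a b L)
      (r := 4 * d2 μ a b L - 3 * d2 μ a b L) fun s hs => ?_
    have h2 := hd3 s hs
    have hsub : hex a b s + L ⊆ {-(s • a)} + (sg a (2 * s) + (sg b (2 * s) + L)) := by
      rw [← add_assoc, ← add_assoc]
      apply add_subset_add_right
      rw [add_assoc, singleton_add_eq_image]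
      rintro _ ⟨_, ⟨p, ⟨hp0, hp1⟩, rfl⟩, _, ⟨_, ⟨q, ⟨hq0, hq1⟩, rfl⟩, _, ⟨r, ⟨hr0, hr1⟩, rfl⟩,
        rfl⟩, rfl⟩
      refine ⟨(s + p - r) • a + (q + r) • b, ⟨(s + p - r) • a, ⟨s + p - r, ⟨by linarith,
        by linarith⟩, rfl⟩, (q + r) • b, ⟨q + r, ⟨by linarith, by linarith⟩, rfl⟩, rfl⟩, ?_⟩
      show -(s • a) + ((s + p - r) • a + (q + r) • b) = p • a + (q • b + r • (b - a))
      module
    have h3 := real_mono μ hsub (by
      have h4 : CC ({-(s • a)} : Set E) := ⟨isCompact_singleton, convex_singleton _⟩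
      exact h4.add ((cc_sg a _).add ((cc_sg b _).add hL)))
    rw [real_translate, seg2_formula μ a b (by linarith) (by linarith) hL, h2] at h3
    nlinarith
  have h3 : d3 = 0 := by linarith
  rw [hd3 s hs, h3]
  ring

end Pool.Agent.Lib_helper76.Steiner
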