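import Pool.Agent.Lib_helper76.Steiner

open MeasureTheory Set Metric
open scoped Pointwise

set_option linter.unusedSectionVars false

namespace Pool.Agent.Lib_helper76.Steiner

variable {E : Type*} [NormedAddCommGroup E] [NormedSpace ℝ E] [MeasurableSpace E] [BorelSpace E]
  [FiniteDimensional ℝ E] (μ : Measure E) [μ.IsAddHaarMeasure]

/-- `1/2 ∑_x (d2 c d (x + B) - d2 c d B)` -/
noncomputable def nSQ (a b c d : E) (B : Set E) : ℝ :=
  ((d2 μ c d (sg a 1 + B) - d2 μ c d B) + (d2 μ c d (sg b 1 + B) - d2 μ c d B) +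
    (d2 μ c d (sg (b - a) 1 + B) - d2 μ c d B)) / 2

noncomputable def nSS (a b c d : E) (B : Set E) : ℝ :=
  ((dS μ c d (sg a 1 + B) - dS μ c d B) + (dS μ c d (sg b 1 + B) - dS μ c d B) +
    (dS μ c d (sg (b - a) 1 + B) - dS μ c d B)) / 2

noncomputable def nQS (a b c d : E) (B : Set E) : ℝ :=
  dS μ c d (sg a 1 + (sg b 1 + B)) - dS μ c d (sg a 1 + B) - dS μ c d (sg b 1 + B) + dS μ c d B

noncomputable def nQQ (a b c d : E) (B : Set E) : ℝ :=
  d2 μ c d (sg a 1 + (sg b 1 + B)) - d2 μ c d (sg a 1 + B) - d2 μ c d (sg b 1 + B) + d2 μ c d B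

lemma add_swap (A K L : Set E) : A + (K + L) = K + (A + L) := by
  rw [← add_assoc, add_comm A, add_assoc]

lemma hexhex (a b c d : E) {B : Set E} (hB : CC B) {s : ℝ} (hs : 0 ≤ s) :
    μ.real (hex a b s + (hex c d s + B)) = μ.real B +
      s * (2 * (dS μ a b B + dS μ c d B)) +
      s ^ 2 * (3 * d2 μ a b B + 3 * d2 μ c d B + 4 * nSS μ a b c d B) +
      s ^ 3 * (6 * (nSQ μ a b c d B + nQS μ a b c d B)) + s ^ 4 * (9 * nQQ μ a b c d B) := by
  rw [hex_formula μ a b ((cc_hex c d s).add hB) hs]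
  have hH : ∀ {L : Set E}, CC L → μ.real (hex c d s + L) =
      μ.real L + s * (2 * dS μ c d L) + s ^ 2 * (3 * d2 μ c d L) := fun hL =>
    hex_formula μ c d hL hs
  have h1 : ∀ x : E, d1 μ x (hex c d s + B) = d1 μ x B +
      s * (2 * (dS μ c d (sg x 1 + B) - dS μ c d B)) +
      s ^ 2 * (3 * (d2 μ c d (sg x 1 + B) - d2 μ c d B)) := by
    intro x
    have e : d1 μ x (hex c d s + B) =
        μ.real (sg x 1 + (hex c d s + B)) - μ.real (hex c d s + B) := rfl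
    rw [e, add_swap, hH ((cc_sg x 1).add hB), hH hB]
    unfold d1
    ring
  have h2 : dS μ a b (hex c d s + B) = dS μ a b B + s * (2 * nSS μ a b c d B) +
      s ^ 2 * (3 * nSQ μ a b c d B) := by
    have e : dS μ a b (hex c d s + B) = (d1 μ a (hex c d s + B) + d1 μ b (hex c d s + B) +
        d1 μ (b - a) (hex c d s + B)) / 2 := rfl
    have e' : dS μ a b B = (d1 μ a B + d1 μ b B + d1 μ (b - a) B) / 2 := rfl
    rw [e, e', h1, h1, h1]
    unfold nSS nSQ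
    ring
  have h3 : d2 μ a b (hex c d s + B) = d2 μ a b B + s * (2 * nQS μ a b c d B) +
      s ^ 2 * (3 * nQQ μ a b c d B) := by
    have e : d2 μ a b (hex c d s + B) = μ.real (sg a 1 + (sg b 1 + (hex c d s + B))) -
      μ.real (sg a 1 + (hex c d s + B)) - μ.real (sg b 1 + (hex c d s + B)) +
      μ.real (hex c d s + B) := rfl
    have e' : d2 μ a b B = μ.real (sg a 1 + (sg b 1 + B)) - μ.real (sg a 1 + B) -
      μ.real (sg b 1 + B) + μ.real B := rfl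
    rw [e, e', add_swap (sg b 1) (hex c d s) B, add_swap (sg a 1) (hex c d s) (sg b 1 + B),
      add_swap (sg a 1) (hex c d s) B, hH ((cc_sg a 1).add ((cc_sg b 1).add hB)),
      hH ((cc_sg a 1).add hB), hH ((cc_sg b 1).add hB), hH hB]
    unfold nQS nQQ
    ring
  rw [h2, h3, hH hB]
  ring

/-- The expansion in `t` of `tri c d t + L` for the various symmetric `L`. -/
lemma d2_tri (a b c d : E) {B : Set E} (hB : CC B) (hsym : Sym B) {t : ℝ} (ht : 0 ≤ t) :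
    d2 μ a b (tri c d t + B) = d2 μ a b B + t * nQS μ a b c d B +
      t ^ 2 * (nQQ μ a b c d B / 2) := by
  have hT : ∀ {L : Set E}, CC L → Sym L → μ.real (tri c d t + L) =
      μ.real L + t * dS μ c d L + t ^ 2 * (d2 μ c d L / 2) := fun hL hs =>
    tri_formula_sym μ c d hL hs ht
  have e : d2 μ a b (tri c d t + B) = μ.real (sg a 1 + (sg b 1 + (tri c d t + B))) -
    μ.real (sg a 1 + (tri c d t + B)) - μ.real (sg b 1 + (tri c d t + B)) +
    μ.real (tri c d t + B) := rfl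
  have e' : d2 μ a b B = μ.real (sg a 1 + (sg b 1 + B)) - μ.real (sg a 1 + B) -
    μ.real (sg b 1 + B) + μ.real B := rfl
  rw [e, e', add_swap (sg b 1) (tri c d t) B, add_swap (sg a 1) (tri c d t) (sg b 1 + B),
    add_swap (sg a 1) (tri c d t) B,
    hT ((cc_sg a 1).add ((cc_sg b 1).add hB)) ((hsym.sg_add b 1).sg_add a 1),
    hT ((cc_sg a 1).add hB) (hsym.sg_add a 1), hT ((cc_sg b 1).add hB) (hsym.sg_add b 1),
    hT hB hsym]
  unfold nQS nQQ
  ring

lemma nSQ_eq (a b c d : E) (B : Set E) : nSQ μ a b c d B = nQS μ c d a b B := by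
  unfold nSQ nQS dS d1 d2
  rw [add_swap (sg a 1) (sg c 1) (sg d 1 + B), add_swap (sg b 1) (sg c 1) (sg d 1 + B),
    add_swap (sg (b - a) 1) (sg c 1) (sg d 1 + B), add_swap (sg a 1) (sg d 1) B,
    add_swap (sg b 1) (sg d 1) B, add_swap (sg (b - a) 1) (sg d 1) B,
    add_swap (sg a 1) (sg c 1) B, add_swap (sg b 1) (sg c 1) B,
    add_swap (sg (b - a) 1) (sg c 1) B]
  ring

lemma nQQ_comm (a b c d : E) (B : Set E) : nQQ μ a b c d B = nQQ μ c d a b B := by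
  have key : ∀ v : Set E → ℝ, ∀ A1 A2 C1 C2 B : Set E,
      v (C1 + (C2 + (A1 + (A2 + B)))) - v (C1 + (A1 + (A2 + B))) -
              v (C2 + (A1 + (A2 + B))) + v (A1 + (A2 + B)) -
          (v (C1 + (C2 + (A1 + B))) - v (C1 + (A1 + B)) - v (C2 + (A1 + B)) + v (A1 + B)) -
        (v (C1 + (C2 + (A2 + B))) - v (C1 + (A2 + B)) - v (C2 + (A2 + B)) + v (A2 + B)) +
      (v (C1 + (C2 + B)) - v (C1 + B) - v (C2 + B) + v B) =
      v (A1 + (A2 + (C1 + (C2 + B)))) - v (A1 + (C1 + (C2 + B))) -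
              v (A2 + (C1 + (C2 + B))) + v (C1 + (C2 + B)) -
          (v (A1 + (A2 + (C1 + B))) - v (A1 + (C1 + B)) - v (A2 + (C1 + B)) + v (C1 + B)) -
        (v (A1 + (A2 + (C2 + B))) - v (A1 + (C2 + B)) - v (A2 + (C2 + B)) + v (C2 + B)) +
      (v (A1 + (A2 + B)) - v (A1 + B) - v (A2 + B) + v B) := by
    intro v A1 A2 C1 C2 B
    have e1 : A1 + (A2 + (C1 + (C2 + B))) = C1 + (C2 + (A1 + (A2 + B))) := by abel
    have e2 : A1 + (C1 + (C2 + B)) = C1 + (C2 + (A1 + B)) := by abel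
    have e3 : A2 + (C1 + (C2 + B)) = C1 + (C2 + (A2 + B)) := by abel
    have e4 : A1 + (A2 + (C1 + B)) = C1 + (A1 + (A2 + B)) := by abel
    have e5 : A1 + (C1 + B) = C1 + (A1 + B) := by abel
    have e6 : A2 + (C1 + B) = C1 + (A2 + B) := by abel
    have e7 : A1 + (A2 + (C2 + B)) = C2 + (A1 + (A2 + B)) := by abel
    have e8 : A1 + (C2 + B) = C2 + (A1 + B) := by abel
    have e9 : A2 + (C2 + B) = C2 + (A2 + B) := by abel
    rw [e1, e2, e3, e4, e5, e6, e7, e8, e9]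
    ring
  exact key μ.real (sg a 1) (sg b 1) (sg c 1) (sg d 1) B

/-- Existence of the Steiner-type polynomials for the two bodies, with relations between the
coefficients. -/
theorem main_poly (a b c d : E) {B : Set E} (hB : CC B) (hsym : Sym B) :
    ∃ V0 p m m' r q : ℝ,
      (∀ s, 0 ≤ s → μ.real (tri a b s + (tri c d s + B)) =
        V0 + s * p + s ^ 2 * m + s ^ 3 * r + s ^ 4 * q) ∧
      (∀ s, 0 ≤ s → μ.real (hex a b s + (hex c d s + B)) =
        V0 + s * (2 * p) + s ^ 2 * m' + s ^ 3 * (12 * r) + s ^ 4 * (36 * q)) := by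
  -- the formula in the variable `t` at `s = 1`
  obtain ⟨ψ', hψ'⟩ := tri_formula μ c d ((cc_tri a b 1).add hB)
  -- the number `Φ(1,t)`
  have hsw : ∀ t, tri c d t + (tri a b 1 + B) = tri a b 1 + (tri c d t + B) := fun t =>
    add_swap _ _ _
  have h0 : μ.real (tri a b 1 + B) = μ.real B + 1 * dS μ a b B + 1 ^ 2 * (d2 μ a b B / 2) :=
    tri_formula_sym μ a b hB hsym zero_le_one
  have h1 : d2 μ c d (tri a b 1 + B) = d2 μ c d B + 1 * nQS μ c d a b B +
      1 ^ 2 * (nQQ μ c d a b B / 2) := d2_tri μ c d a b hB hsym zero_le_one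
  refine ⟨μ.real B, dS μ a b B + dS μ c d B,
    d2 μ a b B / 2 + d2 μ c d B / 2 + (ψ' - dS μ c d B - nQS μ a b c d B / 2),
    3 * d2 μ a b B + 3 * d2 μ c d B + 4 * nSS μ a b c d B,
    (nSQ μ a b c d B + nQS μ a b c d B) / 2, nQQ μ a b c d B / 4, ?_, ?_⟩
  · intro s hs
    obtain ⟨ψ, hψ⟩ := tri_formula μ a b ((cc_tri c d s).add hB)
    have g1 := hψ 1 zero_le_one
    have g2 := hψ s hs
    have g3 := hψ' s hs
    rw [hsw, g1] at g3
    rw [g2]
    have g4 : μ.real (tri c d s + B) = μ.real B + s * dS μ c d B + s ^ 2 * (d2 μ c d B / 2) :=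
      tri_formula_sym μ c d hB hsym hs
    have g5 := d2_tri μ a b c d hB hsym hs
    rw [g4, g5, h0, h1, ← nSQ_eq μ a b c d B, ← nQQ_comm μ a b c d B] at g3
    rw [g4, g5]
    have g6 : ψ = dS μ a b B + s * (ψ' - dS μ c d B - nQS μ a b c d B / 2) +
        s ^ 2 * (nSQ μ a b c d B / 2) := by
      linarith
    rw [g6]
    ring
  · intro s hs
    rw [hexhex μ a b c d hB hs]
    ring

section scaling

lemma smul_sg (v : E) {t : ℝ} (ht : 0 < t) (s : ℝ) : t • sg v s = sg v (t * s) := by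
  ext x
  rw [Set.mem_smul_set]
  constructor
  · rintro ⟨_, ⟨r, ⟨h1, h2⟩, rfl⟩, rfl⟩
    refine ⟨t * r, ⟨by positivity, by gcongr⟩, ?_⟩
    show (t * r) • v = t • (r • v)
    rw [mul_smul]
  · rintro ⟨r, ⟨h1, h2⟩, rfl⟩
    refine ⟨(t⁻¹ * r) • v, ⟨t⁻¹ * r, ⟨by positivity, ?_⟩, rfl⟩, ?_⟩
    · rw [inv_mul_le_iff₀ ht]
      exact h2
    · show t • ((t⁻¹ * r) • v) = r • v
      rw [← mul_smul, mul_inv_cancel_left₀ ht.ne']

lemma smul_tri (a b : E) {t : ℝ} (ht : 0 < t) (s : ℝ) : t • tri a b s = tri a b (t * s) := by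
  ext x
  rw [Set.mem_smul_set]
  constructor
  · rintro ⟨_, ⟨⟨p, q⟩, ⟨h1, h2, h3⟩, rfl⟩, rfl⟩
    simp only at h1 h2 h3
    refine ⟨(t * p, t * q), ⟨by simp only; positivity, by simp only; positivity, ?_⟩, ?_⟩
    · show t * p + t * q ≤ t * s
      rw [← mul_add]
      gcongr
    · show (t * p) • a + (t * q) • b = t • (p • a + q • b)
      module
  · rintro ⟨⟨p, q⟩, ⟨h1, h2, h3⟩, rfl⟩
    simp only at h1 h2 h3
    refine ⟨(t⁻¹ * p) • a + (t⁻¹ * q) • b, ⟨(t⁻¹ * p, t⁻¹ * q), ⟨by simp only; positivity,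
      by simp only; positivity, ?_⟩, rfl⟩, ?_⟩
    · show t⁻¹ * p + t⁻¹ * q ≤ s
      rw [← mul_add, inv_mul_le_iff₀ ht]
      exact h3
    · show t • ((t⁻¹ * p) • a + (t⁻¹ * q) • b) = p • a + q • b
      rw [smul_add, ← mul_smul, ← mul_smul, mul_inv_cancel_left₀ ht.ne',
        mul_inv_cancel_left₀ ht.ne']

lemma smul_hex (a b : E) {t : ℝ} (ht : 0 < t) (s : ℝ) : t • hex a b s = hex a b (t * s) := by
  unfold hex
  rw [smul_add, smul_add, smul_sg _ ht, smul_sg _ ht, smul_sg _ ht]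

lemma smul_ball {t : ℝ} (ht : 0 < t) : t • closedBall (0 : E) 1 = closedBall 0 t := by
  rw [smul_unitClosedBall, Real.norm_of_nonneg ht.le]

lemma cc_ball (t : ℝ) : CC (closedBall (0 : E) t) :=
  ⟨isCompact_closedBall 0 t, convex_closedBall 0 t⟩

lemma sym_ball : Sym (closedBall (0 : E) 1) := by
  refine ⟨0, ?_⟩
  rw [singleton_add_eq_image]
  simp

lemma real_smul (hE : Module.finrank ℝ E = 4) {t : ℝ} (ht : 0 < t) (A : Set E) :
    μ.real (t • A) = t ^ 4 * μ.real A := by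
  rw [measureReal_def, Measure.addHaar_smul, hE, measureReal_def, ENNReal.toReal_mul,
    ENNReal.toReal_ofReal (abs_nonneg _), abs_of_pos (by positivity)]

/-- From the polynomial in `s` to the Steiner polynomial in `t`. -/
lemma steiner_aux (hE : Module.finrank ℝ E = 4) (A : ℝ → Set E) (hA : CC (A 1))
    (hsm : ∀ t s, 0 < t → t • A s = A (t * s)) (h0 : μ (A 1) = 0) {V0 p m r q : ℝ}
    (h : ∀ s, 0 ≤ s → μ.real (A s + closedBall 0 1) =
      V0 + s * p + s ^ 2 * m + s ^ 3 * r + s ^ 4 * q) :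
    q = 0 ∧ ∀ t, 0 ≤ t → μ (A 1 + closedBall 0 t) =
      ENNReal.ofReal (t ^ 4 * V0 + t ^ 3 * p + t ^ 2 * m + t * r) := by
  have hpos : ∀ t, 0 < t → μ.real (A 1 + closedBall 0 t) =
      t ^ 4 * V0 + t ^ 3 * p + t ^ 2 * m + t * r + q := by
    intro t ht
    have e1 : A 1 + closedBall 0 t = t • (A t⁻¹ + closedBall 0 1) := by
      rw [smul_add, hsm t _ ht, smul_ball ht, mul_inv_cancel₀ ht.ne']
    rw [e1, real_smul μ hE ht, h _ (inv_nonneg.2 ht.le)]
    have : t ≠ 0 := ht.ne'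
    field_simp
  have hq : q = 0 := by
    have ht1 : Filter.Tendsto (fun t => μ.real (cthickening t (A 1))) (nhds 0) (nhds 0) := by
      have := tendsto_measure_cthickening_of_isCompact (μ := μ) hA.comp
      rw [h0] at this
      have h2 := (ENNReal.tendsto_toReal (ENNReal.zero_ne_top)).comp this
      simpa [measureReal_def, Function.comp_def] using h2
    have ht2 : Filter.Tendsto (fun t : ℝ => t ^ 4 * V0 + t ^ 3 * p + t ^ 2 * m + t * r + q)
        (nhdsWithin 0 (Ioi 0)) (nhds q) := by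
      have hc : Continuous (fun t : ℝ => t ^ 4 * V0 + t ^ 3 * p + t ^ 2 * m + t * r + q) := by
        fun_prop
      have := (hc.tendsto 0).mono_left (nhdsWithin_le_nhds (s := Ioi 0))
      simpa using this
    have ht3 : Filter.Tendsto (fun t : ℝ => t ^ 4 * V0 + t ^ 3 * p + t ^ 2 * m + t * r + q)
        (nhdsWithin 0 (Ioi 0)) (nhds 0) := by
      refine (ht1.mono_left (nhdsWithin_le_nhds (s := Ioi 0))).congr' ?_
      filter_upwards [self_mem_nhdsWithin] with t ht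
      have ht' : 0 < t := ht
      rw [← hpos t ht', hA.comp.add_closedBall_zero ht'.le]
    exact tendsto_nhds_unique ht2 ht3
  refine ⟨hq, fun t ht => ?_⟩
  rcases eq_or_lt_of_le ht with h1 | h1
  · rw [← h1]
    simp [h0]
  · have h2 := hpos t h1
    rw [hq, add_zero] at h2
    rw [← h2]
    have hne : μ (A 1 + closedBall 0 t) ≠ ⊤ := ((hA.add (cc_ball t)).comp.measure_lt_top).ne
    rw [ofReal_measureReal hne]

theorem steiner4 (hE : Module.finrank ℝ E = 4) (S : Submodule ℝ E) (hS : S ≠ ⊤) {a b c d : E}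
    (ha : a ∈ S) (hb : b ∈ S) (hc : c ∈ S) (hd : d ∈ S) :
    ∃ c₁ c₂ : ℕ → ℝ,
      (∀ t : ℝ, 0 ≤ t → μ ((tri a b 1 + tri c d 1) + closedBall 0 t) =
        ENNReal.ofReal (∑ m ∈ Finset.range 5, c₁ m * t ^ m)) ∧
      (∀ t : ℝ, 0 ≤ t → μ ((hex a b 1 + hex c d 1) + closedBall 0 t) =
        ENNReal.ofReal (∑ m ∈ Finset.range 5, c₂ m * t ^ m)) ∧
      c₁ 3 = 1 / 2 * c₂ 3 ∧ c₁ 1 = 1 / 12 * c₂ 1 := by
  obtain ⟨V0, p, m, m', r, q, h1, h2⟩ := main_poly μ a b c d (cc_ball (E := E) 1) sym_ball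
  have hS0 : μ (S : Set E) = 0 := Measure.addHaar_submodule μ S hS
  have hsg : ∀ {v : E}, v ∈ S → ∀ s, sg v s ⊆ S := by
    rintro v hv s _ ⟨r, -, rfl⟩
    exact S.smul_mem r hv
  have hadd : ∀ {K L : Set E}, K ⊆ S → L ⊆ S → K + L ⊆ S := by
    rintro K L hK hL _ ⟨x, hx, y, hy, rfl⟩
    exact S.add_mem (hK hx) (hL hy)
  have htri : ∀ {v w : E}, v ∈ S → w ∈ S → ∀ s, tri v w s ⊆ S := by
    rintro v w hv hw s _ ⟨z, -, rfl⟩
    exact S.add_mem (S.smul_mem _ hv) (S.smul_mem _ hw)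
  have hhex : ∀ {v w : E}, v ∈ S → w ∈ S → ∀ s, hex v w s ⊆ S := by
    intro v w hv hw s
    exact hadd (hsg hv s) (hadd (hsg hw s) (hsg (S.sub_mem hw hv) s))
  obtain ⟨-, g1⟩ := steiner_aux μ hE (fun s => tri a b s + tri c d s)
    ((cc_tri a b 1).add (cc_tri c d 1))
    (fun t s ht => by rw [smul_add, smul_tri _ _ ht, smul_tri _ _ ht])
    (measure_mono_null (hadd (htri ha hb 1) (htri hc hd 1)) hS0)
    (V0 := V0) (p := p) (m := m) (r := r) (q := q)
    (fun s hs => by rw [add_assoc]; exact h1 s hs)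
  obtain ⟨-, g2⟩ := steiner_aux μ hE (fun s => hex a b s + hex c d s)
    ((cc_hex a b 1).add (cc_hex c d 1))
    (fun t s ht => by rw [smul_add, smul_hex _ _ ht, smul_hex _ _ ht])
    (measure_mono_null (hadd (hhex ha hb 1) (hhex hc hd 1)) hS0)
    (V0 := V0) (p := 2 * p) (m := m') (r := 12 * r) (q := 36 * q)
    (fun s hs => by rw [add_assoc]; exact h2 s hs)
  refine ⟨fun k => if k = 1 then r else if k = 2 then m else if k = 3 then p else
    if k = 4 then V0 else 0, fun k => if k = 1 then 12 * r else if k = 2 then m' else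
    if k = 3 then 2 * p else if k = 4 then V0 else 0, ?_, ?_, ?_, ?_⟩
  · intro t ht
    rw [g1 t ht]
    congr 1
    simp [Finset.sum_range_succ]
    ring
  · intro t ht
    rw [g2 t ht]
    congr 1
    simp [Finset.sum_range_succ]
    ring
  · norm_num
    ring
  · norm_num
    ring

end scaling

section euclid

abbrev E4 := EuclideanSpace ℝ (Fin 4)

/-- standard basis vectors -/
noncomputable def e (i : Fin 4) : E4 := EuclideanSpace.single i 1

/-- product of two triangles -/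
noncomputable def K1 : Set E4 := tri (e 0) (e 1) 1 + tri (e 2) (e 3) 1

/-- its difference body (up to translation): product of two hexagons -/
noncomputable def K2 : Set E4 := hex (e 0) (e 1) 1 + hex (e 2) (e 3) 1

lemma cc_K1 : CC K1 := (cc_tri _ _ _).add (cc_tri _ _ _)

lemma cc_K2 : CC K2 := (cc_hex _ _ _).add (cc_hex _ _ _)

lemma zero_mem_tri (a b : E) : (0 : E) ∈ tri a b 1 :=
  ⟨(0, 0), ⟨le_rfl, le_rfl, by norm_num⟩, by simp⟩

lemma left_mem_tri (a b : E) : a ∈ tri a b 1 :=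
  ⟨(1, 0), ⟨zero_le_one, le_rfl, by norm_num⟩, by simp⟩

lemma right_mem_tri (a b : E) : b ∈ tri a b 1 :=
  ⟨(0, 1), ⟨le_rfl, zero_le_one, by norm_num⟩, by simp⟩

lemma zero_mem_sg (v : E) : (0 : E) ∈ sg v 1 := ⟨0, ⟨le_rfl, zero_le_one⟩, by simp⟩

lemma self_mem_sg (v : E) : v ∈ sg v 1 := ⟨1, ⟨zero_le_one, le_rfl⟩, by simp⟩

lemma zero_mem_hex (a b : E) : (0 : E) ∈ hex a b 1 :=
  ⟨0, zero_mem_sg a, 0, ⟨0, zero_mem_sg b, 0, zero_mem_sg _, by simp⟩, by simp⟩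

lemma left_mem_hex (a b : E) : a ∈ hex a b 1 :=
  ⟨a, self_mem_sg a, 0, ⟨0, zero_mem_sg b, 0, zero_mem_sg _, by simp⟩, by simp⟩

lemma right_mem_hex (a b : E) : b ∈ hex a b 1 :=
  ⟨0, zero_mem_sg a, b, ⟨b, self_mem_sg b, 0, zero_mem_sg _, by simp⟩, by simp⟩

lemma finrank_of_mem {K : Set E4} (h0 : (0 : E4) ∈ K) (h : ∀ i, e i ∈ K) :
    Module.finrank ℝ (vectorSpan ℝ K) = 4 := by
  have htop : vectorSpan ℝ K = ⊤ := by
    rw [eq_top_iff, ← (EuclideanSpace.basisFun (Fin 4) ℝ).toBasis.span_eq, Submodule.span_le]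
    rintro _ ⟨i, rfl⟩
    have := vsub_mem_vectorSpan ℝ (h i) h0
    simpa [e] using this
  rw [htop, finrank_top, finrank_euclideanSpace_fin]

lemma finrank_K1 : Module.finrank ℝ (vectorSpan ℝ K1) = 4 := by
  refine finrank_of_mem ⟨0, zero_mem_tri _ _, 0, zero_mem_tri _ _, by simp⟩ fun i => ?_
  fin_cases i
  · exact ⟨_, left_mem_tri _ _, 0, zero_mem_tri _ _, by simp⟩
  · exact ⟨_, right_mem_tri _ _, 0, zero_mem_tri _ _, by simp⟩
  · exact ⟨0, zero_mem_tri _ _, _, left_mem_tri _ _, by simp⟩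
  · exact ⟨0, zero_mem_tri _ _, _, right_mem_tri _ _, by simp⟩

lemma finrank_K2 : Module.finrank ℝ (vectorSpan ℝ K2) = 4 := by
  refine finrank_of_mem ⟨0, zero_mem_hex _ _, 0, zero_mem_hex _ _, by simp⟩ fun i => ?_
  fin_cases i
  · exact ⟨_, left_mem_hex _ _, 0, zero_mem_hex _ _, by simp⟩
  · exact ⟨_, right_mem_hex _ _, 0, zero_mem_hex _ _, by simp⟩
  · exact ⟨0, zero_mem_hex _ _, _, left_mem_hex _ _, by simp⟩
  · exact ⟨0, zero_mem_hex _ _, _, right_mem_hex _ _, by simp⟩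

lemma hex_sym (a b : E) {x : E} (hx : x ∈ hex a b 1) : (2 : ℝ) • b - x ∈ hex a b 1 := by
  obtain ⟨_, ⟨p, ⟨hp0, hp1⟩, rfl⟩, _, ⟨_, ⟨q, ⟨hq0, hq1⟩, rfl⟩, _, ⟨r, ⟨hr0, hr1⟩, rfl⟩, rfl⟩,
    rfl⟩ := hx
  refine ⟨(1 - p) • a, ⟨1 - p, ⟨by linarith, by linarith⟩, rfl⟩,
    (1 - q) • b + (1 - r) • (b - a), ⟨(1 - q) • b, ⟨1 - q, ⟨by linarith, by linarith⟩, rfl⟩,
    (1 - r) • (b - a), ⟨1 - r, ⟨by linarith, by linarith⟩, rfl⟩, rfl⟩, ?_⟩
  show (1 - p) • a + ((1 - q) • b + (1 - r) • (b - a)) =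
    (2 : ℝ) • b - (p • a + (q • b + r • (b - a)))
  module

lemma K2_sym : ∀ x ∈ K2, (2 : ℝ) • (e 1 + e 3) - x ∈ K2 := by
  rintro _ ⟨x, hx, y, hy, rfl⟩
  refine ⟨_, hex_sym _ _ hx, _, hex_sym _ _ hy, ?_⟩
  show (2 : ℝ) • e 1 - x + ((2 : ℝ) • e 3 - y) = (2 : ℝ) • (e 1 + e 3) - (x + y)
  module

lemma K1_coord {y : E4} (hy : y ∈ K1) : 0 ≤ y 0 ∧ 0 ≤ y 1 ∧ y 0 + y 1 ≤ 1 := by
  obtain ⟨_, ⟨⟨p, q⟩, ⟨h1, h2, h3⟩, rfl⟩, _, ⟨⟨p', q'⟩, -, rfl⟩, rfl⟩ := hy
  simp only at h1 h2 h3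
  simp [e]
  exact ⟨h1, h2, h3⟩

theorem not_homothetic : ¬ ∃ r : ℝ, 0 < r ∧ ∃ v : E4, K1 = (fun x => r • x + v) '' K2 := by
  rintro ⟨r, -, v, hK⟩
  have hsym : ∀ x ∈ K1, ((2 * r) • (e 1 + e 3) + (2 : ℝ) • v) - x ∈ K1 := by
    intro x hx
    rw [hK] at hx ⊢
    obtain ⟨k, hk, rfl⟩ := hx
    refine ⟨(2 : ℝ) • (e 1 + e 3) - k, K2_sym k hk, ?_⟩
    show r • ((2 : ℝ) • (e 1 + e 3) - k) + v =
      (2 * r) • (e 1 + e 3) + (2 : ℝ) • v - (r • k + v)
    module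
  set w := (2 * r) • (e 1 + e 3) + (2 : ℝ) • v with hw
  have h0 : (0 : E4) ∈ K1 := ⟨0, zero_mem_tri _ _, 0, zero_mem_tri _ _, by simp⟩
  have h1 : e 0 ∈ K1 := ⟨_, left_mem_tri _ _, 0, zero_mem_tri _ _, by simp⟩
  have h2 : e 1 ∈ K1 := ⟨_, right_mem_tri _ _, 0, zero_mem_tri _ _, by simp⟩
  have g0 := K1_coord (hsym _ h0)
  have g1 := K1_coord (hsym _ h1)
  have g2 := K1_coord (hsym _ h2)
  simp [e] at g0 g1 g2
  linarith [g0.2.2, g1.1, g2.2.1]

lemma proj_eq (S : Submodule ℝ E4) (K : Set E4) :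
    {y : E4 | y ∈ S ∧ ∃ x ∈ K, x - y ∈ Sᗮ} = S.starProjection '' K := by
  ext y
  constructor
  · rintro ⟨hy, x, hx, hxy⟩
    refine ⟨x, hx, ?_⟩
    exact Submodule.eq_starProjection_of_mem_orthogonal hy hxy
  · rintro ⟨x, hx, rfl⟩
    exact ⟨Submodule.starProjection_apply_mem S x, x, hx,
      Submodule.sub_starProjection_mem_orthogonal x⟩

lemma image_sg (P : E4 →L[ℝ] E4) (v : E4) (s : ℝ) : P '' sg v s = sg (P v) s := by
  unfold sg
  rw [Set.image_image]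
  simp

lemma image_tri (P : E4 →L[ℝ] E4) (v w : E4) (s : ℝ) : P '' tri v w s = tri (P v) (P w) s := by
  unfold tri
  rw [Set.image_image]
  simp

lemma image_hex (P : E4 →L[ℝ] E4) (v w : E4) (s : ℝ) : P '' hex v w s = hex (P v) (P w) s := by
  unfold hex
  rw [Set.image_add, Set.image_add, image_sg, image_sg, image_sg, map_sub]

theorem projections (S : Submodule ℝ E4) (hS : Module.finrank ℝ S = 3) :
    ∃ c₁ c₂ : ℕ → ℝ,
      (∀ t : ℝ, 0 ≤ t → volume ({y : E4 | y ∈ S ∧ ∃ x ∈ K1, x - y ∈ Sᗮ} +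
        Metric.closedBall (0 : E4) t) =
        ENNReal.ofReal (∑ m ∈ Finset.range (4 + 1), c₁ m * t ^ m)) ∧
      (∀ t : ℝ, 0 ≤ t → volume ({y : E4 | y ∈ S ∧ ∃ x ∈ K2, x - y ∈ Sᗮ} +
        Metric.closedBall (0 : E4) t) =
        ENNReal.ofReal (∑ m ∈ Finset.range (4 + 1), c₂ m * t ^ m)) ∧
      c₁ (4 - 1) = 1 / 2 * c₂ (4 - 1) ∧ c₁ (4 - 3) = 1 / 12 * c₂ (4 - 3) := by
  have hStop : S ≠ ⊤ := by
    rintro rfl
    rw [finrank_top, finrank_euclideanSpace_fin] at hS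
    norm_num at hS
  have h1 : S.starProjection '' K1 =
      tri (S.starProjection (e 0)) (S.starProjection (e 1)) 1 +
        tri (S.starProjection (e 2)) (S.starProjection (e 3)) 1 := by
    unfold K1
    rw [Set.image_add, image_tri, image_tri]
  have h2 : S.starProjection '' K2 =
      hex (S.starProjection (e 0)) (S.starProjection (e 1)) 1 +
        hex (S.starProjection (e 2)) (S.starProjection (e 3)) 1 := by
    unfold K2
    rw [Set.image_add, image_hex, image_hex]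
  rw [proj_eq, proj_eq, h1, h2]
  have hm : ∀ x : E4, S.starProjection x ∈ S := fun x => Submodule.starProjection_apply_mem S x
  exact steiner4 volume (by simp) S hStop (hm _) (hm _) (hm _) (hm _)

end euclid

end Pool.Agent.Lib_helper76.Steiner
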